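import Mathlib

/-!
# PROJECT EMPIRE (MP_800721_co): core definitions

A *rotation family* on a finite type `V` is `rot : V → Perm V` with `rot v v = v`.
It encodes an embedding in which the country `v` consists of one region for each cycle of
`rot v` on `V \ {v}`; the edge between `v` and `u` leaves the region of `v` whose cycle contains
`u`.
-/

namespace Empire

open Equiv Equiv.Perm

/-- number of cycles of a permutation (fixed points included) -/
noncomputable def cyc {α : Type*} (p : Perm α) : ℕ :=
  Nat.card (Quotient (SameCycle.setoid p))

section

variable {V : Type*}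

/-- the face permutation of a rotation family : `(u, v) ↦ (v, rot v u)` -/
def faceP (rot : V → Perm V) : Perm (V × V) where
  toFun d := (d.2, rot d.2 d.1)
  invFun d := ((rot d.1).symm d.2, d.1)
  left_inv := by
    rintro ⟨a, b⟩
    simp
  right_inv := by
    rintro ⟨a, b⟩
    simp

@[simp]
theorem faceP_apply (rot : V → Perm V) (u v : V) : faceP rot (u, v) = (v, rot v u) := rfl

/-- a dart is present if it is off-diagonal and not in the set `M` of missing darts -/
def Present (M : Finset (V × V)) (d : V × V) : Prop := d.1 ≠ d.2 ∧ d ∉ M

/-- connectivity of the map carried by the present darts (dual formulation) -/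
def Conn (rot : V → Perm V) (M : Finset (V × V)) : Prop :=
  ∀ f : V × V → Prop,
    (∀ d, Present M d → (f d ↔ f (faceP rot d))) →
    (∀ d, Present M d → (f d ↔ f d.swap)) →
    ∀ d e, Present M d → Present M e → (f d ↔ f e)

end

/-- an `m`-split embedding of `K_n` of optimal genus -/
def HasSplit (n m : ℕ) : Prop :=
  ∃ rot : Fin n → Perm (Fin n),
    (∀ v, rot v v = v) ∧ (∀ v, cyc (rot v) = m + 1) ∧ Conn rot ∅ ∧
      n * (n - 1) + 3 * n ≤ 3 * cyc (faceP rot) + 5

end Empire
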