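import Mathlib
import Pool.Agent.Lib.MP_800721_co.Core

/-!
# PROJECT EMPIRE (MP_800721_co): the definitions used in the claim

* `RotationSystem K`: a rotation system of a simple graph `K`, i.e. a cyclic order of the darts
  leaving each vertex, given as a permutation of the darts;
* `RotationSystem.face`: the face tracing permutation, whose cycles are the faces;
* `EmbedsIn g H`: the graph `H` embeds in the closed orientable surface of genus `g`;
* `contractGraph H f`: the graph of the countries, for a division `f` of the regions;
* `Suffices g m k`: `k` colours suffice for all `m`-pire maps on the surface of genus `g`;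
* `heawood g m`: the number of Heawood.
-/

namespace Empire

open Equiv Equiv.Perm

section

variable {V : Type}

/-- A rotation system of the simple graph `K`: a permutation of the darts whose cycles are the
sets of darts leaving the vertices (so it is a cyclic order of the neighbours of each vertex). -/
structure RotationSystem (K : SimpleGraph V) where
  /-- the next dart in the rotation -/
  σ : Perm K.Dart
  fst_σ : ∀ d, (σ d).fst = d.fst
  transitive : ∀ d e : K.Dart, d.fst = e.fst → σ.SameCycle d e

/-- reversal of darts -/
def dartSwap (K : SimpleGraph V) : Perm K.Dart where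
  toFun d := d.symm
  invFun d := d.symm
  left_inv d := d.symm_symm
  right_inv d := d.symm_symm

/-- The face tracing permutation: from the dart `(u, v)` one goes on to the dart that follows
`(v, u)` in the rotation at `v`.  The cycles of this permutation are the faces of the embedding
of `K` given by the rotation system (for a connected graph with at least one edge). -/
def RotationSystem.face {K : SimpleGraph V} (R : RotationSystem K) : Perm K.Dart :=
  R.σ * dartSwap K

/-- The graph `H` embeds in the closed orientable surface of genus `g` (`g ≥ 1`): it is a spanning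
subgraph of a connected graph `K` with a rotation system whose Euler characteristic
`|V| - |E| + |F|` is at least `2 - 2 g`.  (For a graph with a single vertex and no edges the
number of faces is counted as `0` instead of `1` here; this makes no difference for `g ≥ 1`.) -/
def EmbedsIn (g : ℕ) (H : SimpleGraph V) : Prop :=
  ∃ K : SimpleGraph V, H ≤ K ∧ K.Connected ∧ ∃ R : RotationSystem K,
    (2 : ℤ) - 2 * g ≤ Nat.card V - Nat.card K.edgeSet + cyc R.face

/-- The graph of the countries: `V` are the regions, `H` is the graph of touching regions, `f v`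
is the country of the region `v`.  Two different countries are adjacent if they have touching
regions. -/
def contractGraph {C : Type} (H : SimpleGraph V) (f : V → C) : SimpleGraph C where
  Adj c d := c ≠ d ∧ ∃ u v, f u = c ∧ f v = d ∧ H.Adj u v
  symm := ⟨fun _ _ ⟨h, u, v, hu, hv, huv⟩ => ⟨h.symm, v, u, hv, hu, huv.symm⟩⟩
  loopless := ⟨fun _ h => h.1 rfl⟩

end

/-- `k` colours suffice for all `m`-pire maps on the closed orientable surface of genus `g`:
for every finite graph `H` embeddable in the surface and every partition of its vertices (regions)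
into classes (countries) of exactly `m` vertices, the contracted graph is `k`-colourable. -/
def Suffices (g m k : ℕ) : Prop :=
  ∀ (V C : Type) (_ : Finite V) (H : SimpleGraph V) (f : V → C), EmbedsIn g H →
    (∀ c, Nat.card {v // f v = c} = m) → (contractGraph H f).Colorable k

/-- Heawood's number for `m`-pire maps on the surface of genus `g`. -/
noncomputable def heawood (g m : ℕ) : ℕ :=
  ⌊((6 * m + 1 : ℝ) + √((6 * m + 1) ^ 2 + 48 * (g - 1))) / 2⌋₊

/-! ### arithmetic of Heawood's number -/

theorem le_heawood_iff {g m n : ℕ} (hg : 1 ≤ g) (hn : 6 * m + 1 ≤ n) :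
    n ≤ heawood g m ↔ (n : ℤ) * (n - (6 * m + 1)) ≤ 12 * (g - 1) := by
  unfold heawood
  have hg' : (1 : ℝ) ≤ g := by exact_mod_cast hg
  have hn' : (6 * m + 1 : ℝ) ≤ n := by exact_mod_cast hn
  have hpos : (0 : ℝ) ≤ (6 * m + 1 : ℝ) ^ 2 + 48 * (g - 1) :=
    add_nonneg (sq_nonneg _) (by linarith)
  rw [Nat.le_floor_iff (div_nonneg (add_nonneg (by positivity) (Real.sqrt_nonneg _))
    (by norm_num)), le_div_iff₀ (by norm_num : (0 : ℝ) < 2)]
  rw [show (n : ℝ) * 2 ≤ (6 * m + 1 : ℝ) + √((6 * m + 1) ^ 2 + 48 * (g - 1)) ↔
    (n : ℝ) * 2 - (6 * m + 1) ≤ √((6 * m + 1) ^ 2 + 48 * (g - 1)) by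
      constructor <;> intro h <;> linarith]
  rw [Real.le_sqrt (by
    have : (0 : ℝ) ≤ n := Nat.cast_nonneg n
    linarith) hpos]
  have e : ((n : ℝ) * 2 - (6 * m + 1)) ^ 2 ≤ (6 * m + 1) ^ 2 + 48 * (g - 1) ↔
      ((n : ℝ) * (n - (6 * m + 1)) ≤ 12 * (g - 1)) := by
    constructor <;> intro h <;> nlinarith
  rw [e]
  constructor
  · intro h
    have h' : (((n : ℤ) * (n - (6 * m + 1)) : ℤ) : ℝ) ≤ ((12 * ((g : ℤ) - 1) : ℤ) : ℝ) := by
      push_cast
      exact h
    exact_mod_cast h'
  · intro h
    have h' : (((n : ℤ) * (n - (6 * m + 1)) : ℤ) : ℝ) ≤ ((12 * ((g : ℤ) - 1) : ℤ) : ℝ) := by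
      exact_mod_cast h
    push_cast at h'
    exact h'

theorem six_le_heawood {g m : ℕ} (hg : 1 ≤ g) : 6 * m + 1 ≤ heawood g m := by
  rw [le_heawood_iff hg le_rfl]
  push_cast
  have : (1 : ℤ) ≤ g := by exact_mod_cast hg
  nlinarith

end Empire
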