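import Mathlib
import Pool.Agent.Lib.MP_800721_co.Core

/-!
# PROJECT EMPIRE: number of cycles of a permutation multiplied with a transposition
-/

namespace Empire

open Equiv Equiv.Perm

section

variable {α : Type*}

/-- a relation preserved by each step of `p` contains `SameCycle p` -/
theorem rel_of_sameCycle {p : Perm α} {r : α → α → Prop} (hr : Equivalence r)
    (h : ∀ x, r x (p x)) {x y : α} (hxy : p.SameCycle x y) : r x y := by
  obtain ⟨i, rfl⟩ := hxy
  have hz : ∀ (n : ℕ) (x : α), r x ((p ^ n) x) := by
    intro n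
    induction n with
    | zero => intro x; exact hr.refl _
    | succ n ih =>
      intro x
      rw [pow_succ', Perm.mul_apply]
      exact hr.trans (ih x) (h _)
  cases i with
  | ofNat n => simpa using hz n x
  | negSucc n =>
    have := hz (n + 1) ((p ^ (Int.negSucc n)) x)
    rw [zpow_negSucc] at this ⊢
    rw [← Perm.mul_apply, mul_inv_cancel, Perm.one_apply] at this
    exact hr.symm this

/-- functions invariant under `p` are constant on cycles -/
theorem eq_of_sameCycle {β : Type*} {p : Perm α} {f : α → β} (h : ∀ x, f (p x) = f x) {x y : α}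
    (hxy : p.SameCycle x y) : f x = f y :=
  rel_of_sameCycle (r := fun x y => f x = f y)
    ⟨fun _ => rfl, fun h => h.symm, fun h h' => h.trans h'⟩ (fun x => (h x).symm) hxy

theorem not_sameCycle_of_fixed {p : Perm α} {a y : α} (hy : p y = y) (h : a ≠ y) :
    ¬ p.SameCycle a y := fun hs => h ((hs.symm.eq_of_left hy).symm)

variable [DecidableEq α]

theorem mul_swap_apply_of_ne (p : Perm α) {a b x : α} (ha : x ≠ a) (hb : x ≠ b) :
    (p * swap a b) x = p x := by
  rw [Perm.mul_apply, swap_apply_of_ne_of_ne ha hb]

theorem mul_swap_apply_left (p : Perm α) (a b : α) : (p * swap a b) a = p b := by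
  rw [Perm.mul_apply, swap_apply_left]

theorem mul_swap_apply_right (p : Perm α) (a b : α) : (p * swap a b) b = p a := by
  rw [Perm.mul_apply, swap_apply_right]

theorem mul_swap_mul_swap (p : Perm α) (a b : α) : p * swap a b * swap a b = p := by
  rw [mul_assoc, swap_mul_self, mul_one]

variable [Finite α]

theorem sameCycle_mul_swap_of_not {p : Perm α} {a b : α} (h : ¬ p.SameCycle a b) :
    (p * swap a b).SameCycle a b := by
  by_contra hn
  have hab : a ≠ b := fun e => h (e ▸ SameCycle.refl _ _)
  have key : ∀ i : ℕ, p.SameCycle b (((p * swap a b) ^ (i + 1)) a) := by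
    intro i
    induction i with
    | zero =>
      rw [zero_add, pow_one, mul_swap_apply_left]
      exact sameCycle_apply_right.2 (SameCycle.refl _ _)
    | succ i ih =>
      rw [pow_succ', Perm.mul_apply]
      set x := ((p * swap a b) ^ (i + 1)) a with hx
      have hxa : x ≠ a := fun e => h (by rw [e] at ih; exact ih.symm)
      have hxb : x ≠ b := by
        intro e
        exact hn ⟨(i + 1 : ℕ), by rw [zpow_natCast, ← hx, e]⟩
      rw [mul_swap_apply_of_ne p hxa hxb]
      exact sameCycle_apply_right.2 ih
  have hfin : IsOfFinOrder (p * swap a b) := isOfFinOrder_of_finite _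
  have hpos := hfin.orderOf_pos
  have := key (orderOf (p * swap a b) - 1)
  rw [Nat.sub_add_cancel hpos, pow_orderOf_eq_one, Perm.one_apply] at this
  exact h this.symm

theorem not_sameCycle_mul_swap_of {p : Perm α} {a b : α} (hab : a ≠ b) (h : p.SameCycle a b) :
    ¬ (p * swap a b).SameCycle a b := by
  classical
  -- minimal positive `k` with `p ^ k b = a`
  have hex : ∃ k : ℕ, 0 < k ∧ (p ^ k) b = a := by
    obtain ⟨k, hk0, hk, hk'⟩ := h.symm.exists_pow_eq''
    exact ⟨k, hk0, hk'⟩
  set k := Nat.find hex with hk
  obtain ⟨hk0, hka⟩ := Nat.find_spec hex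
  have hmin : ∀ i, 0 < i → i < k → (p ^ i) b ≠ a := fun i h0 hi he =>
    Nat.find_min hex hi ⟨h0, he⟩
  have hnb : ∀ i, 0 < i → i ≤ k → (p ^ i) b ≠ b := by
    intro i h0 hi he
    have hik : i < k := by
      rcases Nat.lt_or_ge i k with h' | h'
      · exact h'
      · have : i = k := le_antisymm hi h'
        rw [this] at he
        exact absurd (hka.symm.trans he) hab
    refine hmin (k - i) (by omega) (by omega) ?_
    have : (p ^ (k - i)) ((p ^ i) b) = a := by
      rw [← Perm.mul_apply, ← pow_add, Nat.sub_add_cancel hi]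
      exact hka
    rwa [he] at this
  let C : Set α := {x | ∃ i, 0 < i ∧ i ≤ k ∧ (p ^ i) b = x}
  have hstep : ∀ x ∈ C, (p * swap a b) x ∈ C := by
    rintro x ⟨i, h0, hi, rfl⟩
    rcases Nat.lt_or_ge i k with h' | h'
    · rw [mul_swap_apply_of_ne p (hmin i h0 h') (hnb i h0 hi)]
      exact ⟨i + 1, by omega, by omega, by rw [pow_succ', Perm.mul_apply]⟩
    · have : i = k := le_antisymm hi h'
      rw [this, hka, mul_swap_apply_left]
      exact ⟨1, by omega, by omega, by simp⟩
  intro hs
  obtain ⟨j, hj⟩ := hs.exists_nat_pow_eq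
  have hC : ∀ j : ℕ, ((p * swap a b) ^ j) a ∈ C := by
    intro j
    induction j with
    | zero => exact ⟨k, hk0, le_rfl, by simpa using hka⟩
    | succ j ih =>
      rw [pow_succ', Perm.mul_apply]
      exact hstep _ ih
  obtain ⟨i, h0, hi, he⟩ := hC j
  rw [hj] at he
  exact hnb i h0 hi he

/-- if `a, b` are in different cycles of `p`, then the cycles of `p * swap a b` are the cycles of
`p`, those of `a` and `b` being merged -/
theorem sameCycle_mul_swap_iff {p : Perm α} {a b : α} (h : ¬ p.SameCycle a b) (x y : α) :
    (p * swap a b).SameCycle x y ↔ p.SameCycle x y ∨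
      ((p.SameCycle x a ∨ p.SameCycle x b) ∧ (p.SameCycle y a ∨ p.SameCycle y b)) := by
  constructor
  · intro hs
    refine rel_of_sameCycle (r := fun x y => p.SameCycle x y ∨
      ((p.SameCycle x a ∨ p.SameCycle x b) ∧ (p.SameCycle y a ∨ p.SameCycle y b))) ?_ ?_ hs
    · refine ⟨fun x => Or.inl (SameCycle.refl _ _), ?_, ?_⟩
      · rintro x y (h | ⟨h1, h2⟩)
        · exact Or.inl h.symm
        · exact Or.inr ⟨h2, h1⟩
      · rintro x y z (h1 | ⟨h1, h2⟩) (h3 | ⟨h3, h4⟩)
        · exact Or.inl (h1.trans h3)
        · exact Or.inr ⟨h3.imp h1.trans h1.trans, h4⟩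
        · exact Or.inr ⟨h1, h2.imp h3.symm.trans h3.symm.trans⟩
        · exact Or.inr ⟨h1, h4⟩
    · intro x
      by_cases hxa : x = a
      · subst hxa
        rw [mul_swap_apply_left]
        exact Or.inr ⟨Or.inl (SameCycle.refl _ _), Or.inr (sameCycle_apply_left.2 (SameCycle.refl _ _))⟩
      by_cases hxb : x = b
      · subst hxb
        rw [mul_swap_apply_right]
        exact Or.inr ⟨Or.inr (SameCycle.refl _ _), Or.inl (sameCycle_apply_left.2 (SameCycle.refl _ _))⟩
      · rw [mul_swap_apply_of_ne p hxa hxb]
        exact Or.inl (sameCycle_apply_right.2 (SameCycle.refl _ _))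
  · have hab := sameCycle_mul_swap_of_not h
    have hle : ∀ {x y}, p.SameCycle x y → (p * swap a b).SameCycle x y := by
      intro x y hxy
      refine rel_of_sameCycle (r := (p * swap a b).SameCycle)
        ⟨fun x => SameCycle.refl _ _, fun h => h.symm, fun h h' => h.trans h'⟩ ?_ hxy
      intro x
      by_cases hxa : x = a
      · subst hxa
        refine hab.trans ?_
        rw [← mul_swap_apply_right p x b]
        exact sameCycle_apply_right.2 (SameCycle.refl _ _)
      by_cases hxb : x = b
      · subst hxb
        refine hab.symm.trans ?_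
        rw [← mul_swap_apply_left p a x]
        exact sameCycle_apply_right.2 (SameCycle.refl _ _)
      · rw [← mul_swap_apply_of_ne p hxa hxb]
        exact sameCycle_apply_right.2 (SameCycle.refl _ _)
    rintro (h1 | ⟨h1 | h1, h2 | h2⟩)
    · exact hle h1
    · exact (hle h1).trans (hle h2).symm
    · exact (hle h1).trans (hab.trans (hle h2).symm)
    · exact (hle h1).trans (hab.symm.trans (hle h2).symm)
    · exact (hle h1).trans (hle h2).symm

theorem sameCycle_mul_swap_of_sameCycle {p : Perm α} {a b : α} (h : ¬ p.SameCycle a b) {x y : α}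
    (hxy : p.SameCycle x y) : (p * swap a b).SameCycle x y :=
  (sameCycle_mul_swap_iff h x y).2 (Or.inl hxy)

/-- merging two cycles -/
theorem cyc_mul_swap_of_not {p : Perm α} {a b : α} (h : ¬ p.SameCycle a b) :
    cyc (p * swap a b) + 1 = cyc p := by
  classical
  have hiff := sameCycle_mul_swap_iff h
  let s : Setoid α := SameCycle.setoid p
  let s' : Setoid α := SameCycle.setoid (p * swap a b)
  let f0 : Quotient s → Quotient s' :=
    Quotient.lift (fun x => Quotient.mk s' x)
      (fun x y hxy => Quotient.sound (s := s') ((hiff x y).2 (Or.inl hxy)))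
  let f : {q : Quotient s // q ≠ Quotient.mk s b} → Quotient s' := fun q => f0 q.1
  have hf : Function.Bijective f := by
    constructor
    · rintro ⟨q1, h1⟩ ⟨q2, h2⟩ he
      induction q1 using Quotient.inductionOn with | _ x => ?_
      induction q2 using Quotient.inductionOn with | _ y => ?_
      have he' : (p * swap a b).SameCycle x y := Quotient.exact (s := s') he
      have h1' : ¬ p.SameCycle x b := fun h => h1 (Quotient.sound (s := s) h)
      have h2' : ¬ p.SameCycle y b := fun h => h2 (Quotient.sound (s := s) h)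
      refine Subtype.ext (Quotient.sound (s := s) ?_)
      rcases (hiff x y).1 he' with h3 | ⟨h3 | h3, h4 | h4⟩
      · exact h3
      · exact h3.trans h4.symm
      · exact absurd h4 h2'
      · exact absurd h3 h1'
      · exact absurd h3 h1'
    · intro q
      induction q using Quotient.inductionOn with | _ x => ?_
      by_cases hx : p.SameCycle x b
      · refine ⟨⟨Quotient.mk s a, fun h' => h (Quotient.exact (s := s) h')⟩, ?_⟩
        exact Quotient.sound (s := s')
          ((hiff a x).2 (Or.inr ⟨Or.inl (SameCycle.refl _ _), Or.inr hx⟩))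
      · exact ⟨⟨Quotient.mk s x, fun h' => hx (Quotient.exact (s := s) h')⟩, rfl⟩
  have h1 : cyc (p * swap a b) = Nat.card {q : Quotient s // q ≠ Quotient.mk s b} :=
    (Nat.card_eq_of_bijective f hf).symm
  have : Finite (Quotient s) := Quotient.finite _
  have := Fintype.ofFinite (Quotient s)
  have h2 : Nat.card {q : Quotient s // q ≠ Quotient.mk s b} + 1 = cyc p := by
    have h3 : cyc p = Fintype.card (Quotient s) := Nat.card_eq_fintype_card
    rw [h3, Nat.card_eq_fintype_card, Fintype.card_subtype_compl, Fintype.card_subtype_eq]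
    exact Nat.sub_add_cancel (Fintype.card_pos_iff.2 ⟨Quotient.mk s b⟩)
  omega

/-- splitting a cycle -/
theorem cyc_mul_swap_of {p : Perm α} {a b : α} (hab : a ≠ b) (h : p.SameCycle a b) :
    cyc (p * swap a b) = cyc p + 1 := by
  have := cyc_mul_swap_of_not (not_sameCycle_mul_swap_of hab h)
  rw [mul_swap_mul_swap] at this
  exact this.symm

/-- inserting a fixed point into a cycle -/
theorem cyc_mul_swap_of_fixed {p : Perm α} {a y : α} (hy : p y = y) (h : a ≠ y) :
    cyc (p * swap a y) + 1 = cyc p :=
  cyc_mul_swap_of_not (not_sameCycle_of_fixed hy h)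

theorem cyc_mul_swap_ge (p : Perm α) (a b : α) : cyc p ≤ cyc (p * swap a b) + 1 := by
  by_cases hs : p.SameCycle a b
  · by_cases hab : a = b
    · subst hab
      rw [swap_self]
      have : (p * Equiv.refl α) = p := mul_one p
      rw [this]; omega
    · rw [cyc_mul_swap_of hab hs]; omega
  · rw [← cyc_mul_swap_of_not hs]

theorem cyc_mul_swap_le (p : Perm α) (a b : α) : cyc (p * swap a b) ≤ cyc p + 1 := by
  have := cyc_mul_swap_ge (p * swap a b) a b
  rwa [mul_swap_mul_swap] at this

end

/-! ### bounds for the number of cycles, conjugation -/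

section

variable {α β : Type*}

/-- a surjective invariant labelling with `k` labels shows that there are at least `k` cycles -/
theorem le_cyc_of_label [Finite α] [DecidableEq α] {p : Perm α} {k : ℕ} (f : α → Fin k)
    (hf : ∀ x, f (p x) = f x) (hs : Function.Surjective f) : k ≤ cyc p := by
  have : Finite (Quotient (SameCycle.setoid p)) := Quotient.finite _
  let g : Quotient (SameCycle.setoid p) → Fin k :=
    Quotient.lift f (fun x y h => eq_of_sameCycle hf h)
  have hg : Function.Surjective g := by
    intro i
    obtain ⟨x, hx⟩ := hs i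
    exact ⟨⟦x⟧, hx⟩
  have := Nat.card_le_card_of_surjective g hg
  simpa [cyc] using this

theorem cyc_le_of_reps [Finite α] {p : Perm α} {k : ℕ} (f : Fin k → α)
    (hf : ∀ x, ∃ i, p.SameCycle x (f i)) : cyc p ≤ k := by
  let g : Fin k → Quotient (SameCycle.setoid p) := fun i => ⟦f i⟧
  have hg : Function.Surjective g := by
    intro q
    induction q using Quotient.inductionOn with | _ x => ?_
    obtain ⟨i, hi⟩ := hf x
    exact ⟨i, Quotient.sound hi.symm⟩
  have := Nat.card_le_card_of_surjective g hg
  simpa [cyc] using this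

theorem sameCycle_conj_iff (e : α ≃ β) (p : Perm α) (q : Perm β) (h : ∀ x, e (p x) = q (e x))
    (x y : α) : q.SameCycle (e x) (e y) ↔ p.SameCycle x y := by
  have hz : ∀ (n : ℕ) (x : α), e ((p ^ n) x) = (q ^ n) (e x) := by
    intro n
    induction n with
    | zero => intro x; rfl
    | succ n ih =>
      intro x
      rw [pow_succ', pow_succ', Perm.mul_apply, Perm.mul_apply, h, ih]
  have hz' : ∀ (n : ℤ) (x : α), e ((p ^ n) x) = (q ^ n) (e x) := by
    intro n x
    cases n with
    | ofNat n => simpa using hz n x
    | negSucc n =>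
      rw [zpow_negSucc, zpow_negSucc, Perm.eq_inv_iff_eq, ← hz, ← Perm.mul_apply, mul_inv_cancel,
        Perm.one_apply]
  constructor
  · rintro ⟨i, hi⟩
    exact ⟨i, e.injective (by rw [hz', hi])⟩
  · rintro ⟨i, hi⟩
    exact ⟨i, by rw [← hz', hi]⟩

theorem cyc_conj (e : α ≃ β) (p : Perm α) (q : Perm β) (h : ∀ x, e (p x) = q (e x)) :
    cyc p = cyc q := by
  refine Nat.card_congr (Quotient.congr e ?_)
  intro x y
  exact (sameCycle_conj_iff e p q h x y).symm

end

end Empire
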