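import Mathlib
import Pool.Agent.Lib.MP_800721_co.PermCyc
import Pool.Agent.Lib.MP_800721_co.Claim

/-!
# PROJECT EMPIRE: from an `m`-split embedding of `K_n` to an `m`-pire map needing `n` colours
-/

namespace Empire

open Equiv Equiv.Perm

/-! ### parity of the Euler characteristic -/

theorem cyc_one_perm {α : Type*} [Finite α] : cyc (1 : Perm α) = Nat.card α := by
  unfold cyc
  refine (Nat.card_congr ⟨fun x => Quotient.mk (SameCycle.setoid (1 : Perm α)) x,
    Quotient.lift id (fun x y (h : SameCycle 1 x y) => by simpa using h), fun x => rfl, ?_⟩).symm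
  intro q
  induction q using Quotient.inductionOn with | _ x => rfl

theorem cyc_parity {α : Type*} [Fintype α] [DecidableEq α] (p : Perm α) :
    (-1 : ℤˣ) ^ (cyc p) = (-1) ^ (Nat.card α) * sign p := by
  induction p using Perm.swap_induction_on' with
  | one => rw [cyc_one_perm]; simp
  | mul_swap f x y hxy ih =>
    rw [Perm.sign_mul, sign_swap hxy]
    by_cases h : f.SameCycle x y
    · rw [cyc_mul_swap_of hxy h, pow_succ, ih]
      simp
    · have h1 := cyc_mul_swap_of_not h
      rw [← h1, pow_succ] at ih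
      have h2 : (-1 : ℤˣ) ^ cyc (f * swap x y) =
          (-1 : ℤˣ) ^ cyc (f * swap x y) * -1 * -1 := by simp
      rw [h2, ih]
      simp

section parity

variable {V : Type} {K : SimpleGraph V}

theorem cyc_dartSwap (K : SimpleGraph V) : cyc (dartSwap K) = Nat.card K.edgeSet := by
  have hinv : ∀ d : K.Dart, (⟨((dartSwap K) d).edge, ((dartSwap K) d).edge_mem⟩ : K.edgeSet) =
      ⟨d.edge, d.edge_mem⟩ := fun d => Subtype.ext d.edge_symm
  refine Nat.card_eq_of_bijective (Quotient.lift (fun d : K.Dart => (⟨d.edge, d.edge_mem⟩ :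
    K.edgeSet)) (fun d e h => eq_of_sameCycle
      (f := fun d : K.Dart => (⟨d.edge, d.edge_mem⟩ : K.edgeSet)) hinv h)) ⟨?_, ?_⟩
  · intro x y
    induction x using Quotient.inductionOn with | _ d => ?_
    induction y using Quotient.inductionOn with | _ e => ?_
    intro h
    simp only [Quotient.lift_mk, Subtype.mk.injEq] at h
    rcases (SimpleGraph.dart_edge_eq_iff d e).1 h with h | h
    · rw [h]
    · exact Quotient.sound (s := SameCycle.setoid (dartSwap K))
        ⟨1, by rw [zpow_one, h]; exact e.symm_symm⟩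
  · rintro ⟨e, he⟩
    induction e using Sym2.ind with | _ u v => ?_
    exact ⟨Quotient.mk _ ⟨(u, v), he⟩, rfl⟩

theorem even_euler [Finite V] (R : RotationSystem K) :
    Even (cyc R.σ + Nat.card K.edgeSet + cyc R.face) := by
  classical
  have := Fintype.ofFinite V
  have hD : Nat.card K.Dart = 2 * Nat.card K.edgeSet := by
    rw [Nat.card_eq_fintype_card, SimpleGraph.dart_card_eq_twice_card_edges,
      Nat.card_eq_fintype_card, SimpleGraph.edgeFinset_card]
  have h1 := cyc_parity R.σ
  have h2 := cyc_parity (dartSwap K)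
  have h3 := cyc_parity R.face
  rw [cyc_dartSwap] at h2
  have h4 : sign R.face = sign R.σ * sign (dartSwap K) := Perm.sign_mul _ _
  have h5 : (-1 : ℤˣ) ^ (Nat.card K.Dart) = 1 := by rw [hD, pow_mul]; simp
  rw [h5, one_mul] at h1 h2 h3
  have h6 : (-1 : ℤˣ) ^ (cyc R.σ + Nat.card K.edgeSet + cyc R.face) = 1 := by
    rw [pow_add, pow_add, h1, h2, h3, h4]
    exact Int.units_mul_self _
  exact (neg_one_pow_eq_one_iff_even (by decide)).1 h6

end parity

/-! ### the bridge -/

section bridge

variable {n : ℕ} (rot : Fin n → Perm (Fin n)) (h0 : ∀ v, rot v v = v)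

/-- darts of the complete graph -/
abbrev KDart (n : ℕ) : Type := {d : Fin n × Fin n // d.1 ≠ d.2}

/-- reversal of darts -/
def kswap (d : KDart n) : KDart n := ⟨(d.1.2, d.1.1), d.2.symm⟩

theorem kswap_kswap (d : KDart n) : kswap (kswap d) = d := rfl

/-- the rotation as a permutation of darts -/
def ksig : Perm (KDart n) where
  toFun d := ⟨(d.1.1, rot d.1.1 d.1.2), fun h => d.2 ((rot d.1.1).injective
    ((h0 d.1.1).trans h))⟩
  invFun d := ⟨(d.1.1, (rot d.1.1).symm d.1.2), fun h => d.2 (by
    have h1 : (rot d.1.1).symm d.1.2 = d.1.1 := h.symm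
    rw [Equiv.symm_apply_eq, h0] at h1
    exact h1.symm)⟩
  left_inv d := by
    apply Subtype.ext
    simp
  right_inv d := by
    apply Subtype.ext
    simp

theorem ksig_pow (i : ℕ) (d : KDart n) :
    ((ksig rot h0 ^ i) d).1 = (d.1.1, ((rot d.1.1) ^ i) d.1.2) := by
  induction i with
  | zero => simp
  | succ i ih =>
    rw [pow_succ', pow_succ', Perm.mul_apply, Perm.mul_apply]
    change (((ksig rot h0 ^ i) d).1.1, rot ((ksig rot h0 ^ i) d).1.1
      ((ksig rot h0 ^ i) d).1.2) = _
    rw [ih]

theorem ksig_sameCycle_fst {d e : KDart n} (h : (ksig rot h0).SameCycle d e) :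
    d.1.1 = e.1.1 :=
  eq_of_sameCycle (f := fun d : KDart n => d.1.1) (fun _ => rfl) h

theorem ksig_sameCycle_iff {v u u' : Fin n} (h : v ≠ u) (h' : v ≠ u') :
    (ksig rot h0).SameCycle ⟨(v, u), h⟩ ⟨(v, u'), h'⟩ ↔ (rot v).SameCycle u u' := by
  constructor
  · intro hs
    obtain ⟨i, hi⟩ := hs.exists_nat_pow_eq
    have h1 := congrArg (fun d : KDart n => d.1.2) hi
    simp only [ksig_pow] at h1
    exact ⟨i, by rw [zpow_natCast]; exact h1⟩
  · intro hs
    obtain ⟨i, hi⟩ := hs.exists_nat_pow_eq
    refine ⟨i, ?_⟩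
    rw [zpow_natCast]
    apply Subtype.ext
    rw [ksig_pow]
    exact Prod.ext rfl hi

/-- the regions -/
abbrev Reg : Type := Quotient (SameCycle.setoid (ksig rot h0))

/-- the region of a dart -/
def reg (d : KDart n) : Reg rot h0 := Quotient.mk _ d

theorem reg_eq_iff {d e : KDart n} :
    reg rot h0 d = reg rot h0 e ↔ (ksig rot h0).SameCycle d e :=
  ⟨fun h => Quotient.exact (s := SameCycle.setoid (ksig rot h0)) h,
    fun h => Quotient.sound (s := SameCycle.setoid (ksig rot h0)) h⟩

theorem reg_ksig (d : KDart n) : reg rot h0 (ksig rot h0 d) = reg rot h0 d :=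
  (reg_eq_iff rot h0).2 (SameCycle.symm ⟨1, by simp⟩)

/-- the country of a region -/
def country : Reg rot h0 → Fin n :=
  Quotient.lift (fun d : KDart n => d.1.1) (fun _ _ h => ksig_sameCycle_fst rot h0 h)

@[simp] theorem country_reg (d : KDart n) : country rot h0 (reg rot h0 d) = d.1.1 := rfl

/-- the graph of the regions -/
def regGraph : SimpleGraph (Reg rot h0) where
  Adj a b := ∃ d : KDart n, reg rot h0 d = a ∧ reg rot h0 (kswap d) = b
  symm := ⟨fun _ _ ⟨d, h, h'⟩ => ⟨kswap d, h', h⟩⟩
  loopless := ⟨fun a ⟨d, h, h'⟩ => d.2 (by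
    have h1 := congrArg (country rot h0) (h.trans h'.symm)
    exact h1)⟩

/-- the darts of the graph of the regions -/
noncomputable def dartEquiv : KDart n ≃ (regGraph rot h0).Dart :=
  Equiv.ofBijective (fun d => ⟨(reg rot h0 d, reg rot h0 (kswap d)), ⟨d, rfl, rfl⟩⟩) (by
    constructor
    · intro d e h
      have h1 := congrArg (fun x : (regGraph rot h0).Dart => country rot h0 x.fst) h
      have h2 := congrArg (fun x : (regGraph rot h0).Dart => country rot h0 x.snd) h
      exact Subtype.ext (Prod.ext h1 h2)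
    · rintro ⟨⟨a, b⟩, ⟨d, h, h'⟩⟩
      exact ⟨d, SimpleGraph.Dart.ext _ _ (Prod.ext h h')⟩)

theorem dartEquiv_fst (d : KDart n) : (dartEquiv rot h0 d).fst = reg rot h0 d := rfl

theorem dartEquiv_symm (d : KDart n) :
    (dartEquiv rot h0 d).symm = dartEquiv rot h0 (kswap d) := rfl

/-- the rotation system of the graph of the regions -/
noncomputable def regRot : RotationSystem (regGraph rot h0) where
  σ := ((dartEquiv rot h0).symm.trans (ksig rot h0)).trans (dartEquiv rot h0)
  fst_σ d := by
    obtain ⟨e, rfl⟩ := (dartEquiv rot h0).surjective d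
    simp only [Equiv.trans_apply, Equiv.symm_apply_apply, dartEquiv_fst]
    exact reg_ksig rot h0 e
  transitive d e h := by
    obtain ⟨d, rfl⟩ := (dartEquiv rot h0).surjective d
    obtain ⟨e, rfl⟩ := (dartEquiv rot h0).surjective e
    refine (sameCycle_conj_iff (dartEquiv rot h0) (ksig rot h0) _ ?_ d e).2 ?_
    · intro x
      simp
    · exact (reg_eq_iff rot h0).1 h

theorem regRot_σ (d : KDart n) :
    (regRot rot h0).σ (dartEquiv rot h0 d) = dartEquiv rot h0 (ksig rot h0 d) := by
  simp [regRot]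

/-- face permutation on the darts of `K_n` -/
def kface : Perm (KDart n) where
  toFun d := ksig rot h0 (kswap d)
  invFun d := kswap ((ksig rot h0).symm d)
  left_inv d := by simp [kswap_kswap]
  right_inv d := by simp [kswap_kswap]

theorem cyc_face_eq : cyc (regRot rot h0).face = cyc (kface rot h0) := by
  refine (cyc_conj (dartEquiv rot h0) (kface rot h0) (regRot rot h0).face ?_).symm
  intro d
  change dartEquiv rot h0 (ksig rot h0 (kswap d)) =
    (regRot rot h0).σ ((dartEquiv rot h0 d).symm)
  rw [dartEquiv_symm, regRot_σ]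

theorem cyc_faceP_le : cyc (faceP rot) ≤ cyc (kface rot h0) + n := by
  have : Finite (Quotient (SameCycle.setoid (kface rot h0))) := Quotient.finite _
  let F : Quotient (SameCycle.setoid (kface rot h0)) ⊕ Fin n →
      Quotient (SameCycle.setoid (faceP rot)) :=
    Sum.elim (Quotient.lift (fun d : KDart n => Quotient.mk (SameCycle.setoid (faceP rot)) d.1)
      (fun d e h => eq_of_sameCycle
        (f := fun d : KDart n => Quotient.mk (SameCycle.setoid (faceP rot)) d.1)
        (fun x => (Quotient.sound (s := SameCycle.setoid (faceP rot)) (SameCycle.symm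
          ⟨1, by rw [zpow_one]; rfl⟩))) h))
      (fun v => Quotient.mk (SameCycle.setoid (faceP rot)) (v, v))
  have hF : Function.Surjective F := by
    intro q
    induction q using Quotient.inductionOn with | _ d => ?_
    obtain ⟨u, v⟩ := d
    by_cases h : u = v
    · subst h
      exact ⟨Sum.inr u, rfl⟩
    · exact ⟨Sum.inl (Quotient.mk _ ⟨(u, v), h⟩), rfl⟩
  have h1 := Nat.card_le_card_of_surjective F hF
  rw [Nat.card_sum, Nat.card_eq_fintype_card (α := Fin n), Fintype.card_fin] at h1
  exact h1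

theorem card_fiber (v : Fin n) :
    Nat.card {w : Reg rot h0 // country rot h0 w = v} + 1 = cyc (rot v) := by
  classical
  have : Finite (Quotient (SameCycle.setoid (rot v))) := Quotient.finite _
  have := Fintype.ofFinite (Quotient (SameCycle.setoid (rot v)))
  have hne : ∀ c : {c : Quotient (SameCycle.setoid (rot v)) //
      c ≠ Quotient.mk (SameCycle.setoid (rot v)) v}, v ≠ c.1.out := by
    rintro ⟨c, hc⟩ h
    apply hc
    rw [← Quotient.out_eq c]
    exact congrArg _ h.symm
  let Ψ : {c : Quotient (SameCycle.setoid (rot v)) //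
      c ≠ Quotient.mk (SameCycle.setoid (rot v)) v} →
      {w : Reg rot h0 // country rot h0 w = v} := fun c =>
    ⟨reg rot h0 ⟨(v, c.1.out), hne c⟩, rfl⟩
  have hΨ : Function.Bijective Ψ := by
    constructor
    · intro c c' h
      have h1 := congrArg Subtype.val h
      have h2 := (ksig_sameCycle_iff rot h0 (hne c) (hne c')).1 ((reg_eq_iff rot h0).1 h1)
      apply Subtype.ext
      rw [← Quotient.out_eq c.1, ← Quotient.out_eq c'.1]
      exact Quotient.sound (s := SameCycle.setoid (rot v)) h2
    · rintro ⟨w, hw⟩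
      induction w using Quotient.inductionOn with | _ d => ?_
      obtain ⟨⟨v', u⟩, hd⟩ := d
      have hv : v' = v := hw
      subst hv
      have hc : Quotient.mk (SameCycle.setoid (rot v')) u ≠
          Quotient.mk (SameCycle.setoid (rot v')) v' := by
        intro h
        have h1 : (rot v').SameCycle u v' := Quotient.exact (s := SameCycle.setoid (rot v')) h
        exact hd (h1.symm.eq_of_left (h0 v'))
      refine ⟨⟨Quotient.mk (SameCycle.setoid (rot v')) u, hc⟩, ?_⟩
      apply Subtype.ext
      refine (reg_eq_iff rot h0).2 ((ksig_sameCycle_iff rot h0 (hne ⟨_, hc⟩) hd).2 ?_)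
      exact Quotient.exact (s := SameCycle.setoid (rot v')) (Quotient.out_eq _)
  rw [← Nat.card_eq_of_bijective Ψ hΨ, Nat.card_eq_fintype_card, Fintype.card_subtype_compl,
    Fintype.card_subtype_eq]
  have h1 : cyc (rot v) = Fintype.card (Quotient (SameCycle.setoid (rot v))) :=
    Nat.card_eq_fintype_card
  have h2 : 0 < Fintype.card (Quotient (SameCycle.setoid (rot v))) :=
    Fintype.card_pos_iff.2 ⟨Quotient.mk _ v⟩
  omega

end bridge

theorem card_KDart (n : ℕ) : Nat.card (KDart n) = n * (n - 1) := by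
  classical
  rw [Nat.card_eq_fintype_card, Fintype.card_subtype]
  have h1 : (Finset.univ.filter fun d : Fin n × Fin n => d.1 ≠ d.2) =
      (Finset.univ : Finset (Fin n)).offDiag := by
    ext d
    simp [Finset.mem_offDiag]
  rw [h1, Finset.offDiag_card, Finset.card_univ, Fintype.card_fin, Nat.mul_sub, Nat.mul_one]

/-- **The bridge**: an `m`-split embedding of `K_n` of optimal genus gives an `m`-pire map that
needs `n` colours. -/
theorem le_of_hasSplit {n m g k : ℕ} (hn : 2 ≤ n) (hs : HasSplit n m)
    (hg : (n : ℤ) * (n - (6 * m + 1)) ≤ 12 * (g - 1)) (hk : Suffices g m k) : n ≤ k := by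
  classical
  obtain ⟨rot, h0, hcyc, hconn, hface⟩ := hs
  have hW : Finite (Reg rot h0) := Quotient.finite _
  -- number of regions
  have hfib : ∀ v, Nat.card {w : Reg rot h0 // country rot h0 w = v} = m := by
    intro v
    have h1 := card_fiber rot h0 v
    have h2 := hcyc v
    omega
  have hcard : Nat.card (Reg rot h0) = n * m := by
    have := Fintype.ofFinite (Reg rot h0)
    have e := Equiv.sigmaFiberEquiv (country rot h0)
    rw [← Nat.card_congr e, Nat.card_sigma, Finset.sum_congr rfl fun v _ => hfib v,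
      Finset.sum_const, Finset.card_univ, Fintype.card_fin, smul_eq_mul]
  -- connectivity
  have hne : Nonempty (KDart n) := ⟨⟨(⟨0, by omega⟩, ⟨1, by omega⟩), by simp [Fin.ext_iff]⟩⟩
  obtain ⟨d0⟩ := hne
  have hadj : ∀ d : KDart n, (regGraph rot h0).Adj (reg rot h0 d) (reg rot h0 (kswap d)) :=
    fun d => ⟨d, rfl, rfl⟩
  have hreach : ∀ d : KDart n, (regGraph rot h0).Reachable (reg rot h0 d0) (reg rot h0 d) := by
    let f : Fin n × Fin n → Prop := fun d =>
      ∃ h : d.1 ≠ d.2, (regGraph rot h0).Reachable (reg rot h0 d0) (reg rot h0 ⟨d, h⟩)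
    have hf1 : ∀ d, Present ∅ d → (f d ↔ f d.swap) := by
      rintro ⟨u, v⟩ ⟨huv, -⟩
      have huv' : u ≠ v := huv
      constructor
      · rintro ⟨h, hr⟩
        exact ⟨huv'.symm, hr.trans (hadj ⟨(u, v), h⟩).reachable⟩
      · rintro ⟨h, hr⟩
        exact ⟨huv', hr.trans (hadj ⟨(v, u), h⟩).reachable⟩
    have hf2 : ∀ d, Present ∅ d → (f d ↔ f (faceP rot d)) := by
      rintro ⟨u, v⟩ hp
      rw [hf1 _ hp]
      obtain ⟨huv, -⟩ := hp
      have huv' : u ≠ v := huv
      have hr : v ≠ rot v u := fun h => huv' ((rot v).injective (h.symm.trans (h0 v).symm))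
      have e1 : reg rot h0 ⟨(v, rot v u), hr⟩ = reg rot h0 ⟨(v, u), huv'.symm⟩ :=
        reg_ksig rot h0 ⟨(v, u), huv'.symm⟩
      constructor
      · rintro ⟨h, hr'⟩
        refine ⟨hr, ?_⟩
        change (regGraph rot h0).Reachable (reg rot h0 d0) (reg rot h0 ⟨(v, rot v u), hr⟩)
        rw [e1]
        exact hr'
      · rintro ⟨h, hr'⟩
        refine ⟨huv'.symm, ?_⟩
        change (regGraph rot h0).Reachable (reg rot h0 d0) (reg rot h0 ⟨(v, rot v u), hr⟩) at hr'
        rw [e1] at hr'
        exact hr'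
    intro d
    have h1 := hconn f hf2 hf1 d0.1 d.1 ⟨d0.2, Finset.notMem_empty _⟩
      ⟨d.2, Finset.notMem_empty _⟩
    exact (h1.1 ⟨d0.2, SimpleGraph.Reachable.refl _⟩).2
  have hK : (regGraph rot h0).Connected := by
    rw [SimpleGraph.connected_iff]
    refine ⟨?_, ⟨reg rot h0 d0⟩⟩
    intro a b
    induction a using Quotient.inductionOn with | _ d => ?_
    induction b using Quotient.inductionOn with | _ e => ?_
    exact (hreach d).symm.trans (hreach e)
  -- Euler characteristic
  have := Fintype.ofFinite (Reg rot h0)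
  have hE : 2 * Nat.card (regGraph rot h0).edgeSet = n * (n - 1) := by
    rw [← card_KDart, Nat.card_congr (dartEquiv rot h0), Nat.card_eq_fintype_card,
      Nat.card_eq_fintype_card, SimpleGraph.dart_card_eq_twice_card_edges,
      SimpleGraph.edgeFinset_card]
  have hpar := even_euler (regRot rot h0)
  have hσ : cyc (regRot rot h0).σ = n * m := by
    rw [← hcard]
    refine (cyc_conj (dartEquiv rot h0) (ksig rot h0) (regRot rot h0).σ ?_).symm
    intro d
    rw [regRot_σ]
  rw [hσ] at hpar
  have hF := cyc_faceP_le rot h0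
  rw [← cyc_face_eq] at hF
  have hemb : EmbedsIn g (regGraph rot h0) := by
    refine ⟨regGraph rot h0, le_rfl, hK, regRot rot h0, ?_⟩
    rw [hcard]
    obtain ⟨q, hq⟩ := hpar
    have hn1 : ((n * (n - 1) : ℕ) : ℤ) = (n : ℤ) * (n - 1) := by
      push_cast [Nat.cast_sub (show 1 ≤ n by omega)]
      ring
    have hE' : (2 : ℤ) * Nat.card (regGraph rot h0).edgeSet = (n : ℤ) * (n - 1) := by
      rw [← hn1]
      exact_mod_cast hE
    have hface' : (n : ℤ) * (n - 1) + 3 * n ≤ 3 * cyc (faceP rot) + 5 := by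
      rw [← hn1]
      exact_mod_cast hface
    have hF' : (cyc (faceP rot) : ℤ) ≤ cyc (regRot rot h0).face + n := by exact_mod_cast hF
    have hq' : ((n * m : ℕ) : ℤ) + Nat.card (regGraph rot h0).edgeSet +
        cyc (regRot rot h0).face = q + q := by exact_mod_cast hq
    set E : ℤ := (Nat.card (regGraph rot h0).edgeSet : ℤ)
    set F : ℤ := (cyc (regRot rot h0).face : ℤ)
    have hnm : ((n * m : ℕ) : ℤ) = (n : ℤ) * m := by push_cast; ring
    rw [hnm] at hq' ⊢
    have : (6 : ℤ) * ((n : ℤ) * m - E + F) ≥ -(12 * (g - 1)) - 10 := by nlinarith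
    omega
  -- colouring
  have hcol := hk (Reg rot h0) (Fin n) hW (regGraph rot h0) (country rot h0) hemb hfib
  obtain ⟨col⟩ := hcol
  have hinj : Function.Injective col := by
    intro c d hcd
    by_contra hne
    refine col.valid (v := c) (w := d) ?_ hcd
    exact ⟨hne, reg rot h0 ⟨(c, d), hne⟩, reg rot h0 ⟨(d, c), fun h => hne h.symm⟩, rfl, rfl,
      ⟨⟨(c, d), hne⟩, rfl, rfl⟩⟩
  have := Fintype.card_le_of_injective col hinj
  simpa using this

end Empire
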