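import Mathlib
import Pool.Agent.Lib.MP_800721_co.PermCyc
import Pool.Agent.Lib.MP_800721_co.Claim

/-!
# PROJECT EMPIRE: Euler's inequality for subgraphs of an embedded graph

If a connected graph `K` has a rotation system of Euler characteristic at least `2 - 2 g`, then
every set of edges of `K` inside a set `A` of at least three vertices has at most
`3 |A| - 6 + 6 g` elements.  The proof uses the boundary maps over `ZMod 2`; no deletion of edges
is needed.
-/

namespace Empire

open Equiv Equiv.Perm Module

section linalg

/-- rank-nullity for a submodule -/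
theorem finrank_map_add_inf {F M N : Type*} [Field F] [AddCommGroup M] [Module F M]
    [AddCommGroup N] [Module F N] [FiniteDimensional F M] (f : M →ₗ[F] N) (W : Submodule F M) :
    finrank F (W.map f) + finrank F (LinearMap.ker f ⊓ W : Submodule F M) = finrank F W := by
  have h1 := (f.domRestrict W).finrank_range_add_finrank_ker
  rw [LinearMap.range_domRestrict] at h1
  have h2 : finrank F (LinearMap.ker (f.domRestrict W)) =
      finrank F (LinearMap.ker f ⊓ W : Submodule F M) := by
    rw [← Submodule.finrank_map_subtype_eq W (LinearMap.ker (f.domRestrict W))]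
    have : Submodule.map W.subtype (LinearMap.ker (f.domRestrict W)) = LinearMap.ker f ⊓ W := by
      ext x
      simp only [Submodule.mem_map, LinearMap.mem_ker, Submodule.mem_inf]
      constructor
      · rintro ⟨y, hy, rfl⟩
        exact ⟨hy, y.2⟩
      · rintro ⟨h, hx⟩
        exact ⟨⟨x, hx⟩, h, rfl⟩
    rw [this]
  omega

end linalg

section euler

theorem add_self_fun {ι : Type*} (x : ι → ZMod 2) : x + x = 0 := by
  ext i
  exact CharTwo.add_self_eq_zero _

variable {V : Type} {K : SimpleGraph V} (R : RotationSystem K)

/-- the type of the faces -/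
abbrev Face : Type := Quotient (SameCycle.setoid R.face)

/-- the face of a dart -/
def faceOf (d : K.Dart) : Face R := Quotient.mk (SameCycle.setoid R.face) d

theorem faceOf_face (d : K.Dart) : faceOf R (R.face d) = faceOf R d :=
  Quotient.sound (s := SameCycle.setoid R.face) (SameCycle.symm ⟨1, by simp⟩)

theorem faceOf_symm (d : K.Dart) : faceOf R d.symm = faceOf R (R.σ d) := by
  rw [← faceOf_face R d.symm]
  rfl

/-- the edge of a dart, as an element of the type of edges -/
def edg (d : K.Dart) : K.edgeSet := ⟨d.edge, d.edge_mem⟩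

theorem edg_eq_iff {d d' : K.Dart} : edg d = edg d' ↔ d = d' ∨ d = d'.symm := by
  rw [← SimpleGraph.dart_edge_eq_iff, edg, edg, Subtype.mk.injEq]

theorem edg_symm (d : K.Dart) : edg d.symm = edg d := edg_eq_iff.2 (Or.inr rfl)

theorem edg_surj (e : K.edgeSet) : ∃ d : K.Dart, edg d = e := by
  obtain ⟨e, he⟩ := e
  induction e using Sym2.ind with | _ u v => ?_
  exact ⟨⟨(u, v), he⟩, rfl⟩

/-- a chosen dart of an edge -/
noncomputable def out (e : K.edgeSet) : K.Dart := (edg_surj e).choose

theorem edg_out (e : K.edgeSet) : edg (out e) = e := (edg_surj e).choose_spec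

theorem out_edg (d : K.Dart) : out (edg d) = d ∨ out (edg d) = d.symm :=
  edg_eq_iff.1 (edg_out (edg d))

variable [Fintype V] [DecidableEq V] [DecidableRel K.Adj]

/-- the boundary of a set of edges -/
noncomputable def bd : (K.edgeSet → ZMod 2) →ₗ[ZMod 2] (V → ZMod 2) where
  toFun z v := ∑ d : K.Dart, if d.fst = v then z (edg d) else 0
  map_add' x y := by
    ext v
    simp only [Pi.add_apply]
    rw [← Finset.sum_add_distrib]
    refine Finset.sum_congr rfl fun d _ => ?_
    split_ifs <;> simp
  map_smul' c x := by
    ext v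
    simp only [Pi.smul_apply, smul_eq_mul, RingHom.id_apply]
    rw [Finset.mul_sum]
    refine Finset.sum_congr rfl fun d _ => ?_
    split_ifs <;> simp

omit [DecidableRel K.Adj] [DecidableEq V] [Fintype V] in
/-- the boundary of a set of faces -/
noncomputable def cb : (Face R → ZMod 2) →ₗ[ZMod 2] (K.edgeSet → ZMod 2) where
  toFun h e := h (faceOf R (out e)) + h (faceOf R (out e).symm)
  map_add' x y := by
    ext e
    simp only [Pi.add_apply]
    ring
  map_smul' c x := by
    ext e
    simp only [Pi.smul_apply, smul_eq_mul, RingHom.id_apply]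
    ring

omit [Fintype V] [DecidableEq V] [DecidableRel K.Adj] in
theorem cb_edg (h : Face R → ZMod 2) (d : K.Dart) :
    cb R h (edg d) = h (faceOf R d) + h (faceOf R d.symm) := by
  change h (faceOf R (out (edg d))) + h (faceOf R (out (edg d)).symm) = _
  rcases out_edg d with h1 | h1
  · rw [h1]
  · rw [h1, SimpleGraph.Dart.symm_symm, add_comm]

theorem bd_cb (h : Face R → ZMod 2) : bd (cb R h) = 0 := by
  ext v
  change (∑ d : K.Dart, if d.fst = v then cb R h (edg d) else 0) = 0
  have h1 : (∑ d : K.Dart, if d.fst = v then cb R h (edg d) else 0) =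
      (∑ d : K.Dart, if d.fst = v then h (faceOf R d) else 0) +
        ∑ d : K.Dart, if (R.σ d).fst = v then h (faceOf R (R.σ d)) else 0 := by
    rw [← Finset.sum_add_distrib]
    refine Finset.sum_congr rfl fun d _ => ?_
    rw [R.fst_σ]
    split_ifs with h2
    · rw [cb_edg, faceOf_symm]
    · simp
  rw [h1, Equiv.sum_comp R.σ (fun d => if d.fst = v then h (faceOf R d) else 0)]
  exact CharTwo.add_self_eq_zero _

theorem bd_single (d : K.Dart) :
    bd (Pi.single (edg d) 1) = Pi.single d.fst 1 + Pi.single d.snd (1 : ZMod 2) := by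
  ext v
  change (∑ d' : K.Dart, if d'.fst = v then
    (Pi.single (edg d) 1 : K.edgeSet → ZMod 2) (edg d') else 0) = _
  have h1 : ∀ d' : K.Dart, (if d'.fst = v then
      (Pi.single (edg d) 1 : K.edgeSet → ZMod 2) (edg d') else 0) =
      (if d' = d then (if d.fst = v then 1 else 0) else 0) +
        (if d' = d.symm then (if d.snd = v then 1 else 0) else 0) := by
    intro d'
    have hne : d ≠ d.symm := d.symm_ne.symm
    by_cases h2 : d' = d
    · subst h2
      simp [hne]
    · by_cases h3 : d' = d.symm
      · subst h3
        simp [edg_symm, hne.symm]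
      · have h4 : edg d' ≠ edg d := fun h => (edg_eq_iff.1 h).elim h2 h3
        simp [h2, h3, Pi.single_eq_of_ne h4]
  rw [Finset.sum_congr rfl fun d' _ => h1 d', Finset.sum_add_distrib]
  simp [Pi.single_apply, eq_comm]

theorem le_finrank_range_bd (hK : K.Connected) :
    Fintype.card V ≤ finrank (ZMod 2) (LinearMap.range (bd (K := K))) + 1 := by
  obtain ⟨v0⟩ := hK.nonempty
  have key : ∀ u v, K.Reachable u v → (Pi.single u 1 + Pi.single v 1 : V → ZMod 2) ∈
      LinearMap.range (bd (K := K)) := by
    rintro u v ⟨p⟩
    induction p with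
    | nil =>
      rw [add_self_fun]
      exact Submodule.zero_mem _
    | @cons u v w h p ih =>
      have h1 : (Pi.single u 1 + Pi.single v 1 : V → ZMod 2) ∈ LinearMap.range (bd (K := K)) :=
        ⟨Pi.single (edg (⟨(u, v), h⟩ : K.Dart)) 1, bd_single _⟩
      have h2 := Submodule.add_mem _ h1 ih
      have h3 : (Pi.single u 1 + Pi.single v 1 : V → ZMod 2) + (Pi.single v 1 + Pi.single w 1) =
          Pi.single u 1 + Pi.single w 1 := by
        have : (Pi.single v 1 + Pi.single v 1 : V → ZMod 2) = 0 := add_self_fun _
        calc (Pi.single u 1 + Pi.single v 1 : V → ZMod 2) + (Pi.single v 1 + Pi.single w 1)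
            = Pi.single u 1 + (Pi.single v 1 + Pi.single v 1) + Pi.single w 1 := by abel
          _ = _ := by rw [this, add_zero]
      rwa [h3] at h2
  have htop : LinearMap.range (bd (K := K)) ⊔
      Submodule.span (ZMod 2) {(Pi.single v0 1 : V → ZMod 2)} = ⊤ := by
    rw [eq_top_iff]
    intro x _
    have hx : x = ∑ v, x v • (Pi.single v 1 : V → ZMod 2) := by
      ext w
      simp [Finset.sum_apply, Pi.single_apply]
    rw [hx]
    refine Submodule.sum_mem _ fun v _ => Submodule.smul_mem _ _ ?_
    have h1 := key v v0 (hK.preconnected v v0)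
    have h2 : (Pi.single v 1 : V → ZMod 2) = (Pi.single v 1 + Pi.single v0 1) +
        Pi.single v0 1 := by
      rw [add_assoc, add_self_fun, add_zero]
    rw [h2]
    exact Submodule.add_mem_sup h1 (Submodule.mem_span_singleton_self _)
  have h3 := Submodule.finrank_add_le_finrank_add_finrank (LinearMap.range (bd (K := K)))
    (Submodule.span (ZMod 2) {(Pi.single v0 1 : V → ZMod 2)})
  rw [htop, finrank_top, Module.finrank_fintype_fun_eq_card] at h3
  have h4 : finrank (ZMod 2) (Submodule.span (ZMod 2) {(Pi.single v0 1 : V → ZMod 2)}) ≤ 1 := by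
    have := finrank_span_le_card (R := ZMod 2) ({(Pi.single v0 1 : V → ZMod 2)} : Set (V → ZMod 2))
    simpa using this
  omega

omit [Fintype V] [DecidableEq V] [DecidableRel K.Adj] in
/-- a function on the faces with zero boundary is constant -/
theorem const_of_cb_eq_zero (hK : K.Connected) {h : Face R → ZMod 2} (h0 : cb R h = 0)
    (x y : Face R) : h x = h y := by
  have h1 : ∀ d : K.Dart, h (faceOf R d.symm) = h (faceOf R d) := by
    intro d
    have := cb_edg R h d
    rw [h0] at this
    exact (CharTwo.add_eq_zero.1 this.symm).symm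
  have h2 : ∀ d : K.Dart, h (faceOf R (R.σ d)) = h (faceOf R d) := by
    intro d
    rw [← faceOf_symm, h1]
  have h3 : ∀ d e : K.Dart, d.fst = e.fst → h (faceOf R d) = h (faceOf R e) := fun d e hde =>
    eq_of_sameCycle (f := fun d => h (faceOf R d)) h2 (R.transitive d e hde)
  have h4 : ∀ u v, K.Walk u v → ∀ d e : K.Dart, d.fst = u → e.fst = v →
      h (faceOf R d) = h (faceOf R e) := by
    intro u v p
    induction p with
    | nil => intro d e hd he; exact h3 d e (hd.trans he.symm)
    | @cons u v w ha p ih =>
      intro d e hd he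
      rw [h3 d ⟨(u, v), ha⟩ hd, ← h1]
      exact ih _ _ rfl he
  induction x using Quotient.inductionOn with | _ d => ?_
  induction y using Quotient.inductionOn with | _ e => ?_
  obtain ⟨p⟩ := hK.preconnected d.fst e.fst
  exact h4 _ _ p d e rfl rfl

end euler

end Empire
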