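import Mathlib
import Pool.Agent.Lib.MP_800721_co.Euler

/-!
# PROJECT EMPIRE: Euler's inequality for subgraphs of an embedded graph, part 2
-/

namespace Empire

set_option linter.unusedSectionVars false

open Equiv Equiv.Perm Module

section count

variable {V : Type} {K : SimpleGraph V}

/-- functions supported on a set of edges -/
def suppE (E' : Finset K.edgeSet) : Submodule (ZMod 2) (K.edgeSet → ZMod 2) where
  carrier := {x | ∀ e, e ∉ E' → x e = 0}
  add_mem' {x y} hx hy e he := by simp [hx e he, hy e he]
  zero_mem' e _ := rfl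
  smul_mem' c x hx e he := by simp [hx e he]

theorem mem_suppE {E' : Finset K.edgeSet} {x : K.edgeSet → ZMod 2} :
    x ∈ suppE E' ↔ ∀ e, e ∉ E' → x e = 0 := Iff.rfl

variable (R : RotationSystem K) [Fintype V] [DecidableEq V] [DecidableRel K.Adj]

theorem card_le_finrank_suppE (E' : Finset K.edgeSet) : E'.card ≤ finrank (ZMod 2) (suppE E') := by
  have h1 : (suppE E').map (LinearMap.funLeft (ZMod 2) (ZMod 2)
      (Subtype.val : {e // e ∈ E'} → K.edgeSet)) = ⊤ := by
    rw [eq_top_iff]
    intro g _
    refine ⟨fun e => if h : e ∈ E' then g ⟨e, h⟩ else 0, ?_, ?_⟩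
    · intro e he
      simp [he]
    · ext ⟨e, he⟩
      simp [LinearMap.funLeft_apply, he]
  have h2 := Submodule.finrank_map_le (LinearMap.funLeft (ZMod 2) (ZMod 2)
      (Subtype.val : {e // e ∈ E'} → K.edgeSet)) (suppE E')
  rw [h1, finrank_top, Module.finrank_fintype_fun_eq_card, Fintype.card_coe] at h2
  exact h2

theorem finrank_map_bd_le (E' : Finset K.edgeSet) (A : Finset V)
    (hA : ∀ d : K.Dart, edg d ∈ E' → d.fst ∈ A) (hA0 : A.Nonempty) :
    finrank (ZMod 2) ((suppE E').map bd) + 1 ≤ A.card := by
  obtain ⟨a0, ha0⟩ := hA0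
  let f := LinearMap.funLeft (ZMod 2) (ZMod 2) (Subtype.val : {v // v ∈ A.erase a0} → V)
  have h1 := finrank_map_add_inf f ((suppE E').map bd)
  have h2 : LinearMap.ker f ⊓ (suppE E').map bd = ⊥ := by
    rw [eq_bot_iff]
    rintro x ⟨hx, z, hz, rfl⟩
    have hz' : ∀ e, e ∉ E' → z e = 0 := hz
    have hx' : ∀ v (hv : v ∈ A.erase a0), bd z v = 0 := by
      intro v hv
      have : f (bd z) ⟨v, hv⟩ = 0 := by
        have := LinearMap.mem_ker.1 hx
        rw [this]
        rfl
      exact this
    have hout : ∀ v, v ∉ A → bd z v = 0 := by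
      intro v hv
      change (∑ d : K.Dart, if d.fst = v then z (edg d) else 0) = 0
      refine Finset.sum_eq_zero fun d _ => ?_
      split_ifs with h
      · apply hz'
        intro he
        exact hv (h ▸ hA d he)
      · rfl
    have hsum : ∑ v, bd z v = 0 := by
      have e1 : ∑ v, bd z v = ∑ v, ∑ d : K.Dart, (if d.fst = v then z (edg d) else 0) := rfl
      rw [e1, Finset.sum_comm]
      have e2 : ∀ d : K.Dart, (∑ v, if d.fst = v then z (edg d) else 0) = z (edg d) := by
        intro d
        simp
      rw [Finset.sum_congr rfl fun d _ => e2 d]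
      refine Finset.sum_involution (fun d _ => d.symm) ?_ ?_ ?_ ?_
      · intro d _
        rw [edg_symm]
        exact CharTwo.add_self_eq_zero _
      · intro d _ _
        exact d.symm_ne
      · intro d _
        exact Finset.mem_univ _
      · intro d _
        exact d.symm_symm
    have ha : bd z a0 = 0 := by
      rw [← hsum]
      symm
      refine Finset.sum_eq_single a0 ?_ ?_
      · intro v _ hv
        by_cases hvA : v ∈ A
        · exact hx' v (Finset.mem_erase.2 ⟨hv, hvA⟩)
        · exact hout v hvA
      · intro h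
        exact absurd (Finset.mem_univ _) h
    rw [Submodule.mem_bot]
    ext v
    by_cases hvA : v ∈ A
    · by_cases hv : v = a0
      · rw [hv]; exact ha
      · exact hx' v (Finset.mem_erase.2 ⟨hv, hvA⟩)
    · exact hout v hvA
  rw [h2, finrank_bot, add_zero] at h1
  have h3 := Submodule.finrank_le (((suppE E').map bd).map f)
  rw [h1, Module.finrank_fintype_fun_eq_card, Fintype.card_coe, Finset.card_erase_of_mem ha0] at h3
  have : 0 < A.card := Finset.card_pos.2 ⟨a0, ha0⟩
  omega

/-- two faces are related if they share an edge outside `E'` -/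
def SFace (E' : Finset K.edgeSet) (x y : Face R) : Prop :=
  ∃ d : K.Dart, edg d ∉ E' ∧ faceOf R d = x ∧ faceOf R d.symm = y

instance : Finite (Face R) := Quotient.finite _

theorem finrank_comap_le (E' : Finset K.edgeSet) :
    finrank (ZMod 2) ((suppE E').comap (cb R)) ≤ Nat.card (Quot (SFace R E')) := by
  classical
  have : Finite (Quot (SFace R E')) := Quot.finite _
  have := Fintype.ofFinite (Quot (SFace R E'))
  let f := LinearMap.funLeft (ZMod 2) (ZMod 2) (Quot.mk (SFace R E'))
  have h1 : (suppE E').comap (cb R) ≤ LinearMap.range f := by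
    intro h hh
    have hh' : ∀ e, e ∉ E' → cb R h e = 0 := hh
    refine ⟨Quot.lift h ?_, ?_⟩
    · rintro x y ⟨d, hd, rfl, rfl⟩
      have := hh' (edg d) hd
      rw [cb_edg] at this
      exact CharTwo.add_eq_zero.1 this
    · ext x
      rfl
  have : Fintype (Face R) := Fintype.ofFinite _
  have h2 := Submodule.finrank_mono h1
  have h3 := LinearMap.finrank_range_le f
  rw [Module.finrank_fintype_fun_eq_card] at h3
  rw [Nat.card_eq_fintype_card]
  exact h2.trans h3

theorem finrank_map_cb (E' : Finset K.edgeSet) (hne : Nonempty K.Dart) :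
    finrank (ZMod 2) (LinearMap.range (cb R) ⊓ suppE E' : Submodule (ZMod 2) _) + 1 ≤
      Nat.card (Quot (SFace R E')) := by
  classical
  have : Fintype (Face R) := Fintype.ofFinite _
  have h1 := finrank_map_add_inf (cb R) ((suppE E').comap (cb R))
  rw [Submodule.map_comap_eq] at h1
  have h2 : 1 ≤ finrank (ZMod 2)
      (LinearMap.ker (cb R) ⊓ (suppE E').comap (cb R) : Submodule (ZMod 2) _) := by
    rw [Nat.one_le_iff_ne_zero]
    intro h0
    rw [Submodule.finrank_eq_zero] at h0
    have hone : (fun _ => 1 : Face R → ZMod 2) ∈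
        (LinearMap.ker (cb R) ⊓ (suppE E').comap (cb R) : Submodule (ZMod 2) _) := by
      have hc : cb R (fun _ => 1) = 0 := by
        ext e
        change (1 : ZMod 2) + 1 = 0
        decide
      refine ⟨LinearMap.mem_ker.2 hc, ?_⟩
      change cb R (fun _ => 1) ∈ suppE E'
      rw [hc]
      exact Submodule.zero_mem _
    rw [h0, Submodule.mem_bot] at hone
    obtain ⟨d⟩ := hne
    have := congrFun hone (faceOf R d)
    exact one_ne_zero this
  have h3 := finrank_comap_le R E'
  omega

theorem exists_other {z : K.edgeSet → ZMod 2} (hz : bd z = 0) {d0 : K.Dart}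
    (h0 : z (edg d0) ≠ 0) : ∃ d1 : K.Dart, d1 ≠ d0 ∧ d1.fst = d0.fst ∧ z (edg d1) ≠ 0 := by
  by_contra hcon
  push Not at hcon
  have h1 : bd z d0.fst = z (edg d0) := by
    change (∑ d : K.Dart, if d.fst = d0.fst then z (edg d) else 0) = z (edg d0)
    rw [Finset.sum_eq_single d0]
    · simp
    · intro d _ hd
      split_ifs with h
      · exact hcon d hd h
      · rfl
    · intro h
      exact absurd (Finset.mem_univ _) h
  rw [hz] at h1
  exact h0 h1.symm

theorem three_le_card {z : K.edgeSet → ZMod 2} (hz : bd z = 0) (hz0 : z ≠ 0) :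
    3 ≤ (Finset.univ.filter fun e => z e ≠ 0).card := by
  obtain ⟨e, he⟩ : ∃ e, z e ≠ 0 := by
    by_contra hcon
    push Not at hcon
    exact hz0 (funext hcon)
  obtain ⟨d0, rfl⟩ := edg_surj e
  obtain ⟨d1, n1, f1, h1⟩ := exists_other hz he
  have he' : z (edg d0.symm) ≠ 0 := by rwa [edg_symm]
  obtain ⟨d2, n2, f2, h2⟩ := exists_other hz he'
  have hne : d0.fst ≠ d0.snd := d0.adj.ne
  have f2' : d2.fst = d0.snd := f2
  have e01 : edg d0 ≠ edg d1 := by
    intro h
    rcases edg_eq_iff.1 h with h | h
    · exact n1 h.symm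
    · have : d0.fst = d1.snd := by rw [h]; rfl
      have h3 : d0.snd = d1.fst := by rw [h]; rfl
      exact hne (f1.symm.trans h3.symm)
  have e02 : edg d0 ≠ edg d2 := by
    intro h
    rcases edg_eq_iff.1 h with h | h
    · rw [← h] at f2'
      exact hne f2'
    · apply n2
      rw [h, SimpleGraph.Dart.symm_symm]
  have e12 : edg d1 ≠ edg d2 := by
    intro h
    rcases edg_eq_iff.1 h with h | h
    · rw [← h, f1] at f2'
      exact hne f2'
    · have h3 : d2.snd = d0.fst := by
        rw [← f1, h]
        rfl
      apply n2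
      apply SimpleGraph.Dart.ext
      exact Prod.ext f2' h3
  have hsub : ({edg d0, edg d1, edg d2} : Finset K.edgeSet) ⊆
      Finset.univ.filter fun e => z e ≠ 0 := by
    intro e he4
    simp only [Finset.mem_insert, Finset.mem_singleton] at he4
    rw [Finset.mem_filter]
    rcases he4 with rfl | rfl | rfl
    · exact ⟨Finset.mem_univ _, he⟩
    · exact ⟨Finset.mem_univ _, h1⟩
    · exact ⟨Finset.mem_univ _, h2⟩
  have hcard : ({edg d0, edg d1, edg d2} : Finset K.edgeSet).card = 3 := by
    rw [Finset.card_insert_of_notMem, Finset.card_insert_of_notMem, Finset.card_singleton]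
    · simpa using e12
    · simp [e01, e02]
  rw [← hcard]
  exact Finset.card_le_card hsub

theorem card_darts_le (E' : Finset K.edgeSet) :
    (Finset.univ.filter fun d : K.Dart => edg d ∈ E').card ≤ 2 * E'.card := by
  classical
  have hmaps : Set.MapsTo (edg (K := K))
      (((Finset.univ.filter fun d : K.Dart => edg d ∈ E') : Finset K.Dart) : Set K.Dart)
      (E' : Set K.edgeSet) := by
    intro d hd
    exact Finset.mem_coe.2 (Finset.mem_filter.1 (Finset.mem_coe.1 hd)).2
  rw [Finset.card_eq_sum_card_fiberwise hmaps, mul_comm, ← smul_eq_mul]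
  refine Finset.sum_le_card_nsmul _ _ _ fun e _ => ?_
  have hsub : ((Finset.univ.filter fun d : K.Dart => edg d ∈ E').filter fun d => edg d = e) ⊆
      {out e, (out e).symm} := by
    intro d hd
    have h1 := (Finset.mem_filter.1 hd).2
    rw [← edg_out e] at h1
    rw [Finset.mem_insert, Finset.mem_singleton]
    exact edg_eq_iff.1 h1
  exact (Finset.card_le_card hsub).trans Finset.card_le_two

theorem three_mul_le (hK : K.Connected) (E' : Finset K.edgeSet)
    (h2 : 2 ≤ Nat.card (Quot (SFace R E'))) : 3 * Nat.card (Quot (SFace R E')) ≤ 2 * E'.card := by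
  classical
  have : Finite (Quot (SFace R E')) := Quot.finite _
  have := Fintype.ofFinite (Quot (SFace R E'))
  rw [Nat.card_eq_fintype_card] at h2 ⊢
  let g : K.Dart → Quot (SFace R E') := fun d => Quot.mk _ (faceOf R d)
  let X : Finset K.Dart := Finset.univ.filter fun d : K.Dart => edg d ∈ E'
  let D : Quot (SFace R E') → Finset K.Dart := fun c =>
    Finset.univ.filter fun d => g d = c ∧ g d.symm ≠ c
  have hD : ∀ c, 3 ≤ (D c).card := by
    intro c
    let h : Face R → ZMod 2 := fun x => if Quot.mk (SFace R E') x = c then 1 else 0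
    have hh : ∀ d : K.Dart, h (faceOf R d) = if g d = c then 1 else 0 := fun d => rfl
    have hz : bd (cb R h) = 0 := bd_cb R h
    have hz0 : cb R h ≠ 0 := by
      intro h0
      have hc := const_of_cb_eq_zero R hK h0
      obtain ⟨c', hc'⟩ : ∃ c', c' ≠ c := by
        have : Nontrivial (Quot (SFace R E')) := Fintype.one_lt_card_iff_nontrivial.1 h2
        exact exists_ne c
      obtain ⟨x, rfl⟩ := Quot.exists_rep c
      obtain ⟨y, rfl⟩ := Quot.exists_rep c'
      have h1 := hc x y
      simp only [h, if_true, if_neg hc'] at h1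
      exact one_ne_zero h1
    refine (three_le_card hz hz0).trans ?_
    refine le_trans (Finset.card_le_card ?_) (Finset.card_image_le (s := D c) (f := edg))
    intro e he
    have he1 := (Finset.mem_filter.1 he).2
    obtain ⟨d, rfl⟩ := edg_surj e
    rw [cb_edg, hh, hh] at he1
    rw [Finset.mem_image]
    by_cases h3 : g d = c
    · by_cases h4 : g d.symm = c
      · rw [if_pos h3, if_pos h4] at he1
        exact absurd (by decide) he1
      · exact ⟨d, Finset.mem_filter.2 ⟨Finset.mem_univ _, h3, h4⟩, rfl⟩
    · by_cases h4 : g d.symm = c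
      · refine ⟨d.symm, Finset.mem_filter.2 ⟨Finset.mem_univ _, h4, ?_⟩, edg_symm d⟩
        rw [SimpleGraph.Dart.symm_symm]
        exact h3
      · rw [if_neg h3, if_neg h4] at he1
        exact absurd (by decide) he1
  have hX : ∀ c, D c ⊆ X.filter fun d => g d = c := by
    intro c d hd
    obtain ⟨-, h3, h4⟩ := Finset.mem_filter.1 hd
    refine Finset.mem_filter.2 ⟨Finset.mem_filter.2 ⟨Finset.mem_univ _, ?_⟩, h3⟩
    by_contra hcon
    apply h4
    rw [← h3]
    exact (Quot.sound ⟨d, hcon, rfl, rfl⟩).symm
  have h5 : Fintype.card (Quot (SFace R E')) * 3 ≤ X.card := by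
    rw [Finset.card_eq_sum_card_fiberwise (f := g) (t := Finset.univ)
      (fun d _ => Finset.mem_coe.2 (Finset.mem_univ _))]
    have h6 := Finset.card_nsmul_le_sum (Finset.univ : Finset (Quot (SFace R E')))
      (fun c => (X.filter fun d => g d = c).card) 3
      (fun c _ => (hD c).trans (Finset.card_le_card (hX c)))
    simpa [smul_eq_mul] using h6
  have h7 := card_darts_le E'
  change X.card ≤ _ at h7
  omega

/-- **Euler's inequality** for the edges inside a set of vertices. -/
theorem euler_bound (hK : K.Connected) (g : ℕ)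
    (hχ : (2 : ℤ) - 2 * g ≤ Nat.card V - Nat.card K.edgeSet + cyc R.face)
    (E' : Finset K.edgeSet) (A : Finset V) (hA : ∀ d : K.Dart, edg d ∈ E' → d.fst ∈ A)
    (hA3 : 3 ≤ A.card) : (E'.card : ℤ) ≤ 3 * A.card - 6 + 6 * g := by
  classical
  by_cases hne : Nonempty K.Dart
  · have : Fintype (Face R) := Fintype.ofFinite _
    have hA0 : A.Nonempty := Finset.card_pos.1 (by omega)
    -- ranks
    have r1 := LinearMap.finrank_range_add_finrank_ker (bd (K := K))
    rw [Module.finrank_fintype_fun_eq_card] at r1
    have r2 := le_finrank_range_bd hK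
    have r3 := LinearMap.finrank_range_add_finrank_ker (cb R)
    rw [Module.finrank_fintype_fun_eq_card] at r3
    have r4 : finrank (ZMod 2) (LinearMap.ker (cb R)) ≤ 1 := by
      have hle : LinearMap.ker (cb R) ≤ Submodule.span (ZMod 2) {(fun _ => 1 : Face R → ZMod 2)} := by
        intro h hh
        obtain ⟨d⟩ := hne
        rw [Submodule.mem_span_singleton]
        refine ⟨h (faceOf R d), ?_⟩
        ext x
        simp [const_of_cb_eq_zero R hK (LinearMap.mem_ker.1 hh) x (faceOf R d)]
      have h1 := Submodule.finrank_mono hle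
      have h2 := finrank_span_le_card (R := ZMod 2)
        ({(fun _ => 1 : Face R → ZMod 2)} : Set (Face R → ZMod 2))
      have h3 : ({(fun _ => 1 : Face R → ZMod 2)} : Set (Face R → ZMod 2)).toFinset.card = 1 := by
        simp
      omega
    have r5 := finrank_map_add_inf (bd (K := K)) (suppE E')
    have r6 := card_le_finrank_suppE E'
    have r7 := finrank_map_bd_le E' A hA hA0
    have hBZ : LinearMap.range (cb R) ≤ LinearMap.ker (bd (K := K)) := by
      rintro x ⟨h, rfl⟩
      exact LinearMap.mem_ker.2 (bd_cb R h)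
    have r8 := Submodule.finrank_sup_add_finrank_inf_eq (LinearMap.range (cb R))
      (LinearMap.ker (bd (K := K)) ⊓ suppE E')
    have r9 : finrank (ZMod 2) (LinearMap.range (cb R) ⊔
        (LinearMap.ker (bd (K := K)) ⊓ suppE E') : Submodule (ZMod 2) _) ≤
        finrank (ZMod 2) (LinearMap.ker (bd (K := K))) :=
      Submodule.finrank_mono (sup_le hBZ inf_le_left)
    have e1 : LinearMap.range (cb R) ⊓ (LinearMap.ker (bd (K := K)) ⊓ suppE E') =
        LinearMap.range (cb R) ⊓ suppE E' := by
      rw [← inf_assoc, inf_eq_left.2 hBZ]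
    rw [e1] at r8
    have r10 := finrank_map_cb R E' hne
    have c1 : Nat.card V = Fintype.card V := Nat.card_eq_fintype_card
    have c2 : Nat.card K.edgeSet = Fintype.card K.edgeSet := Nat.card_eq_fintype_card
    have c3 : cyc R.face = Fintype.card (Face R) := Nat.card_eq_fintype_card
    rw [c1, c2, c3] at hχ
    by_cases h2 : 2 ≤ Nat.card (Quot (SFace R E'))
    · have := three_mul_le R hK E' h2
      omega
    · omega
  · -- no darts
    have h0 : E'.card = 0 := by
      rw [Finset.card_eq_zero]
      by_contra hcon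
      obtain ⟨e, -⟩ := Finset.nonempty_iff_ne_empty.2 hcon
      exact hne ⟨(edg_surj e).choose⟩
    omega

end count

end Empire
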