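import Mathlib
import Pool.Agent.Lib.MP_800721_co.EulerBound

/-!
# PROJECT EMPIRE: the upper bound (Heawood)
-/

namespace Empire

open Equiv Equiv.Perm

/-- a graph all of whose subgraphs have a vertex of degree less than `N` is `N`-colourable -/
theorem colorable_of_degenerate {C : Type} [Finite C] (G : SimpleGraph C) (N : ℕ)
    (h : ∀ S : Set C, S.Nonempty → ∃ c ∈ S, {d | d ∈ S ∧ G.Adj c d}.ncard < N) :
    G.Colorable N := by
  classical
  have := Fintype.ofFinite C
  by_cases hC : Nonempty C
  · obtain ⟨c0⟩ := hC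
    obtain ⟨c1, -, hc1⟩ := h {c0} ⟨c0, rfl⟩
    have hN : 0 < N := lt_of_le_of_lt (Nat.zero_le _) hc1
    have key : ∀ n : ℕ, ∀ S : Finset C, S.card = n →
        ∃ col : C → Fin N, ∀ u ∈ S, ∀ v ∈ S, G.Adj u v → col u ≠ col v := by
      intro n
      induction n with
      | zero =>
        intro S hS
        rw [Finset.card_eq_zero] at hS
        subst hS
        exact ⟨fun _ => ⟨0, hN⟩, by simp⟩
      | succ n ih =>
        intro S hS
        have hne : S.Nonempty := Finset.card_pos.1 (by omega)
        obtain ⟨c, hc, hcard⟩ := h (S : Set C) (by exact_mod_cast hne)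
        have hc' : c ∈ S := by exact_mod_cast hc
        obtain ⟨col, hcol⟩ := ih (S.erase c) (by rw [Finset.card_erase_of_mem hc']; omega)
        have e1 : {d | d ∈ (S : Set C) ∧ G.Adj c d} = (S.filter fun d => G.Adj c d : Finset C) := by
          ext d
          simp
        rw [e1, Set.ncard_coe_finset] at hcard
        obtain ⟨x, hx⟩ : ∃ x : Fin N, x ∉ (S.filter fun d => G.Adj c d).image col := by
          by_contra hcon
          push Not at hcon
          have h1 : (Finset.univ : Finset (Fin N)) ⊆ (S.filter fun d => G.Adj c d).image col :=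
            fun x _ => hcon x
          have h2 := Finset.card_le_card h1
          rw [Finset.card_univ, Fintype.card_fin] at h2
          have h3 : ((S.filter fun d => G.Adj c d).image col).card ≤ _ := Finset.card_image_le
          omega
        refine ⟨Function.update col c x, ?_⟩
        intro u hu v hv huv
        by_cases huc : u = c
        · subst huc
          have hvu : v ≠ u := huv.ne.symm
          rw [Function.update_self, Function.update_of_ne hvu]
          intro he
          apply hx
          rw [he]
          exact Finset.mem_image_of_mem _ (Finset.mem_filter.2 ⟨hv, huv⟩)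
        · by_cases hvc : v = c
          · subst hvc
            rw [Function.update_self, Function.update_of_ne huc]
            intro he
            apply hx
            rw [← he]
            exact Finset.mem_image_of_mem _ (Finset.mem_filter.2 ⟨hu, huv.symm⟩)
          · rw [Function.update_of_ne huc, Function.update_of_ne hvc]
            exact hcol u (Finset.mem_erase.2 ⟨huc, hu⟩) v (Finset.mem_erase.2 ⟨hvc, hv⟩) huv
    obtain ⟨col, hcol⟩ := key _ Finset.univ rfl
    exact ⟨SimpleGraph.Coloring.mk col fun {u v} huv =>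
      hcol u (Finset.mem_univ _) v (Finset.mem_univ _) huv⟩
  · exact ⟨SimpleGraph.Coloring.mk (fun c => absurd ⟨c⟩ hC) fun {u} _ => absurd ⟨u⟩ hC⟩

/-- **Heawood's upper bound.** -/
theorem suffices_heawood {g m : ℕ} (hg : 1 ≤ g) (hm : 1 ≤ m) : Suffices g m (heawood g m) := by
  classical
  intro V C _ H f hemb hfib
  obtain ⟨K, hHK, hK, R, hχ⟩ := hemb
  have := Fintype.ofFinite V
  have hsurj : Function.Surjective f := by
    intro c
    have h1 : 0 < Nat.card {v // f v = c} := by rw [hfib c]; omega
    obtain ⟨⟨v, hv⟩⟩ := (Nat.card_pos_iff.1 h1).1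
    exact ⟨v, hv⟩
  have : Finite C := Finite.of_surjective f hsurj
  have := Fintype.ofFinite C
  set N := heawood g m with hN
  refine colorable_of_degenerate _ _ ?_
  intro S0 hS0
  by_contra hcon
  push Not at hcon
  obtain ⟨S, rfl⟩ : ∃ S : Finset C, (S : Set C) = S0 := ⟨S0.toFinset, by simp⟩
  let G := contractGraph H f
  have hdeg : ∀ c ∈ S, N ≤ (S.filter fun d => G.Adj c d).card := by
    intro c hc
    have h1 := hcon c (by exact_mod_cast hc)
    have e1 : {d | d ∈ (S : Set C) ∧ (contractGraph H f).Adj c d} =
        (S.filter fun d => G.Adj c d : Finset C) := by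
      ext d
      simp [G]
    rwa [e1, Set.ncard_coe_finset] at h1
  have hSne : S.Nonempty := by exact_mod_cast hS0
  -- the number of countries
  have hScard : N + 1 ≤ S.card := by
    obtain ⟨c, hc⟩ := hSne
    have h1 := hdeg c hc
    have h2 : (S.filter fun d => G.Adj c d) ⊆ S.erase c := by
      intro d hd
      rw [Finset.mem_filter] at hd
      exact Finset.mem_erase.2 ⟨hd.2.ne.symm, hd.1⟩
    have h3 := Finset.card_le_card h2
    rw [Finset.card_erase_of_mem hc] at h3
    have : 0 < S.card := Finset.card_pos.2 ⟨c, hc⟩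
    omega
  let A : Finset V := Finset.univ.filter fun v => f v ∈ S
  have hAcard : A.card = S.card * m := by
    rw [Finset.card_eq_sum_card_fiberwise (f := f) (t := S)
      (fun v hv => by simpa [A] using hv)]
    rw [Finset.sum_congr rfl fun c hc => ?_, Finset.sum_const, smul_eq_mul]
    rw [← hfib c, Nat.card_eq_fintype_card, Fintype.card_subtype]
    congr 1
    ext v
    simp only [A, Finset.mem_filter, Finset.mem_univ, true_and]
    exact ⟨fun h => h.2, fun h => ⟨h ▸ hc, h⟩⟩
  let E' : Finset K.edgeSet := Finset.univ.filter fun e =>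
    (e : Sym2 V) ∈ H.edgeSet ∧ ∀ v ∈ (e : Sym2 V), f v ∈ S
  have hE' : ∀ d : K.Dart, edg d ∈ E' ↔ H.Adj d.fst d.snd ∧ f d.fst ∈ S ∧ f d.snd ∈ S := by
    intro d
    simp only [E', Finset.mem_filter, Finset.mem_univ, true_and]
    have e1 : ((edg d : K.edgeSet) : Sym2 V) = s(d.fst, d.snd) := rfl
    rw [e1, SimpleGraph.mem_edgeSet]
    constructor
    · rintro ⟨h1, h2⟩
      exact ⟨h1, h2 _ (Sym2.mem_mk_left _ _), h2 _ (Sym2.mem_mk_right _ _)⟩
    · rintro ⟨h1, h2, h3⟩
      refine ⟨h1, fun v hv => ?_⟩
      rcases Sym2.mem_iff.1 hv with rfl | rfl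
      · exact h2
      · exact h3
  let X : Finset K.Dart := Finset.univ.filter fun d : K.Dart => edg d ∈ E'
  have hX : S.card * N ≤ X.card := by
    rw [Finset.card_eq_sum_card_fiberwise (f := fun d : K.Dart => f d.fst) (t := S)
      (fun d hd => by
        have h1 : edg d ∈ E' := by simpa [X] using hd
        exact Finset.mem_coe.2 ((hE' d).1 h1).2.1)]
    have h6 := Finset.card_nsmul_le_sum S
      (fun c => (X.filter fun d => f d.fst = c).card) N
      (fun c hc => ?_)
    · simpa [smul_eq_mul] using h6
    · refine (hdeg c hc).trans (le_trans (Finset.card_le_card ?_) (Finset.card_image_le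
        (s := X.filter fun d => f d.fst = c) (f := fun d : K.Dart => f d.snd)))
      intro c' hc'
      obtain ⟨h1, -, u, v, hu, hv, huv⟩ := Finset.mem_filter.1 hc'
      rw [Finset.mem_image]
      refine ⟨⟨(u, v), hHK huv⟩, ?_, hv⟩
      rw [Finset.mem_filter]
      refine ⟨Finset.mem_filter.2 ⟨Finset.mem_univ _, (hE' _).2 ⟨huv, ?_, ?_⟩⟩, hu⟩
      · change f u ∈ S
        rw [hu]; exact hc
      · change f v ∈ S
        rw [hv]; exact h1
  have h7 : X.card ≤ 2 * E'.card := card_darts_le E'
  have h6m : 6 * m + 1 ≤ N := six_le_heawood hg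
  have hA3 : 3 ≤ A.card := by
    rw [hAcard]
    nlinarith
  have h8 := euler_bound R hK g hχ E' A (fun d hd => by
    simp only [A, Finset.mem_filter, Finset.mem_univ, true_and]
    exact ((hE' d).1 hd).2.1) hA3
  rw [hAcard] at h8
  have h9 : ¬ (N + 1 ≤ heawood g m) := by omega
  rw [le_heawood_iff hg (by omega)] at h9
  apply h9
  have h10 : (S.card : ℤ) * N ≤ 2 * (3 * (S.card * m) - 6 + 6 * g) := by
    have h11 : (S.card : ℤ) * N ≤ X.card := by exact_mod_cast hX
    have h12 : (X.card : ℤ) ≤ 2 * E'.card := by exact_mod_cast h7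
    push_cast at h8
    linarith
  have h13 : (N : ℤ) + 1 ≤ S.card := by exact_mod_cast hScard
  have h14 : (6 * m + 1 : ℤ) ≤ N := by exact_mod_cast h6m
  push_cast
  nlinarith

end Empire
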