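import Mathlib
import Pool.Agent.Lib.MP_800721_co.Bridge
import Pool.Agent.Lib.MP_800721_co.Upper

/-!
# PROJECT EMPIRE: assembly

If `K_n` has an `m`-split embedding of optimal genus for all `n ≥ 6 m + 1`, `m ≥ 2`, then Heawood's
bound is attained for all orientable surfaces of genus `g ≥ 1`.
-/

namespace Empire

/-- the value at one pair `(g, m)` only needs one embedding -/
theorem isLeast_of_hasSplit {g m : ℕ} (hg : 1 ≤ g) (hm : 1 ≤ m)
    (hs : HasSplit (heawood g m) m) : IsLeast {k | Suffices g m k} (heawood g m) := by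
  refine ⟨suffices_heawood hg hm, fun k hk => ?_⟩
  have h6 : 6 * m + 1 ≤ heawood g m := six_le_heawood hg
  exact le_of_hasSplit (by omega) hs ((le_heawood_iff hg h6).1 le_rfl) hk

theorem empire_of_hasSplit (hs : ∀ n m : ℕ, 2 ≤ m → 6 * m + 1 ≤ n → HasSplit n m)
    {g m : ℕ} (hg : 1 ≤ g) (hm : 2 ≤ m) : IsLeast {k | Suffices g m k} (heawood g m) :=
  isLeast_of_hasSplit hg (by omega) (hs _ m hm (six_le_heawood hg))

end Empire
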