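import Mathlib
import Pool.Agent.Lib.MP_800721_co.PermCyc

/-!
# PROJECT EMPIRE: the circuit lemma

Starting from a permutation with at least `k` cycles, a list of `l` transpositions whose
transitive closure together with the permutation has at most `k - l` classes merges two cycles at
every step.  Application: reversing zero-sum triples one by one.
-/

namespace Empire

open Equiv Equiv.Perm

section general

variable {α : Type*} [DecidableEq α]

/-- the relation generated by the steps of `p` and the pairs in the list `L` -/
def StepRel (p : Perm α) (L : List (α × α)) (x y : α) : Prop := y = p x ∨ (x, y) ∈ L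

omit [DecidableEq α] in
theorem quot_mk_eq_of_sameCycle {p : Perm α} {L : List (α × α)} {x y : α}
    (h : p.SameCycle x y) : Quot.mk (StepRel p L) x = Quot.mk (StepRel p L) y :=
  eq_of_sameCycle (f := fun x => Quot.mk (StepRel p L) x)
    (fun _ => (Quot.sound (r := StepRel p L) (Or.inl rfl)).symm) h

omit [DecidableEq α] in
/-- cardinality of a quotient does not change if the generated equivalences agree -/
theorem card_quot_congr {r r' : α → α → Prop} (h : ∀ x y, r x y → Quot.mk r' x = Quot.mk r' y)
    (h' : ∀ x y, r' x y → Quot.mk r x = Quot.mk r y) : Nat.card (Quot r) = Nat.card (Quot r') := by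
  refine Nat.card_congr ⟨Quot.lift (Quot.mk r') h, Quot.lift (Quot.mk r) h', ?_, ?_⟩
  · rintro ⟨x⟩
    rfl
  · rintro ⟨x⟩
    rfl

omit [DecidableEq α] in
theorem card_stepRel_nil (p : Perm α) : Nat.card (Quot (StepRel p [])) = cyc p := by
  unfold cyc
  refine Nat.card_congr ⟨Quot.lift (fun x => (Quotient.mk (SameCycle.setoid p) x)) ?_,
    Quotient.lift (fun x => Quot.mk (StepRel p []) x) ?_, ?_, ?_⟩
  · rintro x y (h | h)
    · exact Quotient.sound (s := SameCycle.setoid p) ⟨1, by simp [h]⟩
    · simp at h
  · intro x y h
    exact quot_mk_eq_of_sameCycle h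
  · rintro ⟨x⟩
    rfl
  · intro q
    induction q using Quotient.inductionOn with | _ x => rfl

omit [DecidableEq α] in
theorem card_stepRel_cons_same {p : Perm α} {L : List (α × α)} {a b : α} (h : p.SameCycle a b) :
    Nat.card (Quot (StepRel p ((a, b) :: L))) = Nat.card (Quot (StepRel p L)) := by
  refine card_quot_congr ?_ ?_
  · rintro x y (h1 | h1)
    · exact Quot.sound (Or.inl h1)
    · rcases List.mem_cons.1 h1 with h2 | h2
      · rw [Prod.mk.injEq] at h2
        rw [h2.1, h2.2]
        exact quot_mk_eq_of_sameCycle h
      · exact Quot.sound (Or.inr h2)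
  · rintro x y (h1 | h1)
    · exact Quot.sound (Or.inl h1)
    · exact Quot.sound (Or.inr (List.mem_cons_of_mem _ h1))

variable [Finite α]

theorem card_stepRel_cons_not {p : Perm α} {L : List (α × α)} {a b : α}
    (h : ¬ p.SameCycle a b) :
    Nat.card (Quot (StepRel p ((a, b) :: L))) = Nat.card (Quot (StepRel (p * swap a b) L)) := by
  refine card_quot_congr ?_ ?_
  · rintro x y (h1 | h1)
    · refine quot_mk_eq_of_sameCycle (sameCycle_mul_swap_of_sameCycle h ?_)
      rw [h1]
      exact ⟨1, by simp⟩
    · rcases List.mem_cons.1 h1 with h2 | h2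
      · rw [Prod.mk.injEq] at h2
        rw [h2.1, h2.2]
        exact quot_mk_eq_of_sameCycle (sameCycle_mul_swap_of_not h)
      · exact Quot.sound (Or.inr h2)
  · rintro x y (h1 | h1)
    · have hab : Quot.mk (StepRel p ((a, b) :: L)) a = Quot.mk (StepRel p ((a, b) :: L)) b :=
        Quot.sound (Or.inr (List.mem_cons_self))
      have hp : ∀ z, Quot.mk (StepRel p ((a, b) :: L)) z
          = Quot.mk (StepRel p ((a, b) :: L)) (p z) := fun z => Quot.sound (Or.inl rfl)
      rw [h1]
      by_cases hxa : x = a
      · rw [hxa, mul_swap_apply_left, ← hp, hab]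
      · by_cases hxb : x = b
        · rw [hxb, mul_swap_apply_right, ← hp, hab]
        · rw [mul_swap_apply_of_ne p hxa hxb]
          exact hp x
    · exact Quot.sound (Or.inr (List.mem_cons_of_mem _ h1))

theorem cyc_le_card_stepRel (L : List (α × α)) : ∀ p : Perm α,
    cyc p ≤ Nat.card (Quot (StepRel p L)) + L.length := by
  induction L with
  | nil => intro p; rw [card_stepRel_nil]; simp
  | cons ab L ih =>
    obtain ⟨a, b⟩ := ab
    intro p
    by_cases h : p.SameCycle a b
    · rw [card_stepRel_cons_same h]
      have := ih p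
      simp only [List.length_cons]
      omega
    · rw [card_stepRel_cons_not h]
      have := ih (p * swap a b)
      have := cyc_mul_swap_of_not h
      simp only [List.length_cons]
      omega

/-- `p` multiplied by the transpositions of a list, from left to right -/
def mulSwaps (p : Perm α) (L : List (α × α)) : Perm α :=
  L.foldl (fun q ab => q * swap ab.1 ab.2) p

omit [Finite α] in
@[simp] theorem mulSwaps_nil (p : Perm α) : mulSwaps p [] = p := rfl

omit [Finite α] in
@[simp] theorem mulSwaps_cons (p : Perm α) (ab : α × α) (L : List (α × α)) :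
    mulSwaps p (ab :: L) = mulSwaps (p * swap ab.1 ab.2) L := rfl

omit [Finite α] in
theorem mulSwaps_append (p : Perm α) (L L' : List (α × α)) :
    mulSwaps p (L ++ L') = mulSwaps (mulSwaps p L) L' := by
  unfold mulSwaps
  rw [List.foldl_append]

/-- The circuit lemma for transpositions. -/
theorem circuit_swaps (L L' : List (α × α)) : ∀ (p : Perm α) (k : ℕ), k ≤ cyc p →
    Nat.card (Quot (StepRel p (L ++ L'))) + (L ++ L').length ≤ k →
    cyc (mulSwaps p L) + L.length = k ∧
      (∀ x y, p.SameCycle x y → (mulSwaps p L).SameCycle x y) ∧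
      (∀ x y, (x, y) ∈ L → (mulSwaps p L).SameCycle x y) := by
  induction L with
  | nil =>
    intro p k hk hq
    have := cyc_le_card_stepRel ([] ++ L') p
    refine ⟨?_, fun x y h => h, fun x y h => absurd h (by simp)⟩
    simp only [mulSwaps_nil, List.length_nil]
    omega
  | cons ab L ih =>
    obtain ⟨a, b⟩ := ab
    intro p k hk hq
    by_cases h : p.SameCycle a b
    · exfalso
      rw [List.cons_append, card_stepRel_cons_same h] at hq
      have := cyc_le_card_stepRel (L ++ L') p
      simp only [List.length_cons] at hq
      omega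
    · rw [List.cons_append, card_stepRel_cons_not h] at hq
      have h1 := cyc_mul_swap_of_not h
      simp only [List.length_cons] at hq
      obtain ⟨h2, h3, h4⟩ := ih (p * swap a b) (k - 1) (by omega) (by omega)
      refine ⟨?_, ?_, ?_⟩
      · simp only [mulSwaps_cons, List.length_cons]
        omega
      · intro x y hxy
        exact h3 x y (sameCycle_mul_swap_of_sameCycle h hxy)
      · intro x y hxy
        rcases List.mem_cons.1 hxy with h5 | h5
        · rw [Prod.mk.injEq] at h5
          rw [h5.1, h5.2]
          exact h3 a b (sameCycle_mul_swap_of_not h)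
        · exact h4 x y h5

end general

/-! ### reversing triples -/

section triples

variable {I : Type*} [DecidableEq I]

/-- the cyclic shift on each triple `{i} × ZMod 3`, reversed on the triples in `s` -/
def tau (s : Finset I) : Perm (I × ZMod 3) where
  toFun x := if x.1 ∈ s then (x.1, x.2 - 1) else (x.1, x.2 + 1)
  invFun x := if x.1 ∈ s then (x.1, x.2 + 1) else (x.1, x.2 - 1)
  left_inv x := by by_cases h : x.1 ∈ s <;> simp [h]
  right_inv x := by by_cases h : x.1 ∈ s <;> simp [h]

theorem tau_apply (s : Finset I) (x : I × ZMod 3) :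
    tau s x = if x.1 ∈ s then (x.1, x.2 - 1) else (x.1, x.2 + 1) := rfl

/-- the permutation whose cycles are the circuits: `σ x = τ (- x)` -/
def sig (neg : Perm (I × ZMod 3)) (s : Finset I) : Perm (I × ZMod 3) := tau s * neg

/-- the transpositions which reverse the triple `i` -/
def revSwaps (neg : Perm (I × ZMod 3)) (i : I) :
    List ((I × ZMod 3) × (I × ZMod 3)) :=
  [(neg.symm (i, 0), neg.symm (i, 1)), (neg.symm (i, 1), neg.symm (i, 2))]

set_option linter.unusedSimpArgs false in
theorem mulSwaps_revSwaps (neg : Perm (I × ZMod 3)) {s : Finset I} {i : I} (hi : i ∉ s) :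
    mulSwaps (sig neg s) (revSwaps neg i) = sig neg (insert i s) := by
  ext1 x
  obtain ⟨y, rfl⟩ : ∃ y, x = neg.symm y := ⟨neg x, by simp⟩
  simp only [revSwaps, mulSwaps_cons, mulSwaps_nil, Perm.mul_apply]
  have hsw : ∀ a b c : I × ZMod 3, swap (neg.symm a) (neg.symm b) (neg.symm c)
      = neg.symm (swap a b c) := by
    intro a b c
    exact (neg.symm.injective.swap_apply a b c)
  rw [hsw, hsw]
  simp only [sig, Perm.mul_apply, Equiv.apply_symm_apply, tau_apply]
  obtain ⟨j, t⟩ := y
  by_cases hj : j = i
  · subst hj
    have ht : t = 0 ∨ t = 1 ∨ t = 2 := by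
      revert t; decide
    have e01 : ((0 : ZMod 3) = 1) = False := by decide
    have e10 : ((1 : ZMod 3) = 0) = False := by decide
    have e02 : ((0 : ZMod 3) = 2) = False := by decide
    have e20 : ((2 : ZMod 3) = 0) = False := by decide
    have e12 : ((1 : ZMod 3) = 2) = False := by decide
    have e21 : ((2 : ZMod 3) = 1) = False := by decide
    rcases ht with rfl | rfl | rfl
    · simp only [swap_apply_def, Prod.mk.injEq, e01, e02, e10, e20, e12, e21, and_false,
        and_true, if_false, if_true, Finset.mem_insert, true_or]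
      rw [if_neg hi]
      simp only [Prod.mk.injEq, true_and]
      decide
    · simp only [swap_apply_def, Prod.mk.injEq, e01, e02, e10, e20, e12, e21, and_false,
        and_true, if_false, if_true, Finset.mem_insert, true_or]
      rw [if_neg hi]
      simp only [Prod.mk.injEq, true_and]
      decide
    · simp only [swap_apply_def, Prod.mk.injEq, e01, e02, e10, e20, e12, e21, and_false,
        and_true, if_false, if_true, Finset.mem_insert, true_or]
      rw [if_neg hi]
      simp only [Prod.mk.injEq, true_and]
      decide
  · have h1 : swap ((i, 1) : I × ZMod 3) (i, 2) (j, t) = (j, t) :=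
      swap_apply_of_ne_of_ne (by simp [hj]) (by simp [hj])
    have h2 : swap ((i, 0) : I × ZMod 3) (i, 1) (j, t) = (j, t) :=
      swap_apply_of_ne_of_ne (by simp [hj]) (by simp [hj])
    rw [h1, h2]
    simp [hj]

theorem mulSwaps_flatMap (neg : Perm (I × ZMod 3)) (xs : List I) : ∀ s : Finset I,
    (∀ i ∈ xs, i ∉ s) → xs.Nodup →
    mulSwaps (sig neg s) (xs.flatMap (revSwaps neg)) = sig neg (s ∪ xs.toFinset) := by
  induction xs with
  | nil => intro s _ _; simp
  | cons i xs ih =>
    intro s hs hnd
    rw [List.flatMap_cons, mulSwaps_append, mulSwaps_revSwaps neg (hs i List.mem_cons_self),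
      ih]
    · congr 1
      ext j
      simp only [Finset.mem_union, Finset.mem_insert, List.toFinset_cons]
      tauto
    · intro j hj
      rw [Finset.mem_insert]
      rintro (h | h)
      · exact (List.nodup_cons.1 hnd).1 (h ▸ hj)
      · exact hs j (List.mem_cons_of_mem _ hj) h
    · exact (List.nodup_cons.1 hnd).2

/-- the relation whose classes have to be few: steps of `σ₀` and the triples to be reversed -/
def CircRel (neg : Perm (I × ZMod 3)) (xs : List I) (x y : I × ZMod 3) : Prop :=
  y = sig neg ∅ x ∨ (x.1 ∈ xs ∧ y.1 = x.1)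

theorem card_circRel (neg : Perm (I × ZMod 3)) (xs : List I) :
    Nat.card (Quot (StepRel (sig neg ∅) (xs.flatMap (revSwaps neg)))) =
      Nat.card (Quot (CircRel neg xs)) := by
  have hσ : ∀ i : I, ∀ t : ZMod 3, sig neg ∅ (neg.symm (i, t)) = (i, t + 1) := by
    intro i t
    simp [sig, tau_apply]
  refine card_quot_congr ?_ ?_
  · rintro x y (h | h)
    · exact Quot.sound (Or.inl h)
    · rw [List.mem_flatMap] at h
      obtain ⟨i, hi, h⟩ := h
      have key : ∀ t : ZMod 3, Quot.mk (CircRel neg xs) (neg.symm (i, t)) =
          Quot.mk (CircRel neg xs) (i, 0) := by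
        intro t
        have e1 : Quot.mk (CircRel neg xs) (neg.symm (i, t)) =
            Quot.mk (CircRel neg xs) (i, t + 1) := by
          rw [← hσ i t]
          exact Quot.sound (Or.inl rfl)
        rw [e1]
        exact Quot.sound (Or.inr ⟨hi, rfl⟩)
      simp only [revSwaps, List.mem_cons, Prod.mk.injEq, List.not_mem_nil, or_false] at h
      rcases h with ⟨h1, h2⟩ | ⟨h1, h2⟩
      · rw [h1, h2, key, key]
      · rw [h1, h2, key, key]
  · rintro x y (h | ⟨h, h'⟩)
    · exact Quot.sound (Or.inl h)
    · obtain ⟨i, t⟩ := x
      obtain ⟨i', t'⟩ := y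
      simp only at h h'
      subst h'
      have hm : ∀ z ∈ revSwaps neg i', z ∈ xs.flatMap (revSwaps neg) := fun z hz =>
        List.mem_flatMap.2 ⟨i', h, hz⟩
      have n01 : Quot.mk (StepRel (sig neg ∅) (xs.flatMap (revSwaps neg))) (neg.symm (i', 0)) =
          Quot.mk (StepRel (sig neg ∅) (xs.flatMap (revSwaps neg))) (neg.symm (i', 1)) :=
        Quot.sound (Or.inr (hm _ (by simp [revSwaps])))
      have n12 : Quot.mk (StepRel (sig neg ∅) (xs.flatMap (revSwaps neg))) (neg.symm (i', 1)) =
          Quot.mk (StepRel (sig neg ∅) (xs.flatMap (revSwaps neg))) (neg.symm (i', 2)) :=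
        Quot.sound (Or.inr (hm _ (by simp [revSwaps])))
      have e1 : ∀ t : ZMod 3, Quot.mk (StepRel (sig neg ∅) (xs.flatMap (revSwaps neg))) (i', t + 1)
          = Quot.mk (StepRel (sig neg ∅) (xs.flatMap (revSwaps neg))) (neg.symm (i', t)) := by
        intro t
        rw [← hσ i' t]
        exact (Quot.sound (r := StepRel (sig neg ∅) (xs.flatMap (revSwaps neg)))
          (Or.inl rfl)).symm
      have key : ∀ t : ZMod 3, Quot.mk (StepRel (sig neg ∅) (xs.flatMap (revSwaps neg))) (i', t)
          = Quot.mk (StepRel (sig neg ∅) (xs.flatMap (revSwaps neg))) (neg.symm (i', 0)) := by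
        intro t
        have ht : t = 0 ∨ t = 1 ∨ t = 2 := by
          revert t; decide
        rcases ht with rfl | rfl | rfl
        · have := e1 2
          rw [show (2 : ZMod 3) + 1 = 0 by decide] at this
          rw [this, ← n12, ← n01]
        · have := e1 0
          rw [zero_add] at this
          exact this
        · have := e1 1
          rw [show (1 : ZMod 3) + 1 = 2 by decide] at this
          rw [this, ← n01]
      rw [key t, key t']

/-- **The circuit lemma.**  Let `σ₀ = τ ∘ neg` have at least `k` cycles, let `xs` be a list of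
different triples such that the relation generated by the steps of `σ₀` and the triples of `xs`
has at most `k - 2 |xs|` classes.  Then after reversing the first `j` triples of `xs` there are
exactly `k - 2 j` cycles, and the old cycles are contained in the new ones. -/
theorem circuit_lemma [Finite I] (neg : Perm (I × ZMod 3)) (xs : List I) (hnd : xs.Nodup) (k : ℕ)
    (h0 : k ≤ cyc (sig neg ∅)) (hJ : Nat.card (Quot (CircRel neg xs)) + 2 * xs.length ≤ k)
    (j : ℕ) (hj : j ≤ xs.length) :
    cyc (sig neg (xs.take j).toFinset) + 2 * j = k ∧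
      ∀ x y, (sig neg ∅).SameCycle x y → (sig neg (xs.take j).toFinset).SameCycle x y := by
  have hlen : ∀ ys : List I, (ys.flatMap (revSwaps neg)).length = 2 * ys.length := by
    intro ys
    induction ys with
    | nil => simp
    | cons i ys ih =>
      rw [List.flatMap_cons, List.length_append, ih]
      simp [revSwaps]
      ring
  have hsplit : xs.flatMap (revSwaps neg) =
      (xs.take j).flatMap (revSwaps neg) ++ (xs.drop j).flatMap (revSwaps neg) := by
    rw [← List.flatMap_append, List.take_append_drop]
  have h1 := circuit_swaps ((xs.take j).flatMap (revSwaps neg))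
    ((xs.drop j).flatMap (revSwaps neg)) (sig neg ∅) k h0
    (by rw [← hsplit, card_circRel, hlen]; exact hJ)
  rw [mulSwaps_flatMap neg (xs.take j) ∅ (fun i _ => Finset.notMem_empty i)
    (hnd.sublist (List.take_sublist _ _)), Finset.empty_union, hlen, List.length_take,
    min_eq_left hj] at h1
  exact ⟨h1.1, h1.2.1⟩

/-- bounding the number of classes by representatives -/
theorem card_quot_le_of_reps {α : Type*} {r : α → α → Prop} {k : ℕ} (f : Fin k → α)
    (hf : ∀ x, ∃ i, Quot.mk r x = Quot.mk r (f i)) : Nat.card (Quot r) ≤ k := by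
  have hg : Function.Surjective (fun i : Fin k => Quot.mk r (f i)) := by
    rintro ⟨x⟩
    obtain ⟨i, hi⟩ := hf x
    exact ⟨i, hi.symm⟩
  have := Nat.card_le_card_of_surjective _ hg
  simpa using this

end triples

end Empire
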