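import Mathlib
import Pool.Agent.Lib.MP_800721_co.PermCyc

/-!
# PROJECT EMPIRE: states and elementary operations

A state is a rotation family together with a set `M` of missing darts (every missing edge is a
digon of the face permutation).  Elementary operations: inserting a missing edge in two corners,
deleting an edge.
-/

namespace Empire

open Equiv Equiv.Perm

variable {V : Type*}

/-! ### walks and faces -/

/-- darts of the walk from `x` through the vertices of `A` to `y` -/
def walk : V → List V → V → List (V × V)
  | x, [], y => [(x, y)]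
  | x, a :: A, y => (x, a) :: walk a A y

/-- darts of a cyclic sequence of vertices -/
def darts : List V → List (V × V)
  | [] => []
  | x :: A => walk x A x

theorem walk_append (x : V) (A : List V) (y : V) (B : List V) (z : V) :
    walk x (A ++ y :: B) z = walk x A y ++ walk y B z := by
  induction A generalizing x with
  | nil => rfl
  | cons a A ih => simp [walk, ih]

theorem walk_head? (x : V) (A : List V) (y : V) : (walk x A y).head? = some (x, A.headD y) := by
  cases A <;> rfl

theorem walk_getLast? (x : V) (A : List V) (y : V) :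
    (walk x A y).getLast? = some (A.getLastD x, y) := by
  induction A generalizing x with
  | nil => rfl
  | cons a A ih =>
    rw [walk, List.getLast?_cons, ih a, List.getLastD_cons]
    rfl

theorem walk_ne_nil (x : V) (A : List V) (y : V) : walk x A y ≠ [] := by
  cases A <;> simp [walk]

theorem getLast_mem_walk (x : V) (A : List V) (y : V) : (A.getLastD x, y) ∈ walk x A y :=
  List.mem_of_getLast? (walk_getLast? x A y)

theorem head_mem_walk (x : V) (A : List V) (y : V) : (x, A.headD y) ∈ walk x A y :=
  List.mem_of_head? (walk_head? x A y)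

/-- the list of darts is traversed by `φ` -/
def Chn (φ : Perm (V × V)) (l : List (V × V)) : Prop := l.IsChain (fun d e => φ d = e)

/-- `F` is a face of `φ` -/
def IsFace (φ : Perm (V × V)) : List V → Prop
  | [] => True
  | x :: A => Chn φ (walk x A x) ∧ φ (A.getLastD x, x) = (x, A.headD x)

theorem chn_walk_append {φ : Perm (V × V)} {x : V} {A : List V} {y : V} {B : List V} {z : V} :
    Chn φ (walk x (A ++ y :: B) z) ↔ Chn φ (walk x A y) ∧ Chn φ (walk y B z) ∧
      φ (A.getLastD x, y) = (y, B.headD z) := by
  rw [walk_append, Chn, List.isChain_append, walk_getLast?, walk_head?]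
  simp [Chn]

theorem getLastD_append_cons (A : List V) (y : V) (B : List V) (x : V) :
    (A ++ y :: B).getLastD x = B.getLastD y := by
  induction A generalizing x with
  | nil => rw [List.nil_append, List.getLastD_cons]
  | cons a A ih => rw [List.cons_append, List.getLastD_cons, ih a]

theorem headD_append_cons (A : List V) (y : V) (B : List V) (x : V) :
    (A ++ y :: B).headD x = A.headD y := by
  cases A <;> rfl

theorem isFace_split {φ : Perm (V × V)} {x : V} {A : List V} {y : V} {B : List V} :
    IsFace φ (x :: (A ++ y :: B)) ↔ Chn φ (walk x A y) ∧ Chn φ (walk y B x) ∧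
      φ (A.getLastD x, y) = (y, B.headD x) ∧ φ (B.getLastD y, x) = (x, A.headD y) := by
  rw [IsFace, chn_walk_append, getLastD_append_cons, headD_append_cons]
  tauto

theorem darts_split (x : V) (A : List V) (y : V) (B : List V) :
    darts (x :: (A ++ y :: B)) = walk x A y ++ walk y B x := walk_append _ _ _ _ _

theorem chn_mem {φ : Perm (V × V)} {l : List (V × V)} (h : Chn φ l) {d : V × V} (hd : d ∈ l) :
    φ d ∈ l ∨ some d = l.getLast? := by
  induction l with
  | nil => simp at hd
  | cons a l ih =>
    cases l with
    | nil => right; simpa using hd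
    | cons b l =>
      have h' := h
      unfold Chn at h'
      rw [List.isChain_cons_cons] at h'
      rcases List.mem_cons.1 hd with rfl | hd'
      · left; rw [h'.1]; simp
      · rcases ih h'.2 hd' with h'' | h''
        · left; exact List.mem_cons_of_mem _ h''
        · right; rw [h'', List.getLast?_cons_cons]

theorem chn_mem' {φ : Perm (V × V)} {l : List (V × V)} (h : Chn φ l) {d : V × V} (hd : d ∈ l) :
    (∃ e ∈ l, φ e = d) ∨ some d = l.head? := by
  induction l with
  | nil => simp at hd
  | cons a l ih =>
    cases l with
    | nil => right; simpa using hd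
    | cons b l =>
      have h' := h
      unfold Chn at h'
      rw [List.isChain_cons_cons] at h'
      rcases List.mem_cons.1 hd with rfl | hd'
      · right; simp
      · left
        rcases ih h'.2 hd' with ⟨e, he, h''⟩ | h''
        · exact ⟨e, List.mem_cons_of_mem _ he, h''⟩
        · simp only [List.head?_cons, Option.some.injEq] at h''
          exact ⟨a, by simp, by rw [h'.1, h'']⟩

theorem chn_sameCycle {φ : Perm (V × V)} {l : List (V × V)} (h : Chn φ l) {d e : V × V}
    (hd : d ∈ l) (he : some e = l.head?) : φ.SameCycle e d := by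
  induction l generalizing e with
  | nil => simp at hd
  | cons a l ih =>
    simp only [List.head?_cons, Option.some.injEq] at he
    subst he
    rcases List.mem_cons.1 hd with rfl | hd'
    · exact SameCycle.refl _ _
    · cases l with
      | nil => simp at hd'
      | cons b l =>
        have h' := h
        unfold Chn at h'
        rw [List.isChain_cons_cons] at h'
        have := ih h'.2 hd' (e := b) (by simp)
        rw [← h'.1] at this
        exact sameCycle_apply_left.1 this

theorem face_sameCycle {φ : Perm (V × V)} {F : List V} (h : IsFace φ F) {d e : V × V}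
    (hd : d ∈ darts F) (he : e ∈ darts F) : φ.SameCycle d e := by
  cases F with
  | nil => simp [darts] at hd
  | cons x A =>
    have h0 := (walk_head? x A x).symm
    exact (chn_sameCycle h.1 hd h0).symm.trans (chn_sameCycle h.1 he h0)

theorem face_closed {φ : Perm (V × V)} {F : List V} (h : IsFace φ F) {d e : V × V}
    (hd : d ∈ darts F) (he : φ.SameCycle d e) : e ∈ darts F := by
  cases F with
  | nil => simp [darts] at hd
  | cons x A =>
    have := rel_of_sameCycle (r := fun d e => d ∈ darts (x :: A) ↔ e ∈ darts (x :: A))
      ⟨fun _ => Iff.rfl, fun h => h.symm, fun h h' => h.trans h'⟩ ?_ he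
    · exact this.1 hd
    · intro d
      constructor
      · intro hd
        rcases chn_mem h.1 hd with h' | h'
        · exact h'
        · rw [walk_getLast?] at h'
          obtain rfl : d = _ := Option.some.inj h'
          rw [h.2]
          exact head_mem_walk _ _ _
      · intro hd
        rcases chn_mem' h.1 hd with ⟨e, he, h'⟩ | h'
        · rwa [← φ.injective h']
        · rw [walk_head?, ← h.2] at h'
          rw [φ.injective (Option.some.inj h')]
          exact getLast_mem_walk _ _ _

theorem face_apply_mem {φ : Perm (V × V)} {F : List V} (h : IsFace φ F) {d : V × V}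
    (hd : d ∈ darts F) : φ d ∈ darts F :=
  face_closed h hd (sameCycle_apply_right.2 (SameCycle.refl _ _))

theorem chn_congr {φ ψ : Perm (V × V)} {l : List (V × V)} (h : Chn φ l)
    (he : ∀ d ∈ l, some d ≠ l.getLast? → ψ d = φ d) (hn : l.Nodup) : Chn ψ l := by
  induction l with
  | nil => exact List.isChain_nil
  | cons a l ih =>
    cases l with
    | nil => exact List.isChain_singleton _
    | cons b l =>
      have h' := h
      unfold Chn at h' ⊢
      rw [List.isChain_cons_cons] at h' ⊢
      refine ⟨?_, ih h'.2 ?_ (List.nodup_cons.1 hn).2⟩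
      · rw [he a (by simp) ?_, h'.1]
        intro hc
        rw [List.getLast?_cons_cons] at hc
        exact (List.nodup_cons.1 hn).1 (List.mem_of_getLast? hc.symm)
      · intro d hd hne
        refine he d (List.mem_cons_of_mem _ hd) ?_
        rwa [List.getLast?_cons_cons]

theorem chn_congr' {φ ψ : Perm (V × V)} {l : List (V × V)} (h : Chn φ l)
    (he : ∀ d ∈ l, ψ d = φ d) : Chn ψ l := by
  induction l with
  | nil => exact List.isChain_nil
  | cons a l ih =>
    cases l with
    | nil => exact List.isChain_singleton _
    | cons b l =>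
      have h' := h
      unfold Chn at h' ⊢
      rw [List.isChain_cons_cons] at h' ⊢
      exact ⟨by rw [he a (by simp), h'.1], ih h'.2 fun d hd => he d (List.mem_cons_of_mem _ hd)⟩

theorem isFace_congr {φ ψ : Perm (V × V)} {F : List V} (h : IsFace φ F)
    (he : ∀ d ∈ darts F, ψ d = φ d) : IsFace ψ F := by
  cases F with
  | nil => trivial
  | cons x A =>
    refine ⟨chn_congr' h.1 he, ?_⟩
    rw [he _ (getLast_mem_walk _ _ _), h.2]

/-! ### valid states -/

/-- a valid state -/
structure Valid (rot : V → Perm V) (M : Finset (V × V)) : Prop where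
  self : ∀ v, rot v v = v
  symm : ∀ a b, (a, b) ∈ M → (b, a) ∈ M
  ne : ∀ a b, (a, b) ∈ M → a ≠ b
  fix : ∀ a b, (a, b) ∈ M → rot a b = b

/-- number of missing darts at `v` -/
def miss [DecidableEq V] (M : Finset (V × V)) (v : V) : ℕ := (M.filter (fun d => d.1 = v)).card

/-- the state has the faces of the resource list `R`; lists of length two are missing edges -/
def Holds (rot : V → Perm V) (M : Finset (V × V)) (R : List (List V)) : Prop :=
  ∀ F ∈ R, IsFace (faceP rot) F ∧ (F.length = 2 → ∀ d ∈ darts F, d ∈ M) ∧
    (F.length ≠ 2 → ∀ d ∈ darts F, Present M d)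

theorem Valid.present_swap {rot : V → Perm V} {M : Finset (V × V)} (h : Valid rot M) {d : V × V}
    (hd : Present M d) : Present M d.swap :=
  ⟨fun e => hd.1 e.symm, fun hm => hd.2 (h.symm _ _ hm)⟩

theorem Valid.digon {rot : V → Perm V} {M : Finset (V × V)} (h : Valid rot M) {x y : V}
    (hxy : (x, y) ∈ M) : faceP rot (x, y) = (y, x) := by
  rw [faceP_apply, h.fix y x (h.symm _ _ hxy)]

variable [DecidableEq V]

/-- insertion of the edge `xy` in the corners after the darts `(a, x)` and `(b, y)`; also deletion
of the edge `xy` if `rot x a = y` and `rot y b = x` -/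
def ins (rot : V → Perm V) (x y a b : V) : V → Perm V :=
  Function.update (Function.update rot x (rot x * swap a y)) y (rot y * swap b x)

theorem ins_x {rot : V → Perm V} {x y a b : V} (hxy : x ≠ y) :
    ins rot x y a b x = rot x * swap a y := by
  rw [ins, Function.update_of_ne hxy, Function.update_self]

theorem ins_y {rot : V → Perm V} {x y a b : V} :
    ins rot x y a b y = rot y * swap b x := by
  rw [ins, Function.update_self]

theorem ins_of_ne {rot : V → Perm V} {x y a b v : V} (h : v ≠ x) (h' : v ≠ y) :
    ins rot x y a b v = rot v := by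
  rw [ins, Function.update_of_ne h', Function.update_of_ne h]

theorem swap_prod_left (p q r u : V) : swap (p, r) (q, r) (u, r) = (swap p q u, r) := by
  by_cases h1 : u = p
  · subst h1; rw [swap_apply_left, swap_apply_left]
  by_cases h2 : u = q
  · subst h2; rw [swap_apply_right, swap_apply_right]
  rw [swap_apply_of_ne_of_ne h1 h2, swap_apply_of_ne_of_ne (by simpa using h1) (by simpa using h2)]

theorem faceP_ins {rot : V → Perm V} {x y a b : V} (hxy : x ≠ y) :
    faceP (ins rot x y a b) = faceP rot * swap (a, x) (y, x) * swap (b, y) (x, y) := by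
  ext1 ⟨u, v⟩
  rw [Perm.mul_apply, Perm.mul_apply]
  by_cases hx : v = x
  · subst hx
    rw [swap_apply_of_ne_of_ne (a := (b, y)) (b := (v, y)) (by simp [hxy]) (by simp [hxy]),
      swap_prod_left, faceP_apply, faceP_apply, ins_x hxy, Perm.mul_apply]
  by_cases hy : v = y
  · subst hy
    rw [swap_prod_left, swap_apply_of_ne_of_ne (a := (a, x)) (b := (v, x)) (by simp [hx])
      (by simp [hx]), faceP_apply, faceP_apply, ins_y, Perm.mul_apply]
  · rw [swap_apply_of_ne_of_ne (a := (b, y)) (b := (x, y)) (by simp [hy]) (by simp [hy]),
      swap_apply_of_ne_of_ne (a := (a, x)) (b := (y, x)) (by simp [hx]) (by simp [hx]),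
      faceP_apply, faceP_apply, ins_of_ne hx hy]

theorem faceP_ins_of_ne {rot : V → Perm V} {x y a b : V} (hxy : x ≠ y) {d : V × V}
    (h1 : d ≠ (a, x)) (h2 : d ≠ (y, x)) (h3 : d ≠ (b, y)) (h4 : d ≠ (x, y)) :
    faceP (ins rot x y a b) d = faceP rot d := by
  rw [faceP_ins hxy, Perm.mul_apply, Perm.mul_apply, swap_apply_of_ne_of_ne h3 h4,
    swap_apply_of_ne_of_ne h1 h2]

theorem faceP_ins_ax {rot : V → Perm V} {x y a b : V} (hxy : x ≠ y) :
    faceP (ins rot x y a b) (a, x) = faceP rot (y, x) := by
  rw [faceP_ins hxy, Perm.mul_apply, Perm.mul_apply,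
    swap_apply_of_ne_of_ne (a := (b, y)) (b := (x, y)) (by simp [hxy]) (by simp [hxy]),
    swap_apply_left]

theorem faceP_ins_yx {rot : V → Perm V} {x y a b : V} (hxy : x ≠ y) :
    faceP (ins rot x y a b) (y, x) = faceP rot (a, x) := by
  rw [faceP_ins hxy, Perm.mul_apply, Perm.mul_apply,
    swap_apply_of_ne_of_ne (a := (b, y)) (b := (x, y)) (by simp [hxy]) (by simp [hxy]),
    swap_apply_right]

theorem faceP_ins_by {rot : V → Perm V} {x y a b : V} (hxy : x ≠ y) :
    faceP (ins rot x y a b) (b, y) = faceP rot (x, y) := by
  rw [faceP_ins hxy, Perm.mul_apply, Perm.mul_apply, swap_apply_left,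
    swap_apply_of_ne_of_ne (a := (a, x)) (b := (y, x)) (by simp [hxy.symm]) (by simp [hxy.symm])]

theorem faceP_ins_xy {rot : V → Perm V} {x y a b : V} (hxy : x ≠ y) :
    faceP (ins rot x y a b) (x, y) = faceP rot (b, y) := by
  rw [faceP_ins hxy, Perm.mul_apply, Perm.mul_apply, swap_apply_right,
    swap_apply_of_ne_of_ne (a := (a, x)) (b := (y, x)) (by simp [hxy.symm]) (by simp [hxy.symm])]

end Empire
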