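import Mathlib
import Pool.Agent.Lib.MP_800721_co.State

/-!
# PROJECT EMPIRE: the rules `chord`, `join`, `del`, frame rule and composition
-/

namespace Empire

open Equiv Equiv.Perm

variable {V : Type*} [DecidableEq V]

/-! ### counting missing darts -/

theorem miss_erase_self {M : Finset (V × V)} {x y : V} (h : (x, y) ∈ M) :
    miss (M.erase (x, y)) x + 1 = miss M x := by
  unfold miss
  have : (M.erase (x, y)).filter (fun d => d.1 = x) = (M.filter (fun d => d.1 = x)).erase (x, y) := by
    ext d; simp only [Finset.mem_filter, Finset.mem_erase]; tauto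
  rw [this, Finset.card_erase_add_one]
  simp [h]

theorem miss_erase_of_ne {M : Finset (V × V)} {x y v : V} (h : v ≠ x) :
    miss (M.erase (x, y)) v = miss M v := by
  unfold miss
  congr 1
  ext d; simp only [Finset.mem_filter, Finset.mem_erase]
  constructor
  · rintro ⟨⟨_, h1⟩, h2⟩; exact ⟨h1, h2⟩
  · rintro ⟨h1, h2⟩
    refine ⟨⟨?_, h1⟩, h2⟩
    rintro rfl
    exact h h2.symm

theorem miss_erase_erase {M : Finset (V × V)} {x y : V} (hxy : x ≠ y) (h : (x, y) ∈ M)
    (h' : (y, x) ∈ M) (v : V) :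
    miss ((M.erase (x, y)).erase (y, x)) v + (if v = x ∨ v = y then 1 else 0) = miss M v := by
  by_cases hx : v = x
  · subst hx
    rw [miss_erase_of_ne hxy, if_pos (Or.inl rfl), miss_erase_self h]
  by_cases hy : v = y
  · subst hy
    rw [if_pos (Or.inr rfl), miss_erase_self, miss_erase_of_ne hx]
    simp [h', hxy.symm]
  · rw [miss_erase_of_ne hy, miss_erase_of_ne hx, if_neg (by tauto), add_zero]

/-! ### steps -/

variable [Finite V]

/-- `(rot', M')` is obtained from `(rot, M)` by changing only the darts of `S` -/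
structure Step (rot : V → Perm V) (M : Finset (V × V)) (rot' : V → Perm V) (M' : Finset (V × V))
    (S : List (V × V)) (a : ℕ) : Prop where
  valid : Valid rot' M'
  out : ∀ d, d ∉ S → faceP rot' d = faceP rot d
  outM : ∀ d, d ∉ S → (d ∈ M' ↔ d ∈ M)
  cnt : ∀ v, cyc (rot' v) + miss M v = cyc (rot v) + miss M' v
  faces : cyc (faceP rot) ≤ cyc (faceP rot') + 2 * a
  conn : Conn rot M → Conn rot' M'

omit [Finite V] in
theorem present_erase {M : Finset (V × V)} {x y : V} (hxy : x ≠ y) {d : V × V} :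
    Present ((M.erase (x, y)).erase (y, x)) d ↔ Present M d ∨ d = (x, y) ∨ d = (y, x) := by
  unfold Present
  simp only [Finset.mem_erase]
  constructor
  · rintro ⟨h1, h2⟩
    by_cases h3 : d = (x, y)
    · exact Or.inr (Or.inl h3)
    by_cases h4 : d = (y, x)
    · exact Or.inr (Or.inr h4)
    · left
      exact ⟨h1, fun h5 => h2 ⟨h4, h3, h5⟩⟩
  · rintro (⟨h1, h2⟩ | rfl | rfl)
    · exact ⟨h1, fun h3 => h2 h3.2.2⟩
    · exact ⟨hxy, fun h => h.2.1 rfl⟩
    · exact ⟨hxy.symm, fun h => h.1 rfl⟩

/-- inserting a missing edge -/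
theorem ins_step {rot : V → Perm V} {M : Finset (V × V)} {x y a b : V} (hv : Valid rot M)
    (hxy : (x, y) ∈ M) (ha : Present M (a, x)) (hb : Present M (b, y)) :
    Valid (ins rot x y a b) ((M.erase (x, y)).erase (y, x)) ∧
    (∀ v, cyc (ins rot x y a b v) + miss M v =
      cyc (rot v) + miss ((M.erase (x, y)).erase (y, x)) v) ∧
    (Conn rot M → Conn (ins rot x y a b) ((M.erase (x, y)).erase (y, x))) := by
  have hne : x ≠ y := hv.ne _ _ hxy
  have hyx : (y, x) ∈ M := hv.symm _ _ hxy
  have hax : a ≠ x := ha.1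
  have hby : b ≠ y := hb.1
  have hay : a ≠ y := by rintro rfl; exact ha.2 hyx
  have hbx : b ≠ x := by rintro rfl; exact hb.2 hxy
  have hfx : rot x y = y := hv.fix _ _ hxy
  have hfy : rot y x = x := hv.fix _ _ hyx
  refine ⟨⟨?_, ?_, ?_, ?_⟩, ?_, ?_⟩
  · intro v
    by_cases hx : v = x
    · subst hx
      rw [ins_x hne, Perm.mul_apply, swap_apply_of_ne_of_ne hax.symm hne, hv.self]
    by_cases hy : v = y
    · subst hy
      rw [ins_y, Perm.mul_apply, swap_apply_of_ne_of_ne hby.symm hne.symm, hv.self]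
    · rw [ins_of_ne hx hy, hv.self]
  · intro c d h
    simp only [Finset.mem_erase, ne_eq, Prod.mk.injEq] at h ⊢
    exact ⟨fun h' => h.2.1 ⟨h'.2, h'.1⟩, fun h' => h.1 ⟨h'.2, h'.1⟩, hv.symm _ _ h.2.2⟩
  · intro c d h
    simp only [Finset.mem_erase] at h
    exact hv.ne _ _ h.2.2
  · intro c d h
    simp only [Finset.mem_erase, ne_eq, Prod.mk.injEq] at h
    obtain ⟨h1, h2, h3⟩ := h
    by_cases hx : c = x
    · subst hx
      have hda : d ≠ a := by
        rintro rfl
        exact ha.2 (hv.symm _ _ h3)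
      rw [ins_x hne, Perm.mul_apply, swap_apply_of_ne_of_ne hda (fun h => h2 ⟨rfl, h⟩),
        hv.fix _ _ h3]
    by_cases hy : c = y
    · subst hy
      have hdb : d ≠ b := by
        rintro rfl
        exact hb.2 (hv.symm _ _ h3)
      rw [ins_y, Perm.mul_apply, swap_apply_of_ne_of_ne hdb (fun h => h1 ⟨rfl, h⟩),
        hv.fix _ _ h3]
    · rw [ins_of_ne hx hy, hv.fix _ _ h3]
  · intro v
    have hm := miss_erase_erase hne hxy hyx v
    by_cases hx : v = x
    · subst hx
      rw [if_pos (Or.inl rfl)] at hm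
      have := cyc_mul_swap_of_fixed hfx hay
      rw [ins_x hne]; omega
    by_cases hy : v = y
    · subst hy
      rw [if_pos (Or.inr rfl)] at hm
      have := cyc_mul_swap_of_fixed hfy hbx
      rw [ins_y]; omega
    · rw [if_neg (by tauto)] at hm
      rw [ins_of_ne hx hy]; omega
  · intro hc f h1 h2
    have pxy : Present ((M.erase (x, y)).erase (y, x)) (x, y) :=
      (present_erase hne).2 (Or.inr (Or.inl rfl))
    have pyx : Present ((M.erase (x, y)).erase (y, x)) (y, x) :=
      (present_erase hne).2 (Or.inr (Or.inr rfl))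
    have e1 : f (x, y) ↔ f (y, x) := h2 _ pxy
    have e2 : f (a, x) ↔ f (x, y) := by
      rw [h1 (a, x) ((present_erase hne).2 (Or.inl ha)), faceP_ins_ax hne, hv.digon hyx]
    have e3 : f (b, y) ↔ f (y, x) := by
      rw [h1 (b, y) ((present_erase hne).2 (Or.inl hb)), faceP_ins_by hne, hv.digon hxy]
    have e4 : f (y, x) ↔ f (faceP rot (a, x)) := by
      rw [h1 (y, x) pyx, faceP_ins_yx hne]
    have e5 : f (x, y) ↔ f (faceP rot (b, y)) := by
      rw [h1 (x, y) pxy, faceP_ins_xy hne]
    have hconst := hc f (by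
      intro d hd
      by_cases d1 : d = (a, x)
      · subst d1; tauto
      by_cases d2 : d = (b, y)
      · subst d2; tauto
      have d3 : d ≠ (x, y) := by rintro rfl; exact hd.2 hxy
      have d4 : d ≠ (y, x) := by rintro rfl; exact hd.2 hyx
      rw [h1 d ((present_erase hne).2 (Or.inl hd)), faceP_ins_of_ne hne d1 d4 d2 d3]) (by
      intro d hd
      exact h2 d ((present_erase hne).2 (Or.inl hd)))
    have hall : ∀ d, Present ((M.erase (x, y)).erase (y, x)) d → (f d ↔ f (a, x)) := by
      intro d hd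
      rcases (present_erase hne).1 hd with h | rfl | rfl
      · exact hconst _ _ h ha
      · exact e2.symm
      · exact (e2.trans e1).symm
    intro d e hd he
    exact (hall d hd).trans (hall e he).symm

theorem cyc_faceP_ins_ge {rot : V → Perm V} {x y a b : V} (hxy : x ≠ y) :
    cyc (faceP rot) ≤ cyc (faceP (ins rot x y a b)) + 2 := by
  classical
  rw [faceP_ins hxy]
  have h1 := cyc_mul_swap_ge (faceP rot) (a, x) (y, x)
  have h2 := cyc_mul_swap_ge (faceP rot * swap (a, x) (y, x)) (b, y) (x, y)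
  omega

/-- insertion of an edge within one face, or deletion of an edge between two faces: the number of
faces does not go down -/
theorem cyc_faceP_ins_chord {rot : V → Perm V} {x y a b : V} (hxy : x ≠ y)
    (h1 : ¬ (faceP rot).SameCycle (a, x) (y, x))
    (h2 : (faceP rot * swap (a, x) (y, x)).SameCycle (b, y) (x, y)) (h3 : b ≠ x) :
    cyc (faceP rot) ≤ cyc (faceP (ins rot x y a b)) := by
  classical
  rw [faceP_ins hxy]
  have h4 := cyc_mul_swap_of_not h1
  have h5 := cyc_mul_swap_of (a := (b, y)) (b := (x, y)) (by simp [h3]) h2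
  omega

/-! ### reachability -/

/-- Every valid state with the faces `R` can be changed, on the darts of `R` only, into a state
with the faces `R'`, using at most `a` handles. -/
def Reach (R R' : List (List V)) (a : ℕ) : Prop :=
  ∀ (rot : V → Perm V) (M : Finset (V × V)), Valid rot M → Holds rot M R →
    (R.flatMap darts).Nodup → ∃ (rot' : V → Perm V) (M' : Finset (V × V)),
      Holds rot' M' R' ∧ (R'.flatMap darts).Perm (R.flatMap darts) ∧
        Step rot M rot' M' (R.flatMap darts) a

omit [Finite V] in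
theorem Reach.refl (R : List (List V)) : Reach R R 0 := by
  intro rot M hv hR _
  exact ⟨rot, M, hR, List.Perm.refl _, ⟨hv, fun _ _ => rfl, fun _ _ => Iff.rfl, fun _ => rfl,
    by omega, id⟩⟩

omit [Finite V] in
theorem Reach.trans {R R' R'' : List (List V)} {a b : ℕ} (h1 : Reach R R' a) (h2 : Reach R' R'' b) :
    Reach R R'' (a + b) := by
  intro rot M hv hR hn
  obtain ⟨rot', M', hR', hp, hs⟩ := h1 rot M hv hR hn
  obtain ⟨rot'', M'', hR'', hp', hs'⟩ := h2 rot' M' hs.valid hR' (hp.nodup_iff.2 hn)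
  refine ⟨rot'', M'', hR'', hp'.trans hp, ⟨hs'.valid, ?_, ?_, ?_, ?_, ?_⟩⟩
  · intro d hd
    rw [hs'.out d (fun h => hd (hp.mem_iff.1 h)), hs.out d hd]
  · intro d hd
    rw [hs'.outM d (fun h => hd (hp.mem_iff.1 h)), hs.outM d hd]
  · intro v
    have := hs.cnt v
    have := hs'.cnt v
    omega
  · have := hs.faces
    have := hs'.faces
    omega
  · exact fun h => hs'.conn (hs.conn h)

omit [DecidableEq V] [Finite V] in
theorem holds_append {rot : V → Perm V} {M : Finset (V × V)} {R S : List (List V)} :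
    Holds rot M (R ++ S) ↔ Holds rot M R ∧ Holds rot M S := by
  unfold Holds
  constructor
  · intro h
    exact ⟨fun F hF => h F (List.mem_append_left _ hF), fun F hF => h F (List.mem_append_right _ hF)⟩
  · rintro ⟨h1, h2⟩ F hF
    rcases List.mem_append.1 hF with h | h
    · exact h1 F h
    · exact h2 F h

omit [DecidableEq V] [Finite V] in
theorem holds_congr {rot rot' : V → Perm V} {M M' : Finset (V × V)} {S : List (List V)}
    (h : Holds rot M S) (h1 : ∀ F ∈ S, ∀ d ∈ darts F, faceP rot' d = faceP rot d)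
    (h2 : ∀ F ∈ S, ∀ d ∈ darts F, (d ∈ M' ↔ d ∈ M)) : Holds rot' M' S := by
  intro F hF
  obtain ⟨h3, h4, h5⟩ := h F hF
  refine ⟨isFace_congr h3 (h1 F hF), ?_, ?_⟩
  · intro hl d hd
    exact (h2 F hF d hd).2 (h4 hl d hd)
  · intro hl d hd
    exact ⟨(h5 hl d hd).1, fun h => (h5 hl d hd).2 ((h2 F hF d hd).1 h)⟩

omit [Finite V] in
/-- frame rule -/
theorem Reach.frame {R R' : List (List V)} {a : ℕ} (h : Reach R R' a) (S : List (List V)) :
    Reach (R ++ S) (R' ++ S) a := by
  intro rot M hv hR hn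
  rw [List.flatMap_append] at hn
  rw [holds_append] at hR
  have hn' := List.nodup_append.1 hn
  obtain ⟨rot', M', hR', hp, hs⟩ := h rot M hv hR.1 hn'.1
  have hdis : ∀ F ∈ S, ∀ d ∈ darts F, d ∉ R.flatMap darts := by
    intro F hF d hd hd'
    exact hn'.2.2 d hd' d (List.mem_flatMap.2 ⟨F, hF, hd⟩) rfl
  refine ⟨rot', M', holds_append.2 ⟨hR', ?_⟩, ?_, ⟨hs.valid, ?_, ?_, hs.cnt, hs.faces, hs.conn⟩⟩
  · exact holds_congr hR.2 (fun F hF d hd => hs.out d (hdis F hF d hd))
      (fun F hF d hd => hs.outM d (hdis F hF d hd))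
  · rw [List.flatMap_append, List.flatMap_append]
    exact hp.append_right _
  · intro d hd
    rw [List.flatMap_append] at hd
    exact hs.out d fun h => hd (List.mem_append_left _ h)
  · intro d hd
    rw [List.flatMap_append] at hd
    exact hs.outM d fun h => hd (List.mem_append_left _ h)

omit [Finite V] in
/-- permutations of the resource lists -/
theorem Reach.perm {R R' S S' : List (List V)} {a : ℕ} (h : Reach R R' a) (h1 : S.Perm R)
    (h2 : R'.Perm S') : Reach S S' a := by
  intro rot M hv hR hn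
  have hp1 : (S.flatMap darts).Perm (R.flatMap darts) := h1.flatMap_right _
  obtain ⟨rot', M', hR', hp, hs⟩ := h rot M hv (fun F hF => hR F (h1.mem_iff.2 hF))
    (hp1.nodup_iff.1 hn)
  have hp2 : (S'.flatMap darts).Perm (R'.flatMap darts) := (h2.flatMap_right _).symm
  refine ⟨rot', M', fun F hF => hR' F (h2.mem_iff.2 hF), hp2.trans (hp.trans hp1.symm),
    ⟨hs.valid, ?_, ?_, hs.cnt, hs.faces, hs.conn⟩⟩
  · intro d hd
    exact hs.out d fun h => hd (hp1.mem_iff.2 h)
  · intro d hd
    exact hs.outM d fun h => hd (hp1.mem_iff.2 h)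

omit [Finite V] in
theorem Reach.mono {R R' : List (List V)} {a b : ℕ} (h : Reach R R' a) (hab : a ≤ b) :
    Reach R R' b := by
  intro rot M hv hR hn
  obtain ⟨rot', M', hR', hp, hs⟩ := h rot M hv hR hn
  exact ⟨rot', M', hR', hp, ⟨hs.valid, hs.out, hs.outM, hs.cnt, by have := hs.faces; omega, hs.conn⟩⟩

omit [Finite V] in
/-- parallel composition -/
theorem Reach.append {R R' S S' : List (List V)} {a b : ℕ} (h1 : Reach R R' a) (h2 : Reach S S' b) :
    Reach (R ++ S) (R' ++ S') (a + b) :=
  (h1.frame S).trans ((h2.frame R').perm List.perm_append_comm List.perm_append_comm)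

end Empire
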