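import Mathlib
import Pool.Agent.Lib.MP_800721_co.Rules

/-!
# PROJECT EMPIRE: the rules `chord`, `join`, `del`
-/

namespace Empire

open Equiv Equiv.Perm

variable {V : Type*} [DecidableEq V] [Finite V]

omit [DecidableEq V] [Finite V] in
theorem two_flat (F G : List V) : ([F, G] : List (List V)).flatMap darts = darts F ++ darts G := by
  simp

omit [DecidableEq V] [Finite V] in
theorem three_flat (F G H : List V) :
    ([F, G, H] : List (List V)).flatMap darts = darts F ++ (darts G ++ darts H) := by
  simp

omit [DecidableEq V] [Finite V] in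
theorem darts_pair (x y : V) : darts [x, y] = [(x, y), (y, x)] := rfl

omit [DecidableEq V] [Finite V] in
theorem holds_two {rot : V → Perm V} {M : Finset (V × V)} {F G : List V} :
    Holds rot M [F, G] ↔ Holds rot M [F] ∧ Holds rot M [G] := by
  rw [← holds_append]; rfl

omit [DecidableEq V] [Finite V] in
theorem holds_one {rot : V → Perm V} {M : Finset (V × V)} {F : List V} :
    Holds rot M [F] ↔ IsFace (faceP rot) F ∧ (F.length = 2 → ∀ d ∈ darts F, d ∈ M) ∧
    (F.length ≠ 2 → ∀ d ∈ darts F, Present M d) := by
  simp [Holds]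

/-- insertion of a missing edge within a face -/
theorem Reach.chord (x : V) (A : List V) (y : V) (B : List V) :
    Reach [x :: (A ++ y :: B), [x, y]] [x :: (A ++ [y]), y :: (B ++ [x])] 0 := by
  intro rot M hv hR hn
  have hfl : ([x :: (A ++ y :: B), [x, y]] : List (List V)).flatMap darts =
      walk x A y ++ walk y B x ++ [(x, y), (y, x)] := by
    rw [two_flat, darts_split, darts_pair]
  rw [hfl] at hn ⊢
  set W1 := walk x A y with hW1
  set W2 := walk y B x with hW2
  rw [holds_two, holds_one, holds_one] at hR
  obtain ⟨⟨hf, -, hpr⟩, ⟨-, hmi, -⟩⟩ := hR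
  have hxy : (x, y) ∈ M := hmi rfl _ (by simp [darts_pair])
  have hyx : (y, x) ∈ M := hv.symm _ _ hxy
  have hne : x ≠ y := hv.ne _ _ hxy
  rw [isFace_split] at hf
  obtain ⟨c1, c2, f1, f2⟩ := hf
  have hn12 := List.nodup_append.1 hn
  have hn1 := List.nodup_append.1 hn12.1
  have nW1 : W1.Nodup := hn1.1
  have nW2 : W2.Nodup := hn1.2.1
  have dis : ∀ d ∈ W1, d ∉ W2 := fun d h1 h2 => hn1.2.2 d h1 d h2 rfl
  have n1 : (x, y) ∉ W1 := fun h => hn12.2.2 _ (List.mem_append_left _ h) (x, y) (by simp) rfl
  have n2 : (x, y) ∉ W2 := fun h => hn12.2.2 _ (List.mem_append_right _ h) (x, y) (by simp) rfl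
  have n3 : (y, x) ∉ W1 := fun h => hn12.2.2 _ (List.mem_append_left _ h) (y, x) (by simp) rfl
  have n4 : (y, x) ∉ W2 := fun h => hn12.2.2 _ (List.mem_append_right _ h) (y, x) (by simp) rfl
  have hA : A ≠ [] := by
    rintro rfl
    exact n1 (by simp [hW1, walk])
  have hB : B ≠ [] := by
    rintro rfl
    exact n4 (by simp [hW2, walk])
  set b := A.getLastD x with hb
  set a := B.getLastD y with ha
  have mb : (b, y) ∈ W1 := getLast_mem_walk x A y
  have ma : (a, x) ∈ W2 := getLast_mem_walk y B x
  have hlen : (x :: (A ++ y :: B)).length ≠ 2 := by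
    have := List.length_pos_iff.2 hA
    have := List.length_pos_iff.2 hB
    simp only [List.length_cons, List.length_append]
    omega
  have hpr' := hpr hlen
  rw [darts_split] at hpr'
  have pa : Present M (a, x) := hpr' _ (List.mem_append_right _ ma)
  have pb : Present M (b, y) := hpr' _ (List.mem_append_left _ mb)
  obtain ⟨hv', hcnt, hconn⟩ := ins_step (a := a) (b := b) hv hxy pa pb
  set rot' := ins rot x y a b with hrot'
  set M' := (M.erase (x, y)).erase (y, x) with hM'
  have out4 : ∀ d, d ≠ (a, x) → d ≠ (y, x) → d ≠ (b, y) → d ≠ (x, y) →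
      faceP rot' d = faceP rot d := fun d h1 h2 h3 h4 => faceP_ins_of_ne hne h1 h2 h3 h4
  have eax : faceP rot' (a, x) = (x, y) := by rw [hrot', faceP_ins_ax hne, hv.digon hyx]
  have eby : faceP rot' (b, y) = (y, x) := by rw [hrot', faceP_ins_by hne, hv.digon hxy]
  have eyx : faceP rot' (y, x) = (x, A.headD y) := by rw [hrot', faceP_ins_yx hne, f2]
  have exy : faceP rot' (x, y) = (y, B.headD x) := by rw [hrot', faceP_ins_xy hne, f1]
  have c1' : Chn (faceP rot') W1 := by
    refine chn_congr c1 ?_ nW1
    intro d hd hl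
    refine out4 d ?_ ?_ ?_ ?_
    · rintro rfl; exact dis _ hd ma
    · rintro rfl; exact n3 hd
    · rintro rfl; exact hl (walk_getLast? x A y).symm
    · rintro rfl; exact n1 hd
  have c2' : Chn (faceP rot') W2 := by
    refine chn_congr c2 ?_ nW2
    intro d hd hl
    refine out4 d ?_ ?_ ?_ ?_
    · rintro rfl; exact hl (walk_getLast? y B x).symm
    · rintro rfl; exact n4 hd
    · rintro rfl; exact dis _ mb hd
    · rintro rfl; exact n2 hd
  have d1 : darts (x :: (A ++ [y])) = W1 ++ [(y, x)] := darts_split x A y []
  have d2 : darts (y :: (B ++ [x])) = W2 ++ [(x, y)] := darts_split y B x []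
  have hpres' : ∀ d, Present M' d ↔ Present M d ∨ d = (x, y) ∨ d = (y, x) :=
    fun d => present_erase hne
  refine ⟨rot', M', ?_, ?_, ⟨hv', ?_, ?_, hcnt, ?_, hconn⟩⟩
  · rw [holds_two, holds_one, holds_one, d1, d2]
    refine ⟨⟨?_, ?_, ?_⟩, ?_, ?_, ?_⟩
    · rw [isFace_split]
      exact ⟨c1', List.isChain_singleton _, eby, eyx⟩
    · intro h
      exfalso
      have := List.length_pos_iff.2 hA
      simp only [List.length_cons, List.length_append, List.length_nil] at h
      omega
    · intro _ d hd
      rw [hpres']
      rcases List.mem_append.1 hd with h | h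
      · exact Or.inl (hpr' d (List.mem_append_left _ h))
      · exact Or.inr (Or.inr (by simpa using h))
    · rw [isFace_split]
      exact ⟨c2', List.isChain_singleton _, eax, exy⟩
    · intro h
      exfalso
      have := List.length_pos_iff.2 hB
      simp only [List.length_cons, List.length_append, List.length_nil] at h
      omega
    · intro _ d hd
      rw [hpres']
      rcases List.mem_append.1 hd with h | h
      · exact Or.inl (hpr' d (List.mem_append_right _ h))
      · exact Or.inr (Or.inl (by simpa using h))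
  · rw [two_flat, d1, d2]
    rw [List.perm_iff_count]
    intro d
    simp only [List.count_append, List.count_cons, List.count_nil]
    omega
  · intro d hd
    simp only [List.mem_append, List.mem_cons, List.not_mem_nil, or_false, not_or] at hd
    obtain ⟨⟨h1, h2⟩, h3, h4⟩ := hd
    refine out4 d ?_ h4 ?_ h3
    · rintro rfl; exact h2 ma
    · rintro rfl; exact h1 mb
  · intro d hd
    simp only [List.mem_append, List.mem_cons, List.not_mem_nil, or_false, not_or] at hd
    obtain ⟨-, h3, h4⟩ := hd
    simp [hM', Finset.mem_erase, h3, h4]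
  · have hsame : (faceP rot).SameCycle (b, y) (a, x) := by
      have hF : IsFace (faceP rot) (x :: (A ++ y :: B)) := isFace_split.2 ⟨c1, c2, f1, f2⟩
      refine face_sameCycle hF ?_ ?_
      · rw [darts_split]; exact List.mem_append_left _ mb
      · rw [darts_split]; exact List.mem_append_right _ ma
    have hdig : (faceP rot).SameCycle (x, y) (y, x) := by
      rw [← hv.digon hxy]
      exact sameCycle_apply_right.2 (SameCycle.refl _ _)
    have hnot : ¬ (faceP rot).SameCycle (a, x) (y, x) := by
      intro hs
      have hD : IsFace (faceP rot) [x, y] :=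
        ⟨List.isChain_cons_cons.2 ⟨hv.digon hxy, List.isChain_singleton _⟩, hv.digon hyx⟩
      have := face_closed hD (d := (y, x)) (e := (a, x)) (by simp [darts_pair]) hs.symm
      simp only [darts_pair, List.mem_cons, List.not_mem_nil, or_false] at this
      rcases this with h | h
      · exact n2 (h ▸ ma)
      · exact n4 (h ▸ ma)
    rw [mul_zero, add_zero]
    refine cyc_faceP_ins_chord hne hnot ?_ ?_
    · rw [sameCycle_mul_swap_iff hnot]
      exact Or.inr ⟨Or.inl hsame, Or.inr hdig⟩
    · rintro h
      rw [h] at mb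
      exact n1 mb

/-- a handle between two faces, carrying a missing edge -/
theorem Reach.join (x : V) (A : List V) (y : V) (B : List V) (hA1 : A.length ≠ 1)
    (hB1 : B.length ≠ 1) :
    Reach [x :: A, y :: B, [x, y]] [x :: (A ++ x :: y :: (B ++ [y]))] 1 := by
  intro rot M hv hR hn
  have hfl : ([x :: A, y :: B, [x, y]] : List (List V)).flatMap darts =
      walk x A x ++ (walk y B y ++ [(x, y), (y, x)]) := by
    rw [three_flat, darts_pair]
    rfl
  rw [hfl] at hn ⊢
  set W1 := walk x A x with hW1
  set W2 := walk y B y with hW2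
  have hR1 := hR (x :: A) (by simp)
  have hR2 := hR (y :: B) (by simp)
  have hR3 := hR [x, y] (by simp)
  obtain ⟨hf1, -, hpr1⟩ := hR1
  obtain ⟨hf2, -, hpr2⟩ := hR2
  obtain ⟨-, hmi, -⟩ := hR3
  have hxy : (x, y) ∈ M := hmi rfl _ (by simp [darts_pair])
  have hyx : (y, x) ∈ M := hv.symm _ _ hxy
  have hne : x ≠ y := hv.ne _ _ hxy
  obtain ⟨c1, f1⟩ := hf1
  obtain ⟨c2, f2⟩ := hf2
  have hn12 := List.nodup_append.1 hn
  have hn1 := List.nodup_append.1 hn12.2.1
  have nW1 : W1.Nodup := hn12.1
  have nW2 : W2.Nodup := hn1.1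
  have dis : ∀ d ∈ W1, d ∉ W2 := fun d h1 h2 => hn12.2.2 d h1 d (List.mem_append_left _ h2) rfl
  have n1 : (x, y) ∉ W1 := fun h => hn12.2.2 _ h (x, y) (by simp) rfl
  have n2 : (x, y) ∉ W2 := fun h => hn1.2.2 _ h (x, y) (by simp) rfl
  have n3 : (y, x) ∉ W1 := fun h => hn12.2.2 _ h (y, x) (by simp) rfl
  have n4 : (y, x) ∉ W2 := fun h => hn1.2.2 _ h (y, x) (by simp) rfl
  set a := A.getLastD x with ha
  set b := B.getLastD y with hb
  have ma : (a, x) ∈ W1 := getLast_mem_walk x A x
  have mb : (b, y) ∈ W2 := getLast_mem_walk y B y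
  have hlen1 : (x :: A).length ≠ 2 := by simp only [List.length_cons]; omega
  have hlen2 : (y :: B).length ≠ 2 := by simp only [List.length_cons]; omega
  have hpr1' := hpr1 hlen1
  have hpr2' := hpr2 hlen2
  have pa : Present M (a, x) := hpr1' _ ma
  have pb : Present M (b, y) := hpr2' _ mb
  obtain ⟨hv', hcnt, hconn⟩ := ins_step (a := a) (b := b) hv hxy pa pb
  set rot' := ins rot x y a b with hrot'
  set M' := (M.erase (x, y)).erase (y, x) with hM'
  have out4 : ∀ d, d ≠ (a, x) → d ≠ (y, x) → d ≠ (b, y) → d ≠ (x, y) →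
      faceP rot' d = faceP rot d := fun d h1 h2 h3 h4 => faceP_ins_of_ne hne h1 h2 h3 h4
  have eax : faceP rot' (a, x) = (x, y) := by rw [hrot', faceP_ins_ax hne, hv.digon hyx]
  have eby : faceP rot' (b, y) = (y, x) := by rw [hrot', faceP_ins_by hne, hv.digon hxy]
  have eyx : faceP rot' (y, x) = (x, A.headD x) := by rw [hrot', faceP_ins_yx hne, f1]
  have exy : faceP rot' (x, y) = (y, B.headD y) := by rw [hrot', faceP_ins_xy hne, f2]
  have c1' : Chn (faceP rot') W1 := by
    refine chn_congr c1 ?_ nW1
    intro d hd hl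
    refine out4 d ?_ ?_ ?_ ?_
    · rintro rfl; exact hl (walk_getLast? x A x).symm
    · rintro rfl; exact n3 hd
    · rintro rfl; exact dis _ hd mb
    · rintro rfl; exact n1 hd
  have c2' : Chn (faceP rot') W2 := by
    refine chn_congr c2 ?_ nW2
    intro d hd hl
    refine out4 d ?_ ?_ ?_ ?_
    · rintro rfl; exact dis _ ma hd
    · rintro rfl; exact n4 hd
    · rintro rfl; exact hl (walk_getLast? y B y).symm
    · rintro rfl; exact n2 hd
  have d1 : darts (x :: (A ++ x :: y :: (B ++ [y]))) = W1 ++ (x, y) :: (W2 ++ [(y, x)]) := by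
    rw [darts_split, walk, walk_append]
    rfl
  have hpres' : ∀ d, Present M' d ↔ Present M d ∨ d = (x, y) ∨ d = (y, x) :=
    fun d => present_erase hne
  refine ⟨rot', M', ?_, ?_, ⟨hv', ?_, ?_, hcnt, ?_, hconn⟩⟩
  · rw [holds_one, d1]
    refine ⟨?_, ?_, ?_⟩
    · rw [isFace_split]
      refine ⟨c1', ?_, ?_, ?_⟩
      · rw [walk, Chn]
        have hlast : Chn (faceP rot') (walk y (B ++ [y]) x) := by
          rw [chn_walk_append]
          exact ⟨c2', List.isChain_singleton _, by rw [eby]; rfl⟩
        rcases hw : walk y (B ++ [y]) x with _ | ⟨e, w⟩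
        · exact absurd hw (walk_ne_nil _ _ _)
        · rw [List.isChain_cons_cons, ← hw]
          refine ⟨?_, hlast⟩
          have h1 := walk_head? y (B ++ [y]) x
          rw [hw, List.head?_cons, Option.some.injEq] at h1
          rw [exy, h1, headD_append_cons]
      · exact eax
      · rw [List.getLastD_cons, getLastD_append_cons]
        exact eyx
    · intro h
      exfalso
      simp only [List.length_cons, List.length_append, List.length_nil] at h
      omega
    · intro _ d hd
      rw [hpres']
      rcases List.mem_append.1 hd with h | h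
      · exact Or.inl (hpr1' d h)
      · rcases List.mem_cons.1 h with h | h
        · exact Or.inr (Or.inl h)
        · rcases List.mem_append.1 h with h | h
          · exact Or.inl (hpr2' d h)
          · exact Or.inr (Or.inr (by simpa using h))
  · have : ([x :: (A ++ x :: y :: (B ++ [y]))] : List (List V)).flatMap darts
        = darts (x :: (A ++ x :: y :: (B ++ [y]))) := by simp
    rw [this, d1, List.perm_iff_count]
    intro d
    simp only [List.count_append, List.count_cons, List.count_nil]
    omega
  · intro d hd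
    simp only [List.mem_append, List.mem_cons, List.not_mem_nil, or_false, not_or] at hd
    obtain ⟨h1, h2, h3, h4⟩ := hd
    refine out4 d ?_ h4 ?_ h3
    · rintro rfl; exact h1 ma
    · rintro rfl; exact h2 mb
  · intro d hd
    simp only [List.mem_append, List.mem_cons, List.not_mem_nil, or_false, not_or] at hd
    obtain ⟨-, -, h3, h4⟩ := hd
    simp [hM', Finset.mem_erase, h3, h4]
  · rw [mul_one]
    exact cyc_faceP_ins_ge hne

/-! ### deleting an edge between two faces -/

omit [Finite V] in
theorem miss_insert_self {M : Finset (V × V)} {x y : V} (h : (x, y) ∉ M) :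
    miss (insert (x, y) M) x = miss M x + 1 := by
  have := miss_erase_self (M := insert (x, y) M) (x := x) (y := y) (Finset.mem_insert_self _ _)
  rw [Finset.erase_insert h] at this
  exact this.symm

omit [Finite V] in
theorem miss_insert_of_ne {M : Finset (V × V)} {x y v : V} (h : v ≠ x) :
    miss (insert (x, y) M) v = miss M v := by
  unfold miss
  congr 1
  ext d; simp only [Finset.mem_filter, Finset.mem_insert]
  constructor
  · rintro ⟨h1 | h1, h2⟩
    · subst h1; exact absurd h2.symm h
    · exact ⟨h1, h2⟩
  · rintro ⟨h1, h2⟩; exact ⟨Or.inr h1, h2⟩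

omit [Finite V] in
theorem miss_insert_insert {M : Finset (V × V)} {x y : V} (hxy : x ≠ y) (h : (x, y) ∉ M)
    (h' : (y, x) ∉ M) (v : V) :
    miss (insert (x, y) (insert (y, x) M)) v = miss M v + (if v = x ∨ v = y then 1 else 0) := by
  by_cases hx : v = x
  · subst hx
    rw [if_pos (Or.inl rfl), miss_insert_self, miss_insert_of_ne hxy]
    simp [h, hxy]
  by_cases hy : v = y
  · subst hy
    rw [if_pos (Or.inr rfl), miss_insert_of_ne hx, miss_insert_self h']
  · rw [miss_insert_of_ne hx, miss_insert_of_ne hy, if_neg (by tauto), add_zero]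

omit [DecidableEq V] [Finite V] in
theorem chn_inv {φ : Perm (V × V)} {l : List (V × V)} {f : V × V → Prop} (h : Chn φ l)
    (hf : ∀ d ∈ l, f d ↔ f (φ d)) {d e : V × V} (hd : d ∈ l) (he : some e = l.head?) :
    f e ↔ f d := by
  induction l generalizing e with
  | nil => simp at hd
  | cons a l ih =>
    simp only [List.head?_cons, Option.some.injEq] at he
    subst he
    rcases List.mem_cons.1 hd with rfl | hd'
    · exact Iff.rfl
    · cases l with
      | nil => simp at hd'
      | cons b l =>
        have h' := h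
        unfold Chn at h'
        rw [List.isChain_cons_cons] at h'
        have := ih h'.2 (fun d hd => hf d (List.mem_cons_of_mem _ hd)) hd' (e := b) (by simp)
        rw [hf e (by simp), h'.1]
        exact this

/-- deletion of an edge between two faces -/
theorem Reach.del (x : V) (A : List V) (y : V) (B : List V) (hA : A ≠ []) (hB : B ≠ []) :
    Reach [x :: (A ++ [y]), y :: (B ++ [x])] [x :: (A ++ y :: B), [x, y]] 0 := by
  intro rot M hv hR hn
  have d1 : darts (x :: (A ++ [y])) = walk x A y ++ [(y, x)] := darts_split x A y []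
  have d2 : darts (y :: (B ++ [x])) = walk y B x ++ [(x, y)] := darts_split y B x []
  have hfl : ([x :: (A ++ [y]), y :: (B ++ [x])] : List (List V)).flatMap darts =
      (walk x A y ++ [(y, x)]) ++ (walk y B x ++ [(x, y)]) := by
    rw [two_flat, d1, d2]
  rw [hfl] at hn ⊢
  rw [holds_two, holds_one, holds_one, d1, d2] at hR
  set W1 := walk x A y with hW1
  set W2 := walk y B x with hW2
  obtain ⟨⟨hf1, -, hpr1⟩, ⟨hf2, -, hpr2⟩⟩ := hR
  have lA := List.length_pos_iff.2 hA
  have lB := List.length_pos_iff.2 hB
  have hpr1' := hpr1 (by simp only [List.length_cons, List.length_append, List.length_nil]; omega)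
  have hpr2' := hpr2 (by simp only [List.length_cons, List.length_append, List.length_nil]; omega)
  rw [isFace_split] at hf1 hf2
  obtain ⟨c1, -, f1, f2⟩ := hf1
  obtain ⟨c2, -, f3, f4⟩ := hf2
  simp only [List.getLastD_nil, List.headD_nil] at f1 f2 f3 f4
  have hn12 := List.nodup_append.1 hn
  have hn1 := List.nodup_append.1 hn12.1
  have hn2 := List.nodup_append.1 hn12.2.1
  have nW1 : W1.Nodup := hn1.1
  have nW2 : W2.Nodup := hn2.1
  have dis : ∀ d ∈ W1, d ∉ W2 := fun d h1 h2 =>
    hn12.2.2 d (List.mem_append_left _ h1) d (List.mem_append_left _ h2) rfl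
  have n1 : (x, y) ∉ W1 := fun h => hn12.2.2 _ (List.mem_append_left _ h) (x, y) (by simp) rfl
  have n2 : (x, y) ∉ W2 := fun h => hn2.2.2 _ h (x, y) (by simp) rfl
  have n3 : (y, x) ∉ W1 := fun h => hn1.2.2 _ h (y, x) (by simp) rfl
  have n4 : (y, x) ∉ W2 := fun h =>
    hn12.2.2 (y, x) (by simp) (y, x) (List.mem_append_left _ h) rfl
  have pxy : Present M (x, y) := hpr2' _ (by simp)
  have pyx : Present M (y, x) := hpr1' _ (by simp)
  have hne : x ≠ y := pxy.1
  set b := A.getLastD x with hb
  set a := B.getLastD y with ha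
  have mb : (b, y) ∈ W1 := getLast_mem_walk x A y
  have ma : (a, x) ∈ W2 := getLast_mem_walk y B x
  have pa : Present M (a, x) := hpr2' _ (List.mem_append_left _ ma)
  have pb : Present M (b, y) := hpr1' _ (List.mem_append_left _ mb)
  have hay : a ≠ y := by intro h; rw [h] at ma; exact n4 ma
  have hbx : b ≠ x := by intro h; rw [h] at mb; exact n1 mb
  have hra : rot x a = y := by
    have := f3
    rw [faceP_apply] at this
    exact (Prod.mk.inj this).2
  have hrb : rot y b = x := by
    have := f1
    rw [faceP_apply] at this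
    exact (Prod.mk.inj this).2
  set rot' := ins rot x y a b with hrot'
  set M' := insert (x, y) (insert (y, x) M) with hM'
  have out4 : ∀ d, d ≠ (a, x) → d ≠ (y, x) → d ≠ (b, y) → d ≠ (x, y) →
      faceP rot' d = faceP rot d := fun d h1 h2 h3 h4 => faceP_ins_of_ne hne h1 h2 h3 h4
  have eax : faceP rot' (a, x) = (x, A.headD y) := by rw [hrot', faceP_ins_ax hne, f2]
  have eby : faceP rot' (b, y) = (y, B.headD x) := by rw [hrot', faceP_ins_by hne, f4]
  have eyx : faceP rot' (y, x) = (x, y) := by rw [hrot', faceP_ins_yx hne, f3]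
  have exy : faceP rot' (x, y) = (y, x) := by rw [hrot', faceP_ins_xy hne, f1]
  have c1' : Chn (faceP rot') W1 := by
    refine chn_congr c1 ?_ nW1
    intro d hd hl
    refine out4 d ?_ ?_ ?_ ?_
    · rintro rfl; exact dis _ hd ma
    · rintro rfl; exact n3 hd
    · rintro rfl; exact hl (walk_getLast? x A y).symm
    · rintro rfl; exact n1 hd
  have c2' : Chn (faceP rot') W2 := by
    refine chn_congr c2 ?_ nW2
    intro d hd hl
    refine out4 d ?_ ?_ ?_ ?_
    · rintro rfl; exact hl (walk_getLast? y B x).symm
    · rintro rfl; exact n4 hd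
    · rintro rfl; exact dis _ mb hd
    · rintro rfl; exact n2 hd
  have hpres' : ∀ d, Present M' d ↔ Present M d ∧ d ≠ (x, y) ∧ d ≠ (y, x) := by
    intro d
    simp only [Present, hM', Finset.mem_insert, not_or]
    tauto
  have hM1 : (x, y) ∉ M := pxy.2
  have hM2 : (y, x) ∉ M := pyx.2
  have hv' : Valid rot' M' := by
    refine ⟨?_, ?_, ?_, ?_⟩
    · intro v
      by_cases hx : v = x
      · subst hx
        rw [hrot', ins_x hne, Perm.mul_apply, swap_apply_of_ne_of_ne pa.1.symm hne, hv.self]
      by_cases hy : v = y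
      · subst hy
        rw [hrot', ins_y, Perm.mul_apply, swap_apply_of_ne_of_ne pb.1.symm hne.symm, hv.self]
      · rw [hrot', ins_of_ne hx hy, hv.self]
    · intro c d h
      simp only [hM', Finset.mem_insert, Prod.mk.injEq] at h ⊢
      rcases h with h | h | h
      · exact Or.inr (Or.inl ⟨h.2, h.1⟩)
      · exact Or.inl ⟨h.2, h.1⟩
      · exact Or.inr (Or.inr (hv.symm _ _ h))
    · intro c d h
      simp only [hM', Finset.mem_insert, Prod.mk.injEq] at h
      rcases h with ⟨rfl, rfl⟩ | ⟨rfl, rfl⟩ | h
      · exact hne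
      · exact hne.symm
      · exact hv.ne _ _ h
    · intro c d h
      simp only [hM', Finset.mem_insert, Prod.mk.injEq] at h
      by_cases hx : c = x
      · subst hx
        rw [hrot', ins_x hne, Perm.mul_apply]
        by_cases hd : d = y
        · subst hd
          rw [swap_apply_right, hra]
        · have h3 : (c, d) ∈ M := by
            rcases h with h | h | h
            · exact absurd h.2 hd
            · exact absurd h.1 hne
            · exact h
          have hda : d ≠ a := by
            rintro rfl
            exact pa.2 (hv.symm _ _ h3)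
          rw [swap_apply_of_ne_of_ne hda hd, hv.fix _ _ h3]
      by_cases hy : c = y
      · subst hy
        rw [hrot', ins_y, Perm.mul_apply]
        by_cases hd : d = x
        · subst hd
          rw [swap_apply_right, hrb]
        · have h3 : (c, d) ∈ M := by
            rcases h with h | h | h
            · exact absurd h.1 hx
            · exact absurd h.2 hd
            · exact h
          have hdb : d ≠ b := by
            rintro rfl
            exact pb.2 (hv.symm _ _ h3)
          rw [swap_apply_of_ne_of_ne hdb hd, hv.fix _ _ h3]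
      · have h3 : (c, d) ∈ M := by
          rcases h with h | h | h
          · exact absurd h.1 hx
          · exact absurd h.1 hy
          · exact h
        rw [hrot', ins_of_ne hx hy, hv.fix _ _ h3]
  have hcnt : ∀ v, cyc (rot' v) + miss M v = cyc (rot v) + miss M' v := by
    intro v
    have hm := miss_insert_insert hne hM1 hM2 v
    rw [← hM'] at hm
    by_cases hx : v = x
    · subst hx
      rw [if_pos (Or.inl rfl)] at hm
      have hs : (rot v).SameCycle a y := by
        rw [← hra]; exact sameCycle_apply_right.2 (SameCycle.refl _ _)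
      have := cyc_mul_swap_of hay hs
      rw [hrot', ins_x hne]; omega
    by_cases hy : v = y
    · subst hy
      rw [if_pos (Or.inr rfl)] at hm
      have hs : (rot v).SameCycle b x := by
        rw [← hrb]; exact sameCycle_apply_right.2 (SameCycle.refl _ _)
      have := cyc_mul_swap_of hbx hs
      rw [hrot', ins_y]; omega
    · rw [if_neg (by tauto)] at hm
      rw [hrot', ins_of_ne hx hy]; omega
  have hconn : Conn rot M → Conn rot' M' := by
    classical
    intro hc f h1 h2
    have w1 : ∀ d ∈ W1, f (x, A.headD y) ↔ f d := by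
      intro d hd
      refine chn_inv c1' ?_ hd (walk_head? x A y).symm
      intro d hd
      refine h1 d ((hpres' d).2 ⟨hpr1' d (List.mem_append_left _ hd), ?_, ?_⟩)
      · rintro rfl; exact n1 hd
      · rintro rfl; exact n3 hd
    have w2 : ∀ d ∈ W2, f (y, B.headD x) ↔ f d := by
      intro d hd
      refine chn_inv c2' ?_ hd (walk_head? y B x).symm
      intro d hd
      refine h1 d ((hpres' d).2 ⟨hpr2' d (List.mem_append_left _ hd), ?_, ?_⟩)
      · rintro rfl; exact n2 hd
      · rintro rfl; exact n4 hd
    have pa' : Present M' (a, x) := (hpres' _).2 ⟨pa, by simp [hne], by simp [hay]⟩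
    have pb' : Present M' (b, y) := (hpres' _).2 ⟨pb, by simp [hbx], by simp [hne.symm]⟩
    have w12 : f (x, A.headD y) ↔ f (y, B.headD x) := by
      rw [w1 _ mb, h1 _ pb', eby]
    let g : V × V → Prop := fun d => if d = (x, y) ∨ d = (y, x) then f (x, A.headD y) else f d
    have gxy : g (x, y) ↔ f (x, A.headD y) := by simp [g]
    have gyx : g (y, x) ↔ f (x, A.headD y) := by simp [g]
    have gne : ∀ d, d ≠ (x, y) → d ≠ (y, x) → (g d ↔ f d) := by
      intro d h1 h2; simp [g, h1, h2]
    have gW1 : ∀ d ∈ W1, g d ↔ f (x, A.headD y) := by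
      intro d hd
      rw [gne d (by rintro rfl; exact n1 hd) (by rintro rfl; exact n3 hd), w1 d hd]
    have gW2 : ∀ d ∈ W2, g d ↔ f (x, A.headD y) := by
      intro d hd
      rw [gne d (by rintro rfl; exact n2 hd) (by rintro rfl; exact n4 hd), w12, w2 d hd]
    have hg := hc g (by
      intro d hd
      by_cases e1 : d = (x, y)
      · subst e1
        rw [f4, gxy, gW2 _ (head_mem_walk y B x)]
      by_cases e2 : d = (y, x)
      · subst e2
        rw [f2, gyx, gW1 _ (head_mem_walk x A y)]
      by_cases e3 : d = (a, x)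
      · subst e3
        rw [f3, gxy, gW2 _ ma]
      by_cases e4 : d = (b, y)
      · subst e4
        rw [f1, gyx, gW1 _ mb]
      have hd' : Present M' d := (hpres' d).2 ⟨hd, e1, e2⟩
      have e5 : faceP rot d ≠ (x, y) := by
        rw [← f3]; exact fun h => e3 ((faceP rot).injective h)
      have e6 : faceP rot d ≠ (y, x) := by
        rw [← f1]; exact fun h => e4 ((faceP rot).injective h)
      rw [gne d e1 e2, gne _ e5 e6, h1 d hd', out4 d e3 e2 e4 e1]) (by
      intro d hd
      by_cases e1 : d = (x, y)
      · subst e1; rw [Prod.swap_prod_mk, gxy, gyx]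
      by_cases e2 : d = (y, x)
      · subst e2; rw [Prod.swap_prod_mk, gxy, gyx]
      have e3 : d.swap ≠ (x, y) := by
        intro h; apply e2; rw [← Prod.swap_swap d, h]; rfl
      have e4 : d.swap ≠ (y, x) := by
        intro h; apply e1; rw [← Prod.swap_swap d, h]; rfl
      rw [gne d e1 e2, gne _ e3 e4]
      exact h2 d ((hpres' d).2 ⟨hd, e1, e2⟩))
    intro d e hd he
    obtain ⟨hd1, hd2, hd3⟩ := (hpres' d).1 hd
    obtain ⟨he1, he2, he3⟩ := (hpres' e).1 he
    rw [← gne d hd2 hd3, ← gne e he2 he3]
    exact hg d e hd1 he1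
  refine ⟨rot', M', ?_, ?_, ⟨hv', ?_, ?_, hcnt, ?_, hconn⟩⟩
  · rw [holds_two, holds_one, holds_one, darts_split, darts_pair]
    refine ⟨⟨?_, ?_, ?_⟩, ?_, ?_, ?_⟩
    · rw [isFace_split]
      exact ⟨c1', c2', eby, eax⟩
    · intro h
      exfalso
      simp only [List.length_cons, List.length_append] at h
      omega
    · intro _ d hd
      rw [hpres']
      rcases List.mem_append.1 hd with h | h
      · exact ⟨hpr1' d (List.mem_append_left _ h), by rintro rfl; exact n1 h,
          by rintro rfl; exact n3 h⟩
      · exact ⟨hpr2' d (List.mem_append_left _ h), by rintro rfl; exact n2 h,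
          by rintro rfl; exact n4 h⟩
    · exact ⟨List.isChain_cons_cons.2 ⟨exy, List.isChain_singleton _⟩, eyx⟩
    · intro _ d hd
      simp only [List.mem_cons, List.not_mem_nil, or_false] at hd
      rw [hM', Finset.mem_insert, Finset.mem_insert]
      tauto
    · intro h; exact absurd rfl h
  · rw [two_flat, darts_split, darts_pair, ← hW1, ← hW2, List.perm_iff_count]
    intro d
    simp only [List.count_append, List.count_cons, List.count_nil]
    omega
  · intro d hd
    simp only [List.mem_append, List.mem_cons, List.not_mem_nil, or_false, not_or] at hd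
    obtain ⟨⟨h1, h2⟩, h3, h4⟩ := hd
    refine out4 d ?_ h2 ?_ h4
    · rintro rfl; exact h3 ma
    · rintro rfl; exact h1 mb
  · intro d hd
    simp only [List.mem_append, List.mem_cons, List.not_mem_nil, or_false, not_or] at hd
    obtain ⟨⟨h1, h2⟩, h3, h4⟩ := hd
    simp [hM', Finset.mem_insert, h2, h4]
  · have hF1 : IsFace (faceP rot) (x :: (A ++ [y])) :=
      isFace_split.2 ⟨c1, List.isChain_singleton _, f1, f2⟩
    have hF2 : IsFace (faceP rot) (y :: (B ++ [x])) :=
      isFace_split.2 ⟨c2, List.isChain_singleton _, f3, f4⟩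
    have hnot : ¬ (faceP rot).SameCycle (a, x) (y, x) := by
      intro hs
      have := face_closed hF2 (d := (a, x)) (e := (y, x))
        (by rw [d2]; exact List.mem_append_left _ ma) hs
      rw [d2] at this
      rcases List.mem_append.1 this with h | h
      · exact n4 h
      · simp only [List.mem_cons, Prod.mk.injEq, List.not_mem_nil, or_false] at h
        exact hne h.2
    have hs1 : (faceP rot).SameCycle (b, y) (y, x) := by
      rw [← f1]; exact sameCycle_apply_right.2 (SameCycle.refl _ _)
    have hs2 : (faceP rot).SameCycle (x, y) (a, x) := by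
      rw [← f3]; exact sameCycle_apply_left.2 (SameCycle.refl _ _)
    rw [mul_zero, add_zero]
    refine cyc_faceP_ins_chord hne hnot ?_ hbx
    rw [sameCycle_mul_swap_iff hnot]
    exact Or.inr ⟨Or.inr hs1, Or.inl hs2⟩

end Empire
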