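import Mathlib
import Pool.Agent.Lib.MP_800721_co.Rules2

/-!
# PROJECT EMPIRE: rotation of faces, flips, handles given by scripts
-/

namespace Empire

open Equiv Equiv.Perm

variable {V : Type*}

/-! ### rotating the faces of a resource list -/

theorem isFace_rot1 {φ : Perm (V × V)} (x : V) (A : List V) :
    IsFace φ (x :: A) ↔ IsFace φ (A ++ [x]) := by
  cases A with
  | nil => rfl
  | cons a A =>
    have h1 : x :: a :: A = x :: ([] ++ a :: A) := rfl
    have h2 : (a :: A) ++ [x] = a :: (A ++ x :: []) := rfl
    rw [h1, h2, isFace_split, isFace_split]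
    simp only [List.getLastD_nil, List.headD_nil]
    tauto

theorem darts_rot1 (x : V) (A : List V) : (darts (x :: A)).Perm (darts (A ++ [x])) := by
  cases A with
  | nil => exact List.Perm.refl _
  | cons a A =>
    have h1 : x :: a :: A = x :: ([] ++ a :: A) := rfl
    have h2 : (a :: A) ++ [x] = a :: (A ++ x :: []) := rfl
    rw [h1, h2, darts_split, darts_split]
    exact List.perm_append_comm

theorem isFace_rotate {φ : Perm (V × V)} {F G : List V} (h : F ~r G) :
    IsFace φ F ↔ IsFace φ G := by
  obtain ⟨n, rfl⟩ := h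
  induction n generalizing F with
  | zero => simp
  | succ n ih =>
    cases F with
    | nil => simp
    | cons x A =>
      rw [List.rotate_cons_succ, ← ih, isFace_rot1]

theorem darts_rotate {F G : List V} (h : F ~r G) : (darts F).Perm (darts G) := by
  obtain ⟨n, rfl⟩ := h
  induction n generalizing F with
  | zero => simp
  | succ n ih =>
    cases F with
    | nil => simp
    | cons x A =>
      rw [List.rotate_cons_succ]
      exact (darts_rot1 x A).trans ih

theorem holds_rotate {rot : V → Perm V} {M : Finset (V × V)} {R S : List (List V)}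
    (h : List.Forall₂ List.IsRotated R S) (hR : Holds rot M R) : Holds rot M S := by
  induction h with
  | nil => exact hR
  | @cons F G R S h1 h2 ih =>
    intro K hK
    rcases List.mem_cons.1 hK with rfl | hK'
    · obtain ⟨a1, a2, a3⟩ := hR F (by simp)
      have hl : F.length = K.length := h1.perm.length_eq
      refine ⟨(isFace_rotate h1).1 a1, ?_, ?_⟩
      · intro hl' d hd
        exact a2 (hl.trans hl') d ((darts_rotate h1).mem_iff.2 hd)
      · intro hl' d hd
        exact a3 (fun h => hl' (hl ▸ h)) d ((darts_rotate h1).mem_iff.2 hd)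
    · exact ih (fun F hF => hR F (List.mem_cons_of_mem _ hF)) K hK'

theorem flat_rotate {R S : List (List V)} (h : List.Forall₂ List.IsRotated R S) :
    (R.flatMap darts).Perm (S.flatMap darts) := by
  induction h with
  | nil => exact List.Perm.refl _
  | cons h1 h2 ih =>
    rw [List.flatMap_cons, List.flatMap_cons]
    exact (darts_rotate h1).append ih

theorem forall₂_rot_symm {R S : List (List V)} (h : List.Forall₂ List.IsRotated R S) :
    List.Forall₂ List.IsRotated S R := by
  induction h with
  | nil => exact List.Forall₂.nil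
  | cons h1 h2 ih => exact List.Forall₂.cons h1.symm ih

theorem forall₂_rot_refl (R : List (List V)) : List.Forall₂ List.IsRotated R R := by
  induction R with
  | nil => exact List.Forall₂.nil
  | cons F R ih => exact List.Forall₂.cons (List.IsRotated.refl _) ih

variable [DecidableEq V] [Finite V]

omit [Finite V] in
theorem Reach.rot {R R' S S' : List (List V)} {a : ℕ} (h : Reach R R' a)
    (h1 : List.Forall₂ List.IsRotated S R) (h2 : List.Forall₂ List.IsRotated R' S') :
    Reach S S' a := by
  intro rot M hv hS hn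
  have hp1 := flat_rotate h1
  obtain ⟨rot', M', hR', hp, hs⟩ := h rot M hv (holds_rotate h1 hS) (hp1.nodup_iff.1 hn)
  refine ⟨rot', M', holds_rotate h2 hR', (flat_rotate h2).symm.trans (hp.trans hp1.symm),
    ⟨hs.valid, ?_, ?_, hs.cnt, hs.faces, hs.conn⟩⟩
  · intro d hd
    exact hs.out d fun h => hd (hp1.mem_iff.2 h)
  · intro d hd
    exact hs.outM d fun h => hd (hp1.mem_iff.2 h)

omit [DecidableEq V] [Finite V] in
theorem rot_of_append (A B : List V) : (A ++ B) ~r (B ++ A) := ⟨A.length, by simp⟩

/-- flipping the edge `pq` of the triangles `p q y1`, `q p y2` to the missing edge `y1 y2` -/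
theorem Reach.flip (p q y1 y2 : V) :
    Reach [[p, q, y1], [q, p, y2], [y1, y2]] [[p, y2, y1], [q, y1, y2], [p, q]] 0 := by
  have h1 : Reach [[q, y1, p], [p, y2, q]] [[q, y1, p, y2], [q, p]] 0 :=
    Reach.del q [y1] p [y2] (by simp) (by simp)
  have h2 : Reach [[y1, p, y2, q], [y1, y2]] [[y1, p, y2], [y2, q, y1]] 0 :=
    Reach.chord y1 [p] y2 [q]
  have h3 := (h1.frame [[y1, y2]])
  have h4 := (h2.frame [[q, p]])
  have h5 : Reach [[p, q, y1], [q, p, y2], [y1, y2]] [[y1, p, y2, q], [q, p], [y1, y2]] 0 := by
    refine h3.rot ?_ ?_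
    · refine List.Forall₂.cons ⟨1, rfl⟩ (List.Forall₂.cons ⟨1, rfl⟩ ?_)
      exact List.Forall₂.cons (List.IsRotated.refl _) List.Forall₂.nil
    · refine List.Forall₂.cons ⟨1, rfl⟩ ?_
      exact List.Forall₂.cons (List.IsRotated.refl _)
        (List.Forall₂.cons (List.IsRotated.refl _) List.Forall₂.nil)
  have h6 : Reach [[y1, p, y2, q], [q, p], [y1, y2]] [[p, y2, y1], [q, y1, y2], [p, q]] 0 := by
    have h7 : Reach [[y1, p, y2, q], [y1, y2], [q, p]] [[p, y2, y1], [q, y1, y2], [p, q]] 0 := by
      refine h4.rot (forall₂_rot_refl _) ?_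
      refine List.Forall₂.cons ⟨1, rfl⟩ (List.Forall₂.cons ⟨1, rfl⟩ ?_)
      exact List.Forall₂.cons ⟨1, rfl⟩ List.Forall₂.nil
    refine h7.perm ?_ (List.Perm.refl _)
    exact List.Perm.cons _ (List.Perm.swap _ _ _)
  exact h5.trans h6

/-! ### sweeps: the chords of a handle -/

/-- The face `A ++ B` is cut by the chords `es` (each from `A` to `B`) into the faces `out`. -/
inductive Sweep {V : Type*} : List V → List V → List (V × V) → List (List V) → Prop
  | nil (A B : List V) : 3 ≤ (A ++ B).length → Sweep A B [] [A ++ B]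
  | cons (A1 : List V) (p : V) (A2 B1 : List V) (q : V) (B2 : List V) (es : List (V × V))
      (out : List (List V)) : A1 ++ B2 ≠ [] → Sweep (p :: A2) (B1 ++ [q]) es out →
      Sweep (A1 ++ p :: A2) (B1 ++ q :: B2) ((p, q) :: es) ((A1 ++ p :: q :: B2) :: out)

/-- missing edge as a resource -/
def dig (e : V × V) : List V := [e.1, e.2]

theorem Sweep.reach {A B : List V} {es : List (V × V)} {out : List (List V)}
    (h : Sweep A B es out) : Reach ((A ++ B) :: es.map dig) out 0 := by
  induction h with
  | nil A B h => exact Reach.refl _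
  | cons A1 p A2 B1 q B2 es out hne h ih =>
    have h1 : Reach [p :: ((A2 ++ B1) ++ q :: (B2 ++ A1)), [p, q]]
      [p :: ((A2 ++ B1) ++ [q]), q :: ((B2 ++ A1) ++ [p])] 0 := Reach.chord p _ q _
    have h2 : Reach [(A1 ++ p :: A2) ++ (B1 ++ q :: B2), [p, q]]
        [(p :: A2) ++ (B1 ++ [q]), A1 ++ p :: q :: B2] 0 := by
      refine h1.rot ?_ ?_
      · refine List.Forall₂.cons ?_ (List.Forall₂.cons (List.IsRotated.refl _) List.Forall₂.nil)
        have e1 : (A1 ++ p :: A2) ++ (B1 ++ q :: B2) = A1 ++ (p :: (A2 ++ (B1 ++ q :: B2))) := by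
          simp
        have e2 : p :: ((A2 ++ B1) ++ q :: (B2 ++ A1)) = (p :: (A2 ++ (B1 ++ q :: B2))) ++ A1 := by
          simp
        rw [e1, e2]
        exact rot_of_append _ _
      · refine List.Forall₂.cons ?_ (List.Forall₂.cons ?_ List.Forall₂.nil)
        · have e1 : p :: ((A2 ++ B1) ++ [q]) = (p :: A2) ++ (B1 ++ [q]) := by simp
          rw [e1]
        · have e1 : q :: ((B2 ++ A1) ++ [p]) = (q :: B2) ++ (A1 ++ [p]) := by simp
          have e2 : A1 ++ p :: q :: B2 = (A1 ++ [p]) ++ (q :: B2) := by simp
          rw [e1, e2]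
          exact rot_of_append _ _
    have h3 := h2.frame (es.map dig)
    have h4 := (ih.frame [A1 ++ p :: q :: B2])
    refine h3.trans (h4.perm ?_ ?_)
    · rw [List.cons_append, List.cons_append]
      refine List.Perm.cons _ ?_
      exact List.perm_append_comm (l₁ := [A1 ++ p :: q :: B2])
    · exact List.perm_append_comm (l₂ := [A1 ++ p :: q :: B2])

omit [DecidableEq V] [Finite V] in
theorem Sweep.length_ne {A B : List V} {es : List (V × V)} {out : List (List V)}
    (h : Sweep A B es out) : ∀ F ∈ out, F.length ≠ 2 := by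
  induction h with
  | nil A B h =>
    intro F hF
    rw [List.mem_singleton] at hF
    subst hF
    omega
  | cons A1 p A2 B1 q B2 es out hne h ih =>
    intro F hF
    rcases List.mem_cons.1 hF with rfl | hF
    · have := List.length_pos_iff.2 hne
      simp only [List.length_append, List.length_cons] at this ⊢
      omega
    · exact ih F hF

omit [DecidableEq V] [Finite V] in
theorem Sweep.map {W : Type*} (f : V → W) {A B : List V} {es : List (V × V)} {out : List (List V)}
    (h : Sweep A B es out) :
    Sweep (A.map f) (B.map f) (es.map (Prod.map f f)) (out.map (List.map f)) := by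
  induction h with
  | nil A B h =>
    have := Sweep.nil (A.map f) (B.map f) (by simpa using h)
    simpa using this
  | cons A1 p A2 B1 q B2 es out hne h ih =>
    have := Sweep.cons (A1.map f) (f p) (A2.map f) (B1.map f) (f q) (B2.map f)
      (es.map (Prod.map f f)) (out.map (List.map f)) (by simpa using hne) (by simpa using ih)
    simpa using this

/-- a handle between two triangles with the cross edges `(p0, q0) :: es` -/
theorem Reach.handle (p0 p1 p2 q0 q1 q2 : V) {es : List (V × V)} {out : List (List V)}
    (h : Sweep [p0, p1, p2, p0] [q0, q2, q1, q0] es out) :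
    Reach ([p0, p1, p2] :: [q0, q2, q1] :: ((p0, q0) :: es).map dig) out 1 := by
  have h1 : Reach [[p0, p1, p2], [q0, q2, q1], [p0, q0]] [[p0, p1, p2, p0] ++ [q0, q2, q1, q0]] 1 :=
    Reach.join p0 [p1, p2] q0 [q2, q1] (by simp) (by simp)
  have h2 := h1.frame (es.map dig)
  have h3 := h2.trans h.reach
  exact h3

/-! ### handles preceded by flips -/

/-- resources needed for the cross edge `e`: the missing edge itself, or a flip -/
def crossRes (e : V × V) : Option (V × V) → List (List V)
  | none => [[e.1, e.2]]
  | some y => [[e.1, e.2, y.1], [e.2, e.1, y.2], [y.1, y.2]]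

/-- faces produced by the flip -/
def crossOut (e : V × V) : Option (V × V) → List (List V)
  | none => []
  | some y => [[e.1, y.2, y.1], [e.2, y.1, y.2]]

theorem Reach.cross (e : V × V) (c : Option (V × V)) :
    Reach (crossRes e c) (dig e :: crossOut e c) 0 := by
  cases c with
  | none => exact Reach.refl _
  | some y =>
    refine (Reach.flip e.1 e.2 y.1 y.2).perm (List.Perm.refl _) ?_
    exact List.perm_append_comm (l₁ := [[e.1, y.2, y.1], [e.2, y.1, y.2]]) (l₂ := [[e.1, e.2]])

theorem Reach.crosses (l : List ((V × V) × Option (V × V))) :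
    Reach (l.flatMap fun c => crossRes c.1 c.2)
      ((l.map Prod.fst).map dig ++ l.flatMap fun c => crossOut c.1 c.2) 0 := by
  induction l with
  | nil => exact Reach.refl _
  | cons c l ih =>
    have h := (Reach.cross c.1 c.2).append ih
    refine h.perm (List.Perm.refl _) ?_
    simp only [List.map_cons, List.flatMap_cons, List.cons_append]
    refine List.Perm.cons _ ?_
    rw [← List.append_assoc, ← List.append_assoc]
    exact List.perm_append_comm.append_right _

/-- a handle with flips -/
structure Op (V : Type*) where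
  /-- first triangle -/
  p0 : V
  p1 : V
  p2 : V
  /-- second triangle `q0 q2 q1` -/
  q0 : V
  q1 : V
  q2 : V
  /-- the cross edges, each with its flip -/
  cr : List ((V × V) × Option (V × V))

/-- resources of an operation -/
def Op.res (o : Op V) : List (List V) :=
  [o.p0, o.p1, o.p2] :: [o.q0, o.q2, o.q1] :: o.cr.flatMap fun c => crossRes c.1 c.2

/-- the cross edges of the operation form a sweep -/
def Op.Ok (o : Op V) : Prop :=
  ∃ es out, o.cr.map Prod.fst = (o.p0, o.q0) :: es ∧
    Sweep [o.p0, o.p1, o.p2, o.p0] [o.q0, o.q2, o.q1, o.q0] es out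

theorem Op.reach {o : Op V} (h : o.Ok) :
    ∃ out, Reach o.res out 1 ∧ ∀ F ∈ out, F.length ≠ 2 := by
  obtain ⟨es, out, he, hs⟩ := h
  refine ⟨out ++ o.cr.flatMap fun c => crossOut c.1 c.2, ?_, ?_⟩
  · have h1 := (Reach.crosses o.cr).frame [[o.p0, o.p1, o.p2], [o.q0, o.q2, o.q1]]
    have h2 := (Reach.handle _ _ _ _ _ _ hs).frame (o.cr.flatMap fun c => crossOut c.1 c.2)
    rw [← he] at h2
    have h3 := h1.trans (h2.perm ?_ (List.Perm.refl _))
    · rw [zero_add] at h3
      refine h3.perm ?_ (List.Perm.refl _)
      rw [Op.res]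
      exact List.perm_append_comm (l₁ := [[o.p0, o.p1, o.p2], [o.q0, o.q2, o.q1]])
    · have : ([o.p0, o.p1, o.p2] :: [o.q0, o.q2, o.q1] :: (o.cr.map Prod.fst).map dig) ++
          (o.cr.flatMap fun c => crossOut c.1 c.2) = [[o.p0, o.p1, o.p2], [o.q0, o.q2, o.q1]] ++
          ((o.cr.map Prod.fst).map dig ++ o.cr.flatMap fun c => crossOut c.1 c.2) := rfl
      rw [this]
      exact List.perm_append_comm
  · intro F hF
    rcases List.mem_append.1 hF with h | h
    · exact hs.length_ne F h
    · obtain ⟨c, -, hc⟩ := List.mem_flatMap.1 h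
      rcases hc2 : c.2 with _ | y
      · rw [hc2] at hc
        simp [crossOut] at hc
      · rw [hc2] at hc
        simp only [crossOut, List.mem_cons, List.not_mem_nil, or_false] at hc
        rcases hc with rfl | rfl <;> simp

theorem ops_reach (ops : List (Op V)) (h : ∀ o ∈ ops, o.Ok) :
    ∃ out, Reach (ops.flatMap Op.res) out ops.length ∧ ∀ F ∈ out, F.length ≠ 2 := by
  induction ops with
  | nil => exact ⟨[], Reach.refl _, by simp⟩
  | cons o ops ih =>
    obtain ⟨out, h1, h2⟩ := Op.reach (h o (by simp))
    obtain ⟨out', h3, h4⟩ := ih (fun o ho => h o (List.mem_cons_of_mem _ ho))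
    refine ⟨out ++ out', ?_, ?_⟩
    · have := h1.append h3
      rw [List.flatMap_cons, List.length_cons, add_comm]
      exact this
    · intro F hF
      rcases List.mem_append.1 hF with h | h
      · exact h2 F h
      · exact h4 F h

/-- from a symmetric base state to a state without missing edges -/
theorem final_of_ops {rot : V → Perm V} {M : Finset (V × V)} (hv : Valid rot M)
    (hc : Conn rot M) (ops : List (Op V)) (hops : ∀ o ∈ ops, o.Ok)
    (hH : Holds rot M (ops.flatMap Op.res)) (hn : ((ops.flatMap Op.res).flatMap darts).Nodup)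
    (hM : ∀ d ∈ M, d ∈ (ops.flatMap Op.res).flatMap darts) :
    ∃ rot' : V → Perm V, (∀ v, rot' v v = v) ∧ (∀ v, cyc (rot' v) + miss M v = cyc (rot v)) ∧
      Conn rot' ∅ ∧ cyc (faceP rot) ≤ cyc (faceP rot') + 2 * ops.length := by
  obtain ⟨out, hr, ho⟩ := ops_reach ops hops
  obtain ⟨rot', M', hR', hp, hs⟩ := hr rot M hv hH hn
  have hM' : M' = ∅ := by
    rw [Finset.eq_empty_iff_forall_notMem]
    intro d hd
    by_cases h : d ∈ (ops.flatMap Op.res).flatMap darts
    · obtain ⟨F, hF, hdF⟩ := List.mem_flatMap.1 (hp.mem_iff.2 h)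
      exact ((hR' F hF).2.2 (ho F hF) d hdF).2 hd
    · exact h (hM d ((hs.outM d h).1 hd))
  subst hM'
  refine ⟨rot', hs.valid.self, ?_, hs.conn hc, hs.faces⟩
  intro v
  have := hs.cnt v
  simpa [miss] using this

end Empire
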