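import Mathlib
import Pool.Agent.Lib.MP_800721_co.Ops
import Pool.Agent.Lib.MP_800721_co.Circuit

/-!
# PROJECT EMPIRE: the symmetric base state over `ZMod n`

`I` indexes zero-sum triples of `ZMod n`; the arcs are `I × ZMod 3`.  The triangles are
`(v, v + x, v + x + y)` for consecutive arcs `x, y` of a triple; the differences in `D` are
missing.
-/

namespace Empire

open Equiv Equiv.Perm

/-! ### more on the number of cycles -/

theorem cyc_one (α : Type*) : cyc (1 : Perm α) = Nat.card α := by
  unfold cyc
  refine Nat.card_congr ⟨Quotient.lift id ?_, fun x => Quotient.mk _ x, ?_, ?_⟩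
  · intro x y h
    exact (sameCycle_one.1 h)
  · intro q
    induction q using Quotient.inductionOn with | _ x => rfl
  · intro x; rfl

theorem sameCycle_sumCongr_inl {α β : Type*} (p : Perm α) (q : Perm β) (x y : α) :
    (Perm.sumCongr p q).SameCycle (Sum.inl x) (Sum.inl y) ↔ p.SameCycle x y := by
  have hz : ∀ (i : ℤ) (x : α), ((Perm.sumCongr p q) ^ i) (Sum.inl x) = Sum.inl ((p ^ i) x) := by
    intro i x
    have : (Perm.sumCongr p q) ^ i = Perm.sumCongr (p ^ i) (q ^ i) := by
      have := map_zpow (Perm.sumCongrHom α β) (p, q) i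
      simpa using this.symm
    rw [this]; rfl
  constructor
  · rintro ⟨i, hi⟩
    rw [hz] at hi
    exact ⟨i, Sum.inl_injective hi⟩
  · rintro ⟨i, hi⟩
    exact ⟨i, by rw [hz, hi]⟩

theorem sameCycle_sumCongr_inr {α β : Type*} (p : Perm α) (q : Perm β) (x y : β) :
    (Perm.sumCongr p q).SameCycle (Sum.inr x) (Sum.inr y) ↔ q.SameCycle x y := by
  have hz : ∀ (i : ℤ) (x : β), ((Perm.sumCongr p q) ^ i) (Sum.inr x) = Sum.inr ((q ^ i) x) := by
    intro i x
    have : (Perm.sumCongr p q) ^ i = Perm.sumCongr (p ^ i) (q ^ i) := by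
      have := map_zpow (Perm.sumCongrHom α β) (p, q) i
      simpa using this.symm
    rw [this]; rfl
  constructor
  · rintro ⟨i, hi⟩
    rw [hz] at hi
    exact ⟨i, Sum.inr_injective hi⟩
  · rintro ⟨i, hi⟩
    exact ⟨i, by rw [hz, hi]⟩

theorem not_sameCycle_sumCongr {α β : Type*} (p : Perm α) (q : Perm β) (x : α) (y : β) :
    ¬ (Perm.sumCongr p q).SameCycle (Sum.inl x) (Sum.inr y) := by
  intro h
  have := eq_of_sameCycle (f := fun z : α ⊕ β => z.isLeft) (p := Perm.sumCongr p q) ?_ h
  · simp at this
  · rintro (z | z) <;> rfl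

theorem cyc_sumCongr {α β : Type*} [Finite α] [Finite β] (p : Perm α) (q : Perm β) :
    cyc (Perm.sumCongr p q) = cyc p + cyc q := by
  have : Finite (Quotient (SameCycle.setoid p)) := Quotient.finite _
  have : Finite (Quotient (SameCycle.setoid q)) := Quotient.finite _
  unfold cyc
  rw [← Nat.card_sum]
  symm
  let f : Quotient (SameCycle.setoid p) ⊕ Quotient (SameCycle.setoid q) →
      Quotient (SameCycle.setoid (Perm.sumCongr p q)) :=
    Sum.elim
      (Quotient.lift (fun x => Quotient.mk _ (Sum.inl x)) (fun x y h =>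
        Quotient.sound (s := SameCycle.setoid (Perm.sumCongr p q))
          ((sameCycle_sumCongr_inl p q x y).2 h)))
      (Quotient.lift (fun x => Quotient.mk _ (Sum.inr x)) (fun x y h =>
        Quotient.sound (s := SameCycle.setoid (Perm.sumCongr p q))
          ((sameCycle_sumCongr_inr p q x y).2 h)))
  refine Nat.card_eq_of_bijective f ⟨?_, ?_⟩
  · rintro (x | x) (y | y) h
    · induction x using Quotient.inductionOn with | _ x => ?_
      induction y using Quotient.inductionOn with | _ y => ?_
      have h' := Quotient.exact (s := SameCycle.setoid (Perm.sumCongr p q)) h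
      congr 1
      exact Quotient.sound ((sameCycle_sumCongr_inl p q x y).1 h')
    · induction x using Quotient.inductionOn with | _ x => ?_
      induction y using Quotient.inductionOn with | _ y => ?_
      exact absurd (Quotient.exact (s := SameCycle.setoid (Perm.sumCongr p q)) h)
        (not_sameCycle_sumCongr p q x y)
    · induction x using Quotient.inductionOn with | _ x => ?_
      induction y using Quotient.inductionOn with | _ y => ?_
      exact absurd (SameCycle.symm
        (Quotient.exact (s := SameCycle.setoid (Perm.sumCongr p q)) h))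
        (not_sameCycle_sumCongr p q y x)
    · induction x using Quotient.inductionOn with | _ x => ?_
      induction y using Quotient.inductionOn with | _ y => ?_
      have h' := Quotient.exact (s := SameCycle.setoid (Perm.sumCongr p q)) h
      congr 1
      exact Quotient.sound ((sameCycle_sumCongr_inr p q x y).1 h')
  · intro z
    induction z using Quotient.inductionOn with | _ z => ?_
    rcases z with z | z
    · exact ⟨Sum.inl (Quotient.mk _ z), rfl⟩
    · exact ⟨Sum.inr (Quotient.mk _ z), rfl⟩

/-- extension of a permutation along an embedding, by the identity -/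
theorem cyc_viaEmbedding {α β : Type*} [Finite α] [Finite β] (p : Perm α) (f : α ↪ β) :
    cyc (p.viaEmbedding f) = cyc p + (Nat.card β - Nat.card α) := by
  classical
  let e : α ⊕ {b : β // b ∉ Set.range f} ≃ β :=
    (Equiv.sumCongr (Equiv.ofInjective f f.injective) (Equiv.refl _)).trans
      (Equiv.Set.sumCompl (Set.range f))
  have he1 : ∀ a, e (Sum.inl a) = f a := fun a => rfl
  have he2 : ∀ b, e (Sum.inr b) = b.1 := fun b => rfl
  have h := cyc_conj e (Perm.sumCongr p 1) (p.viaEmbedding f) (by
    rintro (a | b)
    · rw [he1, Perm.viaEmbedding_apply]; rfl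
    · rw [he2, Perm.viaEmbedding_apply_of_notMem p f b.1 b.2]; rfl)
  rw [← h, cyc_sumCongr, cyc_one]
  have hc : Nat.card β = Nat.card α + Nat.card {b : β // b ∉ Set.range f} := by
    rw [← Nat.card_sum, Nat.card_congr e]
  omega

/-- a class of `p` has at most `k` elements if `p ^ k` fixes one of them -/
theorem card_class_le {α : Type*} [Fintype α] [DecidableEq α] {p : Perm α} {k : ℕ} (hk : 0 < k)
    {x : α} (hx : (p ^ k) x = x) (s : Finset α) (hs : ∀ y ∈ s, p.SameCycle x y) : s.card ≤ k := by
  have hmod : ∀ i : ℕ, (p ^ i) x = (p ^ (i % k)) x := by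
    intro i
    have h2 : ∀ m : ℕ, (p ^ (k * m)) x = x := by
      intro m
      induction m with
      | zero => simp
      | succ m ih => rw [Nat.mul_succ, pow_add, Perm.mul_apply, hx, ih]
    conv_lhs => rw [← Nat.mod_add_div i k, pow_add, Perm.mul_apply, h2]
  have hsub : s ⊆ (Finset.range k).image (fun i => (p ^ i) x) := by
    intro y hy
    obtain ⟨i, hi⟩ := (hs y hy).exists_nat_pow_eq
    rw [Finset.mem_image]
    exact ⟨i % k, Finset.mem_range.2 (Nat.mod_lt _ hk), by rw [← hmod, hi]⟩
  exact (Finset.card_le_card hsub).trans (Finset.card_image_le.trans (by simp))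

theorem sum_le_cyc {α : Type*} [Fintype α] [DecidableEq α] {p : Perm α} (w : α → ℕ)
    (hw : ∀ x, w (p x) = w x) (h : ∀ x, ∃ k, 0 < k ∧ w x * k ≤ 6 ∧ (p ^ k) x = x) :
    ∑ x, w x ≤ 6 * cyc p := by
  classical
  have : Finite (Quotient (SameCycle.setoid p)) := Quotient.finite _
  have := Fintype.ofFinite (Quotient (SameCycle.setoid p))
  rw [cyc, Nat.card_eq_fintype_card, mul_comm, ← smul_eq_mul, ← Finset.card_univ,
    ← Finset.sum_const]
  rw [← Finset.sum_fiberwise (s := Finset.univ) (g := fun x => Quotient.mk (SameCycle.setoid p) x)]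
  refine Finset.sum_le_sum fun q _ => ?_
  induction q using Quotient.inductionOn with | _ x => ?_
  obtain ⟨k, hk, hk6, hkx⟩ := h x
  have hcl : ∀ y ∈ Finset.univ.filter (fun y => Quotient.mk (SameCycle.setoid p) y =
      Quotient.mk (SameCycle.setoid p) x), p.SameCycle x y := by
    intro y hy
    exact (Quotient.exact (s := SameCycle.setoid p) (Finset.mem_filter.1 hy).2).symm
  have h1 := card_class_le hk hkx _ hcl
  calc ∑ y ∈ Finset.univ.filter (fun y => Quotient.mk (SameCycle.setoid p) y =
      Quotient.mk (SameCycle.setoid p) x), w y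
      = ∑ y ∈ Finset.univ.filter (fun y => Quotient.mk (SameCycle.setoid p) y =
      Quotient.mk (SameCycle.setoid p) x), w x := by
        refine Finset.sum_congr rfl fun y hy => ?_
        exact (eq_of_sameCycle hw (hcl y hy)).symm
    _ = w x * (Finset.univ.filter (fun y => Quotient.mk (SameCycle.setoid p) y =
      Quotient.mk (SameCycle.setoid p) x)).card := by rw [Finset.sum_const, smul_eq_mul, mul_comm]
    _ ≤ w x * k := Nat.mul_le_mul_left _ h1
    _ ≤ 6 := hk6

end Empire
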