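import Mathlib
import Pool.Agent.Lib.MP_800721_co.Base

/-!
# PROJECT EMPIRE: the symmetric base state over `ZMod n`

`I` indexes zero-sum triples of `ZMod n`; the arcs are `I × ZMod 3`.  The triangles are
`(v, v + x, v + x + y)` for consecutive arcs `x, y` of a triple; the differences in `D` are
missing.
-/

namespace Empire

open Equiv Equiv.Perm

/-- partition of `ZMod n \ ({0} ∪ D)` into zero-sum triples -/
structure SymData (n : ℕ) (I : Type) where
  /-- value of an arc -/
  val : I × ZMod 3 → ZMod n
  /-- the opposite arc -/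
  ng : I × ZMod 3 → I × ZMod 3
  /-- missing differences -/
  D : Finset (ZMod n)
  val_inj : Function.Injective val
  val_ng : ∀ a, val (ng a) = - val a
  val_sum : ∀ i, val (i, 0) + val (i, 1) + val (i, 2) = 0
  val_ne_zero : ∀ a, val a ≠ 0
  zero_notMem : (0 : ZMod n) ∉ D
  D_neg : ∀ d ∈ D, -d ∈ D
  val_notMem : ∀ a, val a ∉ D
  card_eq : 3 * Nat.card I + D.card + 1 = n

namespace SymData

variable {n : ℕ} {I : Type} (S : SymData n I)

theorem ng_ng (a : I × ZMod 3) : S.ng (S.ng a) = a :=
  S.val_inj (by rw [S.val_ng, S.val_ng, neg_neg])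

/-- the opposite arc, as a permutation -/
def neg : Perm (I × ZMod 3) := ⟨S.ng, S.ng, S.ng_ng, S.ng_ng⟩

@[simp] theorem neg_apply (a : I × ZMod 3) : S.neg a = S.ng a := rfl

/-- next arc of a triple -/
def nx (a : I × ZMod 3) : I × ZMod 3 := (a.1, a.2 + 1)

theorem val_sum' (a : I × ZMod 3) : S.val a + S.val (nx a) + S.val (nx (nx a)) = 0 := by
  obtain ⟨i, j⟩ := a
  have hj : j = 0 ∨ j = 1 ∨ j = 2 := by revert j; decide
  have h := S.val_sum i
  have e1 : (1 : ZMod 3) + 1 = 2 := by decide
  have e2 : (2 : ZMod 3) + 1 = 0 := by decide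
  rcases hj with rfl | rfl | rfl <;> simp only [nx, zero_add, e1, e2]
  · exact h
  · rw [← h]; ring
  · rw [← h]; ring

variable [DecidableEq I]

section rot

variable [NeZero n]

/-- the circuits, as a permutation of `ZMod n` fixing `0` and `D` -/
noncomputable def hat (s : Finset I) : Perm (ZMod n) :=
  (sig S.neg s).viaEmbedding ⟨S.val, S.val_inj⟩

omit [NeZero n] in
theorem hat_val (s : Finset I) (a : I × ZMod 3) : S.hat s (S.val a) = S.val (sig S.neg s a) :=
  Perm.viaEmbedding_apply _ _ _

omit [NeZero n] in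
theorem hat_of (s : Finset I) {x : ZMod n} (h : ∀ a, S.val a ≠ x) : S.hat s x = x := by
  refine Perm.viaEmbedding_apply_of_notMem _ _ _ ?_
  rintro ⟨a, ha⟩
  exact h a ha

omit [NeZero n] in
theorem hat_D (s : Finset I) {x : ZMod n} (h : x ∈ S.D) : S.hat s x = x :=
  S.hat_of s fun a ha => S.val_notMem a (ha ▸ h)

omit [NeZero n] in
theorem hat_zero (s : Finset I) : S.hat s 0 = 0 :=
  S.hat_of s fun a ha => S.val_ne_zero a ha

omit [NeZero n] in
theorem hat_neg_val (s : Finset I) (a : I × ZMod 3) :
    S.hat s (- S.val a) = S.val (tau s a) := by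
  rw [← S.val_ng, hat_val, sig, Perm.mul_apply, neg_apply, S.ng_ng]

/-- the rotation family of the symmetric base -/
noncomputable def rot (s : Finset I) (v : ZMod n) : Perm (ZMod n) :=
  (Equiv.subRight v).trans ((S.hat s).trans (Equiv.addLeft v))

omit [NeZero n] in
theorem rot_apply (s : Finset I) (v u : ZMod n) : S.rot s v u = v + S.hat s (u - v) := rfl

/-- the missing darts -/
def M : Finset (ZMod n × ZMod n) := Finset.univ.filter fun d => d.2 - d.1 ∈ S.D

omit [DecidableEq I] in
theorem mem_M {a b : ZMod n} : (a, b) ∈ S.M ↔ b - a ∈ S.D := by simp [M]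

theorem valid (s : Finset I) : Valid (S.rot s) S.M where
  self v := by rw [rot_apply, sub_self, hat_zero, add_zero]
  symm a b h := by
    rw [mem_M] at h ⊢
    have := S.D_neg _ h
    rwa [neg_sub] at this
  ne a b h := by
    rintro rfl
    rw [mem_M, sub_self] at h
    exact S.zero_notMem h
  fix a b h := by
    rw [mem_M] at h
    rw [rot_apply, S.hat_D s h, add_sub_cancel]

variable [Finite I]

theorem cyc_rot (s : Finset I) (v : ZMod n) :
    cyc (S.rot s v) = cyc (sig S.neg s) + S.D.card + 1 := by
  have h1 : cyc (S.hat s) = cyc (S.rot s v) := by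
    refine cyc_conj (Equiv.addLeft v) _ _ ?_
    intro x
    rw [rot_apply]
    simp [Equiv.coe_addLeft]
  rw [← h1, hat, cyc_viaEmbedding, Nat.card_prod, Nat.card_zmod, Nat.card_zmod]
  have := S.card_eq
  omega

omit [DecidableEq I] [Finite I] in
theorem miss_M (v : ZMod n) : miss S.M v = S.D.card := by
  unfold miss
  symm
  refine Finset.card_bij (fun d _ => (v, v + d)) ?_ ?_ ?_
  · intro d hd
    rw [Finset.mem_filter, mem_M]
    simpa using hd
  · intro d _ e _ h
    simpa using h
  · rintro ⟨a, b⟩ h
    rw [Finset.mem_filter, mem_M] at h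
    obtain ⟨h1, rfl⟩ := h
    exact ⟨b - a, h1, by simp⟩

/-! ### faces of the base -/

omit [NeZero n] [Finite I] in
theorem faceP_val (s : Finset I) (v : ZMod n) (a : I × ZMod 3) :
    faceP (S.rot s) (v, v + S.val a) = (v + S.val a, v + S.val a + S.val (tau s a)) := by
  rw [faceP_apply, rot_apply]
  have : v - (v + S.val a) = - S.val a := by ring
  rw [this, hat_neg_val]

omit [NeZero n] [Finite I] in
theorem tau_of_notMem {s : Finset I} {a : I × ZMod 3} (h : a.1 ∉ s) : tau s a = nx a := by
  rw [tau_apply, if_neg h]; rfl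

omit [NeZero n] [Finite I] in
theorem val_tau_sum (s : Finset I) (a : I × ZMod 3) :
    S.val a + S.val (tau s a) + S.val (tau s (tau s a)) = 0 := by
  by_cases h : a.1 ∈ s
  · have h1 : tau s a = (a.1, a.2 - 1) := by rw [tau_apply, if_pos h]
    have h2 : tau s (tau s a) = (a.1, a.2 - 1 - 1) := by rw [h1, tau_apply, if_pos h]
    rw [h2, h1]
    have := S.val_sum' (a.1, a.2 - 1)
    have e1 : a.2 - 1 + 1 = a.2 := by ring
    have e2 : a.2 + 1 = a.2 - 1 - 1 := by
      have : ∀ j : ZMod 3, j + 1 = j - 1 - 1 := by decide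
      exact this _
    simp only [nx, e1, e2] at this
    rw [← this]
    have : (a.1, a.2) = a := rfl
    rw [this]
    ring
  · rw [tau_of_notMem h, tau_of_notMem (s := s) (a := nx a) h]
    exact S.val_sum' a

omit [NeZero n] [Finite I] in
theorem tau_tau_tau (s : Finset I) (a : I × ZMod 3) : tau s (tau s (tau s a)) = a := by
  by_cases h : a.1 ∈ s
  · have h1 : tau s a = (a.1, a.2 - 1) := by rw [tau_apply, if_pos h]
    have h2 : tau s (a.1, a.2 - 1) = (a.1, a.2 - 1 - 1) := by rw [tau_apply, if_pos h]
    have h3 : tau s (a.1, a.2 - 1 - 1) = (a.1, a.2 - 1 - 1 - 1) := by rw [tau_apply, if_pos h]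
    rw [h1, h2, h3]
    have : ∀ j : ZMod 3, j - 1 - 1 - 1 = j := by decide
    rw [this]
  · rw [tau_of_notMem h, tau_of_notMem (s := s) (a := nx a) h,
      tau_of_notMem (s := s) (a := nx (nx a)) h]
    have : ∀ j : ZMod 3, j + 1 + 1 + 1 = j := by decide
    simp only [nx, this]

omit [DecidableEq I] in
theorem exists_val_or (x : ZMod n) : x = 0 ∨ x ∈ S.D ∨ ∃ a, S.val a = x := by
  classical
  by_contra hcon
  push Not at hcon
  obtain ⟨h0, hD, hv⟩ := hcon
  have := Fintype.ofFinite I
  let T : Finset (ZMod n) := insert 0 (S.D ∪ Finset.univ.image S.val)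
  have hT : T.card = n := by
    rw [Finset.card_insert_of_notMem, Finset.card_union_of_disjoint,
      Finset.card_image_of_injective _ S.val_inj]
    · have := S.card_eq
      rw [Finset.card_univ, Fintype.card_prod, ZMod.card]
      rw [Nat.card_eq_fintype_card] at this
      omega
    · rw [Finset.disjoint_left]
      intro y hy hy'
      obtain ⟨a, -, rfl⟩ := Finset.mem_image.1 hy'
      exact S.val_notMem a hy
    · rw [Finset.mem_union, not_or]
      refine ⟨S.zero_notMem, ?_⟩
      intro h
      obtain ⟨a, -, ha⟩ := Finset.mem_image.1 h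
      exact S.val_ne_zero a ha
  have hT' : T = Finset.univ := by
    rw [← Finset.card_eq_iff_eq_univ, hT, ZMod.card]
  have : x ∈ T := by rw [hT']; exact Finset.mem_univ _
  simp only [T, Finset.mem_insert, Finset.mem_union, Finset.mem_image, Finset.mem_univ,
    true_and] at this
  rcases this with h | h | ⟨a, h⟩
  · exact h0 h
  · exact hD h
  · exact hv a h

omit [DecidableEq I] in
theorem present_iff {d : ZMod n × ZMod n} :
    Present S.M d ↔ ∃ a, d = (d.1, d.1 + S.val a) := by
  obtain ⟨u, v⟩ := d
  unfold Present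
  rw [mem_M]
  constructor
  · rintro ⟨h1, h2⟩
    rcases S.exists_val_or (v - u) with h | h | ⟨a, h⟩
    · exact absurd (sub_eq_zero.1 h).symm h1
    · exact absurd h h2
    · exact ⟨a, by simp [h]⟩
  · rintro ⟨a, h⟩
    simp only [Prod.mk.injEq, true_and] at h
    subst h
    refine ⟨?_, ?_⟩
    · intro h
      simp only at h
      exact S.val_ne_zero a (by simpa using h.symm)
    · simpa using S.val_notMem a

/-- number of faces of the base state -/
theorem cyc_faces (s : Finset I) :
    6 * n + 3 * (n * S.D.card) + 6 * (n * Nat.card I) ≤ 6 * cyc (faceP (S.rot s)) := by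
  classical
  have := Fintype.ofFinite I
  let w : ZMod n × ZMod n → ℕ := fun d => if d.1 = d.2 then 6 else if d.2 - d.1 ∈ S.D then 3 else 2
  have hself : ∀ v : ZMod n, faceP (S.rot s) (v, v) = (v, v) := by
    intro v; rw [faceP_apply, (S.valid s).self]
  have hdig : ∀ u v : ZMod n, v - u ∈ S.D → faceP (S.rot s) (u, v) = (v, u) := by
    intro u v h
    exact (S.valid s).digon (S.mem_M.2 h)
  have hval : ∀ v : ZMod n, ∀ a, w (v, v + S.val a) = 2 := by
    intro v a
    have h1 : ¬ (v = v + S.val a) := by
      intro h; exact S.val_ne_zero a (by simpa using h.symm)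
    have h2 : ¬ (v + S.val a - v ∈ S.D) := by simpa using S.val_notMem a
    simp only [w, if_neg h1, if_neg h2]
  have hwD : ∀ u v : ZMod n, v - u ∈ S.D → w (u, v) = 3 := by
    intro u v h
    have h1 : ¬ (u = v) := by rintro rfl; rw [sub_self] at h; exact S.zero_notMem h
    simp only [w, if_neg h1, if_pos h]
  have key := sum_le_cyc (p := faceP (S.rot s)) w ?_ ?_
  · refine le_trans ?_ key
    have h1 : ∑ x, w x = ∑ u : ZMod n, ∑ x : ZMod n, w (u, u + x) := by
      rw [Fintype.sum_prod_type]
      refine Finset.sum_congr rfl fun u _ => ?_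
      exact (Fintype.sum_equiv (Equiv.addLeft u) _ _ (fun x => rfl)).symm
    have h2 : ∀ u : ZMod n, ∑ x : ZMod n, w (u, u + x) = 6 + 3 * S.D.card + 6 * Nat.card I := by
      intro u
      have hsplit : (Finset.univ : Finset (ZMod n)) =
          insert 0 (S.D ∪ Finset.univ.image S.val) := by
        ext x
        simp only [Finset.mem_univ, Finset.mem_insert, Finset.mem_union, Finset.mem_image,
          true_and, true_iff]
        exact S.exists_val_or x
      rw [hsplit, Finset.sum_insert, Finset.sum_union, Finset.sum_image (fun a _ b _ h => S.val_inj h)]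
      · have e1 : w (u, u + 0) = 6 := by simp [w]
        have e2 : ∑ x ∈ S.D, w (u, u + x) = 3 * S.D.card := by
          rw [Finset.sum_congr rfl (fun x hx => hwD u (u + x) (by simpa using hx)),
            Finset.sum_const, smul_eq_mul, mul_comm]
        have e3 : ∑ a : I × ZMod 3, w (u, u + S.val a) = 6 * Nat.card I := by
          rw [Finset.sum_congr rfl (fun a _ => hval u a), Finset.sum_const, smul_eq_mul,
            Finset.card_univ, Fintype.card_prod, ZMod.card, Nat.card_eq_fintype_card]
          ring
        rw [e1, e2, e3]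
        ring
      · rw [Finset.disjoint_left]
        intro y hy hy'
        obtain ⟨a, -, rfl⟩ := Finset.mem_image.1 hy'
        exact S.val_notMem a hy
      · rw [Finset.mem_union, not_or]
        refine ⟨S.zero_notMem, ?_⟩
        intro h
        obtain ⟨a, -, ha⟩ := Finset.mem_image.1 h
        exact S.val_ne_zero a ha
    rw [h1, Finset.sum_congr rfl (fun u _ => h2 u), Finset.sum_const, Finset.card_univ,
      ZMod.card, smul_eq_mul]
    apply le_of_eq
    ring
  · rintro ⟨u, v⟩
    rcases S.exists_val_or (v - u) with h | h | ⟨a, h⟩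
    · have : v = u := sub_eq_zero.1 h
      subst this
      rw [hself]
    · rw [hdig u v h, hwD u v h, hwD v u]
      have := S.D_neg _ h
      rwa [neg_sub] at this
    · have : v = u + S.val a := by rw [h]; ring
      subst this
      rw [faceP_val, hval, hval]
  · rintro ⟨u, v⟩
    rcases S.exists_val_or (v - u) with h | h | ⟨a, h⟩
    · have : v = u := sub_eq_zero.1 h
      subst this
      exact ⟨1, by norm_num, by simp [w], by simpa using hself v⟩
    · refine ⟨2, by norm_num, by rw [hwD u v h], ?_⟩
      have h' : u - v ∈ S.D := by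
        have := S.D_neg _ h
        rwa [neg_sub] at this
      rw [pow_two, Perm.mul_apply, hdig u v h, hdig v u h']
    · have : v = u + S.val a := by rw [h]; ring
      subst this
      refine ⟨3, by norm_num, by rw [hval], ?_⟩
      rw [pow_succ, pow_two, Perm.mul_apply, Perm.mul_apply, faceP_val, faceP_val, faceP_val,
        tau_tau_tau]
      have := S.val_tau_sum s a
      rw [Prod.mk.injEq]
      constructor
      · have h3 : u + S.val a + S.val (tau s a) + S.val (tau s (tau s a)) = u + 0 := by
          rw [← this]; ring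
        rw [h3, add_zero]
      · have h3 : u + S.val a + S.val (tau s a) + S.val (tau s (tau s a)) = u + 0 := by
          rw [← this]; ring
        rw [h3, add_zero]

/-! ### connectivity of the base -/

/-- the derived map is connected (for the unreversed triples) -/
def Connected : Prop :=
  ∀ f : ZMod n → I × ZMod 3 → Prop, (∀ v a, f v a ↔ f v (sig S.neg ∅ a)) →
    (∀ v a, f v a ↔ f (v + S.val a) (S.ng a)) → ∀ v a w b, f v a ↔ f w b

theorem conn (hc : S.Connected) (s : Finset I)
    (hs : ∀ x y, (sig S.neg ∅).SameCycle x y → (sig S.neg s).SameCycle x y) :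
    Conn (S.rot s) S.M := by
  intro f h1 h2
  have hpr : ∀ v a, Present S.M (v, v + S.val a) := fun v a => S.present_iff.2 ⟨a, rfl⟩
  have hσ : ∀ v a, f (v, v + S.val a) ↔ f (v, v + S.val (sig S.neg s a)) := by
    intro v a
    rw [h2 _ (hpr v a), Prod.swap_prod_mk]
    have e1 : (v + S.val a, v) = (v + S.val a, v + S.val a + S.val (S.ng a)) := by
      rw [S.val_ng]; simp
    rw [e1, h1 _ (hpr _ _), faceP_val]
    have e2 : v + S.val a + S.val (S.ng a) = v := by rw [S.val_ng]; ring
    rw [e2]
    rfl
  have hcyc : ∀ v a b, (sig S.neg s).SameCycle a b → (f (v, v + S.val a) ↔ f (v, v + S.val b)) := by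
    intro v a b hab
    refine rel_of_sameCycle (r := fun a b => f (v, v + S.val a) ↔ f (v, v + S.val b)) ?_ ?_ hab
    · exact ⟨fun _ => Iff.rfl, fun h => h.symm, fun h h' => h.trans h'⟩
    · intro a; exact hσ v a
  have key := hc (fun v a => f (v, v + S.val a)) (by
    intro v a
    exact hcyc v _ _ (hs _ _ (sameCycle_apply_right.2 (SameCycle.refl _ _)))) (by
    intro v a
    have e2 : v + S.val a + S.val (S.ng a) = v := by rw [S.val_ng]; ring
    rw [e2, h2 _ (hpr v a)]
    rfl)
  intro d e hd he
  obtain ⟨a, ha⟩ := S.present_iff.1 hd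
  obtain ⟨b, hb⟩ := S.present_iff.1 he
  rw [ha, hb]
  exact key _ _ _ _

end rot

end SymData

end Empire
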