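import Mathlib
import Pool.Agent.Lib.MP_800721_co.Sym

/-!
# PROJECT EMPIRE: handles on the symmetric base

Handles with flips are described relative to the vertex `p0 = u`; faces of the base and missing
edges are identified by labels, and it suffices that all labels are different.
-/

namespace Empire

open Equiv Equiv.Perm

variable {n : ℕ} {I : Type}

/-- description of a face of the base (the triangle with first arc `a` at the vertex `v`) or of a
missing edge -/
inductive Desc (n : ℕ) (I : Type) : Type
  | T (a : I × ZMod 3) (v : ZMod n) : Desc n I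
  | G (x y : ZMod n) : Desc n I

namespace SymData

variable (S : SymData n I)

/-- offset of an arc in its triangle -/
def off (a : I × ZMod 3) : ZMod n :=
  if a.2 = 0 then 0 else if a.2 = 1 then S.val (a.1, 0) else S.val (a.1, 0) + S.val (a.1, 1)

theorem off_nx (a : I × ZMod 3) : S.off (nx a) = S.off a + S.val a := by
  obtain ⟨i, j⟩ := a
  have hj : j = 0 ∨ j = 1 ∨ j = 2 := by revert j; decide
  have h := S.val_sum i
  have e1 : (1 : ZMod 3) + 1 = 2 := by decide
  have e2 : (2 : ZMod 3) + 1 = 0 := by decide
  have e3 : ¬ ((1 : ZMod 3) = 0) := by decide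
  have e4 : ¬ ((2 : ZMod 3) = 0) := by decide
  have e5 : ¬ ((2 : ZMod 3) = 1) := by decide
  rcases hj with rfl | rfl | rfl
  · simp [off, nx]
  · simp [off, nx, e1, e3, e4, e5]
  · simp [off, nx, e2, e4, e5, h]

/-- the face (cyclic list of vertices) -/
def face : Desc n I → List (ZMod n)
  | .T a v => [v, v + S.val a, v + S.val a + S.val (nx a)]
  | .G x y => [x, y]

/-- label of a face -/
def lab : Desc n I → (I × ZMod n) ⊕ Sym2 (ZMod n)
  | .T a v => Sum.inl (a.1, v - S.off a)
  | .G x y => Sum.inr s(x, y)

/-- the face is a face of the base in which the triples of `s` are reversed -/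
def DOk (s : Finset I) : Desc n I → Prop
  | .T a _ => a.1 ∉ s
  | .G x y => y - x ∈ S.D

theorem darts_T (a : I × ZMod 3) (v : ZMod n) :
    darts (S.face (.T a v)) = [(v, v + S.val a), (v + S.val a, v + S.val a + S.val (nx a)),
      (v + S.val a + S.val (nx a), v)] := rfl

theorem darts_G (x y : ZMod n) : darts (S.face (.G x y : Desc n I)) = [(x, y), (y, x)] := rfl

theorem mem_darts_T {a : I × ZMod 3} {v : ZMod n} {d : ZMod n × ZMod n}
    (h : d ∈ darts (S.face (.T a v))) :
    ∃ b, b.1 = a.1 ∧ d.2 = d.1 + S.val b ∧ d.1 - S.off b = v - S.off a := by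
  rw [darts_T] at h
  simp only [List.mem_cons, List.not_mem_nil, or_false] at h
  rcases h with rfl | rfl | rfl
  · exact ⟨a, rfl, rfl, rfl⟩
  · exact ⟨nx a, rfl, rfl, by rw [off_nx]; simp⟩
  · refine ⟨nx (nx a), rfl, ?_, ?_⟩
    · have := S.val_sum' a
      simp only
      rw [add_assoc, add_assoc, ← add_assoc (S.val a), this, add_zero]
    · rw [off_nx, off_nx]; ring

theorem darts_nodup {s : Finset I} {d : Desc n I} (h : S.DOk s d) : (darts (S.face d)).Nodup := by
  cases d with
  | T a v =>
    rw [darts_T]
    have h1 : S.val a ≠ S.val (nx a) := by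
      intro e
      have := S.val_inj e
      have : ∀ j : ZMod 3, j ≠ j + 1 := by decide
      exact this a.2 (congrArg Prod.snd ‹a = nx a›)
    have h2 : S.val a ≠ 0 := S.val_ne_zero a
    have h3 : S.val (nx a) ≠ 0 := S.val_ne_zero _
    have h4 : S.val a + S.val (nx a) ≠ 0 := by
      intro e
      have := S.val_sum' a
      rw [e, zero_add] at this
      exact S.val_ne_zero _ this
    simp only [List.nodup_cons, List.mem_cons, Prod.mk.injEq, List.not_mem_nil, or_false,
      not_or, not_false_eq_true, List.nodup_nil, and_true]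
    refine ⟨⟨?_, ?_⟩, ?_⟩
    · rintro ⟨e, -⟩; exact h2 (by simpa using e.symm)
    · rintro ⟨e, -⟩; apply h4; rw [add_assoc] at e; simpa using e.symm
    · rintro ⟨e, -⟩; exact h3 (by simpa using e.symm)
  | G x y =>
    rw [darts_G]
    have hne : x ≠ y := by
      rintro rfl
      simp only [DOk, sub_self] at h
      exact S.zero_notMem h
    simp only [List.nodup_cons, List.mem_cons, Prod.mk.injEq, List.not_mem_nil, or_false,
      not_false_eq_true, List.nodup_nil, and_true]
    rintro ⟨e, -⟩; exact hne e

theorem disjoint_darts {s : Finset I} {d e : Desc n I} (hd : S.DOk s d) (he : S.DOk s e)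
    (hne : S.lab d ≠ S.lab e) : List.Disjoint (darts (S.face d)) (darts (S.face e)) := by
  intro x hx hx'
  cases d with
  | T a v =>
    obtain ⟨b, h1, h2, h3⟩ := S.mem_darts_T hx
    cases e with
    | T a' v' =>
      obtain ⟨b', h1', h2', h3'⟩ := S.mem_darts_T hx'
      have hb : b = b' := S.val_inj (by
        have := h2.symm.trans h2'
        simpa using this)
      subst hb
      apply hne
      simp only [lab, Sum.inl.injEq, Prod.mk.injEq]
      exact ⟨h1.symm.trans h1', h3.symm.trans h3'⟩
    | G x' y' =>
      rw [darts_G] at hx'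
      simp only [List.mem_cons, List.not_mem_nil, or_false] at hx'
      have : S.val b = x.2 - x.1 := by rw [h2]; ring
      simp only [DOk] at he
      rcases hx' with rfl | rfl
      · exact S.val_notMem b (this ▸ he)
      · have := S.D_neg _ he
        rw [neg_sub] at this
        exact S.val_notMem b (‹S.val b = _› ▸ this)
  | G x0 y0 =>
    rw [darts_G] at hx
    simp only [DOk] at hd
    cases e with
    | T a' v' =>
      obtain ⟨b, h1, h2, h3⟩ := S.mem_darts_T hx'
      simp only [List.mem_cons, List.not_mem_nil, or_false] at hx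
      have : S.val b = x.2 - x.1 := by rw [h2]; ring
      rcases hx with rfl | rfl
      · exact S.val_notMem b (this ▸ hd)
      · have := S.D_neg _ hd
        rw [neg_sub] at this
        exact S.val_notMem b (‹S.val b = _› ▸ this)
    | G x' y' =>
      rw [darts_G] at hx'
      simp only [List.mem_cons, List.not_mem_nil, or_false] at hx hx'
      apply hne
      simp only [lab, Sum.inr.injEq, Sym2.eq_iff]
      rcases hx with rfl | rfl <;> rcases hx' with h | h <;>
        simp only [Prod.mk.injEq] at h <;> obtain ⟨rfl, rfl⟩ := h <;> tauto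

theorem flat_nodup {s : Finset I} {ds : List (Desc n I)} (h : ∀ d ∈ ds, S.DOk s d)
    (hn : (ds.map S.lab).Nodup) : ((ds.map S.face).flatMap darts).Nodup := by
  induction ds with
  | nil => simp
  | cons d ds ih =>
    rw [List.map_cons, List.nodup_cons] at hn
    rw [List.map_cons, List.flatMap_cons, List.nodup_append']
    refine ⟨S.darts_nodup (h d (by simp)), ih (fun d hd => h d (List.mem_cons_of_mem _ hd)) hn.2, ?_⟩
    intro x hx hx'
    obtain ⟨F, hF, hxF⟩ := List.mem_flatMap.1 hx'
    obtain ⟨e, he, rfl⟩ := List.mem_map.1 hF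
    refine S.disjoint_darts (h d (by simp)) (h e (List.mem_cons_of_mem _ he)) ?_ hx hxF
    intro heq
    exact hn.1 (heq ▸ List.mem_map_of_mem he)

variable [DecidableEq I]

theorem holds_base [NeZero n] [Finite I] {s : Finset I} {ds : List (Desc n I)}
    (h : ∀ d ∈ ds, S.DOk s d) : Holds (S.rot s) S.M (ds.map S.face) := by
  intro F hF
  obtain ⟨d, hd, rfl⟩ := List.mem_map.1 hF
  have hok := h d hd
  cases d with
  | T a v =>
    simp only [DOk] at hok
    have h1 : (nx a).1 ∉ s := hok
    have h2 : (nx (nx a)).1 ∉ s := hok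
    have e1 := S.faceP_val s v a
    rw [tau_of_notMem hok] at e1
    have e2 := S.faceP_val s (v + S.val a) (nx a)
    rw [tau_of_notMem h1] at e2
    have e3 := S.faceP_val s (v + S.val a + S.val (nx a)) (nx (nx a))
    rw [tau_of_notMem h2] at e3
    have hs : v + S.val a + S.val (nx a) + S.val (nx (nx a)) = v := by
      rw [add_assoc, add_assoc, ← add_assoc (S.val a), S.val_sum', add_zero]
    have hnx : nx (nx (nx a)) = a := by
      have : ∀ j : ZMod 3, j + 1 + 1 + 1 = j := by decide
      simp [nx, this]
    rw [hs] at e2 e3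
    rw [hnx] at e3
    refine ⟨⟨?_, ?_⟩, ?_, ?_⟩
    · exact List.isChain_cons_cons.2 ⟨e1, List.isChain_cons_cons.2 ⟨e2, List.isChain_singleton _⟩⟩
    · exact e3
    · intro hl; simp [face] at hl
    · intro _ d hd
      obtain ⟨b, -, h4, -⟩ := S.mem_darts_T hd
      exact S.present_iff.2 ⟨b, by rw [← h4]⟩
  | G x y =>
    simp only [DOk] at hok
    have hM : (x, y) ∈ S.M := S.mem_M.2 hok
    have hM' : (y, x) ∈ S.M := (S.valid s).symm _ _ hM
    refine ⟨⟨?_, ?_⟩, ?_, ?_⟩
    · exact List.isChain_cons_cons.2 ⟨(S.valid s).digon hM, List.isChain_singleton _⟩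
    · exact (S.valid s).digon hM'
    · intro _ d hd
      rw [darts_G] at hd
      simp only [List.mem_cons, List.not_mem_nil, or_false] at hd
      rcases hd with rfl | rfl
      · exact hM
      · exact hM'
    · intro hl; simp [face] at hl

end SymData

/-! ### handles -/

/-- symmetric description of a handle with flips: first arcs of the two triangles, positions of
the two triangles, cross edges (by the indices of their ends: 0,1,2 in the first, 3,4,5 in the second
triangle), each either missing or to be flipped (then with its arc) -/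
structure SOp (n : ℕ) (I : Type) where
  aP : I × ZMod 3
  aQ : I × ZMod 3
  sh : ZMod n
  w : ZMod n
  cr : List ((Fin 6 × Fin 6) × Option (I × ZMod 3))

namespace SOp

variable (S : SymData n I) (o : SOp n I)

/-- vertices of the two triangles, relative to the base point -/
def vtx : Fin 6 → ZMod n :=
  ![o.sh, o.sh + S.val o.aP, o.sh + S.val o.aP + S.val (nx' o.aP), o.w,
    o.w + S.val o.aQ + S.val (nx' o.aQ), o.w + S.val o.aQ]
where
  nx' (a : I × ZMod 3) : I × ZMod 3 := SymData.nx a

/-- resources of a cross edge -/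
def crD (u : ZMod n) (c : (Fin 6 × Fin 6) × Option (I × ZMod 3)) : List (Desc n I) :=
  match c.2 with
  | none => [.G (u + o.vtx S c.1.1) (u + o.vtx S c.1.2)]
  | some a => [.T a (u + o.vtx S c.1.1), .T (S.ng a) (u + o.vtx S c.1.2),
      .G (u + o.vtx S c.1.2 + S.val (SymData.nx a)) (u + o.vtx S c.1.1 + S.val (SymData.nx (S.ng a)))]

/-- resources of the handle at `u` -/
def descs (u : ZMod n) : List (Desc n I) :=
  .T o.aP (u + o.sh) :: .T o.aQ (u + o.w) :: o.cr.flatMap (o.crD S u)

/-- the handle at `u` -/
def toOp (u : ZMod n) : Op (ZMod n) where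
  p0 := u + o.vtx S 0
  p1 := u + o.vtx S 1
  p2 := u + o.vtx S 2
  q0 := u + o.vtx S 3
  q1 := u + o.vtx S 4
  q2 := u + o.vtx S 5
  cr := o.cr.map fun c => ((u + o.vtx S c.1.1, u + o.vtx S c.1.2),
    c.2.map fun a => (u + o.vtx S c.1.2 + S.val (SymData.nx a),
      u + o.vtx S c.1.1 + S.val (SymData.nx (S.ng a))))

/-- condition on a cross edge -/
def CrOk (s : Finset I) (c : (Fin 6 × Fin 6) × Option (I × ZMod 3)) : Prop :=
  match c.2 with
  | none => o.vtx S c.1.2 - o.vtx S c.1.1 ∈ S.D
  | some a => o.vtx S c.1.2 - o.vtx S c.1.1 = S.val a ∧ a.1 ∉ s ∧ (S.ng a).1 ∉ s ∧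
      S.val (SymData.nx (S.ng a)) - S.val a - S.val (SymData.nx a) ∈ S.D

/-- the handle is possible on the base -/
structure Good (s : Finset I) : Prop where
  sweep : ∃ es out, o.cr.map Prod.fst = (0, 3) :: es ∧
    Sweep [(0 : Fin 6), 1, 2, 0] [3, 5, 4, 3] es out
  hP : o.aP.1 ∉ s
  hQ : o.aQ.1 ∉ s
  cross : ∀ c ∈ o.cr, o.CrOk S s c

variable {S o}

theorem Good.ok {s : Finset I} (h : o.Good S s) (u : ZMod n) : (o.toOp S u).Ok := by
  obtain ⟨es, out, h1, h2⟩ := h.sweep
  have h3 := h2.map (fun i => u + o.vtx S i)
  refine ⟨es.map (Prod.map (fun i => u + o.vtx S i) (fun i => u + o.vtx S i)), _, ?_, h3⟩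
  have h4 : (o.toOp S u).cr.map Prod.fst =
      (o.cr.map Prod.fst).map (Prod.map (fun i => u + o.vtx S i) (fun i => u + o.vtx S i)) := by
    rw [toOp]
    simp [List.map_map, Function.comp_def]
  rw [h4, h1]
  rfl

theorem Good.res_eq {s : Finset I} (h : o.Good S s) (u : ZMod n) :
    (o.toOp S u).res = (o.descs S u).map S.face := by
  rw [Op.res, descs, List.map_cons, List.map_cons]
  have e1 : [(o.toOp S u).p0, (o.toOp S u).p1, (o.toOp S u).p2] =
      S.face (.T o.aP (u + o.sh)) := by
    simp [toOp, vtx, vtx.nx', SymData.face, add_assoc]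
  have e2 : [(o.toOp S u).q0, (o.toOp S u).q2, (o.toOp S u).q1] =
      S.face (.T o.aQ (u + o.w)) := by
    simp [toOp, vtx, vtx.nx', SymData.face, add_assoc]
  rw [e1, e2]
  congr 2
  have hcr := h.cross
  rw [toOp]
  simp only
  generalize hl : o.cr = l at hcr
  clear hl h
  induction l with
  | nil => rfl
  | cons c l ih =>
    rw [List.map_cons, List.flatMap_cons, List.flatMap_cons, List.map_append,
      ih (fun c hc => hcr c (List.mem_cons_of_mem _ hc))]
    congr 1
    have hc := hcr c (by simp)
    obtain ⟨c1, c2⟩ := c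
    cases c2 with
    | none => rfl
    | some a =>
      simp only [CrOk] at hc
      obtain ⟨h1, -⟩ := hc
      have h2 : o.vtx S c1.2 = o.vtx S c1.1 + S.val a := by rw [← h1]; ring
      have h3 : S.val (S.ng a) = - S.val a := S.val_ng a
      simp only [Option.map_some, crossRes, crD, List.map_cons, List.map_nil, SymData.face, h2, h3]
      congr 1
      · simp [add_assoc]
      · congr 1
        simp [add_assoc]

theorem Good.descs_ok {s : Finset I} (h : o.Good S s) (u : ZMod n) :
    ∀ d ∈ o.descs S u, S.DOk s d := by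
  intro d hd
  rw [descs] at hd
  rcases List.mem_cons.1 hd with rfl | hd
  · exact h.hP
  rcases List.mem_cons.1 hd with rfl | hd
  · exact h.hQ
  obtain ⟨c, hc, hd⟩ := List.mem_flatMap.1 hd
  have hco := h.cross c hc
  obtain ⟨c1, c2⟩ := c
  cases c2 with
  | none =>
    simp only [crD, List.mem_cons, List.not_mem_nil, or_false] at hd
    subst hd
    simp only [CrOk] at hco
    simp only [SymData.DOk]
    simpa using hco
  | some a =>
    simp only [CrOk] at hco
    obtain ⟨h1, h2, h3, h4⟩ := hco
    simp only [crD, List.mem_cons, List.not_mem_nil, or_false] at hd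
    rcases hd with rfl | rfl | rfl
    · exact h2
    · exact h3
    · simp only [SymData.DOk]
      have : o.vtx S c1.2 = o.vtx S c1.1 + S.val a := by rw [← h1]; ring
      rw [this]
      convert h4 using 1
      ring

end SOp

end Empire
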