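import Mathlib
import Pool.Agent.Lib.MP_800721_co.SOps

/-!
# PROJECT EMPIRE: from a symmetric certificate to a split embedding
-/

namespace Empire

open Equiv Equiv.Perm

variable {n : ℕ} {I : Type}

theorem nodup_of_parts {α β : Type*} {l : List (α ⊕ β)} (h1 : (l.filterMap Sum.getLeft?).Nodup)
    (h2 : (l.filterMap Sum.getRight?).Nodup) : l.Nodup := by
  induction l with
  | nil => simp
  | cons x l ih =>
    rcases x with a | b
    · have e1 : (Sum.inl a :: l : List (α ⊕ β)).filterMap Sum.getLeft? =
          a :: l.filterMap Sum.getLeft? := rfl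
      have e2 : (Sum.inl a :: l : List (α ⊕ β)).filterMap Sum.getRight? =
          l.filterMap Sum.getRight? := rfl
      rw [e1, List.nodup_cons] at h1
      rw [e2] at h2
      rw [List.nodup_cons]
      refine ⟨fun h => h1.1 ?_, ih h1.2 h2⟩
      exact List.mem_filterMap.2 ⟨_, h, rfl⟩
    · have e1 : (Sum.inr b :: l : List (α ⊕ β)).filterMap Sum.getLeft? =
          l.filterMap Sum.getLeft? := rfl
      have e2 : (Sum.inr b :: l : List (α ⊕ β)).filterMap Sum.getRight? =
          b :: l.filterMap Sum.getRight? := rfl
      rw [e1] at h1
      rw [e2, List.nodup_cons] at h2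
      rw [List.nodup_cons]
      refine ⟨fun h => h2.1 ?_, ih h1 h2.2⟩
      exact List.mem_filterMap.2 ⟨_, h, rfl⟩

namespace SOp

variable (S : SymData n I) (o : SOp n I)

/-- labels of the triangles used by the handle, relative to the base point -/
def fids : List (I × ZMod n) :=
  (o.aP.1, o.sh - S.off o.aP) :: (o.aQ.1, o.w - S.off o.aQ) :: o.cr.flatMap fun c =>
    match c.2 with
    | none => []
    | some a => [(a.1, o.vtx S c.1.1 - S.off a), ((S.ng a).1, o.vtx S c.1.2 - S.off (S.ng a))]

/-- missing edges inserted by the handle, relative to `p0` -/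
def dids : List (ZMod n × ZMod n) :=
  o.cr.map fun c =>
    match c.2 with
    | none => (o.vtx S c.1.1, o.vtx S c.1.2)
    | some a => (o.vtx S c.1.2 + S.val (SymData.nx a),
        o.vtx S c.1.1 + S.val (SymData.nx (S.ng a)))

theorem left_labs (u : ZMod n) :
    ((o.descs S u).map S.lab).filterMap Sum.getLeft? = (o.fids S).map fun f => (f.1, u + f.2) := by
  have key : ∀ l : List ((Fin 6 × Fin 6) × Option (I × ZMod 3)),
      ((l.flatMap (o.crD S u)).map S.lab).filterMap Sum.getLeft? =
      (l.flatMap fun c =>
        match c.2 with
        | none => []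
        | some a => [(a.1, o.vtx S c.1.1 - S.off a),
            ((S.ng a).1, o.vtx S c.1.2 - S.off (S.ng a))]).map fun f => (f.1, u + f.2) := by
    intro l
    induction l with
    | nil => rfl
    | cons c l ih =>
      rw [List.flatMap_cons, List.flatMap_cons, List.map_append, List.filterMap_append,
        List.map_append, ih]
      congr 1
      obtain ⟨c1, c2⟩ := c
      cases c2 with
      | none => rfl
      | some a => simp [crD, SymData.lab, add_sub_assoc]
  rw [descs, fids, List.map_cons, List.map_cons, List.map_cons, List.map_cons,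
    List.filterMap_cons_some (b := (o.aP.1, u + (o.sh - S.off o.aP)))
      (by simp [SymData.lab, add_sub_assoc]),
    List.filterMap_cons_some (b := (o.aQ.1, u + (o.w - S.off o.aQ)))
      (by simp [SymData.lab, add_sub_assoc]), key]

theorem right_labs (u : ZMod n) :
    ((o.descs S u).map S.lab).filterMap Sum.getRight? =
      (o.dids S).map fun e => s(u + e.1, u + e.2) := by
  have key : ∀ l : List ((Fin 6 × Fin 6) × Option (I × ZMod 3)),
      ((l.flatMap (o.crD S u)).map S.lab).filterMap Sum.getRight? =
      (l.map fun c =>
        match c.2 with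
        | none => (o.vtx S c.1.1, o.vtx S c.1.2)
        | some a => (o.vtx S c.1.2 + S.val (SymData.nx a),
            o.vtx S c.1.1 + S.val (SymData.nx (S.ng a)))).map fun e => s(u + e.1, u + e.2) := by
    intro l
    induction l with
    | nil => rfl
    | cons c l ih =>
      rw [List.flatMap_cons, List.map_cons, List.map_append, List.filterMap_append,
        List.map_cons, ih]
      obtain ⟨c1, c2⟩ := c
      cases c2 with
      | none => rfl
      | some a => simp [crD, SymData.lab, add_assoc]
  rw [descs, dids, List.map_cons, List.map_cons,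
    List.filterMap_cons_none (by rfl), List.filterMap_cons_none (by rfl), key]

end SOp

namespace SymData

variable (S : SymData n I)

/-- all resources of a list of handles -/
def allDescs (L : List (ZMod n × SOp n I)) : List (Desc n I) :=
  L.flatMap fun x => x.2.descs S x.1

/-- labels of all used triangles -/
def allF (L : List (ZMod n × SOp n I)) : List (I × ZMod n) :=
  L.flatMap fun x => (x.2.fids S).map fun f => (f.1, x.1 + f.2)

/-- all inserted missing edges -/
def allD (L : List (ZMod n × SOp n I)) : List (Sym2 (ZMod n)) :=
  L.flatMap fun x => (x.2.dids S).map fun e => s(x.1 + e.1, x.1 + e.2)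

theorem allDescs_left (L : List (ZMod n × SOp n I)) :
    ((S.allDescs L).map S.lab).filterMap Sum.getLeft? = S.allF L := by
  induction L with
  | nil => rfl
  | cons x L ih =>
    simp only [allDescs, allF, List.flatMap_cons, List.map_append, List.filterMap_append] at ih ⊢
    rw [ih, SOp.left_labs]

theorem allDescs_right (L : List (ZMod n × SOp n I)) :
    ((S.allDescs L).map S.lab).filterMap Sum.getRight? = S.allD L := by
  induction L with
  | nil => rfl
  | cons x L ih =>
    simp only [allDescs, allD, List.flatMap_cons, List.map_append, List.filterMap_append] at ih ⊢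
    rw [ih, SOp.right_labs]

variable [DecidableEq I] [NeZero n] [Finite I]

omit [DecidableEq I] [Finite I] in
theorem card_M : S.M.card = n * S.D.card := by
  rw [Finset.card_eq_sum_card_fiberwise (t := (Finset.univ : Finset (ZMod n)))
    (f := Prod.fst) (fun _ _ => Finset.mem_coe.2 (Finset.mem_univ _))]
  have : ∀ v ∈ (Finset.univ : Finset (ZMod n)),
      (S.M.filter (fun d => d.1 = v)).card = S.D.card := fun v _ => S.miss_M v
  rw [Finset.sum_congr rfl this, Finset.sum_const, Finset.card_univ, ZMod.card, smul_eq_mul]

omit [DecidableEq I] [Finite I] in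
/-- the digons among the resources -/
theorem digons_cover {s : Finset I} {ds : List (Desc n I)} (h : ∀ d ∈ ds, S.DOk s d)
    (hn : (ds.map S.lab).Nodup)
    (hc : 2 * ((ds.map S.lab).filterMap Sum.getRight?).length = n * S.D.card) :
    ∀ e ∈ S.M, e ∈ (ds.map S.face).flatMap darts := by
  classical
  let isG : Desc n I → Bool := fun d => match d with
    | .T _ _ => false
    | .G _ _ => true
  have hsub : (ds.filter isG).Sublist ds := List.filter_sublist
  have hok : ∀ d ∈ ds.filter isG, S.DOk s d := fun d hd => h d (hsub.subset hd)
  have hnd : (((ds.filter isG).map S.face).flatMap darts).Nodup :=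
    S.flat_nodup hok (hn.sublist (hsub.map _))
  have hlen : ∀ l : List (Desc n I), (((l.filter isG).map S.face).flatMap darts).length =
      2 * ((l.map S.lab).filterMap Sum.getRight?).length := by
    intro l
    induction l with
    | nil => rfl
    | cons d l ih =>
      cases d with
      | T a v =>
        rw [List.filter_cons_of_neg (by simp [isG]), ih, List.map_cons,
          List.filterMap_cons_none (by rfl)]
      | G x y =>
        rw [List.filter_cons_of_pos (by simp [isG]), List.map_cons, List.flatMap_cons,
          List.length_append, ih, List.map_cons,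
          List.filterMap_cons_some (b := s(x, y)) (by rfl), List.length_cons]
        simp [face, darts_pair]
        ring
  have hmem : ∀ e ∈ ((ds.filter isG).map S.face).flatMap darts, e ∈ S.M := by
    intro e he
    obtain ⟨F, hF, heF⟩ := List.mem_flatMap.1 he
    obtain ⟨d, hd, rfl⟩ := List.mem_map.1 hF
    have hdG := (List.mem_filter.1 hd).2
    have hdok := hok d hd
    cases d with
    | T a v => simp [isG] at hdG
    | G x y =>
      rw [darts_G] at heF
      simp only [DOk] at hdok
      simp only [List.mem_cons, List.not_mem_nil, or_false] at heF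
      rcases heF with rfl | rfl
      · exact S.mem_M.2 hdok
      · rw [mem_M]
        have := S.D_neg _ hdok
        rwa [neg_sub] at this
  have hcard : (((ds.filter isG).map S.face).flatMap darts).toFinset = S.M := by
    refine Finset.eq_of_subset_of_card_le ?_ ?_
    · intro e he
      exact hmem e (List.mem_toFinset.1 he)
    · rw [List.toFinset_card_of_nodup hnd, hlen, hc, S.card_M]
  intro e he
  rw [← hcard, List.mem_toFinset] at he
  obtain ⟨F, hF, heF⟩ := List.mem_flatMap.1 he
  obtain ⟨d, hd, rfl⟩ := List.mem_map.1 hF
  exact List.mem_flatMap.2 ⟨_, List.mem_map_of_mem (hsub.subset hd), heF⟩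

end SymData

theorem hasSplit_zmod {n m : ℕ} [NeZero n] (h : ∃ rot : ZMod n → Perm (ZMod n),
    (∀ v, rot v v = v) ∧ (∀ v, cyc (rot v) = m + 1) ∧ Conn rot ∅ ∧
      n * (n - 1) + 3 * n ≤ 3 * cyc (faceP rot) + 5) : HasSplit n m := by
  obtain ⟨k, rfl⟩ := Nat.exists_eq_succ_of_ne_zero (NeZero.ne n)
  exact h

/-- **The main theorem for symmetric certificates.** -/
theorem SymData.hasSplit [DecidableEq I] [NeZero n] [Finite I] (S : SymData n I) {s : Finset I}
    {m : ℕ} (hm : cyc (sig S.neg s) = m) (hc : S.Connected)
    (hs : ∀ x y, (sig S.neg ∅).SameCycle x y → (sig S.neg s).SameCycle x y)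
    (L : List (ZMod n × SOp n I)) (hgood : ∀ x ∈ L, x.2.Good S s)
    (hF : (S.allF L).Nodup) (hD : (S.allD L).Nodup)
    (hcount : 2 * (S.allD L).length = n * S.D.card)
    (hlen : 12 * L.length ≤ n * S.D.card + 10) : HasSplit n m := by
  let ops : List (Op (ZMod n)) := L.map fun x => x.2.toOp S x.1
  have hres : ops.flatMap Op.res = (S.allDescs L).map S.face := by
    simp only [ops, allDescs]
    clear hF hD hcount hlen
    induction L with
    | nil => rfl
    | cons x L ih =>
      rw [List.map_cons, List.flatMap_cons, List.flatMap_cons, List.map_append,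
        ih (fun x hx => hgood x (List.mem_cons_of_mem _ hx)), (hgood x (by simp)).res_eq]
  have hok : ∀ d ∈ S.allDescs L, S.DOk s d := by
    intro d hd
    obtain ⟨x, hx, hd⟩ := List.mem_flatMap.1 hd
    exact (hgood x hx).descs_ok x.1 d hd
  have hlab : ((S.allDescs L).map S.lab).Nodup :=
    nodup_of_parts (by rw [S.allDescs_left]; exact hF) (by rw [S.allDescs_right]; exact hD)
  obtain ⟨rot', h1, h2, h3, h4⟩ := final_of_ops (S.valid s) (S.conn hc s hs) ops
    (by
      intro o ho
      obtain ⟨x, hx, rfl⟩ := List.mem_map.1 ho
      exact (hgood x hx).ok x.1)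
    (by rw [hres]; exact S.holds_base hok)
    (by rw [hres]; exact S.flat_nodup hok hlab)
    (by
      rw [hres]
      refine S.digons_cover hok hlab ?_
      rw [S.allDescs_right]; exact hcount)
  have hlen' : ops.length = L.length := by simp [ops]
  rw [hlen'] at h4
  refine hasSplit_zmod ⟨rot', h1, ?_, h3, ?_⟩
  · intro v
    have := h2 v
    rw [S.cyc_rot, S.miss_M, hm] at this
    omega
  · have h5 := S.cyc_faces s
    have hcard := S.card_eq
    have h6 : n - 1 = 3 * Nat.card I + S.D.card := by omega
    have h7 : n * (n - 1) = 3 * (n * Nat.card I) + n * S.D.card := by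
      rw [h6]; ring
    rw [h7]
    omega

end Empire
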