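import Mathlib
import Pool.Agent.Lib.MP_800721_co.SMain

/-!
# PROJECT EMPIRE: certificates

All numbers in a certificate are linear forms `f * t + o`, written `(f, o)`; the modulus is
`n = N.1 * t + N.2`.  For a single `n` take `N = (0, n)`; for a template `N = (12, n0)`.
-/

namespace Empire

/-- linear form `(f, o)`, with value `f * t + o` -/
abbrev Aff := ℤ × ℤ

/-- value of a linear form -/
def ev (t : ℕ) (x : Aff) : ℤ := x.1 * t + x.2

/-- special arc: index of the triple, position `0, 1, 2` -/
abbrev Arc := ℕ × ℕ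

/-- next arc of the triple -/
def nxA (a : Arc) : Arc := (a.1, (a.2 + 1) % 3)

/-- cross edge of a handle: indices of its ends (0,1,2 in the first, 3,4,5 in the second triangle),
if it is flipped the arc `q - p` and the opposite arc `p - q`, the class `c` of the inserted
missing edge and whether its difference is `+ d_c` -/
structure Cr where
  p : Fin 6
  q : Fin 6
  fl : Option (Arc × Arc)
  c : ℕ
  sg : Bool

/-- a handle: first arcs of the triangles `(p0, p1, p2)` and `(q0, q2, q1)`, `sh = p0`, `w = q0`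
(relative to the base point of the handle) -/
structure AOp where
  aP : Arc
  aQ : Arc
  sh : Aff
  w : Aff
  cr : List Cr

/-- periodic pattern of handles: full handles at `g * j`, `0 ≤ j < q`, a partial one at `g * q` -/
structure Pat where
  g : ℕ
  q : Aff
  full : AOp
  part : Option AOp

/-- common part of the certificates: modulus, special triples, classes of missing differences
(if `hasH`, the last one is `N / 2`), patterns -/
structure Core where
  N : Aff
  tri : List (Aff × Aff × Aff)
  dl : List Aff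
  hasH : Bool
  pats : List Pat

namespace Core

variable (C : Core)

/-- value of a special arc -/
def valA (a : Arc) : Aff :=
  match C.tri[a.1]? with
  | none => 0
  | some x => if a.2 = 0 then x.1 else if a.2 = 1 then x.2.1 else x.2.2

/-- offset of a special arc in its triangle -/
def offA (a : Arc) : Aff :=
  if a.2 = 0 then 0 else if a.2 = 1 then C.valA (a.1, 0) else C.valA (a.1, 0) + C.valA (a.1, 1)

/-- congruence modulo `N` (sufficient test) -/
def eqm (x y : Aff) : Bool :=
  (List.range 9).any fun k =>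
    decide (x.1 - y.1 = ((k : ℤ) - 4) * C.N.1) && decide (x.2 - y.2 = ((k : ℤ) - 4) * C.N.2)

/-- vertices of a handle relative to its base point -/
def vtxA (o : AOp) (i : Fin 6) : Aff :=
  match i with
  | 0 => o.sh
  | 1 => o.sh + C.valA o.aP
  | 2 => o.sh + C.valA o.aP + C.valA (nxA o.aP)
  | 3 => o.w
  | 4 => o.w + C.valA o.aQ + C.valA (nxA o.aQ)
  | 5 => o.w + C.valA o.aQ

/-- the ends of the inserted missing edge -/
def dig (o : AOp) (c : Cr) : Aff × Aff :=
  match c.fl with
  | none => (C.vtxA o c.p, C.vtxA o c.q)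
  | some (a, b) => (C.vtxA o c.q + C.valA (nxA a), C.vtxA o c.p + C.valA (nxA b))

/-- triangles used by a handle: index and position -/
def fslots (o : AOp) : List (ℕ × Aff) :=
  (o.aP.1, o.sh - C.offA o.aP) :: (o.aQ.1, o.w - C.offA o.aQ) :: o.cr.flatMap fun c =>
    match c.fl with
    | none => []
    | some (a, b) => [(a.1, C.vtxA o c.p - C.offA a), (b.1, C.vtxA o c.q - C.offA b)]

/-- missing edges used by a handle: class and position -/
def dslots (o : AOp) : List (ℕ × Aff) :=
  o.cr.map fun c => (c.c, if c.sg then (C.dig o c).1 else (C.dig o c).2)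

/-- modulus for the positions of the missing edges of class `c` -/
def modD (c : ℕ) : Aff := if C.hasH && c + 1 == C.dl.length then C.dl[c]?.getD 0 else C.N

end Core

/-- componentwise order -/
def leA (x y : Aff) : Bool := decide (x.1 ≤ y.1) && decide (x.2 ≤ y.2)

/-- `X ≠ g * s` for all `lo ≤ s ≤ hi` -/
def sep1 (g : ℕ) (lo hi X : Aff) : Bool :=
  leA X (g * lo.1, g * lo.2 - 1) || leA (g * hi.1, g * hi.2 + 1) X ||
    !(decide ((Nat.gcd X.1.natAbs g) ∣ X.2.natAbs))

/-- `δ ≢ g * s` modulo `N` for all `lo ≤ s ≤ hi` -/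
def sepA (N : Aff) (g : ℕ) (lo hi δ : Aff) : Bool :=
  ((List.range 21).all fun k =>
    sep1 g lo hi (δ.1 + ((k : ℤ) - 10) * N.1, δ.2 + ((k : ℤ) - 10) * N.2)) &&
  leA (g * hi.1, g * hi.2 + 1) (δ.1 + 10 * N.1, δ.2 + 10 * N.2) &&
  leA (δ.1 - 10 * N.1, δ.2 - 10 * N.2) (g * lo.1, g * lo.2 - 1)

/-- all pairs of a list -/
def allPairs {α : Type} (r : α → α → Bool) : List α → Bool
  | [] => true
  | x :: l => (l.all fun y => r x y) && allPairs r l

/-- all positions of a pattern are different (`fs` for `0 ≤ j < q`, `ps` for `j = q`) -/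
def slotsOK (md : ℕ → Aff) (g : ℕ) (q : Aff) (fs ps : List (ℕ × Aff)) : Bool :=
  (allPairs (fun a b => a.1 != b.1 ||
    sepA (md a.1) g (-q.1, 1 - q.2) (q.1, q.2 - 1) (a.2 - b.2)) fs) &&
  (fs.all fun a => sepA (md a.1) g (0, 1) (q.1, q.2 - 1) 0) &&
  (fs.all fun a => ps.all fun b => a.1 != b.1 ||
    sepA (md a.1) g (0, 1) q (a.2 - b.2)) &&
  (allPairs (fun a b => a.1 != b.1 || sepA (md a.1) g 0 0 (a.2 - b.2)) ps)

/-- search for a sweep: `A` and `B` are the two sides of the face, `es` the chords -/
def sweepB : List (Fin 6) → List (Fin 6) → List (Fin 6 × Fin 6) → Bool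
  | A, B, [] => decide (3 ≤ A.length + B.length)
  | A, B, e :: es =>
    (List.range A.length).any fun i => (List.range B.length).any fun j =>
      (A[i]? == some e.1) && (B[j]? == some e.2) && decide (0 < i + (B.length - 1 - j)) &&
        sweepB (A.drop i) (B.take (j + 1)) es

namespace Core

variable (C : Core)

/-- the arc exists -/
def arcOK (a : Arc) : Bool := decide (a.1 < C.tri.length) && decide (a.2 < 3)

/-- check of a cross edge -/
def crOK (o : AOp) (c : Cr) : Bool :=
  decide (c.c < C.dl.length) &&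
  (match c.fl with
    | none => true
    | some (a, b) => C.arcOK a && C.arcOK b && C.eqm (C.vtxA o c.q - C.vtxA o c.p) (C.valA a) &&
        C.eqm (C.valA a + C.valA b) 0) &&
  C.eqm ((C.dig o c).2 - (C.dig o c).1)
    (if c.sg then C.dl[c.c]?.getD 0 else - (C.dl[c.c]?.getD 0))

/-- check of a handle -/
def opOK (o : AOp) : Bool :=
  C.arcOK o.aP && C.arcOK o.aQ &&
  (match o.cr with
    | [] => false
    | c :: l => (c.p == 0) && (c.q == 3) &&
        sweepB [0, 1, 2, 0] [3, 5, 4, 3] (l.map fun c => (c.p, c.q))) &&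
  o.cr.all fun c => C.crOK o c

/-- triangles used by the partial handle -/
def fpart (p : Pat) : List (ℕ × Aff) :=
  match p.part with
  | none => []
  | some o => C.fslots o

/-- missing edges used by the partial handle -/
def dpart (p : Pat) : List (ℕ × Aff) :=
  match p.part with
  | none => []
  | some o => C.dslots o

/-- check of a pattern -/
def patOK (p : Pat) : Bool :=
  decide (0 < p.g) && leA 0 p.q && C.opOK p.full &&
  (match p.part with
    | none => true
    | some o => C.opOK o) &&
  slotsOK (fun _ => C.N) p.g p.q (C.fslots p.full) (C.fpart p) &&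
  slotsOK C.modD p.g p.q (C.dslots p.full) (C.dpart p)

/-- triples used by a pattern -/
def fkeys (p : Pat) : List ℕ := (C.fslots p.full ++ C.fpart p).map Prod.fst

/-- classes of missing differences used by a pattern -/
def dkeys (p : Pat) : List ℕ := (C.dslots p.full ++ C.dpart p).map Prod.fst

/-- triangles used by a pattern, with the ranges of `j` -/
def fall (p : Pat) : List ((ℕ × Aff) × (Aff × Aff)) :=
  ((C.fslots p.full).map fun a => (a, ((0, 0), p.q))) ++
    (C.fpart p).map fun a => (a, (p.q, (p.q.1, p.q.2 + 1)))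

/-- common divisor of two steps and the modulus -/
def gg (p p' : Pat) : ℕ := Nat.gcd (Nat.gcd p.g p'.g) (Nat.gcd C.N.1.natAbs C.N.2.natAbs)

/-- `δ` is never divisible by `d` -/
def sepG (d : ℕ) (δ : Aff) : Bool := decide ((d : ℤ) ∣ δ.1) && !(decide ((d : ℤ) ∣ δ.2))

/-- direct test for `δ + g * j ≢ g' * j'`, only if there are no slopes -/
def sepJ (g g' : ℕ) (r r' : Aff × Aff) (δ : Aff) : Bool :=
  decide (C.N.1 = 0) && decide (r.1.1 = 0) && decide (r.2.1 = 0) && decide (r'.1.1 = 0) &&
  decide (r'.2.1 = 0) && decide (δ.1 = 0) &&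
  (List.range (r.2.2 - r.1.2).toNat).all fun i => (List.range (r'.2.2 - r'.1.2).toNat).all fun i' =>
    !(decide (C.N.2 ∣ δ.2 + g * (r.1.2 + i) - g' * (r'.1.2 + i')))

/-- number of missing differences -/
def sizeD : ℕ := 2 * C.dl.length - (if C.hasH then 1 else 0)

/-- number of inserted edges -/
def edgeSum : List Pat → Aff
  | [] => 0
  | p :: l => ((p.full.cr.length : ℤ) * p.q.1, (p.full.cr.length : ℤ) * p.q.2 +
      (match p.part with
        | none => 0
        | some o => (o.cr.length : ℤ))) + edgeSum l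

/-- number of handles -/
def opSum : List Pat → Aff
  | [] => 0
  | p :: l => (p.q.1, p.q.2 + (match p.part with
      | none => 0
      | some _ => 1)) + opSum l

/-- check of the handle part of a certificate -/
def check : Bool :=
  decide (0 ≤ C.N.1) && decide (0 < C.N.2) &&
  (!C.hasH || (decide (0 < C.dl.length) &&
    decide (2 * (C.dl[C.dl.length - 1]?.getD 0).1 = C.N.1) &&
    decide (2 * (C.dl[C.dl.length - 1]?.getD 0).2 = C.N.2))) &&
  C.pats.all C.patOK &&
  allPairs (fun p p' => ((C.fall p).all fun a => (C.fall p').all fun b =>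
      a.1.1 != b.1.1 || sepG (C.gg p p') (a.1.2 - b.1.2) ||
        C.sepJ p.g p'.g a.2 b.2 (a.1.2 - b.1.2)) &&
    ((C.dkeys p).all fun k => (C.dkeys p').all fun k' => k != k')) C.pats &&
  decide (2 * (edgeSum C.pats).1 = C.sizeD * C.N.1) &&
  decide (2 * (edgeSum C.pats).2 = C.sizeD * C.N.2) &&
  decide (12 * (opSum C.pats).1 ≤ C.sizeD * C.N.1) &&
  decide (12 * (opSum C.pats).2 ≤ C.sizeD * C.N.2 + 10)

/-- all triples used by the patterns -/
def used : List ℕ := C.pats.flatMap C.fkeys

end Core

/-- the arc of a triple index and a position -/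
def toI {I : Type} (ι : ℕ → I) (a : Arc) : I × ZMod 3 := (ι a.1, (a.2 : ZMod 3))

/-- The symmetric data `S` realises the certificate `C` for the parameter `t`. -/
structure Core.Realises (C : Core) (t : ℕ) {n : ℕ} {I : Type} (S : SymData n I) (ι : ℕ → I) :
    Prop where
  hn : (n : ℤ) = ev t C.N
  inj : ∀ i j : ℕ, i < C.tri.length → j < C.tri.length → ι i = ι j → i = j
  val : ∀ i j : ℕ, i < C.tri.length → j < 3 →
    S.val (ι i, (j : ZMod 3)) = ((ev t (C.valA (i, j)) : ℤ) : ZMod n)
  mem : ∀ c, c < C.dl.length → ((ev t (C.dl[c]?.getD 0) : ℤ) : ZMod n) ∈ S.D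
  dne : ∀ c c', c < C.dl.length → c' < C.dl.length → c ≠ c' →
    ((ev t (C.dl[c]?.getD 0) : ℤ) : ZMod n) ≠ ((ev t (C.dl[c']?.getD 0) : ℤ) : ZMod n) ∧
    ((ev t (C.dl[c]?.getD 0) : ℤ) : ZMod n) ≠ - ((ev t (C.dl[c']?.getD 0) : ℤ) : ZMod n)
  two : ∀ c, c < C.dl.length → ¬ (C.hasH = true ∧ c + 1 = C.dl.length) →
    ((ev t (C.dl[c]?.getD 0) : ℤ) : ZMod n) ≠ - ((ev t (C.dl[c]?.getD 0) : ℤ) : ZMod n)
  card : S.D.card = C.sizeD

/-- conclusion for the handle part of a certificate -/
def HandlesExist {n : ℕ} {I : Type} (S : SymData n I) (s : Finset I) : Prop :=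
  ∃ L : List (ZMod n × SOp n I), (∀ x ∈ L, x.2.Good S s) ∧ (S.allF L).Nodup ∧ (S.allD L).Nodup ∧
    2 * (S.allD L).length = n * S.D.card ∧ 12 * L.length ≤ n * S.D.card + 10

end Empire
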