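import Mathlib
import Pool.Agent.Lib.MP_800721_co.Sym

/-!
# PROJECT EMPIRE: connectivity of the symmetric base from a potential

`π` is a potential on the arcs, constant on the circuits.  An arc `a` is tight if
`π (- a) = π a + val a`.  If the circuits are connected by tight arcs and the defects
`π a + val a - π (- a)` generate `ZMod n`, then the derived map is connected.
-/

namespace Empire

open Equiv Equiv.Perm

namespace SymData

variable {n : ℕ} {I : Type} (S : SymData n I) [DecidableEq I]

/-- steps along circuits and tight arcs -/
def TightRel (π : I × ZMod 3 → ZMod n) (a b : I × ZMod 3) : Prop :=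
  b = sig S.neg ∅ a ∨ (b = S.ng a ∧ π b = π a + S.val a)

theorem connected_of_potential (π : I × ZMod 3 → ZMod n)
    (hπ : ∀ a, π (sig S.neg ∅ a) = π a)
    (hconn : ∀ a b, Quot.mk (S.TightRel π) a = Quot.mk (S.TightRel π) b)
    (hgen : (1 : ZMod n) ∈ AddSubgroup.closure {x | ∃ a, x = π a + S.val a - π (S.ng a)}) :
    S.Connected := by
  intro f h1 h2
  -- shifted function
  have hstep : ∀ x a, (f (x + π a) a ↔
      f (x + (π a + S.val a - π (S.ng a)) + π (S.ng a)) (S.ng a)) := by
    intro x a
    rw [h2]
    have : x + (π a + S.val a - π (S.ng a)) + π (S.ng a) = x + π a + S.val a := by ring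
    rw [this]
  have hlift : ∀ x a b, S.TightRel π a b → (f (x + π a) a) = (f (x + π b) b) := by
    intro x a b hab
    apply propext
    rcases hab with rfl | ⟨rfl, hp⟩
    · rw [hπ]
      exact h1 _ _
    · have := hstep x a
      rw [hp] at this ⊢
      have e : x + (π a + S.val a - (π a + S.val a)) + (π a + S.val a) =
          x + (π a + S.val a) := by ring
      rwa [e] at this
  have hR : ∀ x a b, (f (x + π a) a ↔ f (x + π b) b) := fun x a b =>
    iff_of_eq (congrArg (Quot.lift (fun a => f (x + π a) a) (hlift x)) (hconn a b))
  -- the group of periods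
  let G : AddSubgroup (ZMod n) :=
    { carrier := {s | ∀ x a, (f (x + π a) a ↔ f (x + s + π a) a)}
      zero_mem' := by
        intro x a
        rw [add_zero]
      add_mem' := by
        intro s s' hs hs' x a
        rw [hs x a, hs' (x + s) a, add_assoc x s s']
      neg_mem' := by
        intro s hs x a
        have := hs (x + -s) a
        rw [neg_add_cancel_right] at this
        exact this.symm }
  have hG : AddSubgroup.closure {x | ∃ a, x = π a + S.val a - π (S.ng a)} ≤ G := by
    rw [AddSubgroup.closure_le]
    rintro s ⟨a, rfl⟩ x b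
    rw [hR x b a, hstep x a]
    exact hR _ _ _
  have h1G : (1 : ZMod n) ∈ G := hG hgen
  have hall : ∀ s : ZMod n, s ∈ G := by
    intro s
    obtain ⟨k, rfl⟩ := ZMod.intCast_surjective s
    have := G.zsmul_mem h1G k
    rwa [zsmul_one] at this
  intro v a w b
  have e1 : v = (v - π a) + π a := by ring
  have e2 : w = (v - π a) + (w - π b - (v - π a)) + π b := by ring
  have h4 := hR (v - π a) a b
  have h5 := hall (w - π b - (v - π a)) (v - π a) b
  rw [e1]
  conv_rhs => rw [e2]
  rw [h4]
  exact h5

end SymData

end Empire
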