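import Mathlib
import Pool.Agent.Lib.MP_800721_co.Cert

/-!
# PROJECT EMPIRE: templates, part 1: the arcs and the involution

For `M = 2 t + 1` the triples are the special triples (indices `< T`, values: linear forms) and
the ladder triples `A_i = (- u_{i-1}, u_i, r_i)`, `B_i = (- w_{i-1}, - r_i, w_i)`, `1 ≤ i ≤ M`.
-/

namespace Empire

open Equiv Equiv.Perm

/-- the certificate of a template -/
structure Template where
  /-- modulus `(12, n0)`, special triples, missing differences, patterns -/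
  core : Core
  /-- `n = 12 t + n0` -/
  n0 : ℕ
  /-- width of the first window -/
  c : ℤ
  /-- orientation of the zigzag, `1` or `-1` -/
  eps : ℤ
  /-- first element of the `u` chain -/
  u0 : Aff
  /-- first element of the `w` chain -/
  w0 : Aff
  /-- sign of the `u` chain -/
  su : ℤ
  /-- sign of the `w` chain -/
  sw : ℤ
  /-- negatives of the special arcs -/
  ng : List ℕ
  /-- the arc with value `u_0` -/
  pu0 : ℕ
  /-- the arc with value `- u_M` -/
  pu1 : ℕ
  /-- the arc with value `w_0` -/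
  pw0 : ℕ
  /-- the arc with value `- w_M` -/
  pw1 : ℕ
  /-- number of labels of the special arcs -/
  F : ℕ
  /-- labels of the special arcs -/
  lab : List ℕ
  /-- representatives of the labels -/
  repl : List ℕ
  /-- ranks of the special arcs, decreasing along the reduced permutation -/
  rk : List ℕ
  /-- special triples to be reversed -/
  J : List ℕ
  /-- number of classes after reversing -/
  e : ℕ
  /-- labels of the remaining classes -/
  roots : List ℕ
  /-- ranks of the labels with respect to the merging -/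
  rk2 : List ℕ
  /-- merging: for each label two arcs of a triple of `J` -/
  mer : List (ℕ × ℕ)
  /-- potentials of the labels -/
  pot : List Aff
  /-- tight arcs for the labels `≥ 1` -/
  tr : List ℕ
  /-- combination of defects equal to `1` -/
  comb : List (ℕ × ℤ)

namespace Template

variable (P : Template)

/-- number of special triples, minus one -/
def T' : ℕ := P.core.tri.length - 1

/-- number of special triples -/
abbrev T : ℕ := P.T' + 1

/-- value of a special arc -/
def s (a : ℕ) : Aff := P.core.valA (a / 3, a % 3)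

/-- negative of a special arc -/
def g (a : ℕ) : ℕ := P.ng.getD a 0

/-- is the special arc a port? -/
def port (a : ℕ) : Bool :=
  Nat.beq a P.pu0 || Nat.beq a P.pu1 || Nat.beq a P.pw0 || Nat.beq a P.pw1

/-- negation of a linear form -/
def nA (x : Aff) : Aff := (-x.1, -x.2)

/-- last element of the `u` chain -/
def uM : Aff := (P.u0.1 + P.eps, P.u0.2 + P.eps * (P.c + 1))

/-- last element of the `w` chain -/
def wM : Aff := (P.w0.1 - P.eps, P.w0.2 - P.eps * (P.c + 1))

/-- test of a special arc (negatives) -/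
def tG (a : ℕ) : Bool :=
  P.port a ||
    (Nat.blt (P.g a) (3 * P.T) && !(P.port (P.g a)) && Nat.beq (P.g (P.g a)) a &&
      decide (P.s (P.g a) = nA (P.s a)))

/-- test of the ports -/
def tP : Bool :=
  Nat.blt P.pu0 (3 * P.T) && Nat.blt P.pu1 (3 * P.T) && Nat.blt P.pw0 (3 * P.T) &&
  Nat.blt P.pw1 (3 * P.T) && !(Nat.beq P.pu0 P.pu1) && !(Nat.beq P.pu0 P.pw0) &&
  !(Nat.beq P.pu0 P.pw1) && !(Nat.beq P.pu1 P.pw0) && !(Nat.beq P.pu1 P.pw1) &&
  !(Nat.beq P.pw0 P.pw1) && decide (P.s P.pu0 = P.u0) && decide (P.s P.pw0 = P.w0) &&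
  decide (P.s P.pu1 = nA P.uM) && decide (P.s P.pw1 = nA P.wM)

/-- test of a special triple -/
def tT (i : ℕ) : Bool :=
  [(-1 : ℤ), 0, 1].any fun z =>
    decide (P.s (3 * i) + P.s (3 * i + 1) + P.s (3 * i + 2) = ((12 * z, P.n0 * z) : Aff))

/-- the first part of the test -/
def check1 : Bool :=
  (List.range (3 * P.T)).all P.tG && P.tP && (List.range P.T).all P.tT &&
  decide (P.core.N = ((12, P.n0) : Aff)) && decide (0 < P.core.tri.length)

/-! ### arcs -/

/-- the index type of the triples -/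
abbrev Idx (t : ℕ) : Type := Fin P.T ⊕ (Fin (2 * t + 1) ⊕ Fin (2 * t + 1))

/-- the arcs -/
abbrev TArc (t : ℕ) : Type := P.Idx t × ZMod 3

/-- number of a special arc -/
def enc (i : Fin P.T) (k : ZMod 3) : ℕ := 3 * i.val + k.val

variable (t : ℕ)

/-- special arc with a given number -/
def S (a : ℕ) : P.TArc t := (Sum.inl (Fin.ofNat P.T (a / 3)), ((a : ℕ) : ZMod 3))

/-- arcs of the triples `A_{i+1}` -/
def A (i : ℕ) (k : ZMod 3) : P.TArc t := (Sum.inr (Sum.inl (Fin.ofNat (2 * t + 1) i)), k)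

/-- arcs of the triples `B_{i+1}` -/
def B (i : ℕ) (k : ZMod 3) : P.TArc t := (Sum.inr (Sum.inr (Fin.ofNat (2 * t + 1) i)), k)

/-- kinds of arcs -/
inductive Kind where
  | sp (a : ℕ)
  | u (i : ℕ) (b : Bool)
  | w (i : ℕ) (b : Bool)
  | r (i : ℕ) (b : Bool)
  deriving DecidableEq

/-- valid kinds -/
def VK : Kind → Prop
  | .sp a => a < 3 * P.T ∧ P.port a = false
  | .u i _ => i ≤ 2 * t + 1
  | .w i _ => i ≤ 2 * t + 1
  | .r i _ => 1 ≤ i ∧ i ≤ 2 * t + 1

/-- kind of a special arc -/
def kindS (a : ℕ) : Kind :=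
  if a = P.pu0 then .u 0 true else if a = P.pu1 then .u (2 * t + 1) false else
    if a = P.pw0 then .w 0 true else if a = P.pw1 then .w (2 * t + 1) false else .sp a

/-- kind of an arc -/
def kind : P.TArc t → Kind
  | (Sum.inl i, k) => P.kindS t (P.enc i k)
  | (Sum.inr (Sum.inl i), k) =>
    if k = 0 then .u i.val false else if k = 1 then .u (i.val + 1) true else .r (i.val + 1) true
  | (Sum.inr (Sum.inr i), k) =>
    if k = 0 then .w i.val false else if k = 1 then .r (i.val + 1) false else .w (i.val + 1) true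

/-- the arc of a kind -/
def arcOf : Kind → P.TArc t
  | .sp a => P.S t a
  | .u i true => if i = 0 then P.S t P.pu0 else P.A t (i - 1) 1
  | .u i false => if i = 2 * t + 1 then P.S t P.pu1 else P.A t i 0
  | .w i true => if i = 0 then P.S t P.pw0 else P.B t (i - 1) 2
  | .w i false => if i = 2 * t + 1 then P.S t P.pw1 else P.B t i 0
  | .r i true => P.A t (i - 1) 2
  | .r i false => P.B t (i - 1) 1

/-- opposite kind -/
def flipK : Kind → Kind
  | .sp a => .sp (P.g a)
  | .u i b => .u i (!b)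
  | .w i b => .w i (!b)
  | .r i b => .r i (!b)

/-- the opposite arc -/
def ngT (a : P.TArc t) : P.TArc t := P.arcOf t (P.flipK (P.kind t a))

end Template

section facts

namespace Template

variable {P : Template} (t : ℕ)

theorem zmod3_cases (k : ZMod 3) : k = 0 ∨ k = 1 ∨ k = 2 := by
  revert k; decide

theorem enc_lt (i : Fin P.T) (k : ZMod 3) : P.enc i k < 3 * P.T := by
  have h1 := ZMod.val_lt k
  have h2 := i.isLt
  unfold enc
  omega

theorem S_enc (i : Fin P.T) (k : ZMod 3) : P.S t (P.enc i k) = (Sum.inl i, k) := by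
  have h1 := ZMod.val_lt k
  unfold S enc
  rw [Nat.mul_add_div (by norm_num), Nat.div_eq_of_lt h1, add_zero]
  congr 1
  · congr 1
    apply Fin.ext
    simp [Fin.ofNat, Nat.mod_eq_of_lt i.isLt]
  · push_cast
    rw [show (3 : ZMod 3) = 0 by decide, zero_mul, zero_add, ZMod.natCast_zmod_val]

theorem ofNat_val {m a : ℕ} (h : a < m + 1) : (Fin.ofNat (m + 1) a).val = a := by
  simp [Fin.ofNat, Nat.mod_eq_of_lt h]

theorem ofNat_self {m : ℕ} (i : Fin (m + 1)) : Fin.ofNat (m + 1) i.val = i :=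
  Fin.ext (ofNat_val i.isLt)

theorem enc_S {a : ℕ} (ha : a < 3 * P.T) :
    P.enc (Fin.ofNat P.T (a / 3)) ((a : ℕ) : ZMod 3) = a := by
  unfold enc
  rw [ZMod.val_natCast, ofNat_val (Nat.div_lt_of_lt_mul ha)]
  omega

theorem kind_S {a : ℕ} (ha : a < 3 * P.T) : P.kind t (P.S t a) = P.kindS t a := by
  change P.kindS t (P.enc (Fin.ofNat P.T (a / 3)) ((a : ℕ) : ZMod 3)) = _
  rw [enc_S ha]

theorem beq_false_of_ne {x y : ℕ} (h : x ≠ y) : Nat.beq x y = false := by
  rw [← Bool.not_eq_true]
  exact fun h' => h (Nat.eq_of_beq_eq_true h')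

theorem ne_of_beq_false {x y : ℕ} (h : Nat.beq x y = false) : x ≠ y := by
  rintro rfl
  rw [Nat.beq_refl] at h
  exact Bool.noConfusion h

theorem port_false {a : ℕ} (h : P.port a = false) :
    a ≠ P.pu0 ∧ a ≠ P.pu1 ∧ a ≠ P.pw0 ∧ a ≠ P.pw1 := by
  simp only [port, Bool.or_eq_false_iff] at h
  obtain ⟨⟨⟨h1, h2⟩, h3⟩, h4⟩ := h
  exact ⟨ne_of_beq_false h1, ne_of_beq_false h2, ne_of_beq_false h3, ne_of_beq_false h4⟩

theorem port_of_ne {a : ℕ} (h1 : a ≠ P.pu0) (h2 : a ≠ P.pu1) (h3 : a ≠ P.pw0)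
    (h4 : a ≠ P.pw1) : P.port a = false := by
  simp [port, beq_false_of_ne h1, beq_false_of_ne h2, beq_false_of_ne h3, beq_false_of_ne h4]

/-- what the first test says about the ports -/
structure PortFacts (P : Template) : Prop where
  l0 : P.pu0 < 3 * P.T
  l1 : P.pu1 < 3 * P.T
  l2 : P.pw0 < 3 * P.T
  l3 : P.pw1 < 3 * P.T
  n01 : P.pu0 ≠ P.pu1
  n02 : P.pu0 ≠ P.pw0
  n03 : P.pu0 ≠ P.pw1
  n12 : P.pu1 ≠ P.pw0
  n13 : P.pu1 ≠ P.pw1
  n23 : P.pw0 ≠ P.pw1
  s0 : P.s P.pu0 = P.u0
  s2 : P.s P.pw0 = P.w0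
  s1 : P.s P.pu1 = nA P.uM
  s3 : P.s P.pw1 = nA P.wM
  g_lt : ∀ a < 3 * P.T, P.port a = false → P.g a < 3 * P.T
  g_port : ∀ a < 3 * P.T, P.port a = false → P.port (P.g a) = false
  g_g : ∀ a < 3 * P.T, P.port a = false → P.g (P.g a) = a
  s_g : ∀ a < 3 * P.T, P.port a = false → P.s (P.g a) = nA (P.s a)
  sum : ∀ i < P.T, ∃ z : ℤ, P.s (3 * i) + P.s (3 * i + 1) + P.s (3 * i + 2) =
    ((12 * z, P.n0 * z) : Aff)
  hN : P.core.N = ((12, P.n0) : Aff)
  len : P.core.tri.length = P.T

theorem portFacts (h : P.check1 = true) : PortFacts P := by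
  simp only [check1, tP, Bool.and_eq_true, List.all_eq_true, List.mem_range,
    decide_eq_true_eq, Bool.not_eq_true', Nat.blt_eq] at h
  obtain ⟨⟨⟨⟨hG, h1⟩, hT⟩, hN⟩, hlen⟩ := h
  obtain ⟨⟨⟨⟨⟨⟨⟨⟨⟨⟨⟨⟨⟨l0, l1⟩, l2⟩, l3⟩, n01⟩, n02⟩, n03⟩, n12⟩, n13⟩, n23⟩, s0⟩, s2⟩, s1⟩, s3⟩ := h1
  have hG' : ∀ a < 3 * P.T, P.port a = false → P.g a < 3 * P.T ∧ P.port (P.g a) = false ∧
      P.g (P.g a) = a ∧ P.s (P.g a) = nA (P.s a) := by
    intro a ha hp
    have := hG a ha
    simp only [tG, hp, Bool.false_or, Bool.and_eq_true, Nat.blt_eq, Bool.not_eq_true',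
      decide_eq_true_eq] at this
    obtain ⟨⟨⟨g1, g2⟩, g3⟩, g4⟩ := this
    exact ⟨g1, g2, Nat.eq_of_beq_eq_true g3, g4⟩
  refine ⟨l0, l1, l2, l3, ne_of_beq_false n01, ne_of_beq_false n02, ne_of_beq_false n03,
    ne_of_beq_false n12, ne_of_beq_false n13, ne_of_beq_false n23, s0, s2, s1, s3,
    fun a ha hp => (hG' a ha hp).1, fun a ha hp => (hG' a ha hp).2.1,
    fun a ha hp => (hG' a ha hp).2.2.1, fun a ha hp => (hG' a ha hp).2.2.2, ?_, hN, ?_⟩
  · intro i hi
    have := hT i hi
    simp only [tT, List.any_eq_true, decide_eq_true_eq] at this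
    obtain ⟨z, -, hz⟩ := this
    exact ⟨z, hz⟩
  · unfold T T'
    omega

variable (hP : PortFacts P)
include hP

omit hP in
theorem kindS_pu0 : P.kindS t P.pu0 = .u 0 true := by simp [kindS]
theorem kindS_pu1 : P.kindS t P.pu1 = .u (2 * t + 1) false := by
  simp [kindS, hP.n01.symm]
theorem kindS_pw0 : P.kindS t P.pw0 = .w 0 true := by
  simp [kindS, hP.n02.symm, hP.n12.symm]
theorem kindS_pw1 : P.kindS t P.pw1 = .w (2 * t + 1) false := by
  simp [kindS, hP.n03.symm, hP.n13.symm, hP.n23.symm]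

omit hP in
theorem kindS_of_port {a : ℕ} (h : P.port a = false) : P.kindS t a = .sp a := by
  obtain ⟨h1, h2, h3, h4⟩ := port_false h
  simp [kindS, h1, h2, h3, h4]

theorem kindS_valid {a : ℕ} (ha : a < 3 * P.T) : P.VK t (P.kindS t a) := by
  by_cases h0 : a = P.pu0
  · subst h0; rw [kindS_pu0 t]; exact Nat.zero_le _
  by_cases h1 : a = P.pu1
  · subst h1; rw [kindS_pu1 t hP]; exact le_refl _
  by_cases h2 : a = P.pw0
  · subst h2; rw [kindS_pw0 t hP]; exact Nat.zero_le _
  by_cases h3 : a = P.pw1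
  · subst h3; rw [kindS_pw1 t hP]; exact le_refl _
  · rw [kindS_of_port t (port_of_ne h0 h1 h2 h3)]
    exact ⟨ha, port_of_ne h0 h1 h2 h3⟩

theorem kind_valid (a : P.TArc t) : P.VK t (P.kind t a) := by
  rcases a with ⟨i | i | i, k⟩
  · exact kindS_valid t hP (enc_lt i k)
  · have := i.isLt
    rcases zmod3_cases k with rfl | rfl | rfl
    · change i.val ≤ 2 * t + 1
      omega
    · change i.val + 1 ≤ 2 * t + 1
      omega
    · change 1 ≤ i.val + 1 ∧ i.val + 1 ≤ 2 * t + 1
      omega
  · have := i.isLt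
    rcases zmod3_cases k with rfl | rfl | rfl
    · change i.val ≤ 2 * t + 1
      omega
    · change 1 ≤ i.val + 1 ∧ i.val + 1 ≤ 2 * t + 1
      omega
    · change i.val + 1 ≤ 2 * t + 1
      omega

theorem arcOf_kindS {a : ℕ} : P.arcOf t (P.kindS t a) = P.S t a := by
  by_cases h0 : a = P.pu0
  · subst h0; rw [kindS_pu0 t]; simp [arcOf]
  by_cases h1 : a = P.pu1
  · subst h1; rw [kindS_pu1 t hP]; simp [arcOf]
  by_cases h2 : a = P.pw0
  · subst h2; rw [kindS_pw0 t hP]; simp [arcOf]
  by_cases h3 : a = P.pw1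
  · subst h3; rw [kindS_pw1 t hP]; simp [arcOf]
  · rw [kindS_of_port t (port_of_ne h0 h1 h2 h3)]
    rfl

theorem arcOf_kind (a : P.TArc t) : P.arcOf t (P.kind t a) = a := by
  rcases a with ⟨i | i | i, k⟩
  · change P.arcOf t (P.kindS t (P.enc i k)) = _
    rw [arcOf_kindS t hP, S_enc]
  · have hi := i.isLt
    rcases zmod3_cases k with rfl | rfl | rfl
    · change P.arcOf t (.u i.val false) = _
      have : i.val ≠ 2 * t + 1 := by omega
      simp only [arcOf, this, if_false, A, ofNat_self]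
    · change P.arcOf t (.u (i.val + 1) true) = _
      have : i.val + 1 ≠ 0 := by omega
      simp only [arcOf, this, if_false, A, Nat.add_sub_cancel, ofNat_self]
    · change P.arcOf t (.r (i.val + 1) true) = _
      simp only [arcOf, A, Nat.add_sub_cancel, ofNat_self]
  · have hi := i.isLt
    rcases zmod3_cases k with rfl | rfl | rfl
    · change P.arcOf t (.w i.val false) = _
      have : i.val ≠ 2 * t + 1 := by omega
      simp only [arcOf, this, if_false, B, ofNat_self]
    · change P.arcOf t (.r (i.val + 1) false) = _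
      simp only [arcOf, B, Nat.add_sub_cancel, ofNat_self]
    · change P.arcOf t (.w (i.val + 1) true) = _
      have : i.val + 1 ≠ 0 := by omega
      simp only [arcOf, this, if_false, B, Nat.add_sub_cancel, ofNat_self]

omit hP in
theorem kind_A {i : ℕ} (hi : i < 2 * t + 1) (k : ZMod 3) : P.kind t (P.A t i k) =
    if k = 0 then .u i false else if k = 1 then .u (i + 1) true else .r (i + 1) true := by
  change (if k = 0 then Kind.u (Fin.ofNat (2 * t + 1) i).val false else _) = _
  rw [ofNat_val hi]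

omit hP in
theorem kind_B {i : ℕ} (hi : i < 2 * t + 1) (k : ZMod 3) : P.kind t (P.B t i k) =
    if k = 0 then .w i false else if k = 1 then .r (i + 1) false else .w (i + 1) true := by
  change (if k = 0 then Kind.w (Fin.ofNat (2 * t + 1) i).val false else _) = _
  rw [ofNat_val hi]

theorem kind_arcOf {κ : Kind} (h : P.VK t κ) : P.kind t (P.arcOf t κ) = κ := by
  have e10 : (1 : ZMod 3) ≠ 0 := by decide
  have e20 : (2 : ZMod 3) ≠ 0 := by decide
  have e21 : (2 : ZMod 3) ≠ 1 := by decide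
  rcases κ with a | ⟨i, b⟩ | ⟨i, b⟩ | ⟨i, b⟩
  · obtain ⟨h1, h2⟩ := h
    change P.kind t (P.S t a) = _
    rw [kind_S t h1, kindS_of_port t h2]
  · have hi : i ≤ 2 * t + 1 := h
    cases b
    · by_cases h0 : i = 2 * t + 1
      · subst h0
        simp only [arcOf, if_true]
        rw [kind_S t hP.l1, kindS_pu1 t hP]
      · simp only [arcOf, h0, if_false]
        rw [kind_A t (by omega)]
        simp
    · by_cases h0 : i = 0
      · subst h0
        simp only [arcOf, if_true]
        rw [kind_S t hP.l0, kindS_pu0 t]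
      · simp only [arcOf, h0, if_false]
        rw [kind_A t (by omega)]
        simp only [e10, if_false, if_true]
        congr 1
        omega
  · have hi : i ≤ 2 * t + 1 := h
    cases b
    · by_cases h0 : i = 2 * t + 1
      · subst h0
        simp only [arcOf, if_true]
        rw [kind_S t hP.l3, kindS_pw1 t hP]
      · simp only [arcOf, h0, if_false]
        rw [kind_B t (by omega)]
        simp
    · by_cases h0 : i = 0
      · subst h0
        simp only [arcOf, if_true]
        rw [kind_S t hP.l2, kindS_pw0 t hP]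
      · simp only [arcOf, h0, if_false]
        rw [kind_B t (by omega)]
        simp only [e20, e21, if_false]
        congr 1
        omega
  · obtain ⟨h1, h2⟩ : 1 ≤ i ∧ i ≤ 2 * t + 1 := h
    cases b
    · simp only [arcOf]
      rw [kind_B t (by omega)]
      simp only [e10, if_false, if_true]
      congr 1
      omega
    · simp only [arcOf]
      rw [kind_A t (by omega)]
      simp only [e20, e21, if_false]
      congr 1
      omega

theorem flipK_valid {κ : Kind} (h : P.VK t κ) : P.VK t (P.flipK κ) := by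
  rcases κ with a | ⟨i, b⟩ | ⟨i, b⟩ | ⟨i, b⟩
  · exact ⟨hP.g_lt a h.1 h.2, hP.g_port a h.1 h.2⟩
  · exact h
  · exact h
  · exact h

theorem flipK_flipK {κ : Kind} (h : P.VK t κ) : P.flipK (P.flipK κ) = κ := by
  rcases κ with a | ⟨i, b⟩ | ⟨i, b⟩ | ⟨i, b⟩
  · simp only [flipK, hP.g_g a h.1 h.2]
  · simp [flipK]
  · simp [flipK]
  · simp [flipK]

theorem kind_ngT (a : P.TArc t) : P.kind t (P.ngT t a) = P.flipK (P.kind t a) :=
  kind_arcOf t hP (flipK_valid t hP (kind_valid t hP a))

theorem kind_injective : Function.Injective (P.kind t) := by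
  intro a b h
  rw [← arcOf_kind t hP a, ← arcOf_kind t hP b, h]

theorem ngT_ngT (a : P.TArc t) : P.ngT t (P.ngT t a) = a := by
  apply kind_injective t hP
  rw [kind_ngT t hP, kind_ngT t hP, flipK_flipK t hP (kind_valid t hP a)]

end Template

end facts

end Empire
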