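import Mathlib
import Pool.Agent.Lib.MP_800721_co.LadArcs

/-!
# PROJECT EMPIRE: templates, part 2: the values of the arcs
-/

namespace Empire

open Equiv Equiv.Perm

/-- coefficientwise comparison -/
def llt (p q : Aff) : Bool := decide (p.1 ≤ q.1) && decide (p.2 < q.2)

theorem llt_ev {p q : Aff} (h : llt p q = true) (t : ℕ) : ev t p < ev t q := by
  simp only [llt, Bool.and_eq_true, decide_eq_true_eq] at h
  unfold ev
  have ht : (0 : ℤ) ≤ t := Int.natCast_nonneg t
  nlinarith [mul_le_mul_of_nonneg_right h.1 ht]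

/-- comparable and different -/
def lsep (p q : Aff) : Bool := llt p q || llt q p

theorem lsep_ev {p q : Aff} (h : lsep p q = true) (t : ℕ) : ev t p ≠ ev t q := by
  simp only [lsep, Bool.or_eq_true] at h
  rcases h with h | h
  · exact (llt_ev h t).ne
  · exact (llt_ev h t).ne'

/-- outside of the interval -/
def lout (p : Aff) (I : Aff × Aff) : Bool := llt p I.1 || llt I.2 p

theorem lout_ev {p : Aff} {I : Aff × Aff} (h : lout p I = true) (t : ℕ) :
    ¬ (ev t I.1 ≤ ev t p ∧ ev t p ≤ ev t I.2) := by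
  simp only [lout, Bool.or_eq_true] at h
  rcases h with h | h
  · have := llt_ev h t
    omega
  · have := llt_ev h t
    omega

theorem ev_nA (t : ℕ) (x : Aff) : ev t (Template.nA x) = - ev t x := by
  unfold ev Template.nA
  ring

theorem evT_add (t : ℕ) (x y : Aff) : ev t (x + y) = ev t x + ev t y := by
  simp only [ev, Prod.fst_add, Prod.snd_add]
  ring

namespace Template

variable (P : Template)

/-- interval of the elements with even index of a chain -/
def ivE (b : Aff) (s : ℤ) : Aff × Aff :=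
  if s = 1 then ((b.1 - 1, b.2), b) else (b, (b.1 + 1, b.2))

/-- interval of the elements with odd index of a chain -/
def ivO (c : ℤ) (b : Aff) (s : ℤ) : Aff × Aff :=
  if s = 1 then ((b.1, b.2 + (c + 1)), (b.1 + 1, b.2 + (c + 1))) else
    ((b.1 - 1, b.2 - (c + 1)), (b.1, b.2 - (c + 1)))

/-- interval of the `r_i` -/
def ivR : Aff × Aff := ((0, P.c + 1), (2, P.c + 1))

/-- absolute value of the first element of the `u` chain -/
def bu : Aff := (P.su * P.u0.1, P.su * P.u0.2)

/-- absolute value of the first element of the `w` chain -/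
def bw : Aff := (P.sw * P.w0.1, P.sw * P.w0.2)

/-- the intervals of the `u` chain -/
def ivU : List (Aff × Aff) := [ivE P.bu (P.su * P.eps), ivO P.c P.bu (P.su * P.eps)]

/-- the intervals of the `w` chain -/
def ivW : List (Aff × Aff) := [ivE P.bw (-(P.sw * P.eps)), ivO P.c P.bw (-(P.sw * P.eps))]

/-- all intervals -/
def ivs : List (Aff × Aff) := P.ivR :: (P.ivU ++ P.ivW)

/-- the forms `x` and `-x` avoid all intervals -/
def avoid (x : Aff) : Bool := P.ivs.all fun I => lout x I && lout (nA x) I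

/-- two lists of intervals are disjoint -/
def disj (L L' : List (Aff × Aff)) : Bool :=
  L.all fun I => L'.all fun I' => llt I.2 I'.1 || llt I'.2 I.1

/-- twice the form is less than `n` -/
def half (x : Aff) : Bool := llt (2 * x.1, 2 * x.2) (12, (P.n0 : ℤ))

/-- test of a special arc (values) -/
def tS (a : ℕ) : Bool :=
  P.port a ||
    (lsep (P.s a) (0, 0) && P.avoid (P.s a) && P.half (P.s a) && P.half (nA (P.s a)) &&
      (List.range (3 * P.T)).all fun b => P.port b || Nat.beq a b || lsep (P.s a) (P.s b))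

/-- test of the chains -/
def tI : Bool :=
  decide (P.eps = 1 ∨ P.eps = -1) && decide (P.su = 1 ∨ P.su = -1) &&
  decide (P.sw = 1 ∨ P.sw = -1) && decide (0 ≤ P.c) &&
  disj [P.ivR] P.ivU && disj [P.ivR] P.ivW && disj P.ivU P.ivW &&
  (P.ivs.all fun I => llt (0, 0) I.1 && P.half I.2)

/-- missing difference number `c` -/
def d (c : ℕ) : Aff := P.core.dl[c]?.getD 0

/-- test of a missing difference -/
def tD (c : ℕ) : Bool :=
  llt (0, 0) (P.d c) &&
  (if P.core.hasH && Nat.beq (c + 1) P.core.dl.length then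
      decide (((2 * (P.d c).1, 2 * (P.d c).2) : Aff) = (12, (P.n0 : ℤ))) else P.half (P.d c)) &&
  P.avoid (P.d c) &&
  ((List.range (3 * P.T)).all fun a =>
      P.port a || (lsep (P.d c) (P.s a) && lsep (nA (P.d c)) (P.s a))) &&
  ((List.range P.core.dl.length).all fun c' => Nat.beq c c' || lsep (P.d c) (P.d c'))

/-- the second part of the test -/
def check2 : Bool :=
  (List.range (3 * P.T)).all P.tS && P.tI && (List.range P.core.dl.length).all P.tD &&
  decide (3 * P.T + 6 + P.core.sizeD + 1 = P.n0) &&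
  (!P.core.hasH || Nat.blt 0 P.core.dl.length)

variable (t : ℕ)

/-- the elements of the `u` chain -/
def uv (i : ℕ) : ℤ :=
  if i % 2 = 0 then ev t P.u0 - P.eps * (i / 2 : ℕ) else ev t P.u0 + P.eps * (P.c + 1 + (i / 2 : ℕ))

/-- the elements of the `w` chain -/
def wv (i : ℕ) : ℤ := ev t P.w0 + ev t P.u0 - P.uv t i

/-- sign -/
def sg (b : Bool) : ℤ := if b then 1 else -1

/-- value of a kind -/
def valK : Kind → ℤ
  | .sp a => ev t (P.s a)
  | .u i b => sg b * P.uv t i
  | .w i b => sg b * P.wv t i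
  | .r i b => sg b * (P.uv t (i - 1) - P.uv t i)

/-- value of an arc -/
def v (a : P.TArc t) : ℤ := P.valK t (P.kind t a)

/-- the modulus -/
def n : ℕ := 12 * t + P.n0

end Template

namespace Template

variable {P : Template} (t : ℕ)

theorem uv_zero : P.uv t 0 = ev t P.u0 := by simp [uv]

theorem wv_zero : P.wv t 0 = ev t P.w0 := by simp [wv, uv_zero]

theorem uv_even (j : ℕ) : P.uv t (2 * j) = ev t P.u0 - P.eps * j := by
  have h1 : (2 * j) % 2 = 0 := by omega
  have h2 : (2 * j) / 2 = j := by omega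
  simp only [uv, h1, h2, if_true]

theorem uv_odd (j : ℕ) : P.uv t (2 * j + 1) = ev t P.u0 + P.eps * (P.c + 1 + j) := by
  have h1 : ¬ (2 * j + 1) % 2 = 0 := by omega
  have h2 : (2 * j + 1) / 2 = j := by omega
  simp only [uv, h1, h2, if_false]

theorem ev_uM : ev t P.uM = P.uv t (2 * t + 1) := by
  rw [uv_odd]
  simp only [ev, uM]
  ring

theorem ev_wM : ev t P.wM = P.wv t (2 * t + 1) := by
  rw [wv, uv_odd]
  simp only [ev, wM]
  ring

/-- `r_i = ± (c + i)` -/
theorem rv_eq {i : ℕ} (hi : 1 ≤ i) : P.uv t (i - 1) - P.uv t i =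
    (if i % 2 = 0 then P.eps else -P.eps) * (P.c + i) := by
  rcases Nat.even_or_odd' i with ⟨j, rfl | rfl⟩
  · obtain ⟨k, rfl⟩ : ∃ k, j = k + 1 := ⟨j - 1, by omega⟩
    have e1 : 2 * (k + 1) - 1 = 2 * k + 1 := by omega
    have e2 : (2 * (k + 1)) % 2 = 0 := by omega
    rw [e1, uv_odd, uv_even, if_pos e2]
    push_cast
    ring
  · have e1 : 2 * j + 1 - 1 = 2 * j := by omega
    have e2 : ¬ (2 * j + 1) % 2 = 0 := by omega
    rw [e1, uv_odd, uv_even, if_neg e2]
    push_cast
    ring

theorem valK_flip (hP : PortFacts P) {κ : Kind} (h : P.VK t κ) :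
    P.valK t (P.flipK κ) = - P.valK t κ := by
  rcases κ with a | ⟨i, b⟩ | ⟨i, b⟩ | ⟨i, b⟩
  · simp only [flipK, valK]
    rw [hP.s_g a h.1 h.2, ev_nA]
  · cases b <;> simp [flipK, valK, sg]
  · cases b <;> simp [flipK, valK, sg]
  · cases b <;> simp [flipK, valK, sg]

theorem v_ngT (hP : PortFacts P) (a : P.TArc t) : P.v t (P.ngT t a) = - P.v t a := by
  rw [v, kind_ngT t hP, valK_flip t hP (kind_valid t hP a)]
  rfl

theorem valK_kindS (hP : PortFacts P) (a : ℕ) : P.valK t (P.kindS t a) = ev t (P.s a) := by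
  by_cases h0 : a = P.pu0
  · subst h0; rw [kindS_pu0 t, hP.s0]; simp [valK, sg, uv_zero]
  by_cases h1 : a = P.pu1
  · subst h1; rw [kindS_pu1 t hP, hP.s1, ev_nA, ev_uM]; simp [valK, sg]
  by_cases h2 : a = P.pw0
  · subst h2; rw [kindS_pw0 t hP, hP.s2]; simp [valK, sg, wv_zero]
  by_cases h3 : a = P.pw1
  · subst h3; rw [kindS_pw1 t hP, hP.s3, ev_nA, ev_wM]; simp [valK, sg]
  · rw [kindS_of_port t (port_of_ne h0 h1 h2 h3)]
    rfl

theorem v_S (hP : PortFacts P) {a : ℕ} (ha : a < 3 * P.T) :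
    P.v t (P.S t a) = ev t (P.s a) := by
  rw [v, kind_S t ha, valK_kindS t hP]

theorem v_inl (hP : PortFacts P) (i : Fin P.T) (k : ZMod 3) :
    P.v t (Sum.inl i, k) = ev t (P.s (3 * i.val + k.val)) :=
  valK_kindS t hP _

theorem v_sum (hP : PortFacts P) (i : P.Idx t) :
    ∃ z : ℤ, P.v t (i, 0) + P.v t (i, 1) + P.v t (i, 2) = z * (12 * t + P.n0) := by
  rcases i with i | i | i
  · obtain ⟨z, hz⟩ := hP.sum i.val i.isLt
    refine ⟨z, ?_⟩
    rw [v_inl t hP, v_inl t hP, v_inl t hP]
    have e0 : (0 : ZMod 3).val = 0 := rfl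
    have e1 : (1 : ZMod 3).val = 1 := rfl
    have e2 : (2 : ZMod 3).val = 2 := rfl
    rw [e0, e1, e2, add_zero, ← evT_add, ← evT_add, hz]
    simp only [ev]
    ring
  · refine ⟨0, ?_⟩
    have h0 : P.v t ((Sum.inr (Sum.inl i), 0) : P.TArc t) = - P.uv t i.val := by
      change sg false * P.uv t i.val = _
      simp [sg]
    have h1 : P.v t ((Sum.inr (Sum.inl i), 1) : P.TArc t) = P.uv t (i.val + 1) := by
      change sg true * P.uv t (i.val + 1) = _
      simp [sg]
    have h2 : P.v t ((Sum.inr (Sum.inl i), 2) : P.TArc t) =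
        P.uv t i.val - P.uv t (i.val + 1) := by
      change sg true * (P.uv t (i.val + 1 - 1) - P.uv t (i.val + 1)) = _
      simp [sg]
    rw [h0, h1, h2]
    ring
  · refine ⟨0, ?_⟩
    have h0 : P.v t ((Sum.inr (Sum.inr i), 0) : P.TArc t) = - P.wv t i.val := by
      change sg false * P.wv t i.val = _
      simp [sg]
    have h1 : P.v t ((Sum.inr (Sum.inr i), 1) : P.TArc t) =
        - (P.uv t i.val - P.uv t (i.val + 1)) := by
      change sg false * (P.uv t (i.val + 1 - 1) - P.uv t (i.val + 1)) = _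
      simp [sg]
    have h2 : P.v t ((Sum.inr (Sum.inr i), 2) : P.TArc t) = P.wv t (i.val + 1) := by
      change sg true * P.wv t (i.val + 1) = _
      simp [sg]
    rw [h0, h1, h2]
    simp only [wv]
    ring

/-! ### injectivity -/

/-- `x` lies in one of the intervals -/
def inI (L : List (Aff × Aff)) (x : ℤ) : Prop := ∃ I ∈ L, ev t I.1 ≤ x ∧ x ≤ ev t I.2

theorem inI_disj {L L' : List (Aff × Aff)} (h : disj L L' = true) {x : ℤ} (h1 : inI t L x)
    (h2 : inI t L' x) : False := by
  obtain ⟨I, hI, a1, a2⟩ := h1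
  obtain ⟨I', hI', b1, b2⟩ := h2
  simp only [disj, List.all_eq_true, Bool.or_eq_true] at h
  rcases h I hI I' hI' with h | h
  · have := llt_ev h t
    omega
  · have := llt_ev h t
    omega

/-- what the second test says about the chains -/
structure ChainFacts (P : Template) : Prop where
  eps : P.eps = 1 ∨ P.eps = -1
  su : P.su = 1 ∨ P.su = -1
  sw : P.sw = 1 ∨ P.sw = -1
  c : 0 ≤ P.c
  dRU : disj [P.ivR] P.ivU = true
  dRW : disj [P.ivR] P.ivW = true
  dUW : disj P.ivU P.ivW = true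
  pos : ∀ I ∈ P.ivs, llt (0, 0) I.1 = true ∧ P.half I.2 = true

theorem chainFacts (h : P.tI = true) : ChainFacts P := by
  simp only [tI, Bool.and_eq_true, decide_eq_true_eq, List.all_eq_true] at h
  obtain ⟨⟨⟨⟨⟨⟨⟨h1, h2⟩, h3⟩, h4⟩, h5⟩, h6⟩, h7⟩, h8⟩ := h
  exact ⟨h1, h2, h3, h4, h5, h6, h7, h8⟩

theorem chain_in {b : Aff} {s c : ℤ} (hs : s = 1 ∨ s = -1) {i : ℕ} (hi : i ≤ 2 * t + 1) {x : ℤ}
    (hx : x = if i % 2 = 0 then ev t b - s * (i / 2 : ℕ) else ev t b + s * (c + 1 + (i / 2 : ℕ))) :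
    inI t [ivE b s, ivO c b s] x := by
  have hj : ((i / 2 : ℕ) : ℤ) ≤ t := by
    have : i / 2 ≤ t := by omega
    exact_mod_cast this
  have hj0 : (0 : ℤ) ≤ (i / 2 : ℕ) := Int.natCast_nonneg _
  by_cases h : i % 2 = 0
  · rw [if_pos h] at hx
    refine ⟨ivE b s, by simp, ?_⟩
    rcases hs with rfl | rfl
    · simp only [ivE, if_true, ev] at hx ⊢
      constructor <;> nlinarith
    · have : ¬ ((-1 : ℤ) = 1) := by norm_num
      simp only [ivE, this, if_false, ev] at hx ⊢
      constructor <;> nlinarith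
  · rw [if_neg h] at hx
    refine ⟨ivO c b s, by simp, ?_⟩
    rcases hs with rfl | rfl
    · simp only [ivO, if_true, ev] at hx ⊢
      constructor <;> nlinarith
    · have : ¬ ((-1 : ℤ) = 1) := by norm_num
      simp only [ivO, this, if_false, ev] at hx ⊢
      constructor <;> nlinarith

section
variable (hC : ChainFacts P)
include hC

theorem su_uv_in {i : ℕ} (hi : i ≤ 2 * t + 1) : inI t P.ivU (P.su * P.uv t i) := by
  refine chain_in t (by rcases hC.su with h | h <;> rcases hC.eps with h' | h' <;> simp [h, h'])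
    hi ?_
  simp only [uv, bu, ev]
  split_ifs <;> ring

theorem sw_wv_in {i : ℕ} (hi : i ≤ 2 * t + 1) : inI t P.ivW (P.sw * P.wv t i) := by
  refine chain_in t (by rcases hC.sw with h | h <;> rcases hC.eps with h' | h' <;> simp [h, h'])
    hi ?_
  simp only [wv, uv, bw, ev]
  split_ifs <;> ring

omit hC in
theorem c_add_in {i : ℕ} (h1 : 1 ≤ i) (hi : i ≤ 2 * t + 1) : inI t [P.ivR] (P.c + i) := by
  refine ⟨P.ivR, by simp, ?_⟩
  have h1' : (1 : ℤ) ≤ i := by exact_mod_cast h1
  have h2' : (i : ℤ) ≤ 2 * t + 1 := by exact_mod_cast hi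
  simp only [ivR, ev]
  constructor <;> omega

theorem inI_pos {L : List (Aff × Aff)} (hL : ∀ I ∈ L, I ∈ P.ivs) {x : ℤ} (h : inI t L x) :
    0 < x ∧ 2 * x < 12 * t + P.n0 := by
  obtain ⟨I, hI, a1, a2⟩ := h
  obtain ⟨h1, h2⟩ := hC.pos I (hL I hI)
  have h3 := llt_ev h1 t
  have h4 := llt_ev h2 t
  simp only [ev, zero_mul, add_zero] at h3 h4 a1 a2 ⊢
  constructor
  · omega
  · nlinarith

omit hC in
theorem ivU_sub : ∀ I ∈ P.ivU, I ∈ P.ivs := fun I h => by simp [ivs, h]
omit hC in
theorem ivW_sub : ∀ I ∈ P.ivW, I ∈ P.ivs := fun I h => by simp [ivs, h]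
omit hC in
theorem ivR_sub : ∀ I ∈ [P.ivR], I ∈ P.ivs := fun I h => by
  simp only [List.mem_singleton] at h
  simp [ivs, h]

/-- magnitude of a ladder kind -/
theorem abs_u {i : ℕ} (hi : i ≤ 2 * t + 1) (b : Bool) :
    |P.valK t (.u i b)| = P.su * P.uv t i := by
  have h := (inI_pos t hC ivU_sub (su_uv_in t hC hi)).1
  simp only [valK]
  rcases hC.su with h' | h' <;> rw [h'] at h ⊢ <;> cases b <;> simp only [sg] <;>
    simp only [if_true, if_false, Bool.false_eq_true, one_mul, neg_mul, abs_neg] at h ⊢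
  · exact abs_of_pos h
  · exact abs_of_pos h
  · rw [abs_of_neg (by omega)]
  · rw [abs_of_neg (by omega)]

theorem abs_w {i : ℕ} (hi : i ≤ 2 * t + 1) (b : Bool) :
    |P.valK t (.w i b)| = P.sw * P.wv t i := by
  have h := (inI_pos t hC ivW_sub (sw_wv_in t hC hi)).1
  simp only [valK]
  rcases hC.sw with h' | h' <;> rw [h'] at h ⊢ <;> cases b <;> simp only [sg] <;>
    simp only [if_true, if_false, Bool.false_eq_true, one_mul, neg_mul, abs_neg] at h ⊢
  · exact abs_of_pos h
  · exact abs_of_pos h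
  · rw [abs_of_neg (by omega)]
  · rw [abs_of_neg (by omega)]

theorem abs_r {i : ℕ} (h1 : 1 ≤ i) (b : Bool) : |P.valK t (.r i b)| = P.c + i := by
  simp only [valK]
  rw [rv_eq t h1]
  have hc := hC.c
  have h1' : (1 : ℤ) ≤ i := by exact_mod_cast h1
  have hpos : 0 ≤ P.c + i := by omega
  rw [abs_mul, abs_mul, abs_of_nonneg hpos]
  have e1 : |sg b| = 1 := by cases b <;> simp [sg]
  have e2 : |if i % 2 = 0 then P.eps else -P.eps| = 1 := by
    split_ifs <;> rcases hC.eps with h | h <;> simp [h]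
  rw [e1, e2]
  ring

theorem uv_inj {i j : ℕ} (h : P.uv t i = P.uv t j) : i = j := by
  have hc := hC.c
  have key : ∀ x y : ℤ, P.eps * x = P.eps * y → x = y := by
    intro x y hxy
    rcases hC.eps with h' | h' <;> rw [h'] at hxy <;> omega
  rcases Nat.even_or_odd' i with ⟨p, rfl | rfl⟩ <;>
    rcases Nat.even_or_odd' j with ⟨q, rfl | rfl⟩
  · rw [uv_even, uv_even] at h
    have := key p q (by linarith)
    omega
  · rw [uv_even, uv_odd] at h
    have := key (-p) (P.c + 1 + q) (by linarith)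
    omega
  · rw [uv_odd, uv_even] at h
    have := key (P.c + 1 + p) (-q) (by linarith)
    omega
  · rw [uv_odd, uv_odd] at h
    have := key (P.c + 1 + p) (P.c + 1 + q) (by linarith)
    omega

omit hC in
theorem sg_inj {b b' : Bool} {x : ℤ} (hx : x ≠ 0) (h : sg b * x = sg b' * x) : b = b' := by
  have := mul_right_cancel₀ hx h
  cases b <;> cases b' <;> simp_all [sg]

end

/-- what the second test says about the special arcs -/
structure SpFacts (P : Template) : Prop where
  ne0 : ∀ a < 3 * P.T, P.port a = false → lsep (P.s a) (0, 0) = true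
  av : ∀ a < 3 * P.T, P.port a = false → P.avoid (P.s a) = true
  half : ∀ a < 3 * P.T, P.port a = false → P.half (P.s a) = true ∧ P.half (nA (P.s a)) = true
  sep : ∀ a < 3 * P.T, P.port a = false → ∀ b < 3 * P.T, P.port b = false → a ≠ b →
    lsep (P.s a) (P.s b) = true

theorem spFacts (h : ∀ a < 3 * P.T, P.tS a = true) : SpFacts P := by
  have h' : ∀ a < 3 * P.T, P.port a = false → lsep (P.s a) (0, 0) = true ∧
      P.avoid (P.s a) = true ∧ P.half (P.s a) = true ∧ P.half (nA (P.s a)) = true ∧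
      ∀ b < 3 * P.T, P.port b = false → a ≠ b → lsep (P.s a) (P.s b) = true := by
    intro a ha hp
    have := h a ha
    simp only [tS, hp, Bool.false_or, Bool.and_eq_true, List.all_eq_true, List.mem_range,
      Bool.or_eq_true] at this
    obtain ⟨⟨⟨⟨h1, h2⟩, h3⟩, h4⟩, h5⟩ := this
    refine ⟨h1, h2, h3, h4, ?_⟩
    intro b hb hpb hab
    rcases h5 b hb with (h6 | h6) | h6
    · rw [hpb] at h6; exact absurd h6 (by simp)
    · exact absurd (Nat.eq_of_beq_eq_true h6) hab
    · exact h6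
  exact ⟨fun a ha hp => (h' a ha hp).1, fun a ha hp => (h' a ha hp).2.1,
    fun a ha hp => ⟨(h' a ha hp).2.2.1, (h' a ha hp).2.2.2.1⟩,
    fun a ha hp => (h' a ha hp).2.2.2.2⟩

theorem avoid_abs {x : Aff} (h : P.avoid x = true) {L : List (Aff × Aff)}
    (hL : ∀ I ∈ L, I ∈ P.ivs) (hin : inI t L |ev t x|) : False := by
  obtain ⟨I, hI, a1, a2⟩ := hin
  simp only [avoid, List.all_eq_true, Bool.and_eq_true] at h
  obtain ⟨h1, h2⟩ := h I (hL I hI)
  have h3 := lout_ev h1 t
  have h4 := lout_ev h2 t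
  rw [ev_nA] at h4
  rcases abs_choice (ev t x) with h5 | h5 <;> rw [h5] at a1 a2
  · exact h3 ⟨a1, a2⟩
  · exact h4 ⟨a1, a2⟩

theorem half_ev {x : Aff} (h : P.half x = true) : 2 * ev t x < 12 * t + P.n0 := by
  have := llt_ev h t
  simp only [ev] at this ⊢
  linarith

/-- the magnitude of a ladder kind lies in its intervals -/
theorem mag_in (hC : ChainFacts P) {κ : Kind} (h : P.VK t κ) :
    (∃ a, κ = .sp a) ∨ inI t P.ivs |P.valK t κ| := by
  rcases κ with a | ⟨i, b⟩ | ⟨i, b⟩ | ⟨i, b⟩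
  · exact Or.inl ⟨a, rfl⟩
  · right
    rw [abs_u t hC h]
    obtain ⟨I, hI, h1⟩ := su_uv_in t hC h
    exact ⟨I, ivU_sub I hI, h1⟩
  · right
    rw [abs_w t hC h]
    obtain ⟨I, hI, h1⟩ := sw_wv_in t hC h
    exact ⟨I, ivW_sub I hI, h1⟩
  · right
    rw [abs_r t hC h.1]
    obtain ⟨I, hI, h1⟩ := c_add_in t h.1 h.2
    exact ⟨I, ivR_sub I hI, h1⟩

theorem valK_injective (hC : ChainFacts P) (hS : SpFacts P) {κ κ' : Kind} (h : P.VK t κ)
    (h' : P.VK t κ') (he : P.valK t κ = P.valK t κ') : κ = κ' := by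
  have hab : |P.valK t κ| = |P.valK t κ'| := by rw [he]
  have hsp : ∀ a, P.VK t (.sp a) → ∀ κ', P.VK t κ' → P.valK t (.sp a) = P.valK t κ' →
      Kind.sp a = κ' := by
    intro a ha κ' h' he
    rcases mag_in t hC h' with ⟨a', rfl⟩ | hin
    · by_contra hne
      have hne' : a ≠ a' := fun e => hne (by rw [e])
      exact lsep_ev (hS.sep a ha.1 ha.2 a' h'.1 h'.2 hne') t he
    · exfalso
      rw [← he] at hin
      exact avoid_abs t (hS.av a ha.1 ha.2) (fun I h => h) hin
  rcases κ with a | ⟨i, b⟩ | ⟨i, b⟩ | ⟨i, b⟩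
  · exact hsp a h κ' h' he
  · rcases κ' with a | ⟨j, b'⟩ | ⟨j, b'⟩ | ⟨j, b'⟩
    · exact (hsp a h' _ h he.symm).symm
    · rw [abs_u t hC h, abs_u t hC h'] at hab
      have hij : P.uv t i = P.uv t j := by
        rcases hC.su with h1 | h1 <;> rw [h1] at hab <;> omega
      have hij' := uv_inj t hC hij
      subst hij'
      have hne : P.uv t i ≠ 0 := by
        have := (inI_pos t hC ivU_sub (su_uv_in t hC h)).1
        intro h0
        rw [h0, mul_zero] at this
        omega
      rw [sg_inj hne he]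
    · exfalso
      rw [abs_u t hC h, abs_w t hC h'] at hab
      have h1 := su_uv_in t hC h
      rw [hab] at h1
      exact inI_disj t hC.dUW h1 (sw_wv_in t hC h')
    · exfalso
      rw [abs_u t hC h, abs_r t hC h'.1] at hab
      have h1 := su_uv_in t hC h
      rw [hab] at h1
      exact inI_disj t hC.dRU (c_add_in t h'.1 h'.2) h1
  · rcases κ' with a | ⟨j, b'⟩ | ⟨j, b'⟩ | ⟨j, b'⟩
    · exact (hsp a h' _ h he.symm).symm
    · exfalso
      rw [abs_w t hC h, abs_u t hC h'] at hab
      have h1 := su_uv_in t hC h'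
      rw [← hab] at h1
      exact inI_disj t hC.dUW h1 (sw_wv_in t hC h)
    · rw [abs_w t hC h, abs_w t hC h'] at hab
      have hij : P.uv t i = P.uv t j := by
        have : P.wv t i = P.wv t j := by
          rcases hC.sw with h1 | h1 <;> rw [h1] at hab <;> omega
        simp only [wv] at this
        omega
      have hij' := uv_inj t hC hij
      subst hij'
      have hne : P.wv t i ≠ 0 := by
        have := (inI_pos t hC ivW_sub (sw_wv_in t hC h)).1
        intro h0
        rw [h0, mul_zero] at this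
        omega
      rw [sg_inj hne he]
    · exfalso
      rw [abs_w t hC h, abs_r t hC h'.1] at hab
      have h1 := sw_wv_in t hC h
      rw [hab] at h1
      exact inI_disj t hC.dRW (c_add_in t h'.1 h'.2) h1
  · rcases κ' with a | ⟨j, b'⟩ | ⟨j, b'⟩ | ⟨j, b'⟩
    · exact (hsp a h' _ h he.symm).symm
    · exfalso
      rw [abs_r t hC h.1, abs_u t hC h'] at hab
      have h1 := su_uv_in t hC h'
      rw [← hab] at h1
      exact inI_disj t hC.dRU (c_add_in t h.1 h.2) h1
    · exfalso
      rw [abs_r t hC h.1, abs_w t hC h'] at hab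
      have h1 := sw_wv_in t hC h'
      rw [← hab] at h1
      exact inI_disj t hC.dRW (c_add_in t h.1 h.2) h1
    · rw [abs_r t hC h.1, abs_r t hC h'.1] at hab
      have hij : i = j := by omega
      subst hij
      have hne : P.uv t (i - 1) - P.uv t i ≠ 0 := by
        intro h0
        have h1 := abs_r t hC h.1 true
        simp only [valK] at h1
        rw [h0, mul_zero, abs_zero] at h1
        have := hC.c
        have := h.1
        omega
      rw [sg_inj hne he]

/-- all values are nonzero and less than `n / 2` in absolute value -/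
theorem valK_bound (hC : ChainFacts P) (hS : SpFacts P) {κ : Kind} (h : P.VK t κ) :
    P.valK t κ ≠ 0 ∧ 2 * |P.valK t κ| < 12 * t + P.n0 := by
  rcases mag_in t hC h with ⟨a, rfl⟩ | hin
  · have h1 := hS.ne0 a h.1 h.2
    obtain ⟨h2, h3⟩ := hS.half a h.1 h.2
    have h4 := lsep_ev h1 t
    have h5 := half_ev t h2
    have h6 := half_ev t h3
    rw [ev_nA] at h6
    simp only [valK]
    refine ⟨?_, ?_⟩
    · intro h0
      apply h4
      rw [h0]
      simp [ev]
    · rcases abs_choice (ev t (P.s a)) with h7 | h7 <;> rw [h7] <;> omega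
  · obtain ⟨h1, h2⟩ := inI_pos t hC (fun I h => h) hin
    exact ⟨abs_pos.1 h1, h2⟩

end Template

end Empire
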