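import Mathlib
import Pool.Agent.Lib.MP_800721_co.LadVal

/-!
# PROJECT EMPIRE: templates, part 3: the symmetric data
-/

namespace Empire

open Equiv Equiv.Perm

namespace Template

variable {P : Template} (t : ℕ)

theorem cast_inj {n : ℕ} {x y : ℤ} (h1 : x - y < n) (h2 : y - x < n)
    (he : (x : ZMod n) = (y : ZMod n)) : x = y := by
  have h3 : (n : ℤ) ∣ y - x := ((ZMod.intCast_eq_intCast_iff x y n).1 he).dvd
  have h4 : y - x = 0 := Int.eq_zero_of_abs_lt_dvd h3 (abs_lt.2 ⟨by linarith, h2⟩)
  linarith

/-- what the second test says about the missing differences -/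
structure DFacts (P : Template) : Prop where
  pos : ∀ c < P.core.dl.length, llt (0, 0) (P.d c) = true
  le : ∀ c < P.core.dl.length, ¬ (P.core.hasH = true ∧ c + 1 = P.core.dl.length) →
    P.half (P.d c) = true
  eq : ∀ c < P.core.dl.length, (P.core.hasH = true ∧ c + 1 = P.core.dl.length) →
    ((2 * (P.d c).1, 2 * (P.d c).2) : Aff) = (12, (P.n0 : ℤ))
  av : ∀ c < P.core.dl.length, P.avoid (P.d c) = true
  sp : ∀ c < P.core.dl.length, ∀ a < 3 * P.T, P.port a = false →
    lsep (P.d c) (P.s a) = true ∧ lsep (nA (P.d c)) (P.s a) = true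
  inj : ∀ c < P.core.dl.length, ∀ c' < P.core.dl.length, c ≠ c' → lsep (P.d c) (P.d c') = true
  num : 3 * P.T + 6 + P.core.sizeD + 1 = P.n0
  hH : P.core.hasH = true → 0 < P.core.dl.length

theorem facts2 (h : P.check2 = true) : SpFacts P ∧ ChainFacts P ∧ DFacts P := by
  simp only [check2, Bool.and_eq_true, List.all_eq_true, List.mem_range,
    decide_eq_true_eq, Bool.or_eq_true, Bool.not_eq_true', Nat.blt_eq] at h
  obtain ⟨⟨⟨⟨hS, hI⟩, hD⟩, hn⟩, hh⟩ := h
  have hD' : ∀ c < P.core.dl.length, llt (0, 0) (P.d c) = true ∧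
      (¬ (P.core.hasH = true ∧ c + 1 = P.core.dl.length) → P.half (P.d c) = true) ∧
      ((P.core.hasH = true ∧ c + 1 = P.core.dl.length) →
        ((2 * (P.d c).1, 2 * (P.d c).2) : Aff) = (12, (P.n0 : ℤ))) ∧
      P.avoid (P.d c) = true ∧
      (∀ a < 3 * P.T, P.port a = false →
        lsep (P.d c) (P.s a) = true ∧ lsep (nA (P.d c)) (P.s a) = true) ∧
      (∀ c' < P.core.dl.length, c ≠ c' → lsep (P.d c) (P.d c') = true) := by
    intro c hc
    have := hD c hc
    simp only [tD, Bool.and_eq_true, List.all_eq_true, List.mem_range, Bool.or_eq_true] at this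
    obtain ⟨⟨⟨⟨h1, h2⟩, h3⟩, h4⟩, h5⟩ := this
    refine ⟨h1, ?_, ?_, h3, ?_, ?_⟩
    · intro hne
      rw [if_neg] at h2
      · exact h2
      · rintro ⟨ha, hb⟩
        exact hne ⟨ha, Nat.eq_of_beq_eq_true hb⟩
    · rintro ⟨ha, hb⟩
      rw [if_pos ⟨ha, by rw [hb, Nat.beq_refl]⟩, decide_eq_true_eq] at h2
      exact h2
    · intro a ha hp
      rcases h4 a ha with h6 | h6
      · rw [hp] at h6; exact absurd h6 (by simp)
      · exact h6
    · intro c' hc' hne
      rcases h5 c' hc' with h6 | h6
      · exact absurd (Nat.eq_of_beq_eq_true h6) hne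
      · exact h6
  refine ⟨spFacts hS, chainFacts hI, ⟨fun c hc => (hD' c hc).1, fun c hc => (hD' c hc).2.1,
    fun c hc => (hD' c hc).2.2.1, fun c hc => (hD' c hc).2.2.2.1,
    fun c hc => (hD' c hc).2.2.2.2.1, fun c hc => (hD' c hc).2.2.2.2.2, hn, ?_⟩⟩
  intro hH
  rcases hh with hh | hh
  · rw [hH] at hh; exact absurd hh (by simp)
  · exact hh

/-- value of a missing difference -/
def dz (P : Template) (t c : ℕ) : ℤ := ev t (P.d c)

variable (hD : DFacts P)
include hD

theorem dz_pos {c : ℕ} (hc : c < P.core.dl.length) : 0 < dz P t c := by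
  have := llt_ev (hD.pos c hc) t
  simpa [ev, dz] using this

theorem dz_lt {c : ℕ} (hc : c < P.core.dl.length)
    (h : ¬ (P.core.hasH = true ∧ c + 1 = P.core.dl.length)) : 2 * dz P t c < P.n t := by
  have := half_ev t (hD.le c hc h)
  unfold dz n
  push_cast
  exact this

theorem dz_eq {c : ℕ} (hc : c < P.core.dl.length)
    (h : P.core.hasH = true ∧ c + 1 = P.core.dl.length) : 2 * dz P t c = P.n t := by
  have := hD.eq c hc h
  rw [Prod.mk.injEq] at this
  unfold dz n ev
  push_cast
  rw [← this.1, ← this.2]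
  ring

theorem dz_le {c : ℕ} (hc : c < P.core.dl.length) : 2 * dz P t c ≤ P.n t := by
  by_cases h : P.core.hasH = true ∧ c + 1 = P.core.dl.length
  · exact (dz_eq t hD hc h).le
  · exact (dz_lt t hD hc h).le

theorem dz_inj {c c' : ℕ} (hc : c < P.core.dl.length) (hc' : c' < P.core.dl.length)
    (h : dz P t c = dz P t c') : c = c' := by
  by_contra hne
  exact lsep_ev (hD.inj c hc c' hc' hne) t h

theorem dz_cast_inj {c c' : ℕ} (hc : c < P.core.dl.length) (hc' : c' < P.core.dl.length)
    (h : (dz P t c : ZMod (P.n t)) = (dz P t c' : ZMod (P.n t))) : c = c' := by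
  have h1 := dz_pos t hD hc
  have h2 := dz_pos t hD hc'
  have h3 := dz_le t hD hc
  have h4 := dz_le t hD hc'
  exact dz_inj t hD hc hc' (cast_inj (by linarith) (by linarith) h)

/-- opposite missing differences only for the involution -/
theorem dz_cast_neg {c c' : ℕ} (hc : c < P.core.dl.length) (hc' : c' < P.core.dl.length)
    (h : (dz P t c : ZMod (P.n t)) = - (dz P t c' : ZMod (P.n t))) :
    c = c' ∧ P.core.hasH = true ∧ c + 1 = P.core.dl.length := by
  have h1 := dz_pos t hD hc
  have h2 := dz_pos t hD hc'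
  have h3 := dz_le t hD hc
  have h4 := dz_le t hD hc'
  have h5 : ((dz P t c : ℤ) : ZMod (P.n t)) = (((P.n t : ℤ) - dz P t c' : ℤ) : ZMod (P.n t)) := by
    push_cast
    rw [h, ZMod.natCast_self, zero_sub]
  have h6 : dz P t c = (P.n t : ℤ) - dz P t c' := cast_inj (by linarith) (by linarith) h5
  have h7 : P.core.hasH = true ∧ c + 1 = P.core.dl.length := by
    by_contra hn
    have := dz_lt t hD hc hn
    linarith
  have h8 : P.core.hasH = true ∧ c' + 1 = P.core.dl.length := by
    by_contra hn
    have := dz_lt t hD hc' hn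
    linarith
  exact ⟨by omega, h7⟩

omit hD in
/-- the missing differences, positive representatives -/
def Dp (P : Template) (t : ℕ) : Finset (ZMod (P.n t)) :=
  (Finset.range P.core.dl.length).image fun c => ((dz P t c : ℤ) : ZMod (P.n t))

omit hD in
/-- the missing differences, negative representatives -/
def Dn (P : Template) (t : ℕ) : Finset (ZMod (P.n t)) :=
  (Finset.range P.core.dl.length).image fun c => - ((dz P t c : ℤ) : ZMod (P.n t))

omit hD in
/-- the missing differences -/
def DD (P : Template) (t : ℕ) : Finset (ZMod (P.n t)) := Dp P t ∪ Dn P t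

omit hD in
theorem mem_DD {x : ZMod (P.n t)} : x ∈ DD P t ↔
    ∃ c < P.core.dl.length, x = ((dz P t c : ℤ) : ZMod (P.n t)) ∨
      x = - ((dz P t c : ℤ) : ZMod (P.n t)) := by
  simp only [DD, Dp, Dn, Finset.mem_union, Finset.mem_image, Finset.mem_range]
  constructor
  · rintro (⟨c, hc, rfl⟩ | ⟨c, hc, rfl⟩)
    · exact ⟨c, hc, Or.inl rfl⟩
    · exact ⟨c, hc, Or.inr rfl⟩
  · rintro ⟨c, hc, rfl | rfl⟩
    · exact Or.inl ⟨c, hc, rfl⟩
    · exact Or.inr ⟨c, hc, rfl⟩

theorem card_DD : (DD P t).card = P.core.sizeD := by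
  have e1 : (Dp P t).card = P.core.dl.length := by
    rw [Dp, Finset.card_image_of_injOn, Finset.card_range]
    intro c hc c' hc' h
    rw [Finset.coe_range, Set.mem_Iio] at hc hc'
    exact dz_cast_inj t hD hc hc' h
  have e2 : (Dn P t).card = P.core.dl.length := by
    rw [Dn, Finset.card_image_of_injOn, Finset.card_range]
    intro c hc c' hc' h
    rw [Finset.coe_range, Set.mem_Iio] at hc hc'
    exact dz_cast_inj t hD hc hc' (neg_injective h)
  have e3 : (Dp P t ∩ Dn P t).card = if P.core.hasH then 1 else 0 := by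
    by_cases hH : P.core.hasH = true
    · rw [if_pos hH, Finset.card_eq_one]
      have hl := hD.hH hH
      have hlast : P.core.dl.length - 1 < P.core.dl.length := by omega
      refine ⟨((dz P t (P.core.dl.length - 1) : ℤ) : ZMod (P.n t)), ?_⟩
      ext x
      simp only [Dp, Dn, Finset.mem_inter, Finset.mem_image, Finset.mem_range,
        Finset.mem_singleton]
      constructor
      · rintro ⟨⟨c, hc, rfl⟩, ⟨c', hc', h⟩⟩
        obtain ⟨-, -, h1⟩ := dz_cast_neg t hD hc hc' h.symm
        congr 3
        omega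
      · rintro rfl
        refine ⟨⟨_, hlast, rfl⟩, ⟨_, hlast, ?_⟩⟩
        have h1 := dz_eq t hD hlast ⟨hH, by omega⟩
        rw [neg_eq_iff_add_eq_zero, ← two_mul]
        have h2 : (((2 * dz P t (P.core.dl.length - 1) : ℤ)) : ZMod (P.n t)) = 0 := by
          rw [h1]
          simp
        push_cast at h2
        exact h2
    · rw [if_neg hH, Finset.card_eq_zero, Finset.eq_empty_iff_forall_notMem]
      intro x hx
      simp only [Dp, Dn, Finset.mem_inter, Finset.mem_image, Finset.mem_range] at hx
      obtain ⟨⟨c, hc, rfl⟩, ⟨c', hc', h⟩⟩ := hx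
      exact hH (dz_cast_neg t hD hc hc' h.symm).2.1
  have h4 := Finset.card_union_add_card_inter (Dp P t) (Dn P t)
  rw [e1, e2, e3] at h4
  unfold DD Core.sizeD
  split_ifs at h4 ⊢ <;> omega

variable (hP : PortFacts P) (hC : ChainFacts P) (hS : SpFacts P)
include hP hC hS

omit hD in
theorem v_bound (a : P.TArc t) : P.v t a ≠ 0 ∧ 2 * |P.v t a| < P.n t := by
  have := valK_bound t hC hS (kind_valid t hP a)
  unfold n
  push_cast
  exact this

omit hS in
/-- missing differences do not occur as values -/
theorem v_ne_dz (a : P.TArc t) {c : ℕ} (hc : c < P.core.dl.length) :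
    P.v t a ≠ dz P t c ∧ P.v t a ≠ - dz P t c := by
  rcases mag_in t hC (kind_valid t hP a) with ⟨b, hb⟩ | hin
  · have hv := kind_valid t hP a
    rw [hb] at hv
    have hva : P.v t a = ev t (P.s b) := by
      unfold v
      rw [hb]
      rfl
    obtain ⟨h1, h2⟩ := hD.sp c hc b hv.1 hv.2
    have h3 := lsep_ev h1 t
    have h4 := lsep_ev h2 t
    rw [ev_nA] at h4
    rw [hva]
    exact ⟨fun h => h3 h.symm, fun h => h4 h.symm⟩
  · have key : |P.v t a| ≠ |dz P t c| := by
      intro h
      have hin' : inI t P.ivs |ev t (P.d c)| := by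
        change inI t P.ivs |dz P t c|
        rw [← h]
        exact hin
      exact avoid_abs t (hD.av c hc) (fun I h => h) hin'
    constructor
    · intro h
      exact key (by rw [h])
    · intro h
      exact key (by rw [h, abs_neg])

/-- the symmetric data of a template -/
def symData : SymData (P.n t) (P.Idx t) where
  val a := ((P.v t a : ℤ) : ZMod (P.n t))
  ng := P.ngT t
  D := DD P t
  val_inj := by
    intro a b h
    have ha := (v_bound t hP hC hS a).2
    have hb := (v_bound t hP hC hS b).2
    have ha1 := le_abs_self (P.v t a)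
    have ha2 := neg_abs_le (P.v t a)
    have hb1 := le_abs_self (P.v t b)
    have hb2 := neg_abs_le (P.v t b)
    have h1 : P.v t a = P.v t b := cast_inj (by linarith) (by linarith) h
    exact kind_injective t hP
      (valK_injective t hC hS (kind_valid t hP a) (kind_valid t hP b) h1)
  val_ng := by
    intro a
    rw [v_ngT t hP]
    push_cast
    rfl
  val_sum := by
    intro i
    obtain ⟨z, hz⟩ := v_sum t hP i
    have : ((P.v t (i, 0) + P.v t (i, 1) + P.v t (i, 2) : ℤ) : ZMod (P.n t)) = 0 := by
      rw [hz]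
      have e : ((z * (12 * (t : ℤ) + (P.n0 : ℤ)) : ℤ) : ZMod (P.n t)) =
          (z : ZMod (P.n t)) * ((P.n t : ℕ) : ZMod (P.n t)) := by
        unfold n
        push_cast
        ring
      rw [e, ZMod.natCast_self, mul_zero]
    push_cast at this
    exact this
  val_ne_zero := by
    intro a h
    have ha := v_bound t hP hC hS a
    have ha1 := le_abs_self (P.v t a)
    have ha2 := neg_abs_le (P.v t a)
    have h1 : P.v t a = 0 := cast_inj (by linarith [abs_nonneg (P.v t a)])
      (by linarith [abs_nonneg (P.v t a)]) (by rw [h]; simp)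
    exact ha.1 h1
  zero_notMem := by
    rw [mem_DD]
    rintro ⟨c, hc, h⟩
    have h1 := dz_pos t hD hc
    have h2 := dz_le t hD hc
    have h3 : ((dz P t c : ℤ) : ZMod (P.n t)) = ((0 : ℤ) : ZMod (P.n t)) := by
      rcases h with h | h
      · rw [← h]; simp
      · rw [Int.cast_zero, ← neg_eq_zero, ← h]
    have := cast_inj (by linarith) (by linarith) h3
    linarith
  D_neg := by
    intro d hd
    rw [mem_DD] at hd ⊢
    obtain ⟨c, hc, h⟩ := hd
    refine ⟨c, hc, ?_⟩
    rcases h with rfl | rfl
    · exact Or.inr rfl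
    · left
      rw [neg_neg]
  val_notMem := by
    intro a
    rw [mem_DD]
    rintro ⟨c, hc, h⟩
    obtain ⟨h1, h2⟩ := v_ne_dz t hD hP hC a hc
    have ha := (v_bound t hP hC hS a).2
    have ha1 := le_abs_self (P.v t a)
    have ha2 := neg_abs_le (P.v t a)
    have h3 := dz_pos t hD hc
    have h4 := dz_le t hD hc
    rcases h with h | h
    · exact h1 (cast_inj (by linarith) (by linarith) h)
    · refine h2 (cast_inj (n := P.n t) (by linarith) (by linarith) ?_)
      rw [h]
      push_cast
      rfl
  card_eq := by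
    rw [card_DD t hD]
    have h1 : Nat.card (P.Idx t) = P.T + (2 * t + 1 + (2 * t + 1)) := by
      simp [Idx]
    have h2 := hD.num
    rw [h1]
    unfold n
    omega

/-- the embedding of the special indices -/
def iota (P : Template) (t : ℕ) (i : ℕ) : P.Idx t := Sum.inl (Fin.ofNat P.T i)

theorem realises : P.core.Realises t (symData t hD hP hC hS) (iota P t) where
  hn := by
    rw [hP.hN]
    simp [ev, n]
  inj := by
    intro i j hi hj h
    rw [hP.len] at hi hj
    have := Sum.inl_injective h
    have h2 := congrArg Fin.val this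
    rwa [ofNat_val hi, ofNat_val hj] at h2
  val := by
    intro i j hi hj
    rw [hP.len] at hi
    change ((P.v t (Sum.inl (Fin.ofNat P.T i), (j : ZMod 3)) : ℤ) : ZMod (P.n t)) = _
    rw [v_inl t hP, ofNat_val hi, ZMod.val_natCast, Nat.mod_eq_of_lt hj]
    unfold s
    have e1 : (3 * i + j) / 3 = i := by omega
    have e2 : (3 * i + j) % 3 = j := by omega
    rw [e1, e2]
  mem := by
    intro c hc
    exact (mem_DD t).2 ⟨c, hc, Or.inl rfl⟩
  dne := by
    intro c c' hc hc' hne
    constructor
    · intro h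
      exact hne (dz_cast_inj t hD hc hc' h)
    · intro h
      exact hne (dz_cast_neg t hD hc hc' h).1
  two := by
    intro c hc hne h
    exact hne (dz_cast_neg t hD hc hc h).2
  card := card_DD t hD

end Template

end Empire
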