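import Mathlib
import Pool.Agent.Lib.MP_800721_co.LadSym

/-!
# PROJECT EMPIRE: templates, part 4: the circuits
-/

namespace Empire

open Equiv Equiv.Perm

/-- next special arc of the triple -/
def nxN (b : ℕ) : ℕ := 3 * (b / 3) + (b % 3 + 1) % 3

namespace Template

variable (P : Template)

/-- label of a special arc -/
def labA (a : ℕ) : ℕ := P.lab.getD a 0

/-- representative of a label -/
def rep (l : ℕ) : ℕ := P.repl.getD l 0

/-- rank of a special arc -/
def rank (a : ℕ) : ℕ := P.rk.getD a 0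

/-- rank of a label -/
def rank2 (l : ℕ) : ℕ := P.rk2.getD l 0

/-- merging arcs of a label -/
def merA (l : ℕ) : ℕ × ℕ := P.mer.getD l (0, 0)

/-- the special arc before which the path of a special arc comes back -/
def ngp (a : ℕ) : ℕ :=
  if Nat.beq a P.pu0 then P.pu1 else if Nat.beq a P.pu1 then P.pw1 else
    if Nat.beq a P.pw1 then P.pw0 else if Nat.beq a P.pw0 then P.pu0 else P.g a

/-- the reduced permutation -/
def rho (a : ℕ) : ℕ := nxN (P.ngp a)

/-- test of the labels of a special arc -/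
def tL (a : ℕ) : Bool :=
  Nat.blt (P.labA a) P.F && Nat.beq (P.labA (P.rho a)) (P.labA a) &&
    (Nat.beq a (P.rep (P.labA a)) || Nat.blt (P.rank (P.rho a)) (P.rank a))

/-- test of a label -/
def tM (l : ℕ) : Bool :=
  Nat.blt (P.rep l) (3 * P.T) && Nat.beq (P.labA (P.rep l)) l &&
    (P.roots.any (fun x => Nat.beq x l) ||
      (Nat.blt (P.merA l).1 (3 * P.T) && Nat.blt (P.merA l).2 (3 * P.T) &&
        Nat.beq (P.labA (P.merA l).1) l && Nat.beq ((P.merA l).1 / 3) ((P.merA l).2 / 3) &&
        P.J.any (fun x => Nat.beq x ((P.merA l).1 / 3)) &&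
        Nat.blt (P.rank2 (P.labA (P.merA l).2)) (P.rank2 l)))

/-- no common elements -/
def nodupB : List ℕ → Bool
  | [] => true
  | x :: l => (l.all fun y => !(Nat.beq x y)) && nodupB l

/-- the third part of the test -/
def check3 : Bool :=
  (List.range (3 * P.T)).all P.tL && (List.range P.F).all P.tM &&
  nodupB P.J && (P.J.all fun x => Nat.blt x P.T) &&
  (P.J.all fun x => P.core.used.all fun y => !(Nat.beq x y)) &&
  Nat.beq (P.e + 2 * P.J.length) P.F && Nat.beq P.roots.length P.e &&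
  (P.roots.all fun x => Nat.blt x P.F) && (P.core.used.all fun y => Nat.blt y P.T)

variable (t : ℕ)

/-- next kind in the triple -/
def nxK : Kind → Kind
  | .sp a => P.kindS t (nxN a)
  | .u i false => if i = 2 * t + 1 then P.kindS t (nxN P.pu1) else .u (i + 1) true
  | .u i true => if i = 0 then P.kindS t (nxN P.pu0) else .r i true
  | .r i true => .u (i - 1) false
  | .w i false => if i = 2 * t + 1 then P.kindS t (nxN P.pw1) else .r (i + 1) false
  | .r i false => .w i true
  | .w i true => if i = 0 then P.kindS t (nxN P.pw0) else .w (i - 1) false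

/-- the circuit permutation on kinds -/
def sigK (κ : Kind) : Kind := P.nxK t (P.flipK κ)

/-- label of a kind -/
def labK : Kind → ℕ
  | .sp a => P.labA a
  | .u _ true => P.labA P.pu0
  | .u i false => if i = 0 then P.labA P.pw0 else
      if i = 2 * t + 1 then P.labA P.pu1 else P.F + (i - 1)
  | .w i true => if i = 0 then P.labA P.pw0 else
      if i = 2 * t + 1 then P.labA P.pu1 else P.F + (i - 1)
  | .w _ false => P.labA P.pw1
  | .r i true => if i = 2 * t + 1 then P.labA P.pu1 else P.F + (i - 1)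
  | .r i false => if i = 1 then P.labA P.pw0 else P.F + (i - 2)

/-- standard kind of a label -/
def clsK (l : ℕ) : Kind := if l < P.F then P.kindS t (P.rep l) else .u (l - P.F + 1) false

end Template

theorem nxN_div (b : ℕ) : nxN b / 3 = b / 3 := by
  unfold nxN
  omega

theorem nxN_lt {b T : ℕ} (h : b < 3 * T) : nxN b < 3 * T := by
  unfold nxN
  omega

theorem nxN_cast (b : ℕ) : ((nxN b : ℕ) : ZMod 3) = (b : ZMod 3) + 1 := by
  unfold nxN
  push_cast
  rw [ZMod.natCast_mod, show (3 : ZMod 3) = 0 by decide, zero_mul, zero_add]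
  push_cast
  rw [ZMod.natCast_mod]

namespace Template

variable {P : Template} (t : ℕ)

theorem nx_S (b : ℕ) : SymData.nx (P.S t b) = P.S t (nxN b) := by
  unfold SymData.nx S
  simp only [nxN_div, nxN_cast]

theorem rho_port {a : ℕ} (h : P.port a = false) : P.rho a = nxN (P.g a) := by
  obtain ⟨h1, h2, h3, h4⟩ := port_false h
  unfold rho ngp
  rw [beq_false_of_ne h1, beq_false_of_ne h2, beq_false_of_ne h3, beq_false_of_ne h4]
  rfl

theorem rho_pu0 : P.rho P.pu0 = nxN P.pu1 := by
  unfold rho ngp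
  rw [Nat.beq_refl]
  rfl

section
variable (hP : PortFacts P)
include hP

theorem rho_pu1 : P.rho P.pu1 = nxN P.pw1 := by
  unfold rho ngp
  rw [beq_false_of_ne hP.n01.symm, Nat.beq_refl]
  rfl

theorem rho_pw1 : P.rho P.pw1 = nxN P.pw0 := by
  unfold rho ngp
  rw [beq_false_of_ne hP.n03.symm, beq_false_of_ne hP.n13.symm, Nat.beq_refl]
  rfl

theorem rho_pw0 : P.rho P.pw0 = nxN P.pu0 := by
  unfold rho ngp
  rw [beq_false_of_ne hP.n02.symm, beq_false_of_ne hP.n12.symm, beq_false_of_ne hP.n23,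
    Nat.beq_refl]
  rfl

theorem nxK_kindS (b : ℕ) : P.nxK t (P.kindS t b) = P.kindS t (nxN b) := by
  by_cases h0 : b = P.pu0
  · subst h0; rw [kindS_pu0 t]; simp [nxK]
  by_cases h1 : b = P.pu1
  · subst h1; rw [kindS_pu1 t hP]; simp [nxK]
  by_cases h2 : b = P.pw0
  · subst h2; rw [kindS_pw0 t hP]; simp [nxK]
  by_cases h3 : b = P.pw1
  · subst h3; rw [kindS_pw1 t hP]; simp [nxK]
  · rw [kindS_of_port t (port_of_ne h0 h1 h2 h3)]
    rfl

theorem kind_nx (a : P.TArc t) : P.kind t (SymData.nx a) = P.nxK t (P.kind t a) := by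
  rcases a with ⟨i | i | i, k⟩
  · have h1 : P.kind t (Sum.inl i, k) = P.kindS t (P.enc i k) := rfl
    rw [h1, nxK_kindS t hP, ← S_enc t i k, nx_S, kind_S t (nxN_lt (enc_lt i k))]
  · have hi := i.isLt
    have hne : i.val ≠ 2 * t + 1 := by omega
    rcases zmod3_cases k with rfl | rfl | rfl
    · change Kind.u (i.val + 1) true = if i.val = 2 * t + 1 then P.kindS t (nxN P.pu1) else
        .u (i.val + 1) true
      rw [if_neg hne]
    · change Kind.r (i.val + 1) true = if i.val + 1 = 0 then P.kindS t (nxN P.pu0) else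
        .r (i.val + 1) true
      rw [if_neg (Nat.succ_ne_zero _)]
    · change Kind.u i.val false = .u (i.val + 1 - 1) false
      rw [Nat.add_sub_cancel]
  · have hi := i.isLt
    have hne : i.val ≠ 2 * t + 1 := by omega
    rcases zmod3_cases k with rfl | rfl | rfl
    · change Kind.r (i.val + 1) false = if i.val = 2 * t + 1 then P.kindS t (nxN P.pw1) else
        .r (i.val + 1) false
      rw [if_neg hne]
    · change Kind.w (i.val + 1) true = .w (i.val + 1) true
      rfl
    · change Kind.w i.val false = if i.val + 1 = 0 then P.kindS t (nxN P.pw0) else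
        .w (i.val + 1 - 1) false
      rw [if_neg (Nat.succ_ne_zero _), Nat.add_sub_cancel]

/-- the kinds along a circuit -/
theorem kind_sig (a : P.TArc t) :
    P.kind t (SymData.nx (P.ngT t a)) = P.sigK t (P.kind t a) := by
  rw [kind_nx t hP, kind_ngT t hP]
  rfl

theorem nxK_valid {κ : Kind} (h : P.VK t κ) : P.VK t (P.nxK t κ) := by
  have h1 := kind_valid t hP (SymData.nx (P.arcOf t κ))
  rwa [kind_nx t hP, kind_arcOf t hP h] at h1

theorem sigK_valid {κ : Kind} (h : P.VK t κ) : P.VK t (P.sigK t κ) :=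
  nxK_valid t hP (flipK_valid t hP h)

theorem arcOf_sigK {κ : Kind} (h : P.VK t κ) :
    P.arcOf t (P.sigK t κ) = SymData.nx (P.ngT t (P.arcOf t κ)) := by
  apply kind_injective t hP
  rw [kind_sig t hP, kind_arcOf t hP h, kind_arcOf t hP (sigK_valid t hP h)]

/-- what the third test says -/
structure CircFacts (P : Template) : Prop where
  lt : ∀ a < 3 * P.T, P.labA a < P.F
  inv : ∀ a < 3 * P.T, P.labA (P.rho a) = P.labA a
  rk : ∀ a < 3 * P.T, a = P.rep (P.labA a) ∨ P.rank (P.rho a) < P.rank a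
  rep_lt : ∀ l < P.F, P.rep l < 3 * P.T
  lab_rep : ∀ l < P.F, P.labA (P.rep l) = l
  mer : ∀ l < P.F, l ∈ P.roots ∨ ((P.merA l).1 < 3 * P.T ∧ (P.merA l).2 < 3 * P.T ∧
    P.labA (P.merA l).1 = l ∧ (P.merA l).1 / 3 = (P.merA l).2 / 3 ∧ (P.merA l).1 / 3 ∈ P.J ∧
    P.rank2 (P.labA (P.merA l).2) < P.rank2 l)
  J_nd : P.J.Nodup
  J_lt : ∀ x ∈ P.J, x < P.T
  J_used : ∀ x ∈ P.J, x ∉ P.core.used
  num : P.e + 2 * P.J.length = P.F
  len : P.roots.length = P.e
  roots_lt : ∀ x ∈ P.roots, x < P.F
  used_lt : ∀ x ∈ P.core.used, x < P.T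

omit hP in
theorem nodupB_spec : ∀ l : List ℕ, nodupB l = true → l.Nodup
  | [], _ => List.nodup_nil
  | x :: l, h => by
    simp only [nodupB, Bool.and_eq_true, List.all_eq_true, Bool.not_eq_true'] at h
    refine List.nodup_cons.2 ⟨fun hx => ?_, nodupB_spec l h.2⟩
    exact ne_of_beq_false (h.1 x hx) rfl

omit hP in
theorem circFacts (h : P.check3 = true) : CircFacts P := by
  simp only [check3, Bool.and_eq_true, List.all_eq_true, List.mem_range, Nat.blt_eq,
    Bool.not_eq_true'] at h
  obtain ⟨⟨⟨⟨⟨⟨⟨⟨hL, hM⟩, h3⟩, h4⟩, h5⟩, h6⟩, h7⟩, h8⟩, h9⟩ := h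
  have hL' : ∀ a < 3 * P.T, P.labA a < P.F ∧ P.labA (P.rho a) = P.labA a ∧
      (a = P.rep (P.labA a) ∨ P.rank (P.rho a) < P.rank a) := by
    intro a ha
    have := hL a ha
    simp only [tL, Bool.and_eq_true, Bool.or_eq_true, Nat.blt_eq] at this
    obtain ⟨⟨h1, h2⟩, h3⟩ := this
    exact ⟨h1, Nat.eq_of_beq_eq_true h2, h3.imp Nat.eq_of_beq_eq_true id⟩
  have hM' : ∀ l < P.F, P.rep l < 3 * P.T ∧ P.labA (P.rep l) = l ∧ (l ∈ P.roots ∨
      ((P.merA l).1 < 3 * P.T ∧ (P.merA l).2 < 3 * P.T ∧
        P.labA (P.merA l).1 = l ∧ (P.merA l).1 / 3 = (P.merA l).2 / 3 ∧ (P.merA l).1 / 3 ∈ P.J ∧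
        P.rank2 (P.labA (P.merA l).2) < P.rank2 l)) := by
    intro l hl
    have := hM l hl
    simp only [tM, Bool.and_eq_true, Bool.or_eq_true, Nat.blt_eq, List.any_eq_true] at this
    obtain ⟨⟨h1, h2⟩, h3⟩ := this
    refine ⟨h1, Nat.eq_of_beq_eq_true h2, h3.imp ?_ ?_⟩
    · rintro ⟨x, hx, hxl⟩
      rw [← Nat.eq_of_beq_eq_true hxl]
      exact hx
    · rintro ⟨⟨⟨⟨⟨a1, a2⟩, a3⟩, a4⟩, ⟨x, hx, hxl⟩⟩, a6⟩
      refine ⟨a1, a2, Nat.eq_of_beq_eq_true a3, Nat.eq_of_beq_eq_true a4, ?_, a6⟩
      rw [← Nat.eq_of_beq_eq_true hxl]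
      exact hx
  refine ⟨fun a ha => (hL' a ha).1, fun a ha => (hL' a ha).2.1, fun a ha => (hL' a ha).2.2,
    fun l hl => (hM' l hl).1, fun l hl => (hM' l hl).2.1, fun l hl => (hM' l hl).2.2,
    nodupB_spec _ h3, h4, ?_, Nat.eq_of_beq_eq_true h6, Nat.eq_of_beq_eq_true h7, h8, h9⟩
  intro x hx hu
  exact ne_of_beq_false (h5 x hx x hu) rfl

variable (hR : CircFacts P)
include hR

omit hR in
theorem labK_kindS (a : ℕ) : P.labK t (P.kindS t a) = P.labA a := by
  by_cases h0 : a = P.pu0
  · subst h0; rw [kindS_pu0 t]; rfl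
  by_cases h1 : a = P.pu1
  · subst h1; rw [kindS_pu1 t hP]; simp [labK]
  by_cases h2 : a = P.pw0
  · subst h2; rw [kindS_pw0 t hP]; simp [labK]
  by_cases h3 : a = P.pw1
  · subst h3; rw [kindS_pw1 t hP]; rfl
  · rw [kindS_of_port t (port_of_ne h0 h1 h2 h3)]
    rfl

/-- the labels are invariant -/
theorem labK_sigK {κ : Kind} (h : P.VK t κ) : P.labK t (P.sigK t κ) = P.labK t κ := by
  rcases κ with a | ⟨i, b⟩ | ⟨i, b⟩ | ⟨i, b⟩
  · change P.labK t (P.kindS t (nxN (P.g a))) = P.labA a
    rw [labK_kindS t hP, ← rho_port h.2, hR.inv a h.1]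
  · have hi : i ≤ 2 * t + 1 := h
    cases b
    · change P.labK t (if i = 0 then P.kindS t (nxN P.pu0) else .r i true) =
        if i = 0 then P.labA P.pw0 else if i = 2 * t + 1 then P.labA P.pu1 else P.F + (i - 1)
      by_cases h0 : i = 0
      · rw [if_pos h0, if_pos h0, labK_kindS t hP, ← rho_pw0 hP, hR.inv _ hP.l2]
      · rw [if_neg h0, if_neg h0]
        rfl
    · change P.labK t (if i = 2 * t + 1 then P.kindS t (nxN P.pu1) else .u (i + 1) true) =
        P.labA P.pu0
      by_cases h0 : i = 2 * t + 1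
      · rw [if_pos h0, labK_kindS t hP, ← rho_pu0, hR.inv _ hP.l0]
      · rw [if_neg h0]
        rfl
  · have hi : i ≤ 2 * t + 1 := h
    cases b
    · change P.labK t (if i = 0 then P.kindS t (nxN P.pw0) else .w (i - 1) false) =
        P.labA P.pw1
      by_cases h0 : i = 0
      · rw [if_pos h0, labK_kindS t hP, ← rho_pw1 hP, hR.inv _ hP.l3]
      · rw [if_neg h0]
        rfl
    · change P.labK t (if i = 2 * t + 1 then P.kindS t (nxN P.pw1) else .r (i + 1) false) =
        if i = 0 then P.labA P.pw0 else if i = 2 * t + 1 then P.labA P.pu1 else P.F + (i - 1)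
      by_cases h0 : i = 2 * t + 1
      · have h1 : ¬ i = 0 := by omega
        rw [if_pos h0, if_neg h1, if_pos h0, labK_kindS t hP, ← rho_pu1 hP, hR.inv _ hP.l1]
      · rw [if_neg h0, if_neg h0]
        change (if i + 1 = 1 then P.labA P.pw0 else P.F + (i + 1 - 2)) = _
        by_cases h1 : i = 0
        · rw [if_pos h1, if_pos (by omega)]
        · rw [if_neg h1, if_neg (by omega)]
          omega
  · obtain ⟨h1, h2⟩ : 1 ≤ i ∧ i ≤ 2 * t + 1 := h
    cases b
    · change (if i - 1 = 0 then P.labA P.pw0 else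
        if i - 1 = 2 * t + 1 then P.labA P.pu1 else P.F + (i - 1 - 1)) =
        if i = 1 then P.labA P.pw0 else P.F + (i - 2)
      by_cases h3 : i = 1
      · rw [if_pos h3, if_pos (by omega)]
      · rw [if_neg h3, if_neg (by omega), if_neg (by omega)]
        omega
    · change (if i = 0 then P.labA P.pw0 else
        if i = 2 * t + 1 then P.labA P.pu1 else P.F + (i - 1)) =
        if i = 2 * t + 1 then P.labA P.pu1 else P.F + (i - 1)
      rw [if_neg (by omega)]

theorem labK_lt {κ : Kind} (h : P.VK t κ) : P.labK t κ < P.F + 2 * t := by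
  have l0 := hR.lt _ hP.l0
  have l1 := hR.lt _ hP.l1
  have l2 := hR.lt _ hP.l2
  have l3 := hR.lt _ hP.l3
  rcases κ with a | ⟨i, b⟩ | ⟨i, b⟩ | ⟨i, b⟩
  · have := hR.lt a h.1
    change P.labA a < _
    omega
  · have hi : i ≤ 2 * t + 1 := h
    cases b <;> simp only [labK] <;> (try split_ifs) <;> omega
  · have hi : i ≤ 2 * t + 1 := h
    cases b <;> simp only [labK] <;> (try split_ifs) <;> omega
  · obtain ⟨h1, h2⟩ : 1 ≤ i ∧ i ≤ 2 * t + 1 := h
    cases b <;> simp only [labK] <;> (try split_ifs) <;> omega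

theorem clsK_valid {l : ℕ} (h : l < P.F + 2 * t) : P.VK t (P.clsK t l) := by
  unfold clsK
  split_ifs with h1
  · exact kindS_valid t hP (hR.rep_lt l h1)
  · change l - P.F + 1 ≤ 2 * t + 1
    omega

theorem labK_clsK {l : ℕ} (h : l < P.F + 2 * t) : P.labK t (P.clsK t l) = l := by
  unfold clsK
  split_ifs with h1
  · rw [labK_kindS t hP, hR.lab_rep l h1]
  · simp only [labK]
    rw [if_neg (by omega), if_neg (by omega)]
    omega

/-! ### functions which are constant along the circuits -/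

section inv
variable {β : Type} {f : Kind → β} (hf : ∀ κ, P.VK t κ → f (P.sigK t κ) = f κ)
include hf

omit hP hR in
theorem f_u : ∀ i, i ≤ 2 * t + 1 → f (.u i true) = f (.u 0 true) := by
  intro i
  induction i with
  | zero => intro _; rfl
  | succ i ih =>
    intro h
    rw [← ih (by omega), ← hf (.u i true) (by change i ≤ 2 * t + 1; omega)]
    change _ = f (if i = 2 * t + 1 then _ else _)
    rw [if_neg (by omega)]

omit hP hR in
theorem f_w : ∀ i, i ≤ 2 * t + 1 → f (.w i false) = f (.w 0 false) := by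
  intro i
  induction i with
  | zero => intro _; rfl
  | succ i ih =>
    intro h
    rw [← ih (by omega), ← hf (.w (i + 1) false) (by change i + 1 ≤ 2 * t + 1; omega)]
    change f (if i + 1 = 0 then P.kindS t (nxN P.pw0) else .w (i + 1 - 1) false) = _
    rw [if_neg (by omega), Nat.add_sub_cancel]

omit hP hR in
theorem f_rw {i : ℕ} (h1 : 1 ≤ i) (h2 : i ≤ 2 * t + 1) : f (.w i true) = f (.r i true) :=
  hf (.r i true) ⟨h1, h2⟩

omit hP hR in
theorem f_ur {i : ℕ} (h1 : 1 ≤ i) (h2 : i ≤ 2 * t + 1) : f (.u i false) = f (.r i true) := by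
  rw [← hf (.u i false) h2]
  change f (if i = 0 then _ else _) = _
  rw [if_neg (by omega)]

omit hP hR in
theorem f_ru {i : ℕ} (h1 : 1 ≤ i) (h2 : i ≤ 2 * t + 1) : f (.r i false) = f (.u (i - 1) false) :=
  (hf (.r i false) ⟨h1, h2⟩).symm

omit hR in
/-- the reduced permutation follows the circuits -/
theorem f_rho {a : ℕ} (ha : a < 3 * P.T) : f (P.kindS t (P.rho a)) = f (P.kindS t a) := by
  by_cases h0 : a = P.pu0
  · subst h0
    rw [rho_pu0, kindS_pu0 t, ← f_u t hf (2 * t + 1) le_rfl,
      ← hf (.u (2 * t + 1) true) (le_refl _)]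
    change _ = f (if 2 * t + 1 = 2 * t + 1 then _ else _)
    rw [if_pos rfl]
  by_cases h1 : a = P.pu1
  · subst h1
    rw [rho_pu1 hP, kindS_pu1 t hP, f_ur t hf (by omega) le_rfl, ← f_rw t hf (by omega) le_rfl,
      ← hf (.w (2 * t + 1) true) (le_refl _)]
    change _ = f (if 2 * t + 1 = 2 * t + 1 then _ else _)
    rw [if_pos rfl]
  by_cases h2 : a = P.pw0
  · subst h2
    rw [rho_pw0 hP, kindS_pw0 t hP, ← hf (.w 0 true) (Nat.zero_le _)]
    change _ = f (if 0 = 2 * t + 1 then P.kindS t (nxN P.pw1) else .r (0 + 1) false)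
    rw [if_neg (by omega), zero_add, f_ru t hf le_rfl (by omega), Nat.sub_self,
      ← hf (.u 0 false) (Nat.zero_le _)]
    change _ = f (if 0 = 0 then P.kindS t (nxN P.pu0) else .r 0 true)
    rw [if_pos rfl]
  by_cases h3 : a = P.pw1
  · subst h3
    rw [rho_pw1 hP, kindS_pw1 t hP, f_w t hf (2 * t + 1) le_rfl,
      ← hf (.w 0 false) (Nat.zero_le _)]
    change _ = f (if 0 = 0 then P.kindS t (nxN P.pw0) else .w (0 - 1) false)
    rw [if_pos rfl]
  · have hp := port_of_ne h0 h1 h2 h3
    rw [rho_port hp, kindS_of_port t hp]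
    exact hf (.sp a) ⟨ha, hp⟩

theorem f_rep : ∀ (k a : ℕ), P.rank a < k → a < 3 * P.T →
    f (P.kindS t a) = f (P.kindS t (P.rep (P.labA a))) := by
  intro k
  induction k with
  | zero => intro a h; omega
  | succ k ih =>
    intro a h ha
    rcases hR.rk a ha with h1 | h1
    · rw [← h1]
    · have hlt : P.rho a < 3 * P.T := by
        have h2 : P.ngp a < 3 * P.T := by
          by_cases hp : P.port a = false
          · have := rho_port hp
            obtain ⟨e1, e2, e3, e4⟩ := port_false hp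
            unfold ngp
            rw [beq_false_of_ne e1, beq_false_of_ne e2, beq_false_of_ne e3, beq_false_of_ne e4]
            exact hP.g_lt a ha hp
          · unfold ngp
            have l0 := hP.l0
            have l1 := hP.l1
            have l2 := hP.l2
            have l3 := hP.l3
            split_ifs with e1 e2 e3 e4
            · exact l1
            · exact l3
            · exact l2
            · exact l0
            · exfalso
              apply hp
              simp only [Bool.not_eq_true] at e1 e2 e3 e4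
              unfold port
              rw [e1, e2, e3, e4]
              rfl
        exact nxN_lt h2
      rw [← f_rho t hP hf ha, ih _ (by omega) hlt, hR.inv a ha]

/-- every kind is equivalent to the standard kind of its label -/
theorem f_cls {κ : Kind} (h : P.VK t κ) : f κ = f (P.clsK t (P.labK t κ)) := by
  have hs : ∀ a < 3 * P.T, f (P.kindS t a) = f (P.clsK t (P.labA a)) := by
    intro a ha
    rw [f_rep t hP hR hf (P.rank a + 1) a (Nat.lt_succ_self _) ha, clsK, if_pos (hR.lt a ha)]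
  have hu0 := hs _ hP.l0
  have hu1 := hs _ hP.l1
  have hw0 := hs _ hP.l2
  have hw1 := hs _ hP.l3
  rw [kindS_pu0 t] at hu0
  rw [kindS_pu1 t hP] at hu1
  rw [kindS_pw0 t hP] at hw0
  rw [kindS_pw1 t hP] at hw1
  -- the arcs `- u_i`
  have hu : ∀ i ≤ 2 * t + 1, f (.u i false) = f (P.clsK t (P.labK t (.u i false))) := by
    intro i hi
    simp only [labK]
    by_cases h0 : i = 0
    · rw [if_pos h0, h0, ← hw0, ← hf (.w 0 true) (Nat.zero_le _)]
      change _ = f (if 0 = 2 * t + 1 then P.kindS t (nxN P.pw1) else .r (0 + 1) false)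
      rw [if_neg (by omega), zero_add, f_ru t hf le_rfl (by omega)]
    · by_cases h1 : i = 2 * t + 1
      · rw [if_neg h0, if_pos h1, h1, hu1]
      · rw [if_neg h0, if_neg h1, clsK, if_neg (by omega)]
        congr 2
        omega
  rcases κ with a | ⟨i, b⟩ | ⟨i, b⟩ | ⟨i, b⟩
  · have := hs a h.1
    rw [kindS_of_port t h.2] at this
    exact this
  · have hi : i ≤ 2 * t + 1 := h
    cases b
    · exact hu i hi
    · rw [f_u t hf i hi]
      exact hu0
  · have hi : i ≤ 2 * t + 1 := h
    cases b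
    · rw [f_w t hf i hi, ← f_w t hf (2 * t + 1) le_rfl]
      exact hw1
    · by_cases h0 : i = 0
      · subst h0
        rw [hw0]
        rfl
      · rw [f_rw t hf (by omega) hi, ← f_ur t hf (by omega) hi, hu i hi]
        simp only [labK]
  · obtain ⟨h1, h2⟩ : 1 ≤ i ∧ i ≤ 2 * t + 1 := h
    cases b
    · rw [f_ru t hf h1 h2, hu (i - 1) (by omega)]
      congr 2
      simp only [labK]
      by_cases h3 : i = 1
      · rw [if_pos h3, if_pos (by omega)]
      · rw [if_neg h3, if_neg (by omega), if_neg (by omega)]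
        omega
    · rw [← f_ur t hf h1 h2, hu i h2]
      congr 2
      simp only [labK]
      rw [if_neg (by omega)]

end inv

end

end Template

end Empire
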