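import Mathlib
import Pool.Agent.Lib.MP_800721_co.Cert

/-!
# PROJECT EMPIRE: periodic patterns of handles (soundness of `Core.check`)
-/

namespace Empire

open Equiv Equiv.Perm

/-! ### linear forms -/

theorem ev_add (t : ℕ) (x y : Aff) : ev t (x + y) = ev t x + ev t y := by
  simp only [ev, Prod.fst_add, Prod.snd_add]; ring

theorem ev_sub (t : ℕ) (x y : Aff) : ev t (x - y) = ev t x - ev t y := by
  simp only [ev, Prod.fst_sub, Prod.snd_sub]; ring

theorem ev_neg (t : ℕ) (x : Aff) : ev t (-x) = - ev t x := by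
  simp only [ev, Prod.fst_neg, Prod.snd_neg]; ring

theorem ev_zero (t : ℕ) : ev t 0 = 0 := by simp [ev]

theorem leA_ev {x y : Aff} (h : leA x y = true) (t : ℕ) : ev t x ≤ ev t y := by
  simp only [leA, Bool.and_eq_true, decide_eq_true_eq] at h
  unfold ev
  have : x.1 * (t : ℤ) ≤ y.1 * t := mul_le_mul_of_nonneg_right h.1 (by positivity)
  linarith [h.2]

theorem sep1_sound {g : ℕ} {lo hi X : Aff} (h : sep1 g lo hi X = true) (t : ℕ) (s : ℤ)
    (hlo : ev t lo ≤ s) (hhi : s ≤ ev t hi) : ev t X ≠ g * s := by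
  intro he
  simp only [sep1, Bool.or_eq_true, Bool.not_eq_true', decide_eq_false_iff_not] at h
  rcases h with (h | h) | h
  · have h1 := leA_ev h t
    have h2 : ev t ((g : ℤ) * lo.1, (g : ℤ) * lo.2 - 1) = g * ev t lo - 1 := by
      simp only [ev]; ring
    rw [h2, he] at h1
    have : (g : ℤ) * ev t lo ≤ g * s := mul_le_mul_of_nonneg_left hlo (by positivity)
    linarith
  · have h1 := leA_ev h t
    have h2 : ev t ((g : ℤ) * hi.1, (g : ℤ) * hi.2 + 1) = g * ev t hi + 1 := by
      simp only [ev]; ring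
    rw [h2, he] at h1
    have : (g : ℤ) * s ≤ g * ev t hi := mul_le_mul_of_nonneg_left hhi (by positivity)
    linarith
  · apply h
    have h1 : ((Nat.gcd X.1.natAbs g : ℕ) : ℤ) ∣ X.1 := by
      rw [← Int.dvd_natAbs]
      exact_mod_cast Nat.gcd_dvd_left _ _
    have h2 : ((Nat.gcd X.1.natAbs g : ℕ) : ℤ) ∣ (g : ℤ) := by
      exact_mod_cast Nat.gcd_dvd_right _ _
    have h3 : ((Nat.gcd X.1.natAbs g : ℕ) : ℤ) ∣ X.2 := by
      have : X.2 = g * s - X.1 * t := by
        rw [← he, ev]; ring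
      rw [this]
      exact dvd_sub (Dvd.dvd.mul_right h2 _) (Dvd.dvd.mul_right h1 _)
    rw [← Int.dvd_natAbs] at h3
    exact_mod_cast h3

theorem sepA_sound {N : Aff} {g : ℕ} {lo hi δ : Aff} (h : sepA N g lo hi δ = true)
    (hN : 0 ≤ N.1) (hN' : 0 ≤ N.2) (t : ℕ) (s : ℤ) (hlo : ev t lo ≤ s) (hhi : s ≤ ev t hi) :
    ¬ (ev t N ∣ ev t δ - g * s) := by
  rintro ⟨c, hc⟩
  simp only [sepA, Bool.and_eq_true, List.all_eq_true, List.mem_range] at h
  obtain ⟨⟨h1, h2⟩, h3⟩ := h
  have hNt : 0 ≤ ev t N := by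
    unfold ev
    have : 0 ≤ N.1 * (t : ℤ) := mul_nonneg hN (by positivity)
    linarith
  have hgs : (g : ℤ) * s = ev t δ + (-c) * ev t N := by linarith
  have e2 := leA_ev h2 t
  have e3 := leA_ev h3 t
  have f1 : ev t ((g : ℤ) * hi.1, (g : ℤ) * hi.2 + 1) = g * ev t hi + 1 := by
    simp only [ev]; ring
  have f2 : ev t (δ.1 + 10 * N.1, δ.2 + 10 * N.2) = ev t δ + 10 * ev t N := by
    simp only [ev]; ring
  have f3 : ev t ((g : ℤ) * lo.1, (g : ℤ) * lo.2 - 1) = g * ev t lo - 1 := by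
    simp only [ev]; ring
  have f4 : ev t (δ.1 - 10 * N.1, δ.2 - 10 * N.2) = ev t δ - 10 * ev t N := by
    simp only [ev]; ring
  rw [f1, f2] at e2
  rw [f3, f4] at e3
  have g1 : (g : ℤ) * ev t lo ≤ g * s := mul_le_mul_of_nonneg_left hlo (by positivity)
  have g2 : (g : ℤ) * s ≤ g * ev t hi := mul_le_mul_of_nonneg_left hhi (by positivity)
  rcases le_or_gt 10 (-c) with hz | hz
  · have : 10 * ev t N ≤ (-c) * ev t N := mul_le_mul_of_nonneg_right hz hNt
    linarith
  rcases le_or_gt (-c) (-10) with hz' | hz'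
  · have : (-c) * ev t N ≤ (-10) * ev t N := mul_le_mul_of_nonneg_right hz' hNt
    linarith
  obtain ⟨k, hk⟩ : ∃ k : ℕ, (k : ℤ) = -c + 10 := ⟨(-c + 10).toNat, Int.toNat_of_nonneg (by linarith)⟩
  have hk21 : k < 21 := by zify; linarith
  have := sep1_sound (h1 k hk21) t s hlo hhi
  apply this
  rw [hgs]
  have : (k : ℤ) - 10 = -c := by linarith
  simp only [ev, this]
  ring

variable {n : ℕ}

/-- value of a linear form in `ZMod n` -/
def cv (n t : ℕ) (x : Aff) : ZMod n := ((ev t x : ℤ) : ZMod n)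

theorem cv_add (t : ℕ) (x y : Aff) : cv n t (x + y) = cv n t x + cv n t y := by
  rw [cv, ev_add]; push_cast; rfl

theorem cv_sub (t : ℕ) (x y : Aff) : cv n t (x - y) = cv n t x - cv n t y := by
  rw [cv, ev_sub]; push_cast; rfl

theorem cv_neg (t : ℕ) (x : Aff) : cv n t (-x) = - cv n t x := by
  rw [cv, ev_neg]; push_cast; rfl

theorem cv_zero (t : ℕ) : cv n t 0 = 0 := by rw [cv, ev_zero]; simp

theorem eqm_sound {C : Core} {t : ℕ} (hn : (n : ℤ) = ev t C.N) {x y : Aff}
    (h : C.eqm x y = true) : cv n t x = cv n t y := by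
  simp only [Core.eqm, List.any_eq_true, List.mem_range, Bool.and_eq_true,
    decide_eq_true_eq] at h
  obtain ⟨k, -, h1, h2⟩ := h
  have h3 : ev t x - ev t y = ((k : ℤ) - 4) * (n : ℤ) := by
    rw [hn]
    unfold ev
    have : x.1 * (t : ℤ) - y.1 * t = (x.1 - y.1) * t := by ring
    have : x.1 * (t : ℤ) + x.2 - (y.1 * t + y.2) = (x.1 - y.1) * t + (x.2 - y.2) := by ring
    rw [this, h1, h2]; ring
  have h4 : ((ev t x - ev t y : ℤ) : ZMod n) = 0 := by rw [h3]; simp
  rw [Int.cast_sub, sub_eq_zero] at h4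
  exact h4

theorem cv_eq_dvd {t : ℕ} {N : Aff} (hn : (n : ℤ) = ev t N) {a b : ℤ}
    (h : (a : ZMod n) = (b : ZMod n)) : ev t N ∣ a - b := by
  rw [← hn, ← ZMod.intCast_zmod_eq_zero_iff_dvd, Int.cast_sub, h, sub_self]

/-! ### sweeps -/

theorem sweepB_sound (es : List (Fin 6 × Fin 6)) : ∀ (A B : List (Fin 6)),
    sweepB A B es = true → ∃ out, Sweep A B es out := by
  induction es with
  | nil =>
    intro A B h
    simp only [sweepB, decide_eq_true_eq] at h
    exact ⟨[A ++ B], Sweep.nil A B (by simpa using h)⟩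
  | cons e es ih =>
    intro A B h
    obtain ⟨p, q⟩ := e
    simp only [sweepB, List.any_eq_true, List.mem_range, Bool.and_eq_true, decide_eq_true_eq,
      beq_iff_eq] at h
    obtain ⟨i, hi, j, hj, ⟨⟨h1, h2⟩, h3⟩, h4⟩ := h
    obtain ⟨out, ho⟩ := ih _ _ h4
    obtain ⟨hi', h1'⟩ := List.getElem?_eq_some_iff.1 h1
    obtain ⟨hj', h2'⟩ := List.getElem?_eq_some_iff.1 h2
    have eA : A = A.take i ++ p :: A.drop (i + 1) := by
      rw [← h1', List.cons_getElem_drop_succ, List.take_append_drop]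
    have eA' : A.drop i = p :: A.drop (i + 1) := by
      rw [← h1', List.cons_getElem_drop_succ]
    have eB : B = B.take j ++ q :: B.drop (j + 1) := by
      rw [← h2', List.cons_getElem_drop_succ, List.take_append_drop]
    have eB' : B.take (j + 1) = B.take j ++ [q] := by
      rw [List.take_add_one, h2]; rfl
    rw [eA', eB'] at ho
    have hne : A.take i ++ B.drop (j + 1) ≠ [] := by
      intro hnil
      have : (A.take i ++ B.drop (j + 1)).length = 0 := by rw [hnil]; rfl
      simp only [List.length_append, List.length_take, List.length_drop] at this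
      omega
    have h5 := Sweep.cons (A.take i) p (A.drop (i + 1)) (B.take j) q (B.drop (j + 1)) es out hne ho
    rw [← eA, ← eB] at h5
    exact ⟨_, h5⟩

/-! ### positions in arithmetic progressions -/

theorem allPairs_pairwise {α : Type} {r : α → α → Bool} {l : List α} (h : allPairs r l = true) :
    l.Pairwise fun a b => r a b = true := by
  induction l with
  | nil => exact List.Pairwise.nil
  | cons x l ih =>
    simp only [allPairs, Bool.and_eq_true, List.all_eq_true] at h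
    exact List.Pairwise.cons (fun y hy => h.1 y hy) (ih h.2)

/-- all labels of a pattern -/
def patList {β : Type*} (E : ℤ → ℕ × Aff → β) (q : ℕ) (fs ps : List (ℕ × Aff)) : List β :=
  ((List.range q).flatMap fun j : ℕ => fs.map (E j)) ++ ps.map (E q)

theorem patList_nodup {β : Type*} {E : ℤ → ℕ × Aff → β} {md : ℕ → Aff} {g t : ℕ} {q : Aff}
    {fs ps : List (ℕ × Aff)} (h : slotsOK md g q fs ps = true)
    (hmd : ∀ k, 0 ≤ (md k).1 ∧ 0 ≤ (md k).2) (hq : 0 ≤ ev t q)
    (hE : ∀ a b : ℕ × Aff, (a ∈ fs ∨ a ∈ ps) → (b ∈ fs ∨ b ∈ ps) → ∀ j j' : ℤ,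
      E j a = E j' b → a.1 = b.1 ∧ ev t (md a.1) ∣ ev t (a.2 - b.2) - g * (j' - j)) :
    (patList E (ev t q).toNat fs ps).Nodup := by
  simp only [slotsOK, Bool.and_eq_true, List.all_eq_true] at h
  obtain ⟨⟨⟨h1, h2⟩, h3⟩, h4⟩ := h
  have hqc : (((ev t q).toNat : ℕ) : ℤ) = ev t q := Int.toNat_of_nonneg hq
  have e1 : ev t (-q.1, 1 - q.2) = 1 - ev t q := by simp only [ev]; ring
  have e2 : ev t (q.1, q.2 - 1) = ev t q - 1 := by simp only [ev]; ring
  have e3 : ev t ((0 : ℤ), (1 : ℤ)) = 1 := by simp [ev]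
  -- different slots of the full handles
  have hff : fs.Pairwise fun a b => ∀ j j' : ℕ, j < (ev t q).toNat → j' < (ev t q).toNat →
      E j a ≠ E j' b := by
    refine (List.Pairwise.and_mem.1 (allPairs_pairwise h1)).imp ?_
    rintro a b ⟨ha, hb, hab⟩ j j' hj hj' he
    obtain ⟨k1, k2⟩ := hE a b (Or.inl ha) (Or.inl hb) j j' he
    simp only [Bool.or_eq_true, bne_iff_ne, ne_eq] at hab
    rcases hab with hab | hab
    · exact hab k1
    · refine sepA_sound hab (hmd _).1 (hmd _).2 t ((j' : ℤ) - j) ?_ ?_ k2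
      · rw [e1]; omega
      · rw [e2]; omega
  have hself : ∀ a ∈ fs, ∀ j j' : ℕ, j < (ev t q).toNat → j' < (ev t q).toNat → j ≠ j' →
      E j a ≠ E j' a := by
    intro a ha j j' hj hj' hne he
    wlog hlt : j < j' generalizing j j'
    · exact this j' j hj' hj (Ne.symm hne) he.symm (by omega)
    obtain ⟨-, k2⟩ := hE a a (Or.inl ha) (Or.inl ha) j j' he
    refine sepA_sound (h2 a ha) (hmd _).1 (hmd _).2 t ((j' : ℤ) - j) ?_ ?_ ?_
    · rw [e3]; omega
    · rw [e2]; omega
    · rw [sub_self] at k2; exact k2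
  have hfp : ∀ a ∈ fs, ∀ b ∈ ps, ∀ j : ℕ, j < (ev t q).toNat →
      E j a ≠ E ((ev t q).toNat : ℕ) b := by
    intro a ha b hb j hj he
    obtain ⟨k1, k2⟩ := hE a b (Or.inl ha) (Or.inr hb) j _ he
    have hab := h3 a ha b hb
    simp only [Bool.or_eq_true, bne_iff_ne, ne_eq] at hab
    rcases hab with hab | hab
    · exact hab k1
    · refine sepA_sound hab (hmd _).1 (hmd _).2 t _ ?_ ?_ k2
      · rw [e3]; omega
      · omega
  have hpp : ps.Pairwise fun a b => E ((ev t q).toNat : ℕ) a ≠ E ((ev t q).toNat : ℕ) b := by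
    refine (List.Pairwise.and_mem.1 (allPairs_pairwise h4)).imp ?_
    rintro a b ⟨ha, hb, hab⟩ he
    obtain ⟨k1, k2⟩ := hE a b (Or.inr ha) (Or.inr hb) _ _ he
    simp only [Bool.or_eq_true, bne_iff_ne, ne_eq] at hab
    rcases hab with hab | hab
    · exact hab k1
    · refine sepA_sound hab (hmd _).1 (hmd _).2 t _ ?_ ?_ k2
      · rw [ev_zero]; omega
      · rw [ev_zero]; omega
  unfold patList
  rw [List.nodup_append']
  refine ⟨?_, ?_, ?_⟩
  · rw [List.nodup_flatMap]
    constructor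
    · intro j hj
      rw [List.mem_range] at hj
      rw [List.Nodup, List.pairwise_map]
      exact hff.imp fun h => h j j hj hj
    · have hr : (List.range (ev t q).toNat).Pairwise fun a b => a ≠ b := List.nodup_range
      refine (List.Pairwise.and_mem.1 hr).imp ?_
      rintro j j' ⟨hj, hj', hne⟩
      rw [List.mem_range] at hj hj'
      intro x hx hx'
      obtain ⟨a, ha, rfl⟩ := List.mem_map.1 hx
      obtain ⟨b, hb, hb'⟩ := List.mem_map.1 hx'
      by_cases hab : a = b
      · subst hab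
        exact hself a ha j j' hj hj' hne hb'.symm
      · have hsym : Std.Symm fun a b : ℕ × Aff => ∀ j j' : ℕ, j < (ev t q).toNat →
            j' < (ev t q).toNat → E j a ≠ E j' b :=
          ⟨fun a b h j j' hj hj' he => h j' j hj' hj he.symm⟩
        exact hff.forall ha hb hab j j' hj hj' hb'.symm
  · rw [List.Nodup, List.pairwise_map]
    exact hpp
  · intro x hx hx'
    obtain ⟨j, hj, hx⟩ := List.mem_flatMap.1 hx
    obtain ⟨a, ha, rfl⟩ := List.mem_map.1 hx
    obtain ⟨b, hb, hb'⟩ := List.mem_map.1 hx'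
    exact hfp a ha b hb j (List.mem_range.1 hj) hb'.symm

end Empire
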