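import Mathlib
import Pool.Agent.Lib.MP_800721_co.Pattern

/-!
# PROJECT EMPIRE: soundness of `Core.check`
-/

namespace Empire

open Equiv Equiv.Perm

variable {n t : ℕ} {I : Type} {C : Core} {S : SymData n I} {ι : ℕ → I}

theorem nx_toI (ι : ℕ → I) (a : Arc) : SymData.nx (toI ι a) = toI ι (nxA a) := by
  simp only [SymData.nx, toI, nxA, Prod.mk.injEq, true_and]
  have : (((a.2 + 1) % 3 : ℕ) : ZMod 3) = ((a.2 + 1 : ℕ) : ZMod 3) := ZMod.natCast_mod _ _
  rw [this]; push_cast; rfl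

theorem arcOK_iff {a : Arc} : C.arcOK a = true ↔ a.1 < C.tri.length ∧ a.2 < 3 := by
  simp [Core.arcOK]

theorem arcOK_nx {a : Arc} (h : C.arcOK a = true) : C.arcOK (nxA a) = true := by
  rw [arcOK_iff] at h ⊢
  exact ⟨h.1, Nat.mod_lt _ (by norm_num)⟩

theorem val_toI (h : C.Realises t S ι) {a : Arc} (ha : C.arcOK a = true) :
    S.val (toI ι a) = cv n t (C.valA a) := by
  rw [arcOK_iff] at ha
  exact h.val a.1 a.2 ha.1 ha.2

theorem off_toI (h : C.Realises t S ι) {a : Arc} (ha : C.arcOK a = true) :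
    S.off (toI ι a) = cv n t (C.offA a) := by
  rw [arcOK_iff] at ha
  obtain ⟨i, j⟩ := a
  simp only at ha
  have e0 : S.val (ι i, 0) = cv n t (C.valA (i, 0)) := by
    have := h.val i 0 ha.1 (by norm_num)
    simpa [cv] using this
  have e1 : S.val (ι i, 1) = cv n t (C.valA (i, 1)) := by
    have := h.val i 1 ha.1 (by norm_num)
    simpa [cv] using this
  have d3 : ¬ ((1 : ZMod 3) = 0) := by decide
  have d4 : ¬ ((2 : ZMod 3) = 0) := by decide
  have d5 : ¬ ((2 : ZMod 3) = 1) := by decide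
  have hj : j = 0 ∨ j = 1 ∨ j = 2 := by omega
  rcases hj with rfl | rfl | rfl
  · simp [SymData.off, toI, Core.offA, cv_zero]
  · simp [SymData.off, toI, Core.offA, e0, d3]
  · simp [SymData.off, toI, Core.offA, e0, e1, d4, d5, cv_add]

theorem ng_toI (h : C.Realises t S ι) {a b : Arc} (ha : C.arcOK a = true)
    (hb : C.arcOK b = true) (hab : C.eqm (C.valA a + C.valA b) 0 = true) :
    S.ng (toI ι a) = toI ι b := by
  apply S.val_inj
  rw [S.val_ng, val_toI h ha, val_toI h hb]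
  have := eqm_sound h.hn hab
  rw [cv_add, cv_zero] at this
  exact neg_eq_of_add_eq_zero_right this

/-- the handle over `I` -/
def AOp.conv (ι : ℕ → I) (n t : ℕ) (o : AOp) : SOp n I where
  aP := toI ι o.aP
  aQ := toI ι o.aQ
  sh := cv n t o.sh
  w := cv n t o.w
  cr := o.cr.map fun c => ((c.p, c.q), c.fl.map fun ab => toI ι ab.1)

theorem conv_vtx (h : C.Realises t S ι) {o : AOp} (hP : C.arcOK o.aP = true)
    (hQ : C.arcOK o.aQ = true) (i : Fin 6) : (o.conv ι n t).vtx S i = cv n t (C.vtxA o i) := by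
  have e1 := val_toI h hP
  have e2 := val_toI h (arcOK_nx hP)
  have e3 := val_toI h hQ
  have e4 := val_toI h (arcOK_nx hQ)
  fin_cases i <;>
    simp [SOp.vtx, SOp.vtx.nx', AOp.conv, Core.vtxA, nx_toI, e1, e2, e3, e4, cv_add, cv_zero]

theorem opOK_iff {o : AOp} : C.opOK o = true ↔ C.arcOK o.aP = true ∧ C.arcOK o.aQ = true ∧
    (∃ c l, o.cr = c :: l ∧ c.p = 0 ∧ c.q = 3 ∧
      sweepB [0, 1, 2, 0] [3, 5, 4, 3] (l.map fun c => (c.p, c.q)) = true) ∧
    ∀ c ∈ o.cr, C.crOK o c = true := by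
  unfold Core.opOK
  rcases hcr : o.cr with _ | ⟨c, l⟩
  · simp
  · simp only [Bool.and_eq_true, List.all_eq_true, beq_iff_eq]
    constructor
    · rintro ⟨⟨⟨h1, h2⟩, ⟨h3, h4⟩, h5⟩, h6⟩
      exact ⟨h1, h2, ⟨c, l, rfl, h3, h4, h5⟩, h6⟩
    · rintro ⟨h1, h2, ⟨c', l', h, h3, h4, h5⟩, h6⟩
      simp only [List.cons.injEq] at h
      obtain ⟨rfl, rfl⟩ := h
      exact ⟨⟨⟨h1, h2⟩, ⟨h3, h4⟩, h5⟩, h6⟩

theorem crOK_some {o : AOp} {c : Cr} (h : C.crOK o c = true) {a b : Arc} (hfl : c.fl = some (a, b)) :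
    C.arcOK a = true ∧ C.arcOK b = true ∧ C.eqm (C.vtxA o c.q - C.vtxA o c.p) (C.valA a) = true ∧
      C.eqm (C.valA a + C.valA b) 0 = true := by
  unfold Core.crOK at h
  rw [hfl] at h
  simp only [Bool.and_eq_true] at h
  tauto

theorem crOK_c {o : AOp} {c : Cr} (h : C.crOK o c = true) : c.c < C.dl.length := by
  unfold Core.crOK at h
  simp only [Bool.and_eq_true, decide_eq_true_eq] at h
  exact h.1.1

theorem crOK_dig {o : AOp} {c : Cr} (h : C.crOK o c = true) :
    C.eqm ((C.dig o c).2 - (C.dig o c).1)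
      (if c.sg then C.dl[c.c]?.getD 0 else - (C.dl[c.c]?.getD 0)) = true := by
  unfold Core.crOK at h
  simp only [Bool.and_eq_true] at h
  exact h.2

theorem conv_fids (h : C.Realises t S ι) {o : AOp} (ho : C.opOK o = true) :
    (o.conv ι n t).fids S = (C.fslots o).map fun x => (ι x.1, cv n t x.2) := by
  obtain ⟨hP, hQ, -, hcr⟩ := opOK_iff.1 ho
  have hv := conv_vtx (n := n) h hP hQ
  unfold SOp.fids Core.fslots
  rw [List.map_cons, List.map_cons, List.map_flatMap]
  congr 1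
  · have e : (o.conv ι n t).aP = toI ι o.aP := rfl
    have e' : (o.conv ι n t).sh = cv n t o.sh := rfl
    rw [e, e', off_toI h hP, cv_sub]; rfl
  congr 1
  · have e : (o.conv ι n t).aQ = toI ι o.aQ := rfl
    have e' : (o.conv ι n t).w = cv n t o.w := rfl
    rw [e, e', off_toI h hQ, cv_sub]; rfl
  have e : (o.conv ι n t).cr = o.cr.map fun c => ((c.p, c.q), c.fl.map fun ab => toI ι ab.1) := rfl
  rw [e, List.flatMap_map]
  refine List.flatMap_congr fun c hc => ?_
  rcases hfl : c.fl with _ | ⟨a, b⟩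
  · simp
  · obtain ⟨h1, h2, -, h4⟩ := crOK_some (hcr c hc) hfl
    simp only [Option.map_some, List.map_cons, List.map_nil, hv, ng_toI h h1 h2 h4,
      off_toI h h1, off_toI h h2, cv_sub]
    rfl

theorem conv_dids (h : C.Realises t S ι) {o : AOp} (ho : C.opOK o = true) :
    (o.conv ι n t).dids S = o.cr.map fun c => (cv n t (C.dig o c).1, cv n t (C.dig o c).2) := by
  obtain ⟨hP, hQ, -, hcr⟩ := opOK_iff.1 ho
  have hv := conv_vtx (n := n) h hP hQ
  unfold SOp.dids
  have e : (o.conv ι n t).cr = o.cr.map fun c => ((c.p, c.q), c.fl.map fun ab => toI ι ab.1) := rfl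
  rw [e, List.map_map]
  refine List.map_congr_left fun c hc => ?_
  simp only [Function.comp_apply, Core.dig]
  rcases hfl : c.fl with _ | ⟨a, b⟩
  · simp [hv]
  · obtain ⟨h1, h2, -, h4⟩ := crOK_some (hcr c hc) hfl
    simp only [Option.map_some, hv, ng_toI h h1 h2 h4, nx_toI, val_toI h (arcOK_nx h1),
      val_toI h (arcOK_nx h2), cv_add]

/-- used triples of a handle -/
theorem conv_good [DecidableEq I] (h : C.Realises t S ι) {o : AOp} (ho : C.opOK o = true)
    {s : Finset I} (hs : ∀ x ∈ C.fslots o, ι x.1 ∉ s) : (o.conv ι n t).Good S s := by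
  obtain ⟨hP, hQ, hsw, hcr⟩ := opOK_iff.1 ho
  have hv := conv_vtx (n := n) h hP hQ
  refine ⟨?_, ?_, ?_, ?_⟩
  · obtain ⟨c, l, e1, e2, e3, e4⟩ := hsw
    obtain ⟨out, hout⟩ := sweepB_sound _ _ _ e4
    refine ⟨l.map fun c => (c.p, c.q), out, ?_, hout⟩
    simp [AOp.conv, e1, e2, e3, Function.comp_def]
  · exact hs (o.aP.1, o.sh - C.offA o.aP) (by simp [Core.fslots])
  · exact hs (o.aQ.1, o.w - C.offA o.aQ) (by simp [Core.fslots])
  · intro c' hc'
    have e : (o.conv ι n t).cr = o.cr.map fun c => ((c.p, c.q), c.fl.map fun ab => toI ι ab.1) := rfl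
    rw [e] at hc'
    obtain ⟨c, hc, rfl⟩ := List.mem_map.1 hc'
    have hd := crOK_dig (hcr c hc)
    have hcc := crOK_c (hcr c hc)
    have hmem := h.mem c.c hcc
    have hmem' : cv n t (if c.sg then C.dl[c.c]?.getD 0 else - (C.dl[c.c]?.getD 0)) ∈ S.D := by
      split
      · exact hmem
      · rw [cv_neg]; exact S.D_neg _ hmem
    rw [← eqm_sound h.hn hd] at hmem'
    rcases hfl : c.fl with _ | ⟨a, b⟩
    · have : (o.conv ι n t).CrOk S s ((c.p, c.q), (none : Option (Arc × Arc)).map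
          fun ab => toI ι ab.1) ↔ (o.conv ι n t).vtx S c.q - (o.conv ι n t).vtx S c.p ∈ S.D :=
        Iff.rfl
      rw [this, hv, hv]
      simp only [Core.dig, hfl, cv_sub] at hmem'
      exact hmem'
    · obtain ⟨h1, h2, h3, h4⟩ := crOK_some (hcr c hc) hfl
      have : (o.conv ι n t).CrOk S s ((c.p, c.q), (some (a, b) : Option (Arc × Arc)).map
          fun ab => toI ι ab.1) ↔
          ((o.conv ι n t).vtx S c.q - (o.conv ι n t).vtx S c.p = S.val (toI ι a) ∧
          (toI ι a).1 ∉ s ∧ (S.ng (toI ι a)).1 ∉ s ∧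
          S.val (SymData.nx (S.ng (toI ι a))) - S.val (toI ι a) -
            S.val (SymData.nx (toI ι a)) ∈ S.D) := Iff.rfl
      rw [this, hv, hv, ng_toI h h1 h2 h4, nx_toI, nx_toI, val_toI h h1,
        val_toI h (arcOK_nx h1), val_toI h (arcOK_nx h2)]
      have e3 := eqm_sound h.hn h3
      rw [cv_sub] at e3
      refine ⟨e3, ?_, ?_, ?_⟩
      · refine hs (a.1, C.vtxA o c.p - C.offA a) ?_
        simp only [Core.fslots, List.mem_cons, List.mem_flatMap]
        exact Or.inr (Or.inr ⟨c, hc, by simp [hfl]⟩)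
      · refine hs (b.1, C.vtxA o c.q - C.offA b) ?_
        simp only [Core.fslots, List.mem_cons, List.mem_flatMap]
        exact Or.inr (Or.inr ⟨c, hc, by simp [hfl]⟩)
      · simp only [Core.dig, hfl, cv_sub, cv_add] at hmem'
        rw [← e3]
        convert hmem' using 1
        ring

end Empire
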