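import Mathlib
import Pool.Agent.Lib.MP_800721_co.Pattern2

/-!
# PROJECT EMPIRE: soundness of `Core.check`, main theorem `Core.handles`
-/

namespace Empire

open Equiv Equiv.Perm

variable {n t : ℕ} {I : Type} {C : Core} {S : SymData n I} {ι : ℕ → I}

/-- label of a triangle slot at `u` -/
def LF (ι : ℕ → I) (n t : ℕ) (u : ZMod n) (a : ℕ × Aff) : I × ZMod n := (ι a.1, u + cv n t a.2)

/-- label of a missing edge slot at `u` -/
def LD (C : Core) (n t : ℕ) (u : ZMod n) (a : ℕ × Aff) : Sym2 (ZMod n) :=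
  s(u + cv n t a.2, u + cv n t a.2 + cv n t (C.dl[a.1]?.getD 0))

/-- the handles of a pattern -/
def patL (ι : ℕ → I) (n t : ℕ) (p : Pat) : List (ZMod n × SOp n I) :=
  ((List.range (ev t p.q).toNat).map fun j : ℕ => (((p.g : ZMod n) * (j : ZMod n)), p.full.conv ι n t)) ++
  (match p.part with
    | none => []
    | some o => [((p.g : ZMod n) * (((ev t p.q).toNat : ℕ) : ZMod n), o.conv ι n t)])

theorem slot_lt {o : AOp} (ho : C.opOK o = true) {x : ℕ × Aff} (hx : x ∈ C.fslots o) :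
    x.1 < C.tri.length := by
  obtain ⟨hP, hQ, -, hcr⟩ := opOK_iff.1 ho
  simp only [Core.fslots, List.mem_cons, List.mem_flatMap] at hx
  rcases hx with rfl | rfl | ⟨c, hc, hx⟩
  · exact (arcOK_iff.1 hP).1
  · exact (arcOK_iff.1 hQ).1
  · rcases hfl : c.fl with _ | ⟨a, b⟩
    · rw [hfl] at hx; simp at hx
    · obtain ⟨h1, h2, -, -⟩ := crOK_some (hcr c hc) hfl
      rw [hfl] at hx
      simp only [List.mem_cons, List.not_mem_nil, or_false] at hx
      rcases hx with rfl | rfl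
      · exact (arcOK_iff.1 h1).1
      · exact (arcOK_iff.1 h2).1

theorem dslot_lt {o : AOp} (ho : C.opOK o = true) {x : ℕ × Aff} (hx : x ∈ C.dslots o) :
    x.1 < C.dl.length := by
  obtain ⟨-, -, -, hcr⟩ := opOK_iff.1 ho
  obtain ⟨c, hc, rfl⟩ := List.mem_map.1 hx
  exact crOK_c (hcr c hc)

theorem fids_LF (h : C.Realises t S ι) {o : AOp} (ho : C.opOK o = true) (u : ZMod n) :
    ((o.conv ι n t).fids S).map (fun f => (f.1, u + f.2)) = (C.fslots o).map (LF ι n t u) := by
  rw [conv_fids h ho, List.map_map]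
  rfl

theorem dids_LD (h : C.Realises t S ι) {o : AOp} (ho : C.opOK o = true) (u : ZMod n) :
    ((o.conv ι n t).dids S).map (fun e => s(u + e.1, u + e.2)) =
      (C.dslots o).map (LD C n t u) := by
  obtain ⟨-, -, -, hcr⟩ := opOK_iff.1 ho
  rw [conv_dids h ho, List.map_map, Core.dslots, List.map_map]
  refine List.map_congr_left fun c hc => ?_
  have hd := eqm_sound h.hn (crOK_dig (hcr c hc))
  rw [cv_sub] at hd
  by_cases hsg : c.sg = true
  · rw [if_pos hsg] at hd
    simp only [Function.comp_apply, LD, if_pos hsg]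
    rw [← hd]
    have : u + cv n t (C.dig o c).1 + (cv n t (C.dig o c).2 - cv n t (C.dig o c).1) =
        u + cv n t (C.dig o c).2 := by ring
    rw [this]
  · rw [if_neg hsg, cv_neg] at hd
    simp only [Function.comp_apply, LD, if_neg hsg]
    have h1 : cv n t (C.dl[c.c]?.getD 0) = cv n t (C.dig o c).1 - cv n t (C.dig o c).2 := by
      rw [← neg_inj, ← hd]; ring
    rw [h1]
    have : u + cv n t (C.dig o c).2 + (cv n t (C.dig o c).1 - cv n t (C.dig o c).2) =
        u + cv n t (C.dig o c).1 := by ring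
    rw [this, Sym2.eq_swap]

theorem LD_key (h : C.Realises t S ι) {a b : ℕ × Aff} (ha : a.1 < C.dl.length)
    (hb : b.1 < C.dl.length) {u u' : ZMod n} (he : LD C n t u a = LD C n t u' b) :
    a.1 = b.1 ∧ (u + cv n t a.2 = u' + cv n t b.2 ∨
      (cv n t (C.dl[a.1]?.getD 0) + cv n t (C.dl[a.1]?.getD 0) = 0 ∧
        u + cv n t a.2 = u' + cv n t b.2 + cv n t (C.dl[a.1]?.getD 0))) := by
  unfold LD at he
  rw [Sym2.eq_iff] at he
  rcases he with ⟨h1, h2⟩ | ⟨h1, h2⟩
  · have h3 : cv n t (C.dl[a.1]?.getD 0) = cv n t (C.dl[b.1]?.getD 0) := by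
      rw [h1] at h2
      exact add_left_cancel h2
    have hab : a.1 = b.1 := by
      by_contra hne
      exact (h.dne a.1 b.1 ha hb hne).1 h3
    exact ⟨hab, Or.inl h1⟩
  · have h3 : cv n t (C.dl[a.1]?.getD 0) = - cv n t (C.dl[b.1]?.getD 0) := by
      rw [h1, add_assoc] at h2
      have h4 : cv n t (C.dl[b.1]?.getD 0) + cv n t (C.dl[a.1]?.getD 0) = 0 := by
        have h5 : u' + cv n t b.2 + (cv n t (C.dl[b.1]?.getD 0) + cv n t (C.dl[a.1]?.getD 0)) =
            u' + cv n t b.2 + 0 := by rw [add_zero]; exact h2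
        exact add_left_cancel h5
      exact eq_neg_of_add_eq_zero_right h4
    have hab : a.1 = b.1 := by
      by_contra hne
      exact (h.dne a.1 b.1 ha hb hne).2 h3
    refine ⟨hab, Or.inr ⟨?_, ?_⟩⟩
    · rw [← hab] at h3
      nth_rewrite 1 [h3]
      ring
    · rw [h1, hab]

theorem check_iff (h : C.check = true) : 0 ≤ C.N.1 ∧ 0 < C.N.2 ∧
    (C.hasH = true → 0 < C.dl.length ∧ 2 * (C.dl[C.dl.length - 1]?.getD 0).1 = C.N.1 ∧
      2 * (C.dl[C.dl.length - 1]?.getD 0).2 = C.N.2) ∧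
    (∀ p ∈ C.pats, C.patOK p = true) ∧
    (C.pats.Pairwise fun p p' => (∀ a ∈ C.fall p, ∀ b ∈ C.fall p', a.1.1 = b.1.1 →
      Core.sepG (C.gg p p') (a.1.2 - b.1.2) = true ∨
        C.sepJ p.g p'.g a.2 b.2 (a.1.2 - b.1.2) = true) ∧
      ∀ k ∈ C.dkeys p, ∀ k' ∈ C.dkeys p', k ≠ k') ∧
    2 * (Core.edgeSum C.pats).1 = C.sizeD * C.N.1 ∧ 2 * (Core.edgeSum C.pats).2 = C.sizeD * C.N.2 ∧
    12 * (Core.opSum C.pats).1 ≤ C.sizeD * C.N.1 ∧
    12 * (Core.opSum C.pats).2 ≤ C.sizeD * C.N.2 + 10 := by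
  unfold Core.check at h
  simp only [Bool.and_eq_true, decide_eq_true_eq, Bool.or_eq_true, Bool.not_eq_true',
    List.all_eq_true] at h
  obtain ⟨⟨⟨⟨⟨⟨⟨⟨h1, h2⟩, h3⟩, h4⟩, h5⟩, h6⟩, h7⟩, h8⟩, h9⟩ := h
  refine ⟨h1, h2, ?_, h4, ?_, h6, h7, h8, h9⟩
  · intro hH
    rcases h3 with h3 | ⟨⟨h3, h3'⟩, h3''⟩
    · rw [hH] at h3; simp at h3
    · exact ⟨h3, h3', h3''⟩
  · refine (allPairs_pairwise h5).imp ?_
    intro p p' hpp
    simp only [Bool.and_eq_true, Bool.or_eq_true, List.all_eq_true, bne_iff_ne, ne_eq] at hpp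
    refine ⟨fun a ha b hb hab => ?_, hpp.2⟩
    rcases hpp.1 a ha b hb with (h1 | h1) | h1
    · exact absurd hab h1
    · exact Or.inl h1
    · exact Or.inr h1

theorem sepG_sound {p p' : Pat} {δ δ' : Aff} (h : Core.sepG (C.gg p p') (δ - δ') = true)
    {j j' : ℤ} (h2 : ev t C.N ∣ (p.g : ℤ) * j + ev t δ - ((p'.g : ℤ) * j' + ev t δ')) : False := by
  simp only [Core.sepG, Bool.and_eq_true, decide_eq_true_eq, Bool.not_eq_true',
    decide_eq_false_iff_not] at h
  obtain ⟨e1, e2⟩ := h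
  have d1 : (C.gg p p' : ℤ) ∣ (p.g : ℤ) :=
    Int.natCast_dvd_natCast.2 ((Nat.gcd_dvd_left _ _).trans (Nat.gcd_dvd_left _ _))
  have d2 : (C.gg p p' : ℤ) ∣ (p'.g : ℤ) :=
    Int.natCast_dvd_natCast.2 ((Nat.gcd_dvd_left _ _).trans (Nat.gcd_dvd_right _ _))
  have d3 : (C.gg p p' : ℤ) ∣ C.N.1 :=
    Int.natCast_dvd.2 ((Nat.gcd_dvd_right _ _).trans (Nat.gcd_dvd_left _ _))
  have d4 : (C.gg p p' : ℤ) ∣ C.N.2 :=
    Int.natCast_dvd.2 ((Nat.gcd_dvd_right _ _).trans (Nat.gcd_dvd_right _ _))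
  have d5 : (C.gg p p' : ℤ) ∣ ev t C.N := dvd_add (d3.mul_right _) d4
  have d6 := d5.trans h2
  apply e2
  have e3 : (δ - δ').2 = ((p.g : ℤ) * j + ev t δ - ((p'.g : ℤ) * j' + ev t δ')) -
      (p.g : ℤ) * j + (p'.g : ℤ) * j' - (δ - δ').1 * t := by
    simp only [ev, Prod.fst_sub, Prod.snd_sub]
    ring
  rw [e3]
  exact dvd_sub (dvd_add (dvd_sub d6 (d1.mul_right _)) (d2.mul_right _)) (e1.mul_right _)

theorem sepJ_sound {g g' : ℕ} {r r' : Aff × Aff} {δ δ' : Aff}
    (h : C.sepJ g g' r r' (δ - δ') = true) {j j' : ℤ}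
    (h2 : ev t C.N ∣ (g : ℤ) * j + ev t δ - ((g' : ℤ) * j' + ev t δ'))
    (j1 : ev t r.1 ≤ j) (j2 : j < ev t r.2) (j1' : ev t r'.1 ≤ j') (j2' : j' < ev t r'.2) :
    False := by
  simp only [Core.sepJ, Bool.and_eq_true, decide_eq_true_eq, Bool.not_eq_true',
    decide_eq_false_iff_not, List.all_eq_true, List.mem_range] at h
  obtain ⟨⟨⟨⟨⟨⟨a1, a2⟩, a3⟩, a4⟩, a5⟩, a6⟩, a7⟩ := h
  simp only [ev, a1, a2, a3, a4, a5, zero_mul, zero_add] at h2 j1 j2 j1' j2'
  apply a7 (j - r.1.2).toNat (by omega) (j' - r'.1.2).toNat (by omega)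
  have e1 : (((j - r.1.2).toNat : ℕ) : ℤ) = j - r.1.2 := Int.toNat_of_nonneg (by omega)
  have e2 : (((j' - r'.1.2).toNat : ℕ) : ℤ) = j' - r'.1.2 := Int.toNat_of_nonneg (by omega)
  rw [e1, e2]
  rw [Prod.fst_sub, sub_eq_zero] at a6
  rw [a6] at h2
  rw [Prod.snd_sub]
  convert h2 using 1
  ring

theorem modD_nonneg (hC : C.check = true) (k : ℕ) : 0 ≤ (C.modD k).1 ∧ 0 ≤ (C.modD k).2 := by
  obtain ⟨h1, h2, h3, -⟩ := check_iff hC
  unfold Core.modD
  split
  · rename_i hk
    simp only [Bool.and_eq_true, beq_iff_eq] at hk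
    obtain ⟨hp, h4, h5⟩ := h3 hk.1
    have : k = C.dl.length - 1 := by omega
    rw [this]
    constructor <;> omega
  · exact ⟨h1, h2.le⟩

/-- `modD` divides `N`; twice it is `N` for the class of `N / 2` -/
theorem modD_dvd (hC : C.check = true) (t k : ℕ) : ev t (C.modD k) ∣ ev t C.N := by
  obtain ⟨h1, h2, h3, -⟩ := check_iff hC
  unfold Core.modD
  split
  · rename_i hk
    simp only [Bool.and_eq_true, beq_iff_eq] at hk
    obtain ⟨hp, h4, h5⟩ := h3 hk.1
    have : k = C.dl.length - 1 := by omega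
    rw [this]
    refine ⟨2, ?_⟩
    unfold ev
    rw [← h4, ← h5]; ring
  · exact dvd_refl _

theorem patOK_iff {p : Pat} : C.patOK p = true ↔ 0 < p.g ∧ leA 0 p.q = true ∧
    C.opOK p.full = true ∧ (∀ o, p.part = some o → C.opOK o = true) ∧
    slotsOK (fun _ => C.N) p.g p.q (C.fslots p.full) (C.fpart p) = true ∧
    slotsOK C.modD p.g p.q (C.dslots p.full) (C.dpart p) = true := by
  unfold Core.patOK
  rcases hp : p.part with _ | o
  · simp only [Bool.and_eq_true, decide_eq_true_eq]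
    constructor
    · rintro ⟨⟨⟨⟨⟨h1, h2⟩, h3⟩, -⟩, h4⟩, h5⟩
      exact ⟨h1, h2, h3, by simp, h4, h5⟩
    · rintro ⟨h1, h2, h3, -, h4, h5⟩
      exact ⟨⟨⟨⟨⟨h1, h2⟩, h3⟩, trivial⟩, h4⟩, h5⟩
  · simp only [Bool.and_eq_true, decide_eq_true_eq]
    constructor
    · rintro ⟨⟨⟨⟨⟨h1, h2⟩, h3⟩, h6⟩, h4⟩, h5⟩
      exact ⟨h1, h2, h3, by rintro o' ho'; cases ho'; exact h6, h4, h5⟩
    · rintro ⟨h1, h2, h3, h6, h4, h5⟩
      exact ⟨⟨⟨⟨⟨h1, h2⟩, h3⟩, h6 o rfl⟩, h4⟩, h5⟩

theorem allF_patL (h : C.Realises t S ι) {p : Pat} (hp : C.patOK p = true) :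
    S.allF (patL ι n t p) = patList (fun j a => LF ι n t ((p.g : ZMod n) * (j : ZMod n)) a)
      (ev t p.q).toNat (C.fslots p.full) (C.fpart p) := by
  obtain ⟨-, -, h3, h4, -, -⟩ := patOK_iff.1 hp
  unfold SymData.allF patL patList
  rw [List.flatMap_append]
  congr 1
  · rw [List.flatMap_map]
    refine List.flatMap_congr fun j _ => ?_
    rw [fids_LF h h3]
    simp
  · rcases hpt : p.part with _ | o
    · simp [Core.fpart, hpt]
    · simp only [List.flatMap_cons, List.flatMap_nil, List.append_nil, Core.fpart, hpt,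
        Int.cast_natCast]
      rw [fids_LF h (h4 o hpt)]

theorem allD_patL (h : C.Realises t S ι) {p : Pat} (hp : C.patOK p = true) :
    S.allD (patL ι n t p) = patList (fun j a => LD C n t ((p.g : ZMod n) * (j : ZMod n)) a)
      (ev t p.q).toNat (C.dslots p.full) (C.dpart p) := by
  obtain ⟨-, -, h3, h4, -, -⟩ := patOK_iff.1 hp
  unfold SymData.allD patL patList
  rw [List.flatMap_append]
  congr 1
  · rw [List.flatMap_map]
    refine List.flatMap_congr fun j _ => ?_
    rw [dids_LD h h3]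
    simp
  · rcases hpt : p.part with _ | o
    · simp [Core.dpart, hpt]
    · simp only [List.flatMap_cons, List.flatMap_nil, List.append_nil, Core.dpart, hpt,
        Int.cast_natCast]
      rw [dids_LD h (h4 o hpt)]

theorem fmem_lt {p : Pat} (hp : C.patOK p = true) {a : ℕ × Aff}
    (ha : a ∈ C.fslots p.full ∨ a ∈ C.fpart p) : a.1 < C.tri.length := by
  obtain ⟨-, -, h3, h4, -, -⟩ := patOK_iff.1 hp
  rcases ha with ha | ha
  · exact slot_lt h3 ha
  · rcases hpt : p.part with _ | o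
    · simp [Core.fpart, hpt] at ha
    · simp only [Core.fpart, hpt] at ha
      exact slot_lt (h4 o hpt) ha

theorem dmem_lt {p : Pat} (hp : C.patOK p = true) {a : ℕ × Aff}
    (ha : a ∈ C.dslots p.full ∨ a ∈ C.dpart p) : a.1 < C.dl.length := by
  obtain ⟨-, -, h3, h4, -, -⟩ := patOK_iff.1 hp
  rcases ha with ha | ha
  · exact dslot_lt h3 ha
  · rcases hpt : p.part with _ | o
    · simp [Core.dpart, hpt] at ha
    · simp only [Core.dpart, hpt] at ha
      exact dslot_lt (h4 o hpt) ha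

theorem eq_dvd (h : C.Realises t S ι) {g : ℕ} {j j' : ℤ} {x y : Aff}
    (he : (g : ZMod n) * (j : ZMod n) + cv n t x = (g : ZMod n) * (j' : ZMod n) + cv n t y) :
    ev t C.N ∣ ev t (x - y) - g * (j' - j) := by
  have : (((g : ℤ) * j + ev t x : ℤ) : ZMod n) = (((g : ℤ) * j' + ev t y : ℤ) : ZMod n) := by
    push_cast
    exact he
  have h2 := cv_eq_dvd h.hn this
  rw [ev_sub]
  convert h2 using 1
  ring

theorem allF_nodup (hC : C.check = true) (h : C.Realises t S ι) {p : Pat}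
    (hp : C.patOK p = true) : (S.allF (patL ι n t p)).Nodup := by
  obtain ⟨hN1, hN2, -⟩ := check_iff hC
  obtain ⟨-, h2, -, -, h5, -⟩ := patOK_iff.1 hp
  rw [allF_patL h hp]
  refine patList_nodup (md := fun _ => C.N) (t := t) (g := p.g) h5 (fun _ => ⟨hN1, hN2.le⟩) ?_ ?_
  · have := leA_ev h2 t
    rwa [ev_zero] at this
  · intro a b ha hb j j' he
    simp only [LF, Prod.mk.injEq] at he
    exact ⟨h.inj _ _ (fmem_lt hp ha) (fmem_lt hp hb) he.1, eq_dvd h he.2⟩

theorem allD_nodup (hC : C.check = true) (h : C.Realises t S ι) {p : Pat}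
    (hp : C.patOK p = true) : (S.allD (patL ι n t p)).Nodup := by
  obtain ⟨hN1, hN2, hh, -⟩ := check_iff hC
  obtain ⟨-, h2, -, -, -, h6⟩ := patOK_iff.1 hp
  rw [allD_patL h hp]
  refine patList_nodup (md := C.modD) (t := t) (g := p.g) h6 (modD_nonneg hC) ?_ ?_
  · have := leA_ev h2 t
    rwa [ev_zero] at this
  · intro a b ha hb j j' he
    have hlt := dmem_lt hp ha
    obtain ⟨k1, k2⟩ := LD_key h hlt (dmem_lt hp hb) he
    refine ⟨k1, ?_⟩
    rcases k2 with k2 | ⟨k2, k3⟩
    · exact (modD_dvd hC t a.1).trans (eq_dvd h k2)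
    · -- the class of `N / 2`
      have hlast : C.hasH = true ∧ a.1 + 1 = C.dl.length := by
        by_contra hcon
        exact h.two a.1 hlt hcon (eq_neg_of_add_eq_zero_right k2)
      obtain ⟨hp0, e1, e2⟩ := hh hlast.1
      have hmod : C.modD a.1 = C.dl[a.1]?.getD 0 := by
        unfold Core.modD
        rw [if_pos (by simp [hlast.1, hlast.2])]
      have k4 : (p.g : ZMod n) * (j : ZMod n) + cv n t a.2 =
          (p.g : ZMod n) * (j' : ZMod n) + cv n t (b.2 + C.dl[a.1]?.getD 0) := by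
        rw [cv_add, ← add_assoc]; exact k3
      have k5 := (modD_dvd hC t a.1).trans (eq_dvd h k4)
      rw [hmod] at k5 ⊢
      have k6 : ev t (a.2 - b.2) - (p.g : ℤ) * (j' - j) =
          (ev t (a.2 - (b.2 + C.dl[a.1]?.getD 0)) - (p.g : ℤ) * (j' - j)) +
            ev t (C.dl[a.1]?.getD 0) := by
        rw [ev_sub, ev_sub, ev_add]; ring
      rw [k6]
      exact dvd_add k5 (dvd_refl _)

theorem mem_allF_patL (h : C.Realises t S ι) {p : Pat} (hp : C.patOK p = true)
    {x : I × ZMod n} (hx : x ∈ S.allF (patL ι n t p)) :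
    ∃ j : ℤ, ∃ a ∈ C.fall p, a.1.1 < C.tri.length ∧ ev t a.2.1 ≤ j ∧ j < ev t a.2.2 ∧
      x = LF ι n t ((p.g : ZMod n) * (j : ZMod n)) a.1 := by
  have hq : (((ev t p.q).toNat : ℕ) : ℤ) = ev t p.q := by
    obtain ⟨-, h2, -⟩ := patOK_iff.1 hp
    apply Int.toNat_of_nonneg
    have := leA_ev h2 t
    rwa [ev_zero] at this
  rw [allF_patL h hp] at hx
  unfold patList at hx
  rcases List.mem_append.1 hx with hx | hx
  · obtain ⟨j, hj, hx⟩ := List.mem_flatMap.1 hx
    obtain ⟨a, ha, rfl⟩ := List.mem_map.1 hx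
    rw [List.mem_range] at hj
    refine ⟨_, (a, ((0, 0), p.q)), List.mem_append_left _ (List.mem_map_of_mem ha),
      fmem_lt hp (Or.inl ha), ?_, ?_, rfl⟩
    · simp [ev]
    · simp only
      omega
  · obtain ⟨a, ha, rfl⟩ := List.mem_map.1 hx
    refine ⟨_, (a, (p.q, (p.q.1, p.q.2 + 1))), List.mem_append_right _ (List.mem_map_of_mem ha),
      fmem_lt hp (Or.inr ha), ?_, ?_, rfl⟩
    · simp only
      omega
    · have : ev t (p.q.1, p.q.2 + 1) = ev t p.q + 1 := by unfold ev; ring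
      simp only
      omega

theorem mem_allD_patL (h : C.Realises t S ι) {p : Pat} (hp : C.patOK p = true)
    {x : Sym2 (ZMod n)} (hx : x ∈ S.allD (patL ι n t p)) :
    ∃ u a, a.1 ∈ C.dkeys p ∧ a.1 < C.dl.length ∧ x = LD C n t u a := by
  rw [allD_patL h hp] at hx
  unfold patList at hx
  rcases List.mem_append.1 hx with hx | hx
  · obtain ⟨j, -, hx⟩ := List.mem_flatMap.1 hx
    obtain ⟨a, ha, rfl⟩ := List.mem_map.1 hx
    exact ⟨_, a, List.mem_map_of_mem (List.mem_append_left _ ha), dmem_lt hp (Or.inl ha), rfl⟩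
  · obtain ⟨a, ha, rfl⟩ := List.mem_map.1 hx
    exact ⟨_, a, List.mem_map_of_mem (List.mem_append_right _ ha), dmem_lt hp (Or.inr ha), rfl⟩

theorem length_allD (h : C.Realises t S ι) (ps : List Pat) (hps : ∀ p ∈ ps, C.patOK p = true) :
    ((S.allD (ps.flatMap (patL ι n t))).length : ℤ) = ev t (Core.edgeSum ps) := by
  induction ps with
  | nil => simp [SymData.allD, Core.edgeSum, ev_zero]
  | cons p ps ih =>
    have hp := hps p (by simp)
    obtain ⟨-, h2, -⟩ := patOK_iff.1 hp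
    have hq : (((ev t p.q).toNat : ℕ) : ℤ) = ev t p.q := by
      apply Int.toNat_of_nonneg
      have := leA_ev h2 t
      rwa [ev_zero] at this
    have e1 : S.allD ((p :: ps).flatMap (patL ι n t)) =
        S.allD (patL ι n t p) ++ S.allD (ps.flatMap (patL ι n t)) := by
      simp [SymData.allD, List.flatMap_append]
    rw [e1, List.length_append, Nat.cast_add, ih (fun p hp => hps p (List.mem_cons_of_mem _ hp)),
      allD_patL h hp, Core.edgeSum, ev_add]
    congr 1
    unfold patList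
    have e2 : (C.dslots p.full).length = p.full.cr.length := by simp [Core.dslots]
    simp only [List.length_append, List.length_flatMap, List.length_map, e2, List.map_const',
      List.sum_replicate, List.length_range, smul_eq_mul]
    rcases hpt : p.part with _ | o
    · have : C.dpart p = [] := by simp [Core.dpart, hpt]
      rw [this]
      push_cast
      rw [hq]
      simp only [ev, List.length_nil]
      push_cast
      ring
    · have : (C.dpart p).length = o.cr.length := by simp [Core.dpart, hpt, Core.dslots]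
      rw [this]
      push_cast
      rw [hq]
      simp only [ev]
      ring

theorem length_patL (h : C.Realises t S ι) (ps : List Pat) (hps : ∀ p ∈ ps, C.patOK p = true) :
    (((ps.flatMap (patL ι n t)).length : ℕ) : ℤ) = ev t (Core.opSum ps) := by
  induction ps with
  | nil => simp [Core.opSum, ev_zero]
  | cons p ps ih =>
    have hp := hps p (by simp)
    obtain ⟨-, h2, -⟩ := patOK_iff.1 hp
    have hq : (((ev t p.q).toNat : ℕ) : ℤ) = ev t p.q := by
      apply Int.toNat_of_nonneg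
      have := leA_ev h2 t
      rwa [ev_zero] at this
    rw [List.flatMap_cons, List.length_append, Nat.cast_add,
      ih (fun p hp => hps p (List.mem_cons_of_mem _ hp)), Core.opSum, ev_add]
    congr 1
    unfold patL
    rw [List.length_append, List.length_map, List.length_range]
    push_cast
    rw [hq]
    rcases hpt : p.part with _ | o
    · simp [ev]
    · simp [ev]; ring

/-- **Soundness of the handle part of a certificate.** -/
theorem Core.handles (C : Core) (hC : C.check = true) {t n : ℕ} [NeZero n] {I : Type}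
    [DecidableEq I] (S : SymData n I) (ι : ℕ → I) (h : C.Realises t S ι) (s : Finset I)
    (hs : ∀ i ∈ C.used, ι i ∉ s) : HandlesExist S s := by
  obtain ⟨hN1, hN2, hh, hpats, hpair, k1, k2, k3, k4⟩ := check_iff hC
  refine ⟨C.pats.flatMap (patL ι n t), ?_, ?_, ?_, ?_, ?_⟩
  · intro x hx
    obtain ⟨p, hp, hx⟩ := List.mem_flatMap.1 hx
    have hpo := hpats p hp
    obtain ⟨-, -, h3, h4, -, -⟩ := patOK_iff.1 hpo
    have hused : ∀ y, (y ∈ C.fslots p.full ∨ y ∈ C.fpart p) → ι y.1 ∉ s := by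
      intro y hy
      apply hs
      refine List.mem_flatMap.2 ⟨p, hp, ?_⟩
      exact List.mem_map_of_mem (List.mem_append.2 hy)
    unfold patL at hx
    rcases List.mem_append.1 hx with hx | hx
    · obtain ⟨j, -, rfl⟩ := List.mem_map.1 hx
      exact conv_good h h3 (fun y hy => hused y (Or.inl hy))
    · rcases hpt : p.part with _ | o
      · rw [hpt] at hx; simp at hx
      · rw [hpt] at hx
        simp only [List.mem_cons, List.not_mem_nil, or_false] at hx
        subst hx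
        refine conv_good h (h4 o hpt) (fun y hy => hused y (Or.inr ?_))
        simpa [Core.fpart, hpt] using hy
  · have e : S.allF (C.pats.flatMap (patL ι n t)) =
        C.pats.flatMap fun p => S.allF (patL ι n t p) := by
      simp [SymData.allF, List.flatMap_assoc]
    rw [e, List.nodup_flatMap]
    refine ⟨fun p hp => allF_nodup hC h (hpats p hp), ?_⟩
    refine (List.Pairwise.and_mem.1 hpair).imp ?_
    rintro p p' ⟨hp, hp', hk, -⟩ x hx hx'
    obtain ⟨j, a, ha, hal, j1, j2, rfl⟩ := mem_allF_patL h (hpats p hp) hx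
    obtain ⟨j', b, hb, hbl, j1', j2', hb'⟩ := mem_allF_patL h (hpats p' hp') hx'
    simp only [LF, Prod.mk.injEq] at hb'
    have h1 : (((p.g : ℤ) * j + ev t a.1.2 : ℤ) : ZMod n) =
        (((p'.g : ℤ) * j' + ev t b.1.2 : ℤ) : ZMod n) := by
      push_cast
      exact hb'.2
    have h2 := cv_eq_dvd h.hn h1
    rcases hk a ha b hb (h.inj _ _ hal hbl hb'.1) with e | e
    · exact sepG_sound e h2
    · exact sepJ_sound e h2 j1 j2 j1' j2'
  · have e : S.allD (C.pats.flatMap (patL ι n t)) =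
        C.pats.flatMap fun p => S.allD (patL ι n t p) := by
      simp [SymData.allD, List.flatMap_assoc]
    rw [e, List.nodup_flatMap]
    refine ⟨fun p hp => allD_nodup hC h (hpats p hp), ?_⟩
    refine (List.Pairwise.and_mem.1 hpair).imp ?_
    rintro p p' ⟨hp, hp', -, hk⟩ x hx hx'
    obtain ⟨u, a, ha, hal, ha'⟩ := mem_allD_patL h (hpats p hp) hx
    obtain ⟨v, b, hb, hbl, hb'⟩ := mem_allD_patL h (hpats p' hp') hx'
    exact hk a.1 ha b.1 hb (LD_key h hal hbl (ha'.symm.trans hb')).1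
  · have h1 := length_allD h C.pats hpats
    zify
    rw [h1, h.card, h.hn]
    unfold ev
    have e1 : (2 : ℤ) * ((Core.edgeSum C.pats).1 * t + (Core.edgeSum C.pats).2) =
        (2 * (Core.edgeSum C.pats).1) * t + 2 * (Core.edgeSum C.pats).2 := by ring
    rw [e1, k1, k2]; ring
  · have h1 := length_patL h C.pats hpats
    zify
    rw [h1, h.card, h.hn]
    unfold ev
    have e1 : (12 * (Core.opSum C.pats).1) * (t : ℤ) ≤ (C.sizeD * C.N.1) * t :=
      mul_le_mul_of_nonneg_right k3 (by positivity)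
    nlinarith [e1, k4]

end Empire
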