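import Mathlib
import Pool.Agent.Lib.MP_800721_co.LadCirc
import Pool.Agent.Lib.MP_800721_co.ConnPot
import Pool.Agent.Lib.MP_800721_co.Pattern3

/-!
# PROJECT EMPIRE: templates, part 5: soundness
-/

namespace Empire

open Equiv Equiv.Perm

namespace Template

/-! ### the circuits -/

section circ

variable {P : Template} (t : ℕ) (hD : DFacts P) (hP : PortFacts P) (hC : ChainFacts P)
  (hS : SpFacts P)

theorem sig_apply (a : P.TArc t) :
    sig (symData t hD hP hC hS).neg ∅ a = SymData.nx (P.ngT t a) := by
  rw [sig, Perm.mul_apply, tau_apply]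
  simp only [Finset.notMem_empty, if_false]
  rfl

variable (hR : CircFacts P)
include hR

theorem le_cyc : P.F + 2 * t ≤ cyc (sig (symData t hD hP hC hS).neg ∅) := by
  rw [← card_stepRel_nil]
  let φ : Quot (StepRel (sig (symData t hD hP hC hS).neg ∅) []) → Fin (P.F + 2 * t) :=
    Quot.lift (fun a => ⟨P.labK t (P.kind t a), labK_lt t hP hR (kind_valid t hP a)⟩) (by
      rintro a b (h | h)
      · apply Fin.ext
        change P.labK t (P.kind t a) = P.labK t (P.kind t b)
        rw [h, sig_apply, kind_sig t hP, labK_sigK t hP hR (kind_valid t hP a)]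
      · simp at h)
  have hφ : Function.Surjective φ := by
    rintro ⟨l, hl⟩
    refine ⟨Quot.mk _ (P.arcOf t (P.clsK t l)), ?_⟩
    apply Fin.ext
    change P.labK t (P.kind t (P.arcOf t (P.clsK t l))) = l
    rw [kind_arcOf t hP (clsK_valid t hP hR hl), labK_clsK t hP hR hl]
  have := Nat.card_le_card_of_surjective φ hφ
  rwa [Nat.card_eq_fintype_card, Fintype.card_fin] at this

omit hR in
/-- the triples to be reversed -/
def revL (P : Template) (t : ℕ) : List (P.Idx t) :=
  P.J.map (iota P t) ++
    (List.range t).map fun j => Sum.inr (Sum.inl (Fin.ofNat (2 * t + 1) (2 * j + 1)))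

omit hR in
theorem iota_inj {i j : ℕ} (hi : i < P.T) (hj : j < P.T) (h : iota P t i = iota P t j) :
    i = j := by
  have h1 : Fin.ofNat P.T i = Fin.ofNat P.T j := Sum.inl_injective h
  have h2 := congrArg Fin.val h1
  rwa [ofNat_val hi, ofNat_val hj] at h2

theorem revL_nodup : (revL P t).Nodup := by
  unfold revL
  rw [List.nodup_append]
  refine ⟨?_, ?_, ?_⟩
  · refine List.Nodup.map_on ?_ hR.J_nd
    intro x hx y hy h
    exact iota_inj t (hR.J_lt x hx) (hR.J_lt y hy) h
  · refine List.Nodup.map_on ?_ List.nodup_range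
    intro x hx y hy h
    rw [List.mem_range] at hx hy
    have h1 : Fin.ofNat (2 * t + 1) (2 * x + 1) = Fin.ofNat (2 * t + 1) (2 * y + 1) :=
      Sum.inl_injective (Sum.inr_injective h)
    have h2 := congrArg Fin.val h1
    rw [ofNat_val (by omega), ofNat_val (by omega)] at h2
    omega
  · intro a ha b hb hab
    rw [List.mem_map] at ha hb
    obtain ⟨x, -, rfl⟩ := ha
    obtain ⟨y, -, rfl⟩ := hb
    exact Sum.inl_ne_inr hab

omit hR in
theorem revL_length : (revL P t).length = P.J.length + t := by
  simp [revL]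

theorem card_circ_le :
    Nat.card (Quot (CircRel (symData t hD hP hC hS).neg (revL P t))) ≤ P.e := by
  set r := CircRel (symData t hD hP hC hS).neg (revL P t) with hr
  let f : Kind → Quot r := fun κ => Quot.mk r (P.arcOf t κ)
  have hf : ∀ κ, P.VK t κ → f (P.sigK t κ) = f κ := by
    intro κ hκ
    refine (Quot.sound ?_).symm
    left
    rw [arcOf_sigK t hP hκ, sig_apply]
  have hmer : ∀ κ κ' : Kind, (P.arcOf t κ).1 ∈ revL P t → (P.arcOf t κ').1 = (P.arcOf t κ).1 →
      f κ = f κ' := fun κ κ' h1 h2 => Quot.sound (Or.inr ⟨h1, h2⟩)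
  -- ladder triples
  have hlad : ∀ i, 1 ≤ i → i ≤ 2 * t → f (.u i false) = f (.u 0 true) := by
    intro i h1 h2
    rcases Nat.even_or_odd' i with ⟨j, rfl | rfl⟩
    · obtain ⟨j, rfl⟩ : ∃ k, j = k + 1 := ⟨j - 1, by omega⟩
      rw [f_ur t hf h1 (by omega), ← f_u t hf (2 * (j + 1)) (by omega)]
      refine hmer _ _ ?_ ?_
      · change ((Sum.inr (Sum.inl (Fin.ofNat (2 * t + 1) (2 * (j + 1) - 1)))) : P.Idx t) ∈ _
        unfold revL
        refine List.mem_append_right _ (List.mem_map.2 ⟨j, List.mem_range.2 (by omega), ?_⟩)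
        have : 2 * (j + 1) - 1 = 2 * j + 1 := by omega
        rw [this]
      · simp only [arcOf]
        rw [if_neg (by omega)]
        rfl
    · rw [← f_u t hf (2 * j + 2) (by omega)]
      refine hmer _ _ ?_ ?_
      · simp only [arcOf]
        rw [if_neg (by omega)]
        unfold revL
        exact List.mem_append_right _ (List.mem_map.2 ⟨j, List.mem_range.2 (by omega), rfl⟩)
      · simp only [arcOf]
        rw [if_neg (by omega), if_neg (by omega)]
        have : 2 * j + 2 - 1 = 2 * j + 1 := by omega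
        rw [this]
        rfl
  have hsp : ∀ a, a < 3 * P.T → f (P.kindS t a) = f (P.clsK t (P.labA a)) := by
    intro a ha
    rw [f_cls t hP hR hf (kindS_valid t hP ha), labK_kindS t hP]
  have hB : ∀ k l, P.rank2 l < k → l < P.F → ∃ x ∈ P.roots, f (P.clsK t l) = f (P.clsK t x) := by
    intro k
    induction k with
    | zero => intro l h; omega
    | succ k ih =>
      intro l hk hl
      rcases hR.mer l hl with h | ⟨m1, m2, m3, m4, m5, m6⟩
      · exact ⟨l, h, rfl⟩
      · obtain ⟨x, hx, h⟩ := ih (P.labA (P.merA l).2) (by omega) (hR.lt _ m2)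
        refine ⟨x, hx, ?_⟩
        rw [← h, ← hsp _ m2]
        have h1 := hsp _ m1
        rw [m3] at h1
        rw [← h1]
        refine hmer _ _ ?_ ?_
        · rw [arcOf_kindS t hP]
          unfold revL
          exact List.mem_append_left _ (List.mem_map_of_mem m5)
        · rw [arcOf_kindS t hP, arcOf_kindS t hP]
          unfold S
          rw [m4]
  have hall : ∀ a : P.TArc t, ∃ x ∈ P.roots, Quot.mk r a = f (P.clsK t x) := by
    intro a
    have hv := kind_valid t hP a
    have h1 : Quot.mk r a = f (P.kind t a) := by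
      change _ = Quot.mk r (P.arcOf t (P.kind t a))
      rw [arcOf_kind t hP]
    rw [h1, f_cls t hP hR hf hv]
    have hlt := labK_lt t hP hR hv
    by_cases h2 : P.labK t (P.kind t a) < P.F
    · exact hB _ _ (Nat.lt_succ_self _) h2
    · have h3 : f (P.clsK t (P.labK t (P.kind t a))) = f (P.clsK t (P.labA P.pu0)) := by
        rw [← hsp _ hP.l0, kindS_pu0 t]
        have h4 : P.clsK t (P.labK t (P.kind t a)) =
            .u (P.labK t (P.kind t a) - P.F + 1) false := by
          unfold clsK
          rw [if_neg h2]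
        rw [h4]
        exact hlad _ (by omega) (by omega)
      rw [h3]
      exact hB _ _ (Nat.lt_succ_self _) (hR.lt _ hP.l0)
  refine card_quot_le_of_reps
    (fun i : Fin P.e => P.arcOf t (P.clsK t (P.roots.get (Fin.cast hR.len.symm i)))) ?_
  intro a
  obtain ⟨x, hx, h⟩ := hall a
  obtain ⟨i, hi⟩ := List.mem_iff_get.1 hx
  refine ⟨Fin.cast hR.len i, ?_⟩
  rw [h]
  change Quot.mk r (P.arcOf t (P.clsK t x)) = _
  rw [← hi]
  rfl

theorem circuits (j : ℕ) (hj : j ≤ P.J.length + t) :
    cyc (sig (symData t hD hP hC hS).neg ((revL P t).take j).toFinset) + 2 * j =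
      P.F + 2 * t ∧
      ∀ x y, (sig (symData t hD hP hC hS).neg ∅).SameCycle x y →
        (sig (symData t hD hP hC hS).neg ((revL P t).take j).toFinset).SameCycle x y := by
  refine circuit_lemma _ _ (revL_nodup t hR) _ (le_cyc t hD hP hC hS hR) ?_ j ?_
  · have h1 := card_circ_le t hD hP hC hS hR
    have h2 := hR.num
    rw [revL_length]
    omega
  · rw [revL_length]
    exact hj

end circ

/-! ### connectivity -/

variable (P : Template)

/-- special arc which has the label of the opposite arc -/
def tgt (a : ℕ) : ℕ :=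
  if Nat.beq a P.pu0 then P.pw0 else if Nat.beq a P.pu1 then P.pu0 else
    if Nat.beq a P.pw0 then P.pw1 else if Nat.beq a P.pw1 then P.pu1 else P.g a

/-- potential of a label -/
def potL (l : ℕ) : Aff := P.pot.getD l (0, 0)

/-- tight arc of a label -/
def trA (l : ℕ) : ℕ := P.tr.getD l 0

/-- congruence modulo `n` -/
def eqN (x y : Aff) : Bool :=
  decide (x.1 - y.1 = 12 * ((x.1 - y.1) / 12)) &&
    decide (x.2 - y.2 = (P.n0 : ℤ) * ((x.1 - y.1) / 12))

/-- defect of a special arc -/
def defect (a : ℕ) : Aff := P.potL (P.labA a) + P.s a - P.potL (P.labA (P.tgt a))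

/-- combination of defects -/
def combSum : List (ℕ × ℤ) → Aff
  | [] => 0
  | x :: l => ((x.2 * (P.defect x.1).1, x.2 * (P.defect x.1).2) : Aff) + combSum l

/-- test of the tight arc of a label -/
def tQ (l : ℕ) : Bool :=
  Nat.beq l 0 ||
    (Nat.blt (P.trA l) (3 * P.T) && Nat.beq (P.labA (P.trA l)) l &&
      Nat.blt (P.labA (P.tgt (P.trA l))) l &&
      P.eqN (P.potL l + P.s (P.trA l)) (P.potL (P.labA (P.tgt (P.trA l)))))

/-- the fourth part of the test -/
def check4 : Bool :=
  (List.range P.F).all P.tQ && (P.comb.all fun x => Nat.blt x.1 (3 * P.T)) &&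
    P.eqN (P.combSum P.comb) (0, 1)

variable {P}

/-- what the fourth test says -/
structure ConnFacts (P : Template) : Prop where
  tr : ∀ l < P.F, l ≠ 0 → P.trA l < 3 * P.T ∧ P.labA (P.trA l) = l ∧
    P.labA (P.tgt (P.trA l)) < l ∧
    P.eqN (P.potL l + P.s (P.trA l)) (P.potL (P.labA (P.tgt (P.trA l)))) = true
  cl : ∀ x ∈ P.comb, x.1 < 3 * P.T
  one : P.eqN (P.combSum P.comb) (0, 1) = true

theorem connFacts (h : P.check4 = true) : ConnFacts P := by
  simp only [check4, Bool.and_eq_true, List.all_eq_true, List.mem_range, Nat.blt_eq] at h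
  obtain ⟨⟨h1, h2⟩, h3⟩ := h
  refine ⟨?_, h2, h3⟩
  intro l hl h0
  have := h1 l hl
  simp only [tQ, Bool.and_eq_true, Bool.or_eq_true, Nat.blt_eq] at this
  rcases this with h4 | ⟨⟨⟨h4, h5⟩, h6⟩, h7⟩
  · exact absurd (Nat.eq_of_beq_eq_true h4) h0
  · exact ⟨h4, Nat.eq_of_beq_eq_true h5, h6, h7⟩

section conn

variable (t : ℕ)

theorem eqN_cast {x y : Aff} (h : P.eqN x y = true) :
    ((ev t x : ℤ) : ZMod (P.n t)) = ((ev t y : ℤ) : ZMod (P.n t)) := by
  simp only [eqN, Bool.and_eq_true, decide_eq_true_eq] at h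
  obtain ⟨h1, h2⟩ := h
  generalize (x.1 - y.1) / 12 = z at h1 h2
  have h3 : ev t x = ev t y + (P.n t : ℤ) * z := by
    unfold ev n
    push_cast
    have e1 : x.1 = y.1 + 12 * z := by linarith
    have e2 : x.2 = y.2 + (P.n0 : ℤ) * z := by linarith
    rw [e1, e2]
    ring
  rw [h3]
  push_cast
  rw [ZMod.natCast_self, zero_mul, add_zero]

theorem ev_sub' (x y : Aff) : ev t (x - y) = ev t x - ev t y := by
  simp only [ev, Prod.fst_sub, Prod.snd_sub]
  ring

/-- potential of a kind -/
def potK (P : Template) (t : ℕ) (κ : Kind) : ℤ :=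
  if P.labK t κ < P.F then ev t (P.potL (P.labK t κ)) else
    ev t (P.potL (P.labA P.pu0)) + P.uv t (P.labK t κ - P.F + 1)

variable (hD : DFacts P) (hP : PortFacts P) (hC : ChainFacts P)
  (hS : SpFacts P) (hR : CircFacts P)

include hP in
theorem labK_flip_kindS (a : ℕ) :
    P.labK t (P.flipK (P.kindS t a)) = P.labA (P.tgt a) := by
  by_cases h0 : a = P.pu0
  · subst h0
    rw [kindS_pu0 t]
    unfold tgt
    rw [Nat.beq_refl]
    rfl
  by_cases h1 : a = P.pu1
  · subst h1
    rw [kindS_pu1 t hP]
    unfold tgt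
    rw [beq_false_of_ne hP.n01.symm, Nat.beq_refl]
    rfl
  by_cases h2 : a = P.pw0
  · subst h2
    rw [kindS_pw0 t hP]
    unfold tgt
    rw [beq_false_of_ne hP.n02.symm, beq_false_of_ne hP.n12.symm, Nat.beq_refl]
    rfl
  by_cases h3 : a = P.pw1
  · subst h3
    rw [kindS_pw1 t hP]
    unfold tgt
    rw [beq_false_of_ne hP.n03.symm, beq_false_of_ne hP.n13.symm, beq_false_of_ne hP.n23.symm,
      Nat.beq_refl]
    change (if 2 * t + 1 = 0 then P.labA P.pw0 else
      if 2 * t + 1 = 2 * t + 1 then P.labA P.pu1 else P.F + (2 * t + 1 - 1)) = P.labA P.pu1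
    rw [if_neg (by omega), if_pos rfl]
  · rw [kindS_of_port t (port_of_ne h0 h1 h2 h3)]
    unfold tgt
    rw [beq_false_of_ne h0, beq_false_of_ne h1, beq_false_of_ne h2, beq_false_of_ne h3]
    rfl

include hP in
theorem tgt_lt {a : ℕ} (ha : a < 3 * P.T) : P.tgt a < 3 * P.T := by
  by_cases hp : P.port a = false
  · obtain ⟨e1, e2, e3, e4⟩ := port_false hp
    unfold tgt
    rw [beq_false_of_ne e1, beq_false_of_ne e2, beq_false_of_ne e3, beq_false_of_ne e4]
    exact hP.g_lt a ha hp
  · unfold tgt
    have l0 := hP.l0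
    have l1 := hP.l1
    have l2 := hP.l2
    have l3 := hP.l3
    split_ifs with e1 e2 e3 e4
    · exact l2
    · exact l0
    · exact l3
    · exact l1
    · exfalso
      apply hp
      simp only [Bool.not_eq_true] at e1 e2 e3 e4
      unfold port
      rw [e1, e2, e3, e4]
      rfl

variable (hQ : ConnFacts P)

/-- the potential on the arcs -/
def piA (P : Template) (t : ℕ) (a : P.TArc t) : ZMod (P.n t) :=
  ((potK P t (P.kind t a) : ℤ) : ZMod (P.n t))

include hP hR in
theorem potK_kindS {a : ℕ} (ha : a < 3 * P.T) :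
    potK P t (P.kindS t a) = ev t (P.potL (P.labA a)) := by
  unfold potK
  rw [labK_kindS t hP, if_pos (hR.lt a ha)]

include hP hR in
theorem potK_flip_kindS {a : ℕ} (ha : a < 3 * P.T) :
    potK P t (P.flipK (P.kindS t a)) = ev t (P.potL (P.labA (P.tgt a))) := by
  unfold potK
  rw [labK_flip_kindS t hP, if_pos (hR.lt _ (tgt_lt hP ha))]

include hR hQ in
theorem connected : (symData t hD hP hC hS).Connected := by
  set Sd := symData t hD hP hC hS with hSd
  have hval : ∀ κ, P.VK t κ → Sd.val (P.arcOf t κ) = ((P.valK t κ : ℤ) : ZMod (P.n t)) := by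
    intro κ hκ
    change ((P.valK t (P.kind t (P.arcOf t κ)) : ℤ) : ZMod (P.n t)) = _
    rw [kind_arcOf t hP hκ]
  have hpi : ∀ κ, P.VK t κ → piA P t (P.arcOf t κ) = ((potK P t κ : ℤ) : ZMod (P.n t)) := by
    intro κ hκ
    unfold piA
    rw [kind_arcOf t hP hκ]
  have hng : ∀ κ, P.VK t κ → Sd.ng (P.arcOf t κ) = P.arcOf t (P.flipK κ) := by
    intro κ hκ
    change P.ngT t (P.arcOf t κ) = _
    unfold ngT
    rw [kind_arcOf t hP hκ]
  refine Sd.connected_of_potential (piA P t) ?_ ?_ ?_
  · intro a
    rw [sig_apply]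
    unfold piA potK
    rw [kind_sig t hP, labK_sigK t hP hR (kind_valid t hP a)]
  · set r := Sd.TightRel (piA P t) with hr
    let f : Kind → Quot r := fun κ => Quot.mk r (P.arcOf t κ)
    have hf : ∀ κ, P.VK t κ → f (P.sigK t κ) = f κ := by
      intro κ hκ
      refine (Quot.sound ?_).symm
      left
      rw [arcOf_sigK t hP hκ, sig_apply]
    have htight : ∀ κ, P.VK t κ → ((potK P t (P.flipK κ) : ℤ) : ZMod (P.n t)) =
        ((potK P t κ : ℤ) : ZMod (P.n t)) + ((P.valK t κ : ℤ) : ZMod (P.n t)) →
        f κ = f (P.flipK κ) := by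
      intro κ hκ h
      refine Quot.sound (Or.inr ⟨(hng κ hκ).symm, ?_⟩)
      rw [hpi _ (flipK_valid t hP hκ), hpi _ hκ, hval _ hκ]
      exact h
    have hsp : ∀ a, a < 3 * P.T → f (P.kindS t a) = f (P.clsK t (P.labA a)) := by
      intro a ha
      rw [f_cls t hP hR hf (kindS_valid t hP ha), labK_kindS t hP]
    have hB : ∀ l, l < P.F → f (P.clsK t l) = f (P.clsK t 0) := by
      intro l
      induction l using Nat.strong_induction_on with
      | _ l ih =>
        intro hl
        by_cases h0 : l = 0
        · rw [h0]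
        · obtain ⟨q1, q2, q3, q4⟩ := hQ.tr l hl h0
          rw [← ih _ q3 (by omega)]
          have h1 := hsp _ q1
          rw [q2] at h1
          rw [← h1, htight _ (kindS_valid t hP q1),
            f_cls t hP hR hf (flipK_valid t hP (kindS_valid t hP q1)), labK_flip_kindS t hP]
          rw [potK_flip_kindS t hP hR q1, potK_kindS t hP hR q1, valK_kindS t hP, q2,
            ← eqN_cast t q4, evT_add]
          push_cast
          rfl
    have hall : ∀ a : P.TArc t, Quot.mk r a = f (P.clsK t 0) := by
      intro a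
      have hv := kind_valid t hP a
      have h1 : Quot.mk r a = f (P.kind t a) := by
        change _ = Quot.mk r (P.arcOf t (P.kind t a))
        rw [arcOf_kind t hP]
      rw [h1, f_cls t hP hR hf hv]
      have hlt := labK_lt t hP hR hv
      by_cases h2 : P.labK t (P.kind t a) < P.F
      · exact hB _ h2
      · obtain ⟨i, hi1, hi2, hi3⟩ : ∃ i, 1 ≤ i ∧ i ≤ 2 * t ∧
            P.labK t (P.kind t a) = P.F + (i - 1) :=
          ⟨P.labK t (P.kind t a) - P.F + 1, by omega, by omega, by omega⟩
        rw [hi3]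
        have h4 : P.clsK t (P.F + (i - 1)) = .u i false := by
          unfold clsK
          rw [if_neg (by omega)]
          congr 1
          omega
        have hvu : P.VK t (.u i true) := by
          change i ≤ 2 * t + 1
          omega
        have h5 : f (.u i true) = f (.u i false) := by
          refine htight (.u i true) hvu ?_
          change ((potK P t (.u i false) : ℤ) : ZMod (P.n t)) = _
          have e1 : potK P t (.u i false) = ev t (P.potL (P.labA P.pu0)) + P.uv t i := by
            unfold potK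
            have e2 : P.labK t (.u i false) = P.F + (i - 1) := by
              simp only [labK]
              rw [if_neg (by omega), if_neg (by omega)]
            rw [e2, if_neg (by omega)]
            congr 2
            omega
          have e3 : potK P t (.u i true) = ev t (P.potL (P.labA P.pu0)) := by
            unfold potK
            change (if P.labA P.pu0 < P.F then ev t (P.potL (P.labA P.pu0)) else _) = _
            rw [if_pos (hR.lt _ hP.l0)]
          rw [e1, e3]
          simp only [valK, sg, if_true, one_mul]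
          push_cast
          rfl
        rw [h4, ← h5, f_u t hf i (by omega), ← kindS_pu0 t, hsp _ hP.l0]
        exact hB _ (hR.lt _ hP.l0)
    intro a b
    rw [hall a, hall b]
  · have hmem : ∀ a, a < 3 * P.T → ((ev t (P.defect a) : ℤ) : ZMod (P.n t)) ∈
        AddSubgroup.closure {x | ∃ a, x = piA P t a + Sd.val a - piA P t (Sd.ng a)} := by
      intro a ha
      refine AddSubgroup.subset_closure ⟨P.arcOf t (P.kindS t a), ?_⟩
      have hv := kindS_valid t hP ha
      rw [hng _ hv, hpi _ hv, hpi _ (flipK_valid t hP hv), hval _ hv, valK_kindS t hP,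
        potK_kindS t hP hR ha, potK_flip_kindS t hP hR ha]
      unfold defect
      rw [ev_sub', evT_add]
      push_cast
      rfl
    have hcomb : ∀ l : List (ℕ × ℤ), (∀ x ∈ l, x.1 < 3 * P.T) →
        ((ev t (P.combSum l) : ℤ) : ZMod (P.n t)) ∈
        AddSubgroup.closure {x | ∃ a, x = piA P t a + Sd.val a - piA P t (Sd.ng a)} := by
      intro l
      induction l with
      | nil =>
        intro _
        have : ev t (P.combSum []) = 0 := by simp [combSum, ev]
        rw [this, Int.cast_zero]
        exact AddSubgroup.zero_mem _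
      | cons x l ih =>
        intro hx
        have h1 : ev t (P.combSum (x :: l)) = x.2 * ev t (P.defect x.1) + ev t (P.combSum l) := by
          simp only [combSum]
          rw [evT_add]
          simp only [ev]
          ring
        rw [h1]
        push_cast
        refine AddSubgroup.add_mem _ ?_ (ih fun y hy => hx y (List.mem_cons_of_mem _ hy))
        have h2 := AddSubgroup.zsmul_mem _ (hmem x.1 (hx x (by simp))) x.2
        rwa [zsmul_eq_mul] at h2
    have h1 := hcomb P.comb hQ.cl
    rw [eqN_cast t hQ.one] at h1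
    have h2 : ev t ((0, 1) : Aff) = 1 := by simp [ev]
    rw [h2, Int.cast_one] at h1
    exact h1

end conn

/-- the complete test of a template -/
def check (P : Template) : Bool :=
  P.check1 && P.check2 && P.check3 && P.check4 && P.core.check &&
    (Nat.beq P.e 2 || Nat.beq P.e 3)

/-- **Soundness of the templates.** -/
theorem sound (P : Template) (h : P.check = true) (t m : ℕ) (hm : 2 ≤ m)
    (h1 : m ≤ P.F + 2 * t) (h2 : m % 2 = P.F % 2) : HasSplit (12 * t + P.n0) m := by
  simp only [check, Bool.and_eq_true, Bool.or_eq_true] at h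
  obtain ⟨⟨⟨⟨⟨c1, c2⟩, c3⟩, c4⟩, c5⟩, c6⟩ := h
  have hP := portFacts c1
  obtain ⟨hS, hC, hD⟩ := facts2 c2
  have hR := circFacts c3
  have hQ := connFacts c4
  have he : P.e = 2 ∨ P.e = 3 := c6.imp Nat.eq_of_beq_eq_true Nat.eq_of_beq_eq_true
  have hnum := hR.num
  have hn0 := hD.num
  have : NeZero (P.n t) := ⟨by unfold n; omega⟩
  obtain ⟨j, hj⟩ : ∃ j, m + 2 * j = P.F + 2 * t := ⟨(P.F + 2 * t - m) / 2, by omega⟩
  have hj' : j ≤ P.J.length + t := by
    rcases he with he | he <;> omega
  obtain ⟨k1, k2⟩ := circuits t hD hP hC hS hR j hj'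
  have hused : ∀ i ∈ P.core.used, iota P t i ∉ ((revL P t).take j).toFinset := by
    intro i hi hmem
    have h3 := List.mem_of_mem_take (List.mem_toFinset.1 hmem)
    unfold revL at h3
    rcases List.mem_append.1 h3 with h4 | h4
    · obtain ⟨x, hx, hxi⟩ := List.mem_map.1 h4
      have h5 := iota_inj t (hR.J_lt x hx) (hR.used_lt i hi) hxi
      rw [← h5] at hi
      exact hR.J_used x hx hi
    · obtain ⟨x, -, hxi⟩ := List.mem_map.1 h4
      exact Sum.inr_ne_inl hxi
  obtain ⟨L, l1, l2, l3, l4, l5⟩ := Core.handles P.core c5 (symData t hD hP hC hS) (iota P t)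
    (realises t hD hP hC hS) _ hused
  exact (symData t hD hP hC hS).hasSplit (by omega) (connected t hD hP hC hS hR hQ) k2 L l1 l2 l3
    l4 l5

end Template

end Empire
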