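import Mathlib
import Pool.Agent.Lib.MP_800721_co.Pattern3
import Pool.Agent.Lib.MP_800721_co.ConnPot

/-!
# PROJECT EMPIRE: certificates for a single `n`

The arc `(i, j)` has the number `3 * i + j`.
-/

namespace Empire

open Equiv Equiv.Perm

/-- certificate for a single `n = core.N.2`; the tables `ng`, `lab`, `pos` are written as numbers
in base `256`, the entry of the arc `a` being the digit `a` -/
structure Single where
  core : Core
  /-- opposite arcs -/
  ng : ℕ
  /-- circuit of each arc -/
  lab : ℕ
  /-- distance of each arc to the representative of its circuit -/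
  pos : ℕ
  /-- representative of each circuit -/
  rep : List ℕ
  /-- potential of each circuit -/
  pot : List ℤ
  /-- arc joining each circuit (except the first) to an earlier one -/
  par : List ℕ
  /-- triples to be reversed -/
  xs : List ℕ
  /-- merging rank of each circuit -/
  mr : List ℕ
  /-- merging data -/
  mpar : List (ℕ × ℕ)
  /-- combination of voltages giving one -/
  comb : List (ℕ × ℤ)

/-- digit `a` of `N` in base `256` -/
def digit (N a : ℕ) : ℕ := N / 256 ^ a % 256

/-- the residues of the list are different, and none of them is a bit of `acc` -/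
def bitsOK (n : ℤ) : ℕ → List ℤ → Bool
  | _, [] => true
  | acc, x :: l => !(acc.testBit (x % n).toNat) && bitsOK n (acc ||| 2 ^ (x % n).toNat) l

namespace Single

variable (T : Single)

/-- number of triples -/
def K : ℕ := T.core.tri.length

/-- the modulus -/
def n : ℕ := T.core.N.2.toNat

/-- number of circuits -/
def F : ℕ := T.rep.length

/-- value of an arc -/
def v (a : ℕ) : ℤ := (T.core.valA (a / 3, a % 3)).2

/-- opposite arc -/
def ngf (a : ℕ) : ℕ := digit T.ng a

/-- label -/
def labf (a : ℕ) : ℕ := digit T.lab a

/-- next arc of the triple -/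
def nxf (a : ℕ) : ℕ := 3 * (a / 3) + (a % 3 + 1) % 3

/-- next arc of the circuit -/
def sgf (a : ℕ) : ℕ := nxf (T.ngf a)

/-- distance to the representative -/
def posf (a : ℕ) : ℕ := digit T.pos a

/-- representative -/
def repf (l : ℕ) : ℕ := T.rep[l]?.getD 0

/-- potential -/
def potf (l : ℕ) : ℤ := T.pot[l]?.getD 0

/-- merging rank -/
def mrf (l : ℕ) : ℕ := T.mr[l]?.getD 0

/-- voltage defect of an arc -/
def defect (a : ℕ) : ℤ := T.potf (T.labf a) + T.v a - T.potf (T.labf (T.ngf a))

/-- positive missing differences, without `n / 2` -/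
def dnh : List Aff := if T.core.hasH then T.core.dl.dropLast else T.core.dl

/-- all elements of `ZMod n` -/
def elts : List ℤ :=
  (List.range (3 * T.K)).map T.v ++ (T.core.dl.map fun d => d.2) ++ (T.dnh.map fun d => - d.2) ++ [0]

/-- the roots of the merging forest -/
def roots : List ℕ := (List.range T.F).filter fun l => T.mrf l == 0

/-- check of the arcs -/
def chk1 : Bool :=
  decide (0 < T.K) && decide (0 < T.n) && decide (3 * T.K + T.core.sizeD + 1 = T.n) &&
  bitsOK (T.n : ℤ) 0 T.elts &&
  ((List.range T.K).all fun i =>
    decide ((T.v (3 * i) + T.v (3 * i + 1) + T.v (3 * i + 2)) % (T.n : ℤ) = 0)) &&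
  (List.range (3 * T.K)).all fun a => decide (T.ngf a < 3 * T.K) &&
    decide ((T.v a + T.v (T.ngf a)) % (T.n : ℤ) = 0)

/-- check of the circuits -/
def chk2 : Bool :=
  ((List.range (3 * T.K)).all fun a => decide (T.labf a < T.F) &&
    decide (T.labf (T.sgf a) = T.labf a) &&
    (if T.posf a = 0 then decide (a = T.repf (T.labf a))
      else decide (T.posf (T.sgf a) + 1 = T.posf a))) &&
  (List.range T.F).all fun l => decide (T.repf l < 3 * T.K) && decide (T.labf (T.repf l) = l)

/-- check of the merging data -/
def chk3 : Bool :=
  decide T.xs.Nodup && (T.xs.all fun i => decide (i < T.K) && !(T.core.used.contains i)) &&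
  (T.core.used.all fun i => decide (i < T.K)) &&
  ((List.range T.F).all fun l => (T.mrf l == 0) ||
    (match T.mpar[l]? with
      | none => false
      | some ab => decide (ab.1 < 3 * T.K) && decide (ab.2 < 3 * T.K) &&
          decide (ab.1 / 3 = ab.2 / 3) && T.xs.contains (ab.1 / 3) &&
          decide (T.labf ab.1 = l) && decide (T.mrf (T.labf ab.2) < T.mrf l))) &&
  decide (T.roots.length + 2 * T.xs.length ≤ T.F)

/-- check of the connectivity data -/
def chk4 : Bool :=
  ((List.range T.F).all fun l => (l == 0) ||
    (match T.par[l]? with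
      | none => false
      | some a => decide (a < 3 * T.K) && decide (T.labf a = l) && decide (T.labf (T.ngf a) < l) &&
          decide (T.defect a % (T.n : ℤ) = 0))) &&
  (T.comb.all fun c => decide (c.1 < 3 * T.K)) &&
  decide (((T.comb.map fun c => c.2 * T.defect c.1).sum - 1) % (T.n : ℤ) = 0)

/-- the whole check -/
def check : Bool := T.chk1 && T.chk2 && T.chk3 && T.chk4 && T.core.check

end Single

end Empire
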