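import Mathlib
import Pool.Agent.Lib.MP_800721_co.Single

/-!
# PROJECT EMPIRE: soundness of the certificates for a single `n`
-/

namespace Empire

open Equiv Equiv.Perm

namespace Single

variable (T : Single)

/-- number of an arc -/
def enc (a : Fin T.K × ZMod 3) : ℕ := 3 * a.1.val + a.2.val

theorem enc_lt (a : Fin T.K × ZMod 3) : T.enc a < 3 * T.K := by
  have h1 := a.1.isLt
  have h2 : a.2.val < 3 := ZMod.val_lt a.2
  unfold enc
  omega

theorem enc_inj {a b : Fin T.K × ZMod 3} (h : T.enc a = T.enc b) : a = b := by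
  have h1 : a.2.val < 3 := ZMod.val_lt a.2
  have h2 : b.2.val < 3 := ZMod.val_lt b.2
  unfold enc at h
  refine Prod.ext (Fin.ext (by omega)) (ZMod.val_injective 3 (by omega))

theorem exists_enc {b : ℕ} (hb : b < 3 * T.K) : ∃ a, T.enc a = b := by
  refine ⟨(⟨b / 3, by omega⟩, ((b % 3 : ℕ) : ZMod 3)), ?_⟩
  unfold enc
  rw [ZMod.val_natCast, Nat.mod_mod]
  simp only
  omega

/-- arc with a given number -/
noncomputable def dec (b : ℕ) (a0 : Fin T.K × ZMod 3) : Fin T.K × ZMod 3 := by
  classical
  exact if h : b < 3 * T.K then (T.exists_enc h).choose else a0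

theorem enc_dec {b : ℕ} (hb : b < 3 * T.K) (a0 : Fin T.K × ZMod 3) : T.enc (T.dec b a0) = b := by
  unfold dec
  rw [dif_pos hb]
  exact (T.exists_enc hb).choose_spec

theorem enc_nx (a : Fin T.K × ZMod 3) : T.enc (SymData.nx a) = nxf (T.enc a) := by
  obtain ⟨i, j⟩ := a
  have h3 : ∀ j : ZMod 3, (j + 1).val = (j.val + 1) % 3 := by decide
  have h1 : j.val < 3 := ZMod.val_lt j
  unfold enc nxf SymData.nx
  simp only [h3]
  omega

theorem enc_div (a : Fin T.K × ZMod 3) : T.enc a / 3 = a.1.val := by
  have h1 : a.2.val < 3 := ZMod.val_lt a.2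
  unfold enc
  omega

variable {T}

theorem mod_eq_iff {n : ℕ} {x y : ℤ} : ((x : ZMod n) = (y : ZMod n)) ↔ x % (n : ℤ) = y % (n : ℤ) :=
  ZMod.intCast_eq_intCast_iff' x y n

theorem cast_eq_zero {n : ℕ} {x : ℤ} (h : x % (n : ℤ) = 0) : (x : ZMod n) = 0 := by
  have : ((x : ℤ) : ZMod n) = ((0 : ℤ) : ZMod n) := by rw [mod_eq_iff, h, Int.zero_emod]
  simpa using this

theorem bitsOK_sound {n : ℤ} : ∀ (l : List ℤ) (acc : ℕ), bitsOK n acc l = true →
    (∀ x ∈ l, acc.testBit (x % n).toNat = false) ∧
      l.Pairwise fun x y => (x % n).toNat ≠ (y % n).toNat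
  | [], _, _ => ⟨by simp, List.Pairwise.nil⟩
  | x :: l, acc, h => by
    rw [bitsOK, Bool.and_eq_true, Bool.not_eq_true'] at h
    obtain ⟨h1, h2⟩ := bitsOK_sound l _ h.2
    refine ⟨?_, ?_⟩
    · intro y hy
      rcases List.mem_cons.1 hy with rfl | hy
      · exact h.1
      · have := h1 y hy
        rw [Nat.testBit_or, Bool.or_eq_false_iff] at this
        exact this.1
    · refine List.Pairwise.cons ?_ h2
      intro y hy he
      have := h1 y hy
      rw [Nat.testBit_or, Bool.or_eq_false_iff, he, Nat.testBit_two_pow_self] at this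
      exact absurd this.2 (by simp)

structure Chk1 (T : Single) : Prop where
  hK : 0 < T.K
  hn : 0 < T.n
  size : 3 * T.K + T.core.sizeD + 1 = T.n
  nodup : (T.elts.map fun x : ℤ => (x : ZMod T.n)).Nodup
  sum : ∀ i < T.K, ((T.v (3 * i) + T.v (3 * i + 1) + T.v (3 * i + 2) : ℤ) : ZMod T.n) = 0
  ng : ∀ a < 3 * T.K, T.ngf a < 3 * T.K ∧ ((T.v a + T.v (T.ngf a) : ℤ) : ZMod T.n) = 0

theorem chk1_sound (h : T.chk1 = true) : Chk1 T := by
  unfold chk1 at h
  simp only [Bool.and_eq_true, decide_eq_true_eq, List.all_eq_true, List.mem_range] at h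
  obtain ⟨⟨⟨⟨⟨h1, h2⟩, h3⟩, h4⟩, h5⟩, h6⟩ := h
  refine ⟨h1, h2, h3, ?_, fun i hi => cast_eq_zero (h5 i hi),
    fun a ha => ⟨(h6 a ha).1, cast_eq_zero (h6 a ha).2⟩⟩
  rw [List.Nodup, List.pairwise_map]
  refine (bitsOK_sound _ _ h4).2.imp ?_
  intro x y hxy he
  rw [mod_eq_iff] at he
  exact hxy (by rw [he])

section

variable (h : Chk1 T)

/-- the missing differences -/
def Ds (T : Single) : List (ZMod T.n) :=
  (T.core.dl.map fun d => ((d.2 : ℤ) : ZMod T.n)) ++ (T.dnh.map fun d => ((- d.2 : ℤ) : ZMod T.n))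

theorem elts_map (T : Single) : (T.elts.map fun x : ℤ => (x : ZMod T.n)) =
    ((List.range (3 * T.K)).map fun a => ((T.v a : ℤ) : ZMod T.n)) ++ (Ds T ++ [0]) := by
  unfold elts Ds
  simp [List.map_append, List.map_map, Function.comp_def]

include h in
theorem v_inj {a b : ℕ} (ha : a < 3 * T.K) (hb : b < 3 * T.K)
    (he : ((T.v a : ℤ) : ZMod T.n) = ((T.v b : ℤ) : ZMod T.n)) : a = b := by
  have h1 := h.nodup
  rw [elts_map] at h1
  exact List.inj_on_of_nodup_map (List.nodup_append'.1 h1).1 (List.mem_range.2 ha)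
    (List.mem_range.2 hb) he

include h in
theorem v_notMem {a : ℕ} (ha : a < 3 * T.K) : ((T.v a : ℤ) : ZMod T.n) ∉ Ds T ++ [0] := by
  have h1 := h.nodup
  rw [elts_map] at h1
  exact fun h2 => (List.nodup_append'.1 h1).2.2 (List.mem_map_of_mem (List.mem_range.2 ha)) h2

include h in
theorem Ds_nodup : (Ds T).Nodup := by
  have h1 := h.nodup
  rw [elts_map] at h1
  exact (List.nodup_append'.1 (List.nodup_append'.1 h1).2.1).1

include h in
theorem zero_notMem_Ds : (0 : ZMod T.n) ∉ Ds T := by
  have h1 := h.nodup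
  rw [elts_map] at h1
  exact fun h2 => (List.nodup_append'.1 (List.nodup_append'.1 h1).2.1).2.2 h2 (by simp)

theorem dnh_sub {d : Aff} (hd : d ∈ T.dnh) : d ∈ T.core.dl := by
  unfold dnh at hd
  split at hd
  · exact List.mem_of_mem_dropLast hd
  · exact hd

theorem Ds_neg (hc : T.core.check = true) {d : ZMod T.n} (hd : d ∈ Ds T) :
    -d ∈ Ds T := by
  obtain ⟨-, hN2, hh, -⟩ := check_iff hc
  unfold Ds at hd ⊢
  rcases List.mem_append.1 hd with hd | hd
  · obtain ⟨x, hx, rfl⟩ := List.mem_map.1 hd
    by_cases hx' : x ∈ T.dnh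
    · refine List.mem_append_right _ ?_
      refine List.mem_map.2 ⟨x, hx', by push_cast; rfl⟩
    · -- `x` is the last class
      have hH : T.core.hasH = true := by
        by_contra hH
        apply hx'
        unfold dnh
        rw [if_neg hH]; exact hx
      obtain ⟨hp, -, e2⟩ := hh hH
      have hlast : x = T.core.dl[T.core.dl.length - 1]?.getD 0 := by
        unfold dnh at hx'
        rw [if_pos hH] at hx'
        have hne : T.core.dl ≠ [] := List.ne_nil_of_length_pos hp
        have h1 := List.dropLast_append_getLast hne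
        rw [← h1] at hx
        rcases List.mem_append.1 hx with h2 | h2
        · exact absurd h2 hx'
        · rw [List.mem_singleton] at h2
          rw [h2, List.getLast_eq_getElem, List.getElem?_eq_getElem (by omega)]
          rfl
      refine List.mem_append_left _ ?_
      refine List.mem_map.2 ⟨x, hx, ?_⟩
      have h3 : (2 : ℤ) * x.2 = (T.n : ℤ) := by
        rw [hlast, e2]
        unfold Single.n
        exact (Int.toNat_of_nonneg hN2.le).symm
      have h4 : ((2 * x.2 : ℤ) : ZMod T.n) = 0 := by rw [h3]; simp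
      have h5 : ((x.2 : ℤ) : ZMod T.n) + ((x.2 : ℤ) : ZMod T.n) = 0 := by
        rw [← h4]; push_cast; ring
      exact eq_neg_of_add_eq_zero_left h5
  · obtain ⟨x, hx, rfl⟩ := List.mem_map.1 hd
    refine List.mem_append_left _ ?_
    refine List.mem_map.2 ⟨x, dnh_sub hx, by push_cast; ring⟩

theorem dnh_length (hc : T.core.check = true) : T.core.dl.length + T.dnh.length = T.core.sizeD := by
  obtain ⟨-, -, hh, -⟩ := check_iff hc
  unfold dnh Core.sizeD
  by_cases hH : T.core.hasH = true
  · obtain ⟨hp, -⟩ := hh hH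
    rw [if_pos hH, if_pos hH, List.length_dropLast]
    omega
  · rw [if_neg hH, if_neg hH]
    omega

/-- the symmetric data of the certificate -/
noncomputable def sym (hc : T.core.check = true) : SymData T.n (Fin T.K) where
  val a := ((T.v (T.enc a) : ℤ) : ZMod T.n)
  ng a := T.dec (T.ngf (T.enc a)) a
  D := (Ds T).toFinset
  val_inj a b he := T.enc_inj (v_inj h (T.enc_lt a) (T.enc_lt b) he)
  val_ng a := by
    obtain ⟨h1, h2⟩ := h.ng (T.enc a) (T.enc_lt a)
    rw [T.enc_dec h1]
    push_cast at h2
    exact (neg_eq_of_add_eq_zero_right h2).symm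
  val_sum i := by
    have h1 := h.sum i.val i.isLt
    have e0 : T.enc (i, 0) = 3 * i.val := by simp [enc]
    have e1 : T.enc (i, 1) = 3 * i.val + 1 := by
      unfold enc
      congr 1
    have e2 : T.enc (i, 2) = 3 * i.val + 2 := by
      unfold enc
      congr 1
    rw [e0, e1, e2]
    push_cast at h1
    exact h1
  val_ne_zero a he := v_notMem h (T.enc_lt a) (by rw [he]; simp)
  zero_notMem := by
    rw [List.mem_toFinset]; exact zero_notMem_Ds h
  D_neg d hd := by
    rw [List.mem_toFinset] at hd ⊢
    exact Ds_neg hc hd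
  val_notMem a hm := by
    rw [List.mem_toFinset] at hm
    exact v_notMem h (T.enc_lt a) (List.mem_append_left _ hm)
  card_eq := by
    rw [List.toFinset_card_of_nodup (Ds_nodup h), Nat.card_eq_fintype_card, Fintype.card_fin]
    have h1 := h.size
    have h2 := dnh_length hc
    unfold Ds
    rw [List.length_append, List.length_map, List.length_map]
    omega

variable (hc : T.core.check = true)

theorem enc_ng (a : Fin T.K × ZMod 3) : T.enc ((sym h hc).ng a) = T.ngf (T.enc a) :=
  T.enc_dec (h.ng _ (T.enc_lt a)).1 a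

theorem enc_sig (a : Fin T.K × ZMod 3) : T.enc (sig (sym h hc).neg ∅ a) = T.sgf (T.enc a) := by
  rw [sig, Perm.mul_apply, SymData.neg_apply, SymData.tau_of_notMem (Finset.notMem_empty _),
    enc_nx, enc_ng]
  rfl

/-- index map -/
def iota (h : Chk1 T) (i : ℕ) : Fin T.K := if hi : i < T.K then ⟨i, hi⟩ else ⟨0, h.hK⟩

theorem iota_of_lt {i : ℕ} (hi : i < T.K) : iota h i = ⟨i, hi⟩ := dif_pos hi

theorem realises : T.core.Realises 0 (sym h hc) (iota h) := by
  obtain ⟨-, hN2, hh, -⟩ := check_iff hc
  have hnd := Ds_nodup h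
  have hlen := dnh_length hc
  have hev : ∀ x : Aff, ev 0 x = x.2 := fun x => by simp [ev]
  have hget : ∀ c, c < T.core.dl.length → (Ds T)[c]? =
      some ((((T.core.dl[c]?.getD 0).2 : ℤ)) : ZMod T.n) := by
    intro c hc'
    unfold Ds
    rw [List.getElem?_append_left (by simpa using hc'), List.getElem?_map,
      List.getElem?_eq_getElem hc']
    rfl
  have hget' : ∀ c, c < T.dnh.length → (Ds T)[T.core.dl.length + c]? =
      some (- ((((T.core.dl[c]?.getD 0).2 : ℤ)) : ZMod T.n)) := by
    intro c hc'
    have h1 : T.dnh[c]? = T.core.dl[c]? := by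
      unfold dnh at hc' ⊢
      split
      · rename_i hH
        rw [if_pos hH, List.length_dropLast] at hc'
        rw [List.getElem?_dropLast, if_pos hc']
      · rfl
    have h2 : c < T.core.dl.length := by
      unfold dnh at hc'
      split at hc'
      · rw [List.length_dropLast] at hc'; omega
      · exact hc'
    unfold Ds
    rw [List.getElem?_append_right (by simp), List.length_map, Nat.add_sub_cancel_left,
      List.getElem?_map, h1, List.getElem?_eq_getElem h2]
    simp
  have hne : ∀ i j, i < (Ds T).length → j < (Ds T).length → i ≠ j → (Ds T)[i]? ≠ (Ds T)[j]? := by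
    intro i j hi hj hij he
    rw [List.getElem?_eq_getElem hi, List.getElem?_eq_getElem hj, Option.some_inj] at he
    exact hij ((List.Nodup.getElem_inj_iff hnd).1 he)
  have hDl : (Ds T).length = T.core.dl.length + T.dnh.length := by
    unfold Ds; simp
  refine ⟨?_, ?_, ?_, ?_, ?_, ?_, ?_⟩
  · rw [hev]
    unfold Single.n
    exact Int.toNat_of_nonneg hN2.le
  · intro i j hi hj hij
    rw [iota_of_lt h hi, iota_of_lt h hj] at hij
    simpa using hij
  · intro i j hi hj
    have hi' : i < T.K := hi
    rw [iota_of_lt h hi']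
    change ((T.v (T.enc (⟨i, hi'⟩, (j : ZMod 3))) : ℤ) : ZMod T.n) = _
    have : T.enc (⟨i, hi'⟩, (j : ZMod 3)) = 3 * i + j := by
      unfold enc
      rw [ZMod.val_natCast, Nat.mod_eq_of_lt hj]
    rw [this, hev, v]
    have e1 : (3 * i + j) / 3 = i := by omega
    have e2 : (3 * i + j) % 3 = j := by omega
    rw [e1, e2]
  · intro c hc'
    rw [hev]
    change _ ∈ (Ds T).toFinset
    rw [List.mem_toFinset]
    exact List.mem_of_getElem? (hget c hc')
  · intro c c' hc1 hc2 hcc
    rw [hev, hev]
    constructor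
    · intro he
      apply hne c c' (by omega) (by omega) hcc
      rw [hget c hc1, hget c' hc2, he]
    · intro he
      by_cases hlt : c' < T.dnh.length
      · apply hne c (T.core.dl.length + c') (by omega) (by omega) (by omega)
        rw [hget c hc1, hget' c' hlt, he]
      · -- then `c'` is the last class, `- h = h`
        have hlt' : c < T.dnh.length := by
          unfold dnh at hlt ⊢
          split at hlt
          · rename_i hH
            rw [if_pos hH, List.length_dropLast]
            rw [List.length_dropLast] at hlt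
            omega
          · exact absurd hc2 hlt
        apply hne c' (T.core.dl.length + c) (by omega) (by omega) (by omega)
        rw [hget c' hc2, hget' c hlt', he, neg_neg]
  · intro c hc1 hnot he
    rw [hev] at he
    have hlt : c < T.dnh.length := by
      unfold dnh
      split
      · rename_i hH
        rw [List.length_dropLast]
        have : c + 1 ≠ T.core.dl.length := fun h => hnot ⟨hH, h⟩
        omega
      · exact hc1
    apply hne c (T.core.dl.length + c) (by omega) (by omega) (by omega)
    rw [hget c hc1, hget' c hlt, ← he]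
  · change (Ds T).toFinset.card = _
    rw [List.toFinset_card_of_nodup hnd, hDl, hlen]

end

end Single

end Empire
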