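import Mathlib
import Pool.Agent.Lib.MP_800721_co.SingleSound

/-!
# PROJECT EMPIRE: soundness of the certificates for a single `n`, part 2
-/

namespace Empire

open Equiv Equiv.Perm

namespace Single

variable {T : Single}

structure Chk2 (T : Single) : Prop where
  lab_lt : ∀ a < 3 * T.K, T.labf a < T.F
  lab_sg : ∀ a < 3 * T.K, T.labf (T.sgf a) = T.labf a
  pos0 : ∀ a < 3 * T.K, T.posf a = 0 → a = T.repf (T.labf a)
  pos1 : ∀ a < 3 * T.K, T.posf a ≠ 0 → T.posf (T.sgf a) + 1 = T.posf a
  rep : ∀ l < T.F, T.repf l < 3 * T.K ∧ T.labf (T.repf l) = l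

theorem chk2_sound (h : T.chk2 = true) : Chk2 T := by
  unfold chk2 at h
  simp only [Bool.and_eq_true, decide_eq_true_eq, List.all_eq_true, List.mem_range] at h
  obtain ⟨h1, h2⟩ := h
  refine ⟨fun a ha => (h1 a ha).1.1, fun a ha => (h1 a ha).1.2, ?_, ?_, h2⟩
  · intro a ha h0
    have := (h1 a ha).2
    rw [if_pos h0] at this
    simpa using this
  · intro a ha h0
    have := (h1 a ha).2
    rw [if_neg h0] at this
    simpa using this

structure Chk3 (T : Single) : Prop where
  nodup : T.xs.Nodup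
  xs : ∀ i ∈ T.xs, i < T.K ∧ i ∉ T.core.used
  used : ∀ i ∈ T.core.used, i < T.K
  merge : ∀ l < T.F, T.mrf l = 0 ∨ ∃ a b, a < 3 * T.K ∧ b < 3 * T.K ∧ a / 3 = b / 3 ∧
    a / 3 ∈ T.xs ∧ T.labf a = l ∧ T.mrf (T.labf b) < T.mrf l
  roots : T.roots.length + 2 * T.xs.length ≤ T.F

theorem chk3_sound (h : T.chk3 = true) : Chk3 T := by
  unfold chk3 at h
  simp only [Bool.and_eq_true, decide_eq_true_eq, List.all_eq_true, List.mem_range] at h
  obtain ⟨⟨⟨⟨h1, h2⟩, h3⟩, h4⟩, h5⟩ := h
  refine ⟨h1, ?_, h3, ?_, h5⟩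
  · intro i hi
    refine ⟨(h2 i hi).1, ?_⟩
    have := (h2 i hi).2
    simpa using this
  · intro l hl
    have := h4 l hl
    rw [Bool.or_eq_true, beq_iff_eq] at this
    rcases this with h7 | h7
    · exact Or.inl h7
    · right
      cases hm : T.mpar[l]? with
      | none => rw [hm] at h7; simp at h7
      | some ab =>
        rw [hm] at h7
        simp only [Bool.and_eq_true, decide_eq_true_eq, List.contains_iff_mem] at h7
        obtain ⟨⟨⟨⟨⟨e1, e2⟩, e3⟩, e4⟩, e5⟩, e6⟩ := h7
        exact ⟨ab.1, ab.2, e1, e2, e3, e4, e5, e6⟩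

structure Chk4 (T : Single) : Prop where
  par : ∀ l < T.F, l = 0 ∨ ∃ a < 3 * T.K, T.labf a = l ∧ T.labf (T.ngf a) < l ∧
    ((T.defect a : ℤ) : ZMod T.n) = 0
  comb_lt : ∀ c ∈ T.comb, c.1 < 3 * T.K
  comb : (((T.comb.map fun c => c.2 * T.defect c.1).sum : ℤ) : ZMod T.n) = 1

theorem chk4_sound (h : T.chk4 = true) : Chk4 T := by
  unfold chk4 at h
  simp only [Bool.and_eq_true, decide_eq_true_eq, List.all_eq_true, List.mem_range] at h
  obtain ⟨⟨h1, h2⟩, h3⟩ := h
  refine ⟨?_, h2, ?_⟩
  · intro l hl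
    have := h1 l hl
    rw [Bool.or_eq_true, beq_iff_eq] at this
    rcases this with h7 | h7
    · exact Or.inl h7
    · right
      cases hm : T.par[l]? with
      | none => rw [hm] at h7; simp at h7
      | some a =>
        rw [hm] at h7
        simp only [Bool.and_eq_true, decide_eq_true_eq] at h7
        obtain ⟨⟨⟨e1, e2⟩, e3⟩, e4⟩ := h7
        exact ⟨a, e1, e2, e3, cast_eq_zero e4⟩
  · have := cast_eq_zero h3
    rw [Int.cast_sub, Int.cast_one] at this
    exact sub_eq_zero.1 this

section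

variable (h : Chk1 T) (hc : T.core.check = true) (h2 : Chk2 T)

include h2 in
theorem F_le_cyc : T.F ≤ cyc (sig (sym h hc).neg ∅) := by
  refine le_cyc_of_label (fun a => ⟨T.labf (T.enc a), h2.lab_lt _ (T.enc_lt a)⟩) ?_ ?_
  · intro a
    apply Fin.ext
    simp only
    rw [enc_sig]
    exact h2.lab_sg _ (T.enc_lt a)
  · intro l
    obtain ⟨h3, h4⟩ := h2.rep l l.2
    obtain ⟨a, ha⟩ := T.exists_enc h3
    exact ⟨a, by apply Fin.ext; simp only [ha, h4]⟩

include h2 in
theorem to_rep {β : Type*} (f : Fin T.K × ZMod 3 → β)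
    (hf : ∀ a, f (sig (sym h hc).neg ∅ a) = f a) :
    ∀ p a b, T.posf (T.enc a) = p → T.enc b = T.repf (T.labf (T.enc a)) → f a = f b := by
  intro p
  induction p with
  | zero =>
    intro a b hp hb
    have := h2.pos0 _ (T.enc_lt a) hp
    rw [← hb] at this
    rw [T.enc_inj this]
  | succ p ih =>
    intro a b hp hb
    have h3 := h2.pos1 _ (T.enc_lt a) (by omega)
    have h4 := h2.lab_sg _ (T.enc_lt a)
    rw [← enc_sig h hc] at h3 h4
    rw [← hf a]
    exact ih _ b (by omega) (by rw [h4]; exact hb)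

include h2 in
theorem eq_of_lab {β : Type*} (f : Fin T.K × ZMod 3 → β)
    (hf : ∀ a, f (sig (sym h hc).neg ∅ a) = f a) {a b : Fin T.K × ZMod 3}
    (hab : T.labf (T.enc a) = T.labf (T.enc b)) : f a = f b := by
  obtain ⟨c, hc'⟩ := T.exists_enc (h2.rep _ (h2.lab_lt _ (T.enc_lt a))).1
  rw [to_rep h hc h2 f hf _ a c rfl hc', to_rep h hc h2 f hf _ b c rfl (by rw [hc', hab])]

variable (h3 : Chk3 T)

include h2 h3 in
theorem to_root {β : Type*} (f : Fin T.K × ZMod 3 → β)
    (hf : ∀ a, f (sig (sym h hc).neg ∅ a) = f a)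
    (hx : ∀ a b : Fin T.K × ZMod 3, a.1.val ∈ T.xs → b.1 = a.1 → f a = f b) :
    ∀ p a, T.mrf (T.labf (T.enc a)) = p → ∃ l ∈ T.roots, ∀ c, T.enc c = T.repf l → f a = f c := by
  intro p
  induction p using Nat.strong_induction_on with
  | _ p ih =>
    intro a hp
    rcases h3.merge _ (h2.lab_lt _ (T.enc_lt a)) with h4 | ⟨x, y, hx1, hy1, e1, e2, e3, e4⟩
    · refine ⟨T.labf (T.enc a), ?_, ?_⟩
      · unfold roots
        rw [List.mem_filter, List.mem_range]
        exact ⟨h2.lab_lt _ (T.enc_lt a), by simp [h4]⟩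
      · intro c hc'
        refine eq_of_lab h hc h2 f hf ?_
        rw [hc', (h2.rep _ (h2.lab_lt _ (T.enc_lt a))).2]
    · obtain ⟨x', rfl⟩ := T.exists_enc hx1
      obtain ⟨y', rfl⟩ := T.exists_enc hy1
      rw [T.enc_div] at e2
      rw [T.enc_div, T.enc_div] at e1
      obtain ⟨l, hl, hl'⟩ := ih _ (by rw [← hp]; exact e4) y' rfl
      refine ⟨l, hl, fun c hc' => ?_⟩
      rw [← hl' c hc', ← hx x' y' e2 (Fin.ext e1.symm)]
      exact eq_of_lab h hc h2 f hf e3.symm

/-- the reversed triples -/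
def xsf (h : Chk1 T) : List (Fin T.K) := T.xs.map (iota h)

include h3 in
theorem xsf_nodup : (xsf h).Nodup := by
  unfold xsf
  refine List.Nodup.map_on ?_ h3.nodup
  intro i hi j hj hij
  rw [iota_of_lt h (h3.xs i hi).1, iota_of_lt h (h3.xs j hj).1] at hij
  simpa using hij

include h3 in
theorem mem_xsf {i : Fin T.K} : i ∈ xsf h ↔ i.val ∈ T.xs := by
  unfold xsf
  rw [List.mem_map]
  constructor
  · rintro ⟨j, hj, rfl⟩
    rw [iota_of_lt h (h3.xs j hj).1]
    exact hj
  · intro hi
    exact ⟨i.val, hi, by rw [iota_of_lt h i.2]⟩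

include h2 h3 in
theorem card_circ : Nat.card (Quot (CircRel (sym h hc).neg (xsf h))) + 2 * (xsf h).length
    ≤ T.F := by
  have hr := h3.roots
  have hlen : (xsf h).length = T.xs.length := by unfold xsf; simp
  have hmem : ∀ i (hi : i < T.roots.length), T.roots[i] < T.F := by
    intro i hi
    have : T.roots[i] ∈ T.roots := List.getElem_mem hi
    unfold roots at this
    rw [List.mem_filter, List.mem_range] at this
    exact this.1
  have key : Nat.card (Quot (CircRel (sym h hc).neg (xsf h))) ≤ T.roots.length := by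
    refine card_quot_le_of_reps (fun i : Fin T.roots.length =>
      (T.exists_enc (h2.rep _ (hmem i.1 i.2)).1).choose) ?_
    intro a
    obtain ⟨l, hl, hl'⟩ := to_root h hc h2 h3 (fun a => Quot.mk (CircRel (sym h hc).neg (xsf h)) a)
      (fun a => (Quot.sound (r := CircRel (sym h hc).neg (xsf h)) (Or.inl rfl)).symm) (by
        intro a b ha hb
        exact Quot.sound (Or.inr ⟨(mem_xsf h h3).2 ha, hb⟩)) _ a rfl
    obtain ⟨i, hi, rfl⟩ := List.getElem_of_mem hl
    refine ⟨⟨i, hi⟩, hl' _ ?_⟩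
    exact (T.exists_enc (h2.rep _ (hmem i hi)).1).choose_spec
  omega

variable (h4 : Chk4 T)

include h2 h4 in
theorem connected : (sym h hc).Connected := by
  let π : Fin T.K × ZMod 3 → ZMod T.n := fun a => ((T.potf (T.labf (T.enc a)) : ℤ) : ZMod T.n)
  have hdef : ∀ a, π a + (sym h hc).val a - π ((sym h hc).ng a) =
      ((T.defect (T.enc a) : ℤ) : ZMod T.n) := by
    intro a
    simp only [π]
    rw [enc_ng]
    unfold defect
    push_cast
    rfl
  refine SymData.connected_of_potential _ π ?_ ?_ ?_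
  · intro a
    simp only [π]
    rw [enc_sig, h2.lab_sg _ (T.enc_lt a)]
  · -- everything is connected to the circuit `0`
    have hf : ∀ a, Quot.mk ((sym h hc).TightRel π) (sig (sym h hc).neg ∅ a) =
        Quot.mk ((sym h hc).TightRel π) a := fun a =>
      (Quot.sound (r := (sym h hc).TightRel π) (Or.inl rfl)).symm
    have key : ∀ l a b, T.labf (T.enc a) = l → T.labf (T.enc b) = 0 →
        Quot.mk ((sym h hc).TightRel π) a = Quot.mk ((sym h hc).TightRel π) b := by
      intro l
      induction l using Nat.strong_induction_on with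
      | _ l ih =>
        intro a b ha hb
        rcases h4.par l (by rw [← ha]; exact h2.lab_lt _ (T.enc_lt a)) with h5 |
          ⟨x, hx, e1, e2, e3⟩
        · exact eq_of_lab h hc h2 _ hf (by rw [ha, hb, h5])
        · obtain ⟨x', rfl⟩ := T.exists_enc hx
          rw [← enc_ng h hc] at e2
          rw [← ih _ e2 ((sym h hc).ng x') b rfl hb]
          rw [eq_of_lab h hc h2 _ hf (a := a) (b := x') (by rw [ha, e1])]
          refine Quot.sound (Or.inr ⟨rfl, ?_⟩)
          have := hdef x'
          rw [e3, sub_eq_zero] at this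
          exact this.symm
    have hF : 0 < T.F := lt_of_le_of_lt (Nat.zero_le _) (h2.lab_lt 0 (by have := h.hK; omega))
    obtain ⟨b, hb⟩ := T.exists_enc (h2.rep 0 hF).1
    have hb' : T.labf (T.enc b) = 0 := by rw [hb, (h2.rep 0 hF).2]
    intro a a'
    rw [key _ a b rfl hb', key _ a' b rfl hb']
  · have hsum : ∀ L : List (ℕ × ℤ), (∀ c ∈ L, c.1 < 3 * T.K) →
        (((L.map fun c => c.2 * T.defect c.1).sum : ℤ) : ZMod T.n) ∈
          AddSubgroup.closure {x | ∃ a, x = π a + (sym h hc).val a - π ((sym h hc).ng a)} := by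
      intro L
      induction L with
      | nil => intro _; simp
      | cons c L ih =>
        intro hL
        rw [List.map_cons, List.sum_cons, Int.cast_add]
        refine AddSubgroup.add_mem _ ?_ (ih fun c hc' => hL c (List.mem_cons_of_mem _ hc'))
        obtain ⟨a, ha⟩ := T.exists_enc (hL c List.mem_cons_self)
        have hin : π a + (sym h hc).val a - π ((sym h hc).ng a) ∈ AddSubgroup.closure
            {x | ∃ a, x = π a + (sym h hc).val a - π ((sym h hc).ng a)} :=
          AddSubgroup.subset_closure ⟨a, rfl⟩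
        rw [Int.cast_mul, ← ha, ← hdef, ← zsmul_eq_mul]
        exact AddSubgroup.zsmul_mem _ hin _
    rw [← h4.comb]
    exact hsum _ h4.comb_lt

end

/-- **Soundness of the certificates for a single `n`.** -/
theorem sound (T : Single) (hT : T.check = true) {m : ℕ} (hm : m ≤ T.F)
    (h2m : T.F ≤ m + 2 * T.xs.length)
    (hpar : m % 2 = T.F % 2) : HasSplit T.n m := by
  unfold check at hT
  simp only [Bool.and_eq_true] at hT
  obtain ⟨⟨⟨⟨c1, c2⟩, c3⟩, c4⟩, hc⟩ := hT
  have h := chk1_sound c1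
  have h2 := chk2_sound c2
  have h3 := chk3_sound c3
  have h4 := chk4_sound c4
  have : NeZero T.n := ⟨h.hn.ne'⟩
  have hlen : (xsf h).length = T.xs.length := by unfold xsf; simp
  obtain ⟨e1, e2⟩ := circuit_lemma (sym h hc).neg (xsf h) (xsf_nodup h h3) T.F
    (F_le_cyc h hc h2) (card_circ h hc h2 h3) ((T.F - m) / 2) (by omega)
  obtain ⟨L, l1, l2, l3, l4, l5⟩ := Core.handles T.core hc (sym h hc) (iota h) (realises h hc)
    ((xsf h).take ((T.F - m) / 2)).toFinset (by
      intro i hi hmem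
      rw [List.mem_toFinset] at hmem
      have h5 := List.mem_of_mem_take hmem
      rw [iota_of_lt h (h3.used i hi), mem_xsf h h3] at h5
      exact (h3.xs i h5).2 hi)
  exact (sym h hc).hasSplit (by omega) (connected h hc h2 h4) e2 L l1 l2 l3 l4 l5

end Single

end Empire
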