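import Mathlib
import Pool.Agent.Lib.MP_800721_co.LadMain
import Pool.Agent.Lib.MP_800721_co.Single2

/-!
# PROJECT EMPIRE: which pairs are covered by a certificate
-/

namespace Empire

/-- covered by a certificate for a single `n` -/
def Covers (n F k : ℕ) : Prop := ∀ m, m ≤ F → F ≤ m + 2 * k → m % 2 = F % 2 → HasSplit n m

/-- covered by a template: `n ≡ n0` modulo `12`, `n0 ≤ n`, `m ≡ F` modulo `2` -/
def TCovers (n0 F : ℕ) : Prop :=
  n0 < 6 * (F + 2) + 1 ∧
    ∀ t m, 2 ≤ m → m ≤ F + 2 * t → m % 2 = F % 2 → HasSplit (12 * t + n0) m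

theorem Template.tcovers (P : Template) (h : P.check = true) {n0 F : ℕ} (h1 : P.n0 = n0)
    (h2 : P.F = F) (h3 : n0 < 6 * (F + 2) + 1) : TCovers n0 F := by
  subst h1 h2
  exact ⟨h3, fun t m hm h4 h5 => P.sound h t m hm h4 h5⟩

theorem Single.covers (T : Single) (h : T.check = true) {n F k : ℕ} (h1 : T.n = n)
    (h2 : T.F = F) (h3 : T.xs.length = k) : Covers n F k := by
  subst h1 h2 h3
  exact fun m h4 h5 h6 => T.sound h h4 h5 h6

theorem covers_of_hasSplit {n m : ℕ} (h : HasSplit n m) : Covers n m 0 := by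
  intro m' h1 h2 _
  have : m' = m := by omega
  rw [this]
  exact h

theorem TCovers.hasSplit {n0 F n m : ℕ} (h : TCovers n0 F) (hn : n % 12 = n0 % 12)
    (hn0 : n0 ≤ n) (hm : 2 ≤ m) (hp : m % 2 = F % 2) (hnm : 6 * m + 1 ≤ n) : HasSplit n m := by
  obtain ⟨t, rfl⟩ : ∃ t, n = 12 * t + n0 := ⟨(n - n0) / 12, by omega⟩
  have h1 := h.1
  exact h.2 t m hm (by omega) hp

/-- boolean test: the pairs `(n, m)` with `lo ≤ n < hi` are covered -/
def tableOK (tpl : List (ℕ × ℕ)) (sing : List (ℕ × ℕ × ℕ)) (lo hi : ℕ) : Bool :=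
  (List.range hi).all fun n => Nat.blt n lo || ((List.range (n / 6 + 1)).all fun m =>
    Nat.blt m 2 || Nat.blt n (6 * m + 1) ||
    (sing.any fun x => Nat.beq x.1 n && Nat.ble m x.2.1 && Nat.ble x.2.1 (m + 2 * x.2.2) &&
      Nat.beq (x.2.1 % 2) (m % 2)) ||
    (tpl.any fun x => Nat.beq (x.1 % 12) (n % 12) && Nat.beq (x.2 % 2) (m % 2) && Nat.ble x.1 n))

/-- boolean test: the templates cover everything from `hi` on -/
def tplOK (tpl : List (ℕ × ℕ)) (hi : ℕ) : Bool :=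
  (List.range 12).all fun r => (List.range 2).all fun p =>
    tpl.any fun x => Nat.beq (x.1 % 12) r && Nat.beq (x.2 % 2) p && Nat.ble x.1 hi

theorem hasSplit_of_tables {tpl : List (ℕ × ℕ)} {sing : List (ℕ × ℕ × ℕ)} {lo hi : ℕ}
    (ht : ∀ x ∈ tpl, TCovers x.1 x.2) (hs : ∀ x ∈ sing, Covers x.1 x.2.1 x.2.2)
    (h1 : tableOK tpl sing lo hi = true) (h2 : tplOK tpl hi = true) {n m : ℕ} (hn : lo ≤ n)
    (hm : 2 ≤ m) (hnm : 6 * m + 1 ≤ n) : HasSplit n m := by
  rcases Nat.lt_or_ge n hi with hlt | hge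
  · simp only [tableOK, List.all_eq_true, List.mem_range, Bool.or_eq_true, Nat.blt_eq,
      List.any_eq_true, Bool.and_eq_true] at h1
    rcases h1 n hlt with h3 | h3
    · omega
    · rcases h3 m (by omega) with ((h4 | h4) | ⟨x, hx, ⟨⟨ha, hb⟩, hc⟩, hd⟩) | ⟨x, hx, ⟨ha, hb⟩, hc⟩
      · omega
      · omega
      · have e1 := Nat.eq_of_beq_eq_true ha
        have e2 := Nat.eq_of_beq_eq_true hd
        have h4 := hs x hx
        rw [e1] at h4
        exact h4 m (Nat.le_of_ble_eq_true hb) (Nat.le_of_ble_eq_true hc) e2.symm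
      · have e1 := Nat.eq_of_beq_eq_true ha
        have e2 := Nat.eq_of_beq_eq_true hb
        exact (ht x hx).hasSplit e1.symm (Nat.le_of_ble_eq_true hc) hm e2.symm hnm
  · simp only [tplOK, List.all_eq_true, List.mem_range, List.any_eq_true, Bool.and_eq_true] at h2
    obtain ⟨x, hx, ⟨ha, hb⟩, hc⟩ := h2 (n % 12) (Nat.mod_lt _ (by norm_num)) (m % 2)
      (Nat.mod_lt _ (by norm_num))
    have e1 := Nat.eq_of_beq_eq_true ha
    have e2 := Nat.eq_of_beq_eq_true hb
    exact (ht x hx).hasSplit e1.symm (le_trans (Nat.le_of_ble_eq_true hc) hge) hm e2.symm hnm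

end Empire
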