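import Mathlib
import Pool.Agent.Lib.MP_800721_co.Cover

/-!
# PROJECT EMPIRE: templates for infinitely many `n` (found by helper7)
-/

namespace Empire

/-- template for `n ≡ 0` modulo `12`, `5` missing differences -/
def Tp_0_5 : Template :=
  { core := ⟨(12, 72), [((0, -5), (-3, -13), (3, 18)), ((3, 15), (0, 2), (-3, -17)), ((3, 16), (0, -2), (-3, -14)), ((0, 6), (-3, -18), (3, 12)), ((3, 13), (0, 3), (-3, -16)), ((-2, -9), (-2, -11), (4, 20)), ((-4, -24), (-4, -23), (-4, -25)), ((0, -3), (4, 25), (-4, -22)), ((-5, -32), (-5, -30), (-2, -10)), ((-2, -8), (-5, -33), (-5, -31)), ((-4, -21), (2, 11), (2, 10)), ((-4, -19), (0, -4), (4, 23)), ((-4, -20), (4, 26), (0, -6)), ((5, 32), (2, 9), (5, 31)), ((5, 35), (5, 29), (2, 8)), ((5, 33), (3, 17), (4, 22)), ((5, 30), (0, 4), (-5, -34)), ((5, 34), (3, 14), (4, 24)), ((-4,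 -28), (-3, -15), (-5, -29)), ((4, 21), (0, 5), (-4, -26))],
        [(0, 1), (4, 27), (6, 36)], true,
        [⟨6, (2, 12), ⟨(1, 0), (1, 1), (0, 0), (3, 16), [⟨0, 3, (some ((2, 0), (4, 2))), 0, false⟩, ⟨1, 3, none, 0, true⟩, ⟨2, 3, none, 0, false⟩, ⟨2, 4, (some ((4, 2), (2, 0))), 0, true⟩, ⟨2, 5, none, 0, true⟩, ⟨0, 5, (some ((0, 2), (3, 1))), 0, false⟩]⟩, none⟩,
          ⟨2, (3, 18), ⟨(5, 1), (5, 1), (0, 0), (6, 36), [⟨0, 3, none, 2, true⟩, ⟨1, 3, (some ((6, 2), (7, 1))), 1, true⟩, ⟨2, 3, none, 1, true⟩, ⟨2, 4, none, 2, true⟩, ⟨0, 4, none, 1, false⟩, ⟨0, 5, (some ((7, 1), (6, 2))), 1, false⟩]⟩, none⟩]⟩,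
    n0 := 72, c := 6, eps := 1, u0 := (3, 12), w0 := (5, 35), su := 1, sw := 1,
    ng := [58, 12, 10, 55, 7, 46, 14, 4, 52, 38, 2, 11, 1, 21, 6, 40, 31, 36, 53, 35, 22, 13, 20, 47, 39, 48, 32, 44, 45, 41, 57, 16, 26, 33, 49, 19, 17, 59, 9, 24, 15, 29, 42, 56, 27, 28, 5, 23, 25, 34, 51, 50, 8, 18, 54, 3, 43, 30, 0, 37],
    pu0 := 11, pu1 := 33, pw0 := 42, pw1 := 54, F := 11,
    lab := [0, 4, 3, 7, 6, 5, 3, 5, 6, 2, 0, 3, 3, 4, 5, 2, 8, 1, 4, 6, 9, 5, 4, 9, 8, 9, 4, 2, 7, 9, 4, 1, 8, 6, 3, 9, 2, 1, 0, 9, 8, 2, 2, 10, 7, 9, 7, 5, 4, 9, 3, 4, 3, 6, 10, 6, 7, 1, 4, 0],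
    repl := [0, 17, 9, 2, 1, 5, 4, 3, 16, 20, 43],
    rk := [0, 0, 0, 0, 0, 0, 2, 1, 5, 0, 1, 6, 1, 8, 2, 4, 0, 0, 6, 3, 0, 3, 7, 7, 2, 3, 3, 2, 2, 5, 2, 1, 3, 2, 5, 1, 5, 3, 2, 4, 1, 3, 1, 0, 3, 6, 1, 4, 4, 2, 4, 5, 3, 4, 1, 1, 4, 2, 1, 3],
    J := [15, 19, 11, 8], e := 3, roots := [0, 2, 10],
    rk2 := [0, 1, 0, 3, 1, 3, 3, 3, 2, 2, 0],
    mer := [(0, 0), (57, 59), (0, 0), (34, 35), (58, 59), (47, 45), (33, 35), (46, 45), (24, 26), (25, 26), (0, 0)],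
    pot := [(0, 0), (-4, -26), (0, -6), (-3, -18), (0, -5), (0, -2), (0, -4), (-3, -19), (-2, -15), (4, 20), (4, 24)],
    tr := [0, 37, 9, 11, 58, 14, 4, 46, 40, 23, 43],
    comb := [(48, 2), (34, 2), (53, 3)] }

theorem Tp_0_5_ok : Tp_0_5.check = true := by decide +kernel

/-- template for `n ≡ 0` modulo `12`, `11` missing differences -/
def Tp_0_11 : Template :=
  { core := ⟨(12, 108), [((-2, -11), (4, 32), (-2, -21)), ((0, 7), (2, 15), (-2, -22)), ((-4, -32), (6, 50), (-2, -18)), ((-2, -9), (0, -3), (2, 12)), ((-2, -12), (2, 17), (0, -5)), ((2, 11), (-2, -13), (0, 2)), ((0, -7), (0, 4), (0, 3)), ((-6, -49), (3, 25), (3, 24)), ((6, 49), (3, 31), (3, 28)), ((3, 30), (6, 51), (3, 27)), ((-5, -43), (-4, -35), (-3, -30)), ((-5, -42), (2, 13), (3, 29)), ((-4, -38), (2, 20), (2, 18)), ((2, 21), (-2, -17), (0, -4)), ((4,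 36), (4, 34), (4, 38)), ((-4, -34), (-5, -45), (-3, -29)), ((5, 41), (0, 5), (-5, -46)), ((-2, -15), (2, 9), (0, 6)), ((0, -2), (-2, -20), (2, 22)), ((-3, -25), (-2, -19), (5, 44)), ((5, 42), (-3, -26), (-2, -16)), ((-3, -24), (-4, -36), (-5, -48)), ((5, 43), (2, 19), (5, 46)), ((5, 47), (0, -6), (-5, -41)), ((4, 37), (3, 26), (5, 45)), ((-2, -23), (-2, -10), (4, 33)), ((4, 40), (-6, -50), (2, 10)), ((4, 35), (2, 16), (-6, -51)), ((-5, -44), (-3, -27), (-4, -37)), ((-3, -28), (-4, -33), (-5, -47))],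
        [(4, 39), (0, 1), (2, 14), (6, 52), (6, 53), (6, 54)], true,
        [⟨2, (3, 27), ⟨(1, 0), (1, 2), (0, 0), (-4, -32), [⟨0, 3, (some ((2, 0), (0, 1))), 0, false⟩, ⟨1, 3, none, 0, false⟩, ⟨1, 4, none, 5, true⟩, ⟨2, 4, none, 0, true⟩, ⟨2, 5, (some ((0, 1), (2, 0))), 0, true⟩, ⟨0, 5, none, 5, true⟩]⟩, none⟩,
          ⟨3, (4, 36), ⟨(5, 0), (5, 2), (0, 0), (0, -1), [⟨0, 3, none, 1, false⟩, ⟨1, 3, (some ((4, 0), (3, 2))), 2, false⟩, ⟨2, 3, none, 1, true⟩, ⟨2, 4, none, 2, true⟩, ⟨0, 4, (some ((3, 2), (4, 0))), 2, true⟩, ⟨0, 5, none, 1, true⟩]⟩, none⟩,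
          ⟨3, (4, 36), ⟨(6, 0), (6, 1), (0, 0), (6, 49), [⟨0, 3, (some ((8, 0), (7, 0))), 4, true⟩, ⟨1, 3, none, 3, false⟩, ⟨2, 3, none, 3, true⟩, ⟨2, 4, (some ((7, 0), (8, 0))), 4, false⟩, ⟨0, 4, none, 3, false⟩, ⟨0, 5, none, 4, true⟩]⟩, none⟩]⟩,
    n0 := 108, c := 7, eps := 1, u0 := (-5, -48), w0 := (3, 31), su := -1, sw := 1,
    ng := [15, 6, 39, 18, 51, 56, 1, 79, 38, 52, 20, 12, 11, 40, 49, 0, 34, 54, 3, 41, 10, 24, 57, 63, 21, 25, 87, 32, 83, 85, 66, 81, 27, 60, 16, 47, 44, 55, 8, 2, 13, 19, 64, 45, 36, 43, 74, 35, 71, 14, 68, 4, 9, 70, 17, 37, 5, 22, 67, 84, 33, 73, 82, 23, 42, 65, 30, 58, 50, 89, 53, 48, 86, 61, 46, 75, 80, 88, 78, 7, 76, 31, 62, 28, 59, 29, 72, 26, 77, 69],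
    pu0 := 65, pu1 := 78, pw0 := 25, pw1 := 75, F := 16,
    lab := [0, 2, 3, 0, 8, 2, 3, 2, 6, 5, 8, 1, 5, 1, 3, 2, 0, 3, 8, 0, 1, 7, 4, 9, 4, 7, 10, 15, 14, 13, 15, 3, 14, 12, 3, 0, 6, 0, 3, 0, 3, 1, 6, 9, 0, 0, 9, 12, 4, 5, 3, 2, 8, 5, 2, 3, 0, 9, 4, 15, 3, 12, 13, 7, 9, 6, 3, 15, 4, 4, 2, 5, 9, 13, 12, 10, 11, 2, 11, 6, 2, 14, 3, 13, 9, 15, 13, 4, 10, 2],
    repl := [0, 11, 1, 2, 22, 9, 8, 21, 4, 23, 26, 76, 33, 29, 28, 27],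
    rk := [0, 0, 0, 3, 0, 3, 1, 9, 0, 0, 2, 0, 1, 3, 11, 1, 9, 4, 1, 2, 1, 0, 0, 0, 1, 2, 0, 0, 0, 0, 4, 8, 1, 0, 5, 8, 4, 5, 2, 1, 12, 2, 3, 5, 6, 7, 4, 1, 4, 2, 10, 4, 3, 4, 2, 3, 4, 1, 6, 2, 6, 3, 2, 1, 6, 2, 9, 3, 5, 3, 5, 3, 3, 3, 2, 1, 0, 7, 1, 1, 8, 2, 7, 1, 2, 1, 4, 2, 2, 6],
    J := [22, 24, 13, 26, 27, 29, 17], e := 2, roots := [0, 7],
    rk2 := [0, 1, 3, 1, 2, 4, 4, 0, 4, 3, 3, 4, 3, 2, 2, 2],
    mer := [(0, 0), (41, 39), (89, 87), (40, 39), (68, 66), (53, 51), (79, 80), (0, 0), (52, 51), (72, 73), (88, 87), (78, 80), (74, 73), (83, 82), (81, 82), (67, 66)],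
    pot := [(0, 0), (0, 4), (2, 22), (2, 21), (-3, -25), (2, 16), (4, 38), (3, 24), (0, 7), (-4, -34), (-6, -53), (0, -2), (3, 29), (0, 3), (-6, -48), (3, 30)],
    tr := [0, 41, 5, 2, 68, 53, 36, 21, 4, 64, 26, 78, 74, 73, 28, 27],
    comb := [(8, -1)] }

theorem Tp_0_11_ok : Tp_0_11.check = true := by decide +kernel

/-- template for `n ≡ 1` modulo `12`, `0` missing differences -/
def Tp_1_0 : Template :=
  { core := ⟨(12, 49), [((-6, -24), (-4, -19), (-2, -6)), ((-2, -13), (0, 2), (2, 11)), ((-2, -14), (2, 13), (0, 1)), ((-3, -17), (-2, -5), (5, 22)), ((5, 21), (5, 20), (2, 8)), ((3, 15), (-5, -22), (2, 7)), ((-5, -23), (3, 17), (2, 6)), ((-2, -12), (0, 3), (2, 9)), ((2, 5), (3, 16), (-5, -21)), ((3, 18), (-3, -16), (0, -2)), ((-3, -15), (5, 23), (-2, -8)), ((-2, -11), (2, 12), (0, -1)), ((4, 19), (-2, -9), (-2,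 -10)), ((2, 10), (0, -3), (-2, -7))],
        [], false,
        []⟩,
    n0 := 49, c := 3, eps := -1, u0 := (3, 18), w0 := (5, 20), su := 1, sw := 1,
    ng := [0, 36, 20, 7, 29, 33, 6, 3, 35, 19, 24, 16, 26, 13, 32, 30, 11, 41, 31, 9, 2, 34, 40, 37, 10, 28, 12, 27, 25, 4, 15, 18, 14, 5, 21, 8, 1, 23, 39, 38, 22, 17],
    pu0 := 27, pu1 := 6, pw0 := 13, pw1 := 0, F := 8,
    lab := [0, 6, 1, 7, 4, 3, 6, 4, 7, 0, 3, 1, 1, 2, 0, 3, 0, 1, 1, 3, 0, 6, 3, 5, 1, 3, 2, 4, 2, 3, 0, 3, 1, 7, 3, 6, 1, 6, 5, 1, 5, 3],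
    repl := [0, 2, 13, 5, 4, 23, 1, 3],
    rk := [0, 0, 0, 0, 0, 0, 1, 1, 2, 2, 3, 4, 6, 0, 5, 6, 3, 3, 8, 4, 1, 3, 8, 0, 5, 2, 1, 2, 2, 1, 4, 5, 7, 1, 9, 2, 1, 4, 2, 2, 1, 7],
    J := [10, 1, 7], e := 2, roots := [0, 2],
    rk2 := [0, 1, 0, 1, 2, 2, 2, 2],
    mer := [(0, 0), (32, 30), (0, 0), (31, 30), (4, 5), (23, 22), (21, 22), (3, 5)],
    pot := [(0, 0), (-5, -22), (0, -1), (-3, -17), (-3, -19), (-3, -14), (-1, -5), (-1, -6)],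
    tr := [0, 11, 26, 25, 4, 40, 21, 8],
    comb := [(2, -5), (13, -7), (41, 3)] }

theorem Tp_1_0_ok : Tp_1_0.check = true := by decide +kernel

/-- the classes of this file -/
theorem tpl1 : ∀ x ∈ ([(72, 11), (108, 16), (49, 8)] : List (ℕ × ℕ)), TCovers x.1 x.2 := by
  simp only [List.forall_mem_cons, List.not_mem_nil, IsEmpty.forall_iff, implies_true, and_true]
  exact ⟨Tp_0_5.tcovers Tp_0_5_ok rfl rfl (by norm_num),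
    Tp_0_11.tcovers Tp_0_11_ok rfl rfl (by norm_num),
    Tp_1_0.tcovers Tp_1_0_ok rfl rfl (by norm_num)⟩

end Empire
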