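import Mathlib
import Pool.Agent.Lib.MP_800721_co.Cover

/-!
# PROJECT EMPIRE: templates for infinitely many `n` (found by helper7)
-/

namespace Empire

/-- template for `n ≡ 1` modulo `12`, `6` missing differences -/
def Tp_1_6 : Template :=
  { core := ⟨(12, 61), [((-5, -28), (5, 26), (0, 2)), ((-5, -24), (-4, -21), (-3, -16)), ((-4, -20), (-3, -14), (-5, -27)), ((4, 20), (5, 24), (3, 17)), ((5, 27), (0, -1), (-5, -26)), ((0, -4), (-2, -7), (2, 11)), ((0, 5), (-2, -12), (2, 7)), ((0, -5), (-3, -13), (3, 18)), ((-2, -11), (6, 30), (-4, -19)), ((-2, -9), (2, 8), (0, 1)), ((5, 28), (3, 14), (4, 19)), ((0, -2), (-2, -8), (2, 10)), ((2, 9), (4, 21), (-6, -30)), ((0, 4), (-3, -17), (3, 13)), ((5, 23), (3, 16), (4, 22)), ((-4, -22), (-2, -10), (-6, -29))],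
        [(0, 3), (3, 15), (5, 25)], false,
        [⟨2, (6, 30), ⟨(0, 0), (1, 0), (0, 0), (0, -3), [⟨0, 3, none, 0, false⟩, ⟨1, 3, none, 2, true⟩, ⟨1, 4, (some ((2, 0), (3, 0))), 0, false⟩, ⟨2, 4, none, 1, true⟩, ⟨2, 5, none, 2, false⟩, ⟨0, 5, (some ((2, 2), (4, 0))), 1, false⟩]⟩, (some ⟨(0, 1), (1, 0), (-5, -28), (0, -3), [⟨0, 3, none, 2, true⟩, ⟨0, 4, (some ((2, 0), (3, 0))), 0, false⟩, ⟨1, 4, none, 1, true⟩]⟩)⟩]⟩,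
    n0 := 61, c := 5, eps := 1, u0 := (5, 23), w0 := (3, 18), su := 1, sw := 1,
    ng := [30, 14, 33, 10, 37, 43, 9, 31, 12, 6, 3, 40, 8, 29, 1, 39, 20, 24, 21, 19, 16, 18, 41, 23, 17, 38, 32, 36, 34, 13, 0, 7, 26, 2, 28, 46, 27, 4, 25, 15, 11, 22, 42, 5, 45, 44, 35, 47],
    pu0 := 42, pu1 := 47, pw0 := 23, pw1 := 19, F := 9,
    lab := [0, 3, 4, 1, 3, 0, 3, 6, 0, 6, 3, 1, 3, 0, 4, 6, 7, 5, 7, 8, 5, 8, 7, 1, 6, 5, 3, 0, 5, 4, 3, 0, 6, 0, 4, 5, 5, 0, 3, 7, 6, 1, 2, 1, 0, 2, 0, 5],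
    repl := [0, 3, 42, 1, 2, 17, 7, 16, 19],
    rk := [0, 0, 0, 0, 4, 4, 6, 0, 8, 1, 5, 4, 7, 7, 1, 3, 0, 0, 3, 0, 1, 1, 2, 2, 4, 6, 2, 6, 4, 2, 1, 9, 5, 1, 3, 3, 5, 5, 3, 1, 2, 3, 0, 1, 3, 1, 2, 2],
    J := [14, 11, 7], e := 3, roots := [0, 3, 6],
    rk2 := [0, 1, 1, 0, 1, 1, 0, 2, 2],
    mer := [(0, 0), (43, 44), (42, 44), (0, 0), (34, 33), (35, 33), (0, 0), (22, 23), (21, 23)],
    pot := [(0, 0), (-3, -16), (4, 22), (4, 21), (0, -2), (-2, -10), (0, 1), (0, -3), (0, 2)],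
    tr := [0, 43, 45, 4, 2, 35, 24, 22, 21],
    comb := [(13, 1)] }

theorem Tp_1_6_ok : Tp_1_6.check = true := by decide +kernel

/-- template for `n ≡ 2` modulo `12`, `1` missing differences -/
def Tp_2_1 : Template :=
  { core := ⟨(12, 62), [((-4, -20), (6, 30), (-2, -10)), ((4, 22), (-4, -21), (0, -1)), ((-6, -30), (4, 21), (2, 9)), ((-6, -29), (-2, -11), (-4, -22)), ((2, 11), (0, -2), (-2, -9)), ((0, 4), (5, 23), (-5, -27)), ((0, -5), (-2, -7), (2, 12)), ((0, -3), (3, 17), (-3, -14)), ((4, 20), (5, 26), (3, 16)), ((0, -4), (-3, -15), (3, 19)), ((-3, -18), (0, 3), (3, 15)), ((-5, -25), (3, 18), (2, 7)), ((-5, -24), (3, 14), (2, 10)), ((-5, -26), (5, 24), (0, 2)), ((-2, -8), (-3, -17), (5, 25)), ((-2, -13), (2, 8), (0, 5)), ((-5, -28), (5, 27), (0, 1)), ((5, 28), (-3, -16), (-2, -12))],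
        [(6, 31)], true,
        [⟨2, (1, 5), ⟨(0, 0), (0, 1), (0, 0), (4, 21), [⟨0, 3, (some ((2, 1), (1, 1))), 0, true⟩, ⟨1, 3, (some ((1, 1), (2, 1))), 0, true⟩, ⟨2, 3, (some ((4, 0), (3, 1))), 0, true⟩, ⟨2, 4, none, 0, true⟩, ⟨0, 4, (some ((1, 1), (2, 1))), 0, true⟩, ⟨0, 5, (some ((3, 1), (4, 0))), 0, true⟩]⟩, (some ⟨(0, 0), (0, 2), (0, 0), (-2, -11), [⟨0, 3, (some ((3, 1), (4, 0))), 0, true⟩]⟩)⟩]⟩,
    n0 := 62, c := 5, eps := -1, u0 := (3, 19), w0 := (5, 23), su := 1, sw := 1,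
    ng := [24, 6, 38, 11, 7, 50, 1, 4, 14, 9, 12, 3, 10, 41, 8, 27, 16, 49, 47, 35, 53, 31, 43, 37, 0, 39, 52, 15, 32, 29, 34, 21, 28, 44, 30, 19, 40, 23, 2, 25, 36, 13, 46, 22, 33, 45, 42, 18, 51, 17, 5, 48, 26, 20],
    pu0 := 29, pu1 := 45, pw0 := 16, pw1 := 9, F := 10,
    lab := [0, 2, 8, 3, 7, 2, 8, 2, 7, 3, 1, 7, 7, 1, 8, 5, 9, 3, 1, 4, 5, 0, 6, 0, 2, 0, 1, 9, 5, 0, 5, 6, 0, 4, 6, 5, 8, 0, 0, 1, 0, 8, 4, 0, 6, 1, 0, 4, 2, 5, 3, 5, 2, 1],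
    repl := [0, 10, 1, 3, 19, 15, 22, 4, 2, 16],
    rk := [0, 0, 0, 0, 0, 4, 1, 5, 3, 3, 0, 1, 2, 6, 2, 0, 0, 2, 2, 0, 3, 7, 0, 2, 1, 10, 4, 1, 6, 5, 5, 1, 6, 3, 2, 4, 4, 8, 1, 5, 9, 3, 2, 3, 3, 1, 4, 1, 3, 1, 1, 2, 2, 3],
    J := [13, 9, 14, 16], e := 2, roots := [0, 7],
    rk2 := [0, 1, 2, 2, 1, 1, 1, 0, 1, 1],
    mer := [(0, 0), (39, 40), (48, 49), (50, 49), (42, 43), (28, 29), (44, 43), (0, 0), (41, 40), (27, 29)],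
    pot := [(0, 0), (2, 13), (5, 29), (5, 28), (2, 8), (3, 15), (0, -3), (-3, -12), (2, 10), (0, 5)],
    tr := [0, 45, 52, 50, 42, 28, 31, 4, 2, 16],
    comb := [(13, 1)] }

theorem Tp_2_1_ok : Tp_2_1.check = true := by decide +kernel

/-- template for `n ≡ 2` modulo `12`, `7` missing differences -/
def Tp_2_7 : Template :=
  { core := ⟨(12, 86), [((0, -9), (-3, -19), (3, 28)), ((0, -8), (0, 2), (0, 6)), ((-3, -26), (3, 19), (0, 7)), ((0, 9), (0, -5), (0, -4)), ((0, 4), (0, 3), (0, -7)), ((-6, -42), (-2, -14), (-4, -30)), ((4, 31), (-4, -29), (0, -2)), ((6, 42), (2, 15), (4, 29)), ((-5, -38), (3, 26), (2, 12)), ((3, 25), (-3, -22), (0, -3)), ((3, 22), (2, 17), (-5, -39)), ((5, 32), (0, 8), (-5, -40)), ((-5, -37), (-2, -16), (-5, -33)), ((3, 27), (2, 14), (-5, -41)), ((-3, -25), (0, 5), (3, 20)), ((-3, -24), (-2,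 -15), (5, 39)), ((3, 24), (-5, -35), (2, 11)), ((5, 37), (-2, -17), (-3, -20)), ((-2, -12), (-3, -21), (5, 33)), ((-3, -27), (5, 38), (-2, -11)), ((2, 16), (5, 36), (5, 34)), ((-5, -34), (5, 40), (0, -6)), ((4, 30), (5, 35), (3, 21)), ((-2, -18), (-5, -32), (-5, -36))],
        [(0, 1), (3, 23), (2, 13), (6, 43)], true,
        [⟨3, (4, 28), ⟨(1, 1), (1, 2), (0, 0), (0, 1), [⟨0, 3, none, 0, true⟩, ⟨1, 3, none, 0, false⟩, ⟨2, 3, (some ((4, 2), (2, 2))), 1, false⟩, ⟨2, 4, (some ((0, 0), (3, 0))), 1, true⟩, ⟨0, 4, none, 0, false⟩, ⟨0, 5, (some ((2, 2), (4, 2))), 1, true⟩]⟩, (some ⟨(1, 1), (1, 2), (0, 0), (0, 1), [⟨0, 3, none, 0, true⟩, ⟨2, 4, (some ((0, 0), (3, 0))), 1, true⟩, ⟨0, 4, none, 0, false⟩, ⟨0, 5, (some ((2, 2), (4, 2))), 1, true⟩]⟩)⟩,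
          ⟨2, (3, 21), ⟨(5, 0), (5, 2), (0, 0), (-2, -13), [⟨0, 3, none, 2, false⟩, ⟨1, 3, (some ((7, 2), (6, 1))), 2, true⟩, ⟨1, 4, none, 3, true⟩, ⟨2, 4, (some ((6, 1), (7, 2))), 2, false⟩, ⟨2, 5, none, 2, true⟩, ⟨0, 5, none, 3, true⟩]⟩, (some ⟨(5, 1), (5, 2), (-6, -42), (-2, -13), [⟨0, 3, (some ((7, 2), (6, 1))), 2, true⟩, ⟨1, 4, (some ((6, 1), (7, 2))), 2, false⟩, ⟨2, 5, none, 3, true⟩]⟩)⟩]⟩,
    n0 := 86, c := 9, eps := 1, u0 := (-5, -41), w0 := (3, 28), su := -1, sw := 1,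
    ng := [9, 7, 2, 34, 20, 65, 25, 1, 14, 0, 43, 12, 11, 29, 8, 21, 40, 66, 18, 23, 4, 15, 46, 19, 58, 6, 54, 42, 30, 13, 28, 52, 47, 70, 3, 64, 51, 60, 56, 57, 16, 41, 27, 10, 53, 48, 22, 32, 45, 67, 59, 36, 31, 44, 26, 68, 38, 39, 24, 50, 37, 71, 63, 62, 35, 5, 17, 49, 55, 69, 33, 61],
    pu0 := 41, pu1 := 18, pw0 := 2, pw1 := 69, F := 13,
    lab := [3, 4, 5, 11, 10, 8, 6, 5, 4, 4, 3, 9, 4, 9, 6, 6, 12, 0, 10, 12, 8, 12, 6, 8, 8, 5, 6, 9, 2, 6, 6, 2, 1, 7, 10, 11, 1, 3, 8, 5, 0, 12, 2, 9, 3, 1, 8, 6, 8, 1, 0, 3, 1, 2, 8, 6, 1, 0, 5, 8, 8, 3, 7, 8, 7, 11, 6, 0, 1, 3, 10, 7],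
    repl := [17, 32, 28, 0, 1, 2, 6, 33, 5, 11, 4, 3, 16],
    rk := [0, 0, 0, 0, 0, 0, 0, 1, 3, 1, 6, 0, 2, 3, 1, 6, 0, 0, 3, 2, 1, 1, 5, 2, 6, 2, 9, 2, 0, 2, 3, 3, 0, 0, 1, 2, 2, 3, 8, 4, 1, 3, 1, 1, 5, 6, 3, 4, 4, 5, 3, 4, 1, 2, 7, 8, 3, 2, 3, 5, 9, 2, 2, 10, 1, 1, 7, 4, 4, 1, 2, 3],
    J := [11, 10, 13, 14, 16], e := 3, roots := [0, 4, 7],
    rk2 := [0, 1, 2, 3, 0, 1, 2, 0, 1, 3, 1, 1, 1],
    mer := [(0, 0), (49, 50), (31, 32), (44, 42), (0, 0), (39, 40), (30, 32), (0, 0), (48, 50), (43, 42), (34, 33), (35, 33), (41, 40)],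
    pot := [(0, 0), (5, 35), (3, 18), (0, -2), (0, -11), (-3, -27), (-4, -30), (5, 34), (-2, -18), (0, -7), (-2, -20), (-2, -12), (2, 14)],
    tr := [0, 49, 31, 44, 9, 39, 55, 71, 60, 43, 70, 35, 16],
    comb := [(59, -3)] }

theorem Tp_2_7_ok : Tp_2_7.check = true := by decide +kernel

/-- the classes of this file -/
theorem tpl2 : ∀ x ∈ ([(61, 9), (62, 10), (86, 13)] : List (ℕ × ℕ)), TCovers x.1 x.2 := by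
  simp only [List.forall_mem_cons, List.not_mem_nil, IsEmpty.forall_iff, implies_true, and_true]
  exact ⟨Tp_1_6.tcovers Tp_1_6_ok rfl rfl (by norm_num),
    Tp_2_1.tcovers Tp_2_1_ok rfl rfl (by norm_num),
    Tp_2_7.tcovers Tp_2_7_ok rfl rfl (by norm_num)⟩

end Empire
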