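import Mathlib
import Pool.Agent.Lib.MP_800721_co.Cover

/-!
# PROJECT EMPIRE: templates for infinitely many `n` (found by helper7)
-/

namespace Empire

/-- template for `n ≡ 3` modulo `12`, `2` missing differences -/
def Tp_3_2 : Template :=
  { core := ⟨(12, 75), [((0, -6), (0, 2), (0, 4)), ((0, -4), (-6, -36), (-6, -35)), ((3, 16), (-3, -19), (0, 3)), ((-3, -22), (-6, -37), (-3, -16)), ((3, 20), (-3, -17), (0, -3)), ((6, 37), (3, 21), (3, 17)), ((6, 35), (6, 34), (0, 6)), ((2, 12), (-5, -27), (3, 15)), ((-4, -25), (-5, -30), (-3, -20)), ((-5, -31), (-2, -12), (-5, -32)), ((-5, -29), (2, 11), (3, 18)), ((-4, -23), (6, 36), (-2, -13)), ((5, 27), (-3, -18), (-2, -9)), ((5, 28), (0, 5), (-5, -33)), ((-4, -24), (2, 10), (2, 14)), ((5, 33), (0, -7), (-5, -26)), ((5, 31), (-2, -10), (-3, -21)), ((5, 30), (5, 32), (2, 13)),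 ((3, 19), (-5, -28), (2, 9)), ((3, 22), (4, 24), (5, 29)), ((0, -5), (0, -2), (0, 7)), ((-2, -11), (-2, -14), (4, 25))],
        [(0, 1)], false,
        [⟨6, (2, 12), ⟨(0, 2), (1, 0), (0, 0), (0, 1), [⟨0, 3, none, 0, true⟩, ⟨1, 3, (some ((4, 2), (2, 2))), 0, false⟩, ⟨2, 3, (some ((2, 2), (4, 2))), 0, true⟩, ⟨2, 4, (some ((3, 1), (5, 0))), 0, false⟩, ⟨2, 5, none, 0, false⟩, ⟨0, 5, (some ((4, 2), (2, 2))), 0, false⟩]⟩, (some ⟨(0, 1), (1, 0), (0, -2), (0, 1), [⟨0, 3, (some ((2, 2), (4, 2))), 0, true⟩, ⟨0, 5, none, 0, false⟩, ⟨1, 5, (some ((4, 2), (2, 2))), 0, false⟩]⟩)⟩]⟩,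
    n0 := 75, c := 7, eps := -1, u0 := (-5, -26), w0 := (3, 15), su := -1, sw := 1,
    ng := [20, 61, 3, 2, 34, 18, 11, 54, 14, 57, 15, 6, 26, 17, 8, 10, 50, 13, 5, 19, 0, 28, 36, 23, 65, 51, 12, 48, 21, 52, 59, 63, 37, 33, 4, 53, 22, 32, 56, 55, 60, 45, 58, 49, 64, 41, 62, 47, 27, 43, 16, 25, 29, 35, 7, 39, 38, 9, 42, 30, 40, 1, 46, 31, 44, 24],
    pu0 := 47, pu1 := 19, pw0 := 23, pw1 := 33, F := 12,
    lab := [0, 4, 1, 0, 1, 9, 7, 1, 2, 7, 3, 1, 2, 1, 7, 1, 3, 7, 0, 9, 4, 5, 3, 11, 2, 8, 1, 8, 3, 5, 3, 10, 2, 5, 9, 1, 11, 3, 2, 11, 1, 6, 10, 7, 8, 11, 6, 4, 3, 8, 7, 1, 8, 5, 2, 1, 11, 3, 7, 10, 6, 1, 4, 2, 10, 8],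
    repl := [0, 2, 8, 10, 1, 21, 41, 6, 25, 5, 31, 23],
    rk := [0, 0, 0, 1, 11, 0, 0, 4, 0, 6, 0, 5, 6, 7, 1, 6, 7, 2, 2, 2, 1, 0, 4, 0, 5, 0, 8, 4, 5, 3, 2, 0, 3, 1, 1, 10, 1, 3, 2, 3, 2, 0, 2, 4, 2, 4, 2, 2, 6, 3, 3, 9, 5, 2, 1, 3, 2, 1, 5, 1, 1, 1, 3, 4, 3, 1],
    J := [16, 11, 6, 21, 13], e := 2, roots := [0, 2],
    rk2 := [0, 2, 0, 2, 1, 2, 3, 2, 1, 1, 1, 3],
    mer := [(0, 0), (35, 34), (0, 0), (48, 49), (20, 18), (33, 34), (41, 40), (50, 49), (65, 63), (19, 18), (64, 63), (39, 40)],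
    pot := [(0, 0), (0, -4), (-3, -24), (0, -6), (0, -6), (-2, -18), (0, 1), (3, 16), (5, 25), (6, 35), (-5, -36), (-5, -33)],
    tr := [0, 2, 12, 37, 20, 21, 60, 9, 27, 5, 64, 56],
    comb := [(7, 1)] }

theorem Tp_3_2_ok : Tp_3_2.check = true := by decide +kernel

/-- template for `n ≡ 3` modulo `12`, `8` missing differences -/
def Tp_3_8 : Template :=
  { core := ⟨(12, 75), [((-6, -34), (0, -2), (6, 36)), ((3, 23), (-3, -22), (0, -1)), ((3, 22), (0, -4), (-3, -18)), ((-6, -35), (-4, -25), (-2, -15)), ((-6, -36), (4, 25), (2, 11)), ((-2, -13), (2, 12), (0, 1)), ((0, 6), (-2, -16), (2, 10)), ((6, 35), (-2, -9), (-4, -26)), ((4, 26), (3, 20), (5, 29)), ((0, -3), (-5, -30), (5, 33)), ((-5, -33), (-2, -14), (-5, -28)), ((2, 9), (-2, -12), (0, 3)), ((-5, -32), (0, 5), (5, 27)), ((-2, -11), (-3, -21), (5, 32)), ((5, 30),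 (5, 31), (2, 14)), ((3, 18), (-5, -31), (2, 13)), ((0, -6), (0, 4), (0, 2)), ((-3, -20), (5, 28), (-2, -8)), ((-2, -10), (2, 15), (0, -5)), ((2, 8), (3, 21), (-5, -29))],
        [(3, 17), (3, 19), (4, 24), (6, 37)], false,
        [⟨3, (4, 25), ⟨(0, 0), (0, 1), (0, 0), (-3, -17), [⟨0, 3, none, 0, false⟩, ⟨1, 3, none, 0, true⟩, ⟨2, 3, none, 1, true⟩, ⟨2, 4, (some ((1, 1), (2, 0))), 1, true⟩, ⟨0, 4, none, 0, true⟩, ⟨0, 5, none, 1, false⟩]⟩, none⟩,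
          ⟨3, (4, 25), ⟨(5, 0), (5, 0), (0, 0), (6, 37), [⟨0, 3, none, 3, true⟩, ⟨1, 3, (some ((3, 1), (4, 1))), 2, false⟩, ⟨2, 3, none, 3, false⟩, ⟨2, 4, none, 3, true⟩, ⟨2, 5, (some ((4, 1), (3, 1))), 2, true⟩, ⟨0, 5, none, 2, true⟩]⟩, none⟩]⟩,
    n0 := 75, c := 6, eps := -1, u0 := (3, 23), w0 := (5, 27), su := 1, sw := 1,
    ng := [0, 50, 12, 3, 6, 17, 4, 49, 45, 21, 13, 55, 2, 10, 39, 47, 34, 5, 48, 19, 54, 9, 33, 24, 23, 51, 59, 35, 42, 30, 29, 44, 52, 22, 16, 27, 41, 56, 38, 14, 58, 36, 28, 46, 31, 8, 43, 15, 18, 7, 1, 25, 32, 57, 20, 11, 37, 53, 40, 26],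
    pu0 := 3, pu1 := 19, pw0 := 38, pw1 := 0, F := 11,
    lab := [0, 8, 1, 6, 1, 4, 4, 1, 9, 6, 2, 1, 0, 1, 2, 4, 10, 6, 9, 8, 6, 2, 6, 5, 2, 5, 3, 5, 10, 7, 5, 7, 9, 5, 6, 10, 0, 9, 1, 0, 2, 9, 7, 10, 9, 4, 9, 10, 8, 9, 1, 3, 5, 9, 9, 6, 1, 3, 9, 2],
    repl := [0, 2, 10, 26, 5, 23, 3, 29, 1, 8, 16],
    rk := [0, 0, 0, 0, 3, 0, 1, 2, 0, 4, 0, 6, 1, 7, 5, 3, 0, 1, 2, 1, 6, 1, 3, 0, 2, 5, 0, 2, 3, 0, 3, 2, 8, 1, 2, 4, 3, 4, 4, 2, 4, 5, 1, 2, 9, 2, 10, 1, 2, 1, 1, 1, 4, 7, 3, 5, 5, 2, 6, 3],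
    J := [14, 11, 8, 16], e := 3, roots := [0, 1, 4],
    rk2 := [0, 0, 4, 4, 0, 3, 3, 2, 1, 1, 2],
    mer := [(0, 0), (0, 0), (24, 25), (26, 25), (0, 0), (33, 35), (34, 35), (42, 44), (48, 50), (49, 50), (43, 44)],
    pot := [(0, 0), (-5, -27), (-2, -11), (5, 35), (4, 26), (2, 15), (4, 25), (-3, -18), (-5, -25), (-5, -32), (2, 13)],
    tr := [0, 38, 14, 26, 6, 23, 3, 29, 1, 41, 47],
    comb := [(7, 1)] }

theorem Tp_3_8_ok : Tp_3_8.check = true := by decide +kernel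

/-- template for `n ≡ 4` modulo `12`, `3` missing differences -/
def Tp_4_3 : Template :=
  { core := ⟨(12, 64), [((-5, -20), (0, -3), (5, 23)), ((-5, -19), (0, -2), (5, 21)), ((-6, -30), (0, -5), (-6, -29)), ((3, 13), (-3, -16), (0, 3)), ((0, 2), (3, 12), (-3, -14)), ((-5, -22), (2, 8), (3, 14)), ((-5, -24), (0, 4), (5, 20)), ((6, 31), (6, 28), (0, 5)), ((6, 29), (-6, -28), (0, -1)), ((5, 24), (-3, -15), (-2, -9)), ((-4, -18), (-2, -8), (6, 26)), ((-4, -17), (-2, -10), (6, 27)), ((4, 18), (2, 9), (-6, -27)), ((-5, -21), (2, 10), (3, 11)), ((5, 22), (0, 1), (-5, -23)), ((6, 25), (-3, -13), (-3, -12)), ((-6, -31), (3, 16), (3, 15)), ((-6, -26), (6, 30), (0, -4))],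
        [(2, 7), (6, 32)], true,
        [⟨2, (3, 16), ⟨(2, 0), (2, 0), (0, 0), (6, 32), [⟨0, 3, none, 1, true⟩, ⟨1, 3, (some ((1, 1), (4, 0))), 0, false⟩, ⟨2, 3, (some ((3, 2), (0, 1))), 0, true⟩, ⟨2, 4, none, 1, true⟩, ⟨0, 4, (some ((0, 1), (3, 2))), 0, false⟩, ⟨0, 5, (some ((4, 0), (1, 1))), 0, true⟩]⟩, none⟩]⟩,
    n0 := 64, c := 5, eps := 1, u0 := (3, 11), w0 := (-5, -19), su := 1, sw := -1,
    ng := [20, 11, 44, 3, 12, 39, 52, 23, 24, 46, 49, 1, 4, 47, 17, 42, 31, 14, 27, 53, 0, 48, 25, 7, 8, 22, 43, 18, 50, 37, 36, 16, 51, 33, 40, 38, 30, 29, 35, 5, 34, 41, 15, 26, 2, 45, 9, 13, 21, 10, 28, 32, 6, 19],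
    pu0 := 41, pu1 := 33, pw0 := 3, pw1 := 45, F := 10,
    lab := [0, 6, 4, 9, 7, 5, 6, 4, 3, 6, 2, 4, 5, 7, 6, 6, 4, 5, 0, 1, 6, 4, 0, 3, 6, 3, 0, 1, 0, 2, 1, 5, 4, 2, 8, 5, 5, 1, 2, 9, 5, 8, 4, 6, 0, 7, 2, 6, 0, 4, 2, 1, 4, 6],
    repl := [0, 19, 10, 8, 2, 5, 1, 4, 34, 3],
    rk := [0, 0, 0, 0, 0, 0, 3, 4, 0, 9, 0, 1, 1, 2, 7, 6, 7, 2, 6, 0, 1, 3, 3, 1, 4, 2, 2, 1, 5, 4, 3, 3, 6, 2, 0, 5, 4, 2, 3, 1, 6, 1, 8, 5, 1, 1, 1, 8, 4, 2, 5, 4, 5, 2],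
    J := [17, 12, 13, 7], e := 2, roots := [0, 7],
    rk2 := [0, 2, 3, 1, 1, 3, 2, 0, 4, 4],
    mer := [(0, 0), (51, 52), (38, 37), (23, 22), (21, 22), (36, 37), (53, 52), (0, 0), (41, 40), (39, 40)],
    pot := [(0, 0), (-5, -24), (-3, -15), (6, 28), (1, 14), (3, 22), (-6, -28), (3, 24), (5, 32), (-4, -21)],
    tr := [0, 27, 50, 25, 32, 31, 14, 4, 34, 3],
    comb := [(53, -7), (2, -2), (23, 1)] }

theorem Tp_4_3_ok : Tp_4_3.check = true := by decide +kernel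

/-- the classes of this file -/
theorem tpl3 : ∀ x ∈ ([(75, 12), (75, 11), (64, 10)] : List (ℕ × ℕ)), TCovers x.1 x.2 := by
  simp only [List.forall_mem_cons, List.not_mem_nil, IsEmpty.forall_iff, implies_true, and_true]
  exact ⟨Tp_3_2.tcovers Tp_3_2_ok rfl rfl (by norm_num),
    Tp_3_8.tcovers Tp_3_8_ok rfl rfl (by norm_num),
    Tp_4_3.tcovers Tp_4_3_ok rfl rfl (by norm_num)⟩

end Empire
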