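import Mathlib
import Pool.Agent.Lib.MP_800721_co.Cover

/-!
# PROJECT EMPIRE: templates for infinitely many `n` (found by helper7)
-/

namespace Empire

/-- template for `n ≡ 4` modulo `12`, `9` missing differences -/
def Tp_4_9 : Template :=
  { core := ⟨(12, 76), [((6, 36), (0, 1), (-6, -37)), ((6, 37), (0, -3), (-6, -34)), ((-6, -36), (-4, -26), (-2, -14)), ((-2, -16), (2, 10), (0, 6)), ((-2, -15), (0, -1), (2, 16)), ((2, 15), (0, -5), (-2, -10)), ((-5, -28), (-2, -17), (-5, -31)), ((5, 33), (-2, -13), (-3, -20)), ((0, 4), (-2, -12), (2, 8)), ((5, 30), (2, 14), (5, 32)), ((-3, -18), (0, -6), (3, 24)), ((-3, -19), (0, -4), (3, 23)), ((-5, -32), (2, 13), (3, 19)), ((2, 12), (-5, -33), (3, 21)), ((-3, -23), (0, 5), (3, 18)), ((5, 31), (-2, -9), (-3, -22)), ((5, 29), (-2, -8), (-3, -21)), ((-5, -30), (5, 27), (0,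 3)), ((5, 28), (3, 22), (4, 26)), ((2, 9), (-5, -29), (3, 20))],
        [(0, 2), (2, 11), (4, 25), (6, 35), (6, 38)], true,
        [⟨2, (3, 19), ⟨(0, 0), (0, 0), (0, 0), (6, 38), [⟨0, 3, none, 4, true⟩, ⟨1, 3, none, 0, true⟩, ⟨1, 4, (some ((0, 2), (1, 0))), 0, false⟩, ⟨2, 4, none, 4, true⟩, ⟨2, 5, (some ((1, 0), (0, 2))), 0, true⟩, ⟨0, 5, none, 0, false⟩]⟩, none⟩,
          ⟨2, (6, 38), ⟨(2, 2), (3, 1), (0, 0), (-4, -25), [⟨0, 3, none, 2, false⟩, ⟨1, 3, none, 1, false⟩, ⟨2, 3, none, 2, true⟩, ⟨2, 4, none, 3, false⟩, ⟨2, 5, none, 3, true⟩, ⟨0, 5, (some ((4, 0), (5, 0))), 1, true⟩]⟩, none⟩]⟩,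
    n0 := 76, c := 6, eps := -1, u0 := (3, 24), w0 := (5, 27), su := 1, sw := 1,
    ng := [6, 13, 3, 2, 53, 5, 0, 56, 28, 14, 17, 31, 15, 1, 9, 12, 43, 10, 54, 19, 45, 40, 37, 59, 34, 39, 49, 51, 8, 36, 44, 11, 32, 38, 24, 42, 29, 22, 33, 25, 21, 50, 35, 16, 30, 20, 57, 55, 58, 26, 41, 27, 52, 4, 18, 47, 7, 46, 48, 23],
    pu0 := 32, pu1 := 19, pw0 := 52, pw1 := 5, F := 11,
    lab := [0, 3, 3, 0, 3, 8, 3, 0, 2, 5, 3, 4, 5, 3, 3, 3, 5, 4, 1, 0, 4, 6, 10, 2, 4, 10, 9, 7, 3, 2, 7, 5, 4, 7, 10, 4, 7, 2, 10, 9, 10, 6, 7, 4, 5, 1, 4, 2, 6, 4, 9, 3, 7, 8, 0, 1, 2, 2, 4, 6],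
    repl := [0, 18, 8, 1, 11, 9, 21, 27, 5, 26, 22],
    rk := [0, 0, 5, 1, 4, 0, 1, 4, 0, 0, 8, 0, 4, 6, 9, 7, 3, 1, 0, 2, 8, 0, 0, 4, 4, 2, 0, 0, 2, 6, 4, 1, 9, 2, 3, 3, 1, 5, 4, 1, 1, 3, 3, 2, 2, 1, 7, 2, 2, 5, 2, 3, 5, 1, 3, 2, 1, 3, 6, 1],
    J := [10, 9, 18, 7], e := 3, roots := [0, 8, 9],
    rk2 := [0, 1, 1, 2, 3, 3, 2, 2, 0, 0, 2],
    mer := [(0, 0), (55, 54), (56, 54), (28, 29), (32, 30), (31, 30), (21, 23), (27, 29), (0, 0), (0, 0), (22, 23)],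
    pot := [(0, 0), (5, 28), (-4, -26), (6, 37), (-2, -17), (-4, -24), (5, 30), (1, 7), (6, 34), (-4, -25), (-2, -13)],
    tr := [0, 18, 56, 2, 46, 12, 59, 27, 5, 26, 40],
    comb := [(0, -1)] }

theorem Tp_4_9_ok : Tp_4_9.check = true := by decide +kernel

/-- template for `n ≡ 5` modulo `12`, `4` missing differences -/
def Tp_5_4 : Template :=
  { core := ⟨(12, 65), [((0, 5), (0, -1), (0, -4)), ((-3, -12), (-4, -24), (-5, -29)), ((-4, -19), (4, 24), (0, -5)), ((-3, -13), (0, 1), (3, 12)), ((-4, -21), (-3, -16), (-5, -28)), ((-4, -20), (-4, -23), (-4, -22)), ((5, 31), (3, 13), (4, 21)), ((3, 14), (5, 29), (4, 22)), ((-3, -15), (5, 26), (-2, -11)), ((-3, -14), (0, -2), (3, 16)), ((-2, -8), (-5, -30), (-5, -27)), ((4, 23), (-6, -32), (2, 9)), ((-5, -26), (2, 8), (3, 18)), ((3, 15), (4, 20), (5, 30)), ((-2, -10),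 (4, 19), (-2, -9)), ((5, 25), (0, 6), (-5, -31)), ((0, 4), (0, -6), (0, 2)), ((5, 28), (5, 27), (2, 10))],
        [(0, 3), (3, 17)], false,
        [⟨2, (4, 21), ⟨(5, 2), (5, 1), (0, 0), (-4, -21), [⟨0, 3, (some ((4, 0), (6, 2))), 0, true⟩, ⟨1, 3, (some ((3, 1), (0, 1))), 1, false⟩, ⟨2, 3, (some ((6, 2), (4, 0))), 0, false⟩, ⟨2, 4, (some ((1, 1), (2, 1))), 1, false⟩, ⟨0, 4, (some ((0, 1), (3, 1))), 1, true⟩, ⟨0, 5, (some ((6, 2), (4, 0))), 0, false⟩]⟩, (some ⟨(5, 2), (5, 1), (0, 0), (-4, -21), [⟨0, 3, (some ((4, 0), (6, 2))), 0, true⟩, ⟨1, 3, (some ((3, 1), (0, 1))), 1, false⟩, ⟨0, 4, (some ((0, 1), (3, 1))), 1, true⟩, ⟨0, 5, (some ((6, 2), (4, 0))), 0, false⟩]⟩)⟩]⟩,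
    n0 := 65, c := 6, eps := 1, u0 := (5, 25), w0 := (3, 18), su := 1, sw := 1,
    ng := [8, 10, 48, 11, 7, 22, 43, 4, 0, 19, 1, 3, 20, 29, 51, 40, 33, 23, 47, 9, 12, 27, 5, 17, 39, 36, 26, 21, 50, 13, 37, 41, 52, 16, 34, 44, 25, 30, 38, 24, 15, 31, 53, 6, 35, 45, 49, 18, 2, 46, 28, 14, 32, 42],
    pu0 := 45, pu1 := 34, pw0 := 38, pw1 := 26, F := 10,
    lab := [4, 0, 9, 1, 0, 3, 4, 3, 0, 1, 9, 0, 5, 1, 2, 3, 7, 4, 5, 9, 1, 4, 1, 3, 7, 6, 8, 1, 4, 2, 2, 6, 3, 4, 7, 5, 8, 6, 2, 6, 7, 3, 5, 3, 4, 5, 2, 9, 4, 9, 2, 5, 2, 3],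
    repl := [1, 3, 14, 5, 0, 12, 25, 16, 26, 2],
    rk := [0, 0, 0, 0, 2, 0, 7, 1, 1, 5, 1, 3, 0, 3, 0, 6, 0, 4, 5, 2, 4, 3, 1, 7, 2, 0, 0, 2, 2, 1, 5, 2, 4, 5, 3, 3, 1, 3, 4, 1, 1, 5, 2, 2, 6, 4, 3, 3, 1, 4, 2, 1, 6, 3],
    J := [7, 16, 8, 11], e := 2, roots := [0, 1],
    rk2 := [0, 0, 2, 1, 1, 2, 3, 2, 3, 2],
    mer := [(0, 0), (0, 0), (50, 48), (23, 22), (21, 22), (35, 33), (25, 24), (34, 33), (26, 24), (49, 48)],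
    pot := [(0, 0), (3, 12), (0, -4), (-4, -24), (0, -2), (-5, -32), (1, 6), (4, 21), (6, 32), (0, -1)],
    tr := [0, 3, 29, 7, 28, 12, 31, 40, 36, 10],
    comb := [(53, 5), (32, 1), (44, -2)] }

theorem Tp_5_4_ok : Tp_5_4.check = true := by decide +kernel

/-- template for `n ≡ 5` modulo `12`, `10` missing differences -/
def Tp_5_10 : Template :=
  { core := ⟨(12, 89), [((-6, -44), (-2, -16), (-4, -29)), ((-2, -15), (-5, -34), (-5, -40)), ((6, 44), (2, 14), (4, 31)), ((2, 15), (2, 16), (-4, -31)), ((-2, -14), (-3, -20), (5, 34)), ((0, 2), (-5, -37), (5, 35)), ((-2, -11), (5, 37), (-3, -26)), ((0, -4), (-3, -21), (3, 25)), ((-2, -13), (-3, -25), (5, 38)), ((3, 27), (0, -5), (-3, -22)), ((-3, -27), (5, 39), (-2, -12)), ((3, 21), (-6, -43), (3, 22)), ((6, 43), (0, 4), (6, 42)), ((2, 12), (-5, -35), (3, 23)), ((3,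 26), (0, -3), (-3, -23)), ((0, -8), (0, 5), (0, 3)), ((0, 7), (-2, -18), (2, 11)), ((-5, -33), (5, 40), (0, -7)), ((3, 20), (-5, -38), (2, 18)), ((0, 8), (0, -2), (0, -6)), ((0, 6), (-5, -39), (5, 33)), ((3, 28), (-5, -41), (2, 13)), ((-3, -28), (3, 19), (0, 9)), ((5, 41), (0, -9), (-5, -32))],
        [(0, 1), (2, 17), (5, 36), (3, 24), (4, 30)], false,
        [⟨1, (4, 29), ⟨(0, 0), (0, 0), (0, 0), (-4, -30), [⟨0, 3, none, 4, false⟩, ⟨1, 3, (some ((2, 1), (4, 0))), 3, true⟩, ⟨2, 3, none, 4, true⟩, ⟨2, 4, none, 4, false⟩, ⟨2, 5, (some ((4, 0), (2, 1))), 3, false⟩, ⟨0, 5, (some ((3, 0), (1, 0))), 3, true⟩]⟩, (some ⟨(0, 1), (0, 0), (-6, -44), (-4, -30), [⟨0, 3, (some ((2, 1), (4, 0))), 3, true⟩, ⟨1, 3, none, 4, true⟩, ⟨1, 4, none, 4, false⟩, ⟨1, 5, (some ((4, 0), (2, 1))), 3, false⟩]⟩)⟩,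
          ⟨2, (6, 44), ⟨(5, 1), (6, 2), (0, 0), (0, -1), [⟨0, 3, none, 0, false⟩, ⟨1, 3, none, 2, true⟩, ⟨2, 3, none, 0, true⟩, ⟨2, 4, none, 2, false⟩, ⟨2, 5, (some ((8, 1), (7, 2))), 1, false⟩, ⟨0, 5, (some ((10, 0), (9, 0))), 1, false⟩]⟩, (some ⟨(5, 0), (6, 2), (0, -2), (0, -1), [⟨0, 3, none, 0, true⟩, ⟨0, 4, none, 2, false⟩, ⟨0, 5, (some ((8, 1), (7, 2))), 1, false⟩]⟩)⟩]⟩,
    n0 := 89, c := 9, eps := 1, u0 := (3, 19), w0 := (-5, -32), su := 1, sw := -1,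
    ng := [6, 10, 2, 9, 14, 52, 0, 12, 11, 3, 1, 8, 7, 54, 4, 58, 19, 40, 50, 16, 42, 37, 33, 25, 65, 23, 55, 30, 46, 35, 27, 61, 39, 22, 36, 29, 34, 21, 38, 32, 17, 44, 20, 47, 41, 57, 28, 43, 53, 56, 18, 62, 5, 48, 13, 26, 49, 45, 15, 60, 59, 31, 51, 66, 69, 24, 63, 67, 70, 64, 68, 71],
    pu0 := 67, pu1 := 2, pw0 := 71, pw1 := 38, F := 13,
    lab := [10, 11, 1, 1, 0, 6, 11, 10, 0, 0, 1, 11, 0, 10, 6, 7, 5, 4, 4, 4, 5, 8, 2, 4, 10, 8, 4, 1, 3, 4, 3, 1, 7, 4, 2, 1, 1, 2, 8, 3, 7, 4, 4, 5, 3, 5, 4, 3, 4, 6, 4, 4, 1, 6, 6, 10, 4, 4, 5, 7, 4, 7, 1, 10, 9, 8, 9, 10, 12, 8, 9, 12],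
    repl := [4, 2, 22, 28, 17, 16, 5, 15, 21, 64, 0, 1, 68],
    rk := [0, 0, 0, 2, 0, 0, 1, 6, 2, 1, 1, 2, 3, 5, 1, 0, 0, 0, 13, 1, 4, 0, 0, 5, 3, 1, 4, 6, 0, 7, 1, 5, 2, 6, 2, 7, 8, 1, 4, 2, 1, 15, 14, 3, 3, 2, 8, 4, 12, 3, 2, 11, 3, 4, 2, 4, 3, 9, 1, 4, 10, 3, 4, 2, 0, 2, 1, 1, 0, 3, 2, 1],
    J := [12, 22, 14, 20, 18], e := 3, roots := [0, 1, 11],
    rk2 := [0, 0, 1, 2, 1, 2, 2, 1, 1, 3, 2, 0, 3],
    mer := [(0, 0), (0, 0), (37, 36), (44, 42), (60, 62), (43, 42), (54, 56), (61, 62), (38, 36), (66, 67), (55, 56), (0, 0), (68, 67)],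
    pot := [(0, 0), (2, 15), (-4, -31), (5, 42), (-5, -41), (5, 45), (-5, -34), (-5, -35), (-4, -27), (1, 14), (-2, -14), (4, 31), (1, 5)],
    tr := [0, 3, 34, 30, 51, 43, 53, 61, 21, 64, 7, 6, 68],
    comb := [(16, -1), (56, -35), (17, 15)] }

theorem Tp_5_10_ok : Tp_5_10.check = true := by decide +kernel

/-- the classes of this file -/
theorem tpl4 : ∀ x ∈ ([(76, 11), (65, 10), (89, 13)] : List (ℕ × ℕ)), TCovers x.1 x.2 := by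
  simp only [List.forall_mem_cons, List.not_mem_nil, IsEmpty.forall_iff, implies_true, and_true]
  exact ⟨Tp_4_9.tcovers Tp_4_9_ok rfl rfl (by norm_num),
    Tp_5_4.tcovers Tp_5_4_ok rfl rfl (by norm_num),
    Tp_5_10.tcovers Tp_5_10_ok rfl rfl (by norm_num)⟩

end Empire
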