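import Mathlib
import Pool.Agent.Lib.MP_800721_co.Cover

/-!
# PROJECT EMPIRE: templates for infinitely many `n` (found by helper7)
-/

namespace Empire

/-- template for `n ≡ 6` modulo `12`, `5` missing differences -/
def Tp_6_5 : Template :=
  { core := ⟨(12, 90), [((6, 41), (3, 25), (3, 24)), ((-3, -21), (6, 43), (-3, -22)), ((3, 26), (-3, -24), (0, -2)), ((-2, -8), (0, -3), (2, 11)), ((2, 8), (-2, -12), (0, 4)), ((2, 9), (-2, -11), (0, 2)), ((-2, -10), (0, -4), (2, 14)), ((2, 10), (-2, -13), (0, 3)), ((4, 28), (-6, -43), (2, 15)), ((0, -5), (-6, -44), (-6, -41)), ((5, 39), (3, 21), (4, 30)), ((-3, -20), (-2, -17), (5, 37)), ((0, 5), (-5, -40), (5, 35)), ((-4, -30), (-4, -29), (-4, -31)), ((-5, -39), (-5, -36), (-2, -15)), ((-5, -38), (3, 20), (2, 18)), ((2, 16), (5, 36), (5, 38)), ((2, 12), (-5, -34), (3, 22)),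 ((6, 44), (2, 17), (4, 29)), ((-2, -16), (-4, -32), (-6, -42)), ((6, 42), (-2, -14), (-4, -28)), ((4, 31), (4, 32), (4, 27)), ((-2, -9), (-3, -25), (5, 34)), ((2, 13), (0, 6), (-2, -19)), ((4, 33), (0, -6), (-4, -27)), ((-5, -37), (-5, -35), (-2, -18))],
        [(3, 23), (0, 1), (6, 45)], true,
        [⟨4, (3, 22), ⟨(1, 0), (1, 1), (0, 0), (3, 24), [⟨0, 3, (some ((0, 2), (2, 1))), 0, true⟩, ⟨1, 3, none, 2, true⟩, ⟨1, 4, (some ((2, 1), (0, 2))), 0, false⟩, ⟨2, 4, none, 0, true⟩, ⟨2, 5, none, 2, true⟩, ⟨0, 5, none, 0, false⟩]⟩, (some ⟨(1, 0), (1, 1), (0, 0), (3, 24), [⟨0, 3, (some ((0, 2), (2, 1))), 0, true⟩, ⟨1, 4, (some ((2, 1), (0, 2))), 0, false⟩, ⟨2, 5, none, 2, true⟩]⟩)⟩,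
          ⟨6, (2, 15), ⟨(5, 0), (5, 0), (0, 0), (0, -1), [⟨0, 3, none, 1, false⟩, ⟨1, 3, (some ((6, 0), (7, 0))), 1, true⟩, ⟨2, 3, none, 1, true⟩, ⟨2, 4, none, 1, false⟩, ⟨2, 5, (some ((7, 0), (6, 0))), 1, false⟩, ⟨0, 5, (some ((4, 0), (3, 0))), 1, true⟩]⟩, none⟩]⟩,
    n0 := 90, c := 6, eps := -1, u0 := (3, 26), w0 := (-5, -40), su := 1, sw := -1,
    ng := [29, 67, 7, 31, 25, 53, 6, 2, 17, 12, 23, 16, 9, 51, 19, 66, 11, 8, 21, 14, 61, 18, 69, 10, 62, 4, 44, 36, 54, 0, 42, 3, 39, 46, 55, 75, 27, 37, 76, 32, 56, 63, 30, 49, 26, 50, 33, 77, 57, 43, 45, 13, 68, 5, 28, 34, 40, 48, 64, 60, 59, 20, 24, 41, 58, 74, 15, 1, 52, 22, 73, 71, 72, 70, 65, 35, 38, 47],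
    pu0 := 6, pu1 := 71, pw0 := 37, pw1 := 72, F := 14,
    lab := [0, 1, 4, 1, 8, 6, 11, 0, 4, 10, 13, 11, 13, 10, 6, 4, 10, 11, 5, 13, 6, 13, 5, 11, 9, 6, 8, 0, 2, 1, 5, 8, 1, 7, 5, 2, 2, 0, 3, 5, 1, 5, 8, 5, 9, 3, 5, 7, 3, 9, 5, 6, 10, 1, 1, 2, 5, 9, 3, 5, 9, 5, 6, 5, 5, 3, 10, 4, 1, 11, 5, 12, 3, 12, 5, 7, 2, 3],
    repl := [0, 1, 28, 38, 2, 18, 5, 33, 4, 24, 9, 6, 71, 10],
    rk := [0, 0, 0, 5, 0, 0, 0, 1, 3, 0, 0, 2, 1, 4, 4, 2, 1, 1, 0, 2, 3, 3, 15, 3, 0, 1, 3, 3, 0, 1, 10, 1, 4, 0, 6, 3, 1, 2, 0, 11, 3, 4, 2, 9, 1, 5, 7, 2, 4, 2, 8, 5, 3, 6, 2, 4, 5, 3, 3, 2, 4, 1, 2, 12, 3, 2, 2, 1, 7, 4, 14, 0, 1, 1, 13, 1, 2, 6],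
    J := [9, 23, 25, 16, 8, 22], e := 2, roots := [0, 13],
    rk2 := [0, 1, 1, 2, 2, 3, 4, 2, 4, 3, 2, 4, 4, 0],
    mer := [(0, 0), (29, 27), (28, 27), (77, 76), (67, 68), (50, 48), (25, 24), (75, 76), (26, 24), (49, 48), (66, 68), (69, 70), (71, 70), (0, 0)],
    pot := [(0, 0), (6, 41), (0, -5), (-5, -40), (-3, -24), (2, 12), (-3, -27), (5, 32), (-5, -39), (-3, -24), (-1, -15), (-3, -26), (-1, -7), (0, 2)],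
    tr := [0, 29, 36, 38, 2, 50, 5, 33, 42, 57, 52, 11, 71, 21],
    comb := [(60, -4), (3, 2), (63, -3)] }

theorem Tp_6_5_ok : Tp_6_5.check = true := by decide +kernel

/-- template for `n ≡ 6` modulo `12`, `11` missing differences -/
def Tp_6_11 : Template :=
  { core := ⟨(12, 114), [((0, 4), (3, 28), (-3, -32)), ((-3, -31), (-6, -55), (-3, -28)), ((6, 55), (3, 30), (3, 29)), ((0, -10), (2, 22), (-2, -12)), ((0, 10), (2, 14), (-2, -24)), ((0, -9), (2, 23), (-2, -14)), ((0, 9), (2, 12), (-2, -21)), ((-2, -13), (0, -2), (2, 15)), ((-2, -17), (4, 39), (-2, -22)), ((6, 54), (-2, -15), (-4, -39)), ((5, 52), (0, -6), (-5, -46)), ((0, -7), (-5, -44), (5, 51)), ((2, 21), (0, 2), (-2, -23)), ((2, 20), (-5, -45), (3, 25)), ((-6, -54), (2, 17), (4, 37)), ((5, 50), (2, 16), (5, 48)), ((-5, -47), (-2, -16), (-5, -51)), ((5,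 46), (3, 32), (4, 36)), ((-3, -34), (3, 26), (0, 8)), ((-2, -20), (5, 49), (-3, -29)), ((2, 13), (-5, -48), (3, 35)), ((0, 3), (0, 5), (0, -8)), ((4, 40), (0, -4), (-4, -36)), ((3, 33), (0, -3), (-3, -30)), ((5, 45), (4, 38), (3, 31)), ((3, 34), (-5, -52), (2, 18)), ((-5, -43), (-3, -33), (-4, -38)), ((-5, -53), (5, 47), (0, 6)), ((-5, -49), (-3, -25), (-4, -40)), ((5, 44), (-3, -26), (-2, -18)), ((4, 42), (0, -5), (-4, -37)), ((0, 7), (-5, -50), (5, 43))],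
        [(3, 27), (0, 1), (2, 19), (4, 41), (6, 56), (6, 57)], true,
        [⟨4, (3, 28), ⟨(2, 0), (2, 2), (0, 0), (3, 28), [⟨0, 3, (some ((0, 1), (1, 2))), 0, false⟩, ⟨1, 3, none, 0, false⟩, ⟨1, 4, none, 5, true⟩, ⟨2, 4, none, 0, true⟩, ⟨2, 5, (some ((1, 2), (0, 1))), 0, true⟩, ⟨0, 5, none, 5, true⟩]⟩, (some ⟨(2, 0), (2, 2), (0, 0), (3, 28), [⟨0, 3, (some ((0, 1), (1, 2))), 0, false⟩, ⟨1, 4, none, 5, true⟩, ⟨2, 5, (some ((1, 2), (0, 1))), 0, true⟩]⟩)⟩,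
          ⟨6, (2, 19), ⟨(7, 1), (7, 2), (0, 0), (0, -1), [⟨0, 3, none, 1, false⟩, ⟨1, 3, none, 1, true⟩, ⟨2, 3, (some ((5, 2), (4, 1))), 1, false⟩, ⟨2, 4, (some ((3, 2), (6, 1))), 1, true⟩, ⟨0, 4, none, 1, true⟩, ⟨0, 5, (some ((4, 1), (5, 2))), 1, true⟩]⟩, none⟩,
          ⟨2, (6, 57), ⟨(8, 0), (9, 0), (0, 0), (4, 41), [⟨0, 3, none, 3, true⟩, ⟨1, 3, none, 4, false⟩, ⟨2, 3, none, 2, true⟩, ⟨2, 4, none, 4, false⟩, ⟨2, 5, none, 3, false⟩, ⟨0, 5, none, 2, false⟩]⟩, none⟩]⟩,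
    n0 := 114, c := 10, eps := 1, u0 := (-5, -53), w0 := (3, 35), su := -1, sw := 1,
    ng := [67, 5, 52, 74, 6, 1, 4, 71, 59, 12, 26, 19, 9, 17, 14, 18, 38, 13, 15, 11, 36, 60, 37, 28, 43, 29, 10, 42, 23, 25, 76, 83, 51, 93, 87, 50, 20, 22, 16, 57, 72, 85, 27, 24, 92, 94, 49, 61, 82, 46, 35, 32, 2, 68, 75, 88, 65, 39, 84, 8, 21, 47, 62, 70, 91, 56, 86, 0, 53, 79, 63, 7, 40, 80, 3, 54, 30, 89, 95, 69, 73, 81, 48, 31, 58, 41, 66, 34, 55, 77, 90, 64, 44, 33, 45, 78],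
    pu0 := 81, pu1 := 90, pw0 := 62, pw1 := 14, F := 17,
    lab := [0, 4, 2, 4, 9, 2, 2, 9, 7, 13, 10, 11, 10, 13, 16, 13, 15, 16, 15, 13, 11, 12, 16, 11, 10, 14, 11, 14, 12, 11, 0, 1, 0, 8, 7, 0, 15, 11, 16, 5, 7, 4, 12, 14, 10, 12, 8, 6, 0, 6, 8, 0, 0, 2, 1, 3, 7, 7, 5, 2, 16, 12, 6, 7, 12, 1, 2, 4, 0, 9, 12, 7, 4, 7, 9, 3, 1, 0, 7, 12, 9, 1, 6, 0, 2, 5, 4, 0, 7, 3, 10, 1, 12, 7, 8, 12],
    repl := [0, 31, 2, 55, 1, 39, 47, 8, 33, 4, 10, 11, 21, 9, 25, 16, 14],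
    rk := [0, 0, 0, 5, 0, 1, 2, 4, 0, 0, 0, 0, 1, 3, 0, 2, 0, 1, 1, 1, 5, 0, 3, 3, 4, 0, 1, 2, 1, 2, 8, 0, 2, 0, 5, 5, 2, 4, 2, 0, 9, 3, 2, 1, 3, 8, 2, 0, 4, 1, 1, 9, 1, 6, 2, 0, 3, 10, 2, 3, 4, 9, 3, 2, 4, 3, 5, 1, 10, 3, 5, 1, 4, 8, 1, 1, 1, 7, 7, 6, 2, 5, 2, 3, 4, 1, 2, 6, 4, 2, 2, 4, 3, 6, 3, 7],
    J := [18, 20, 13, 26, 14, 22, 12], e := 3, roots := [0, 8, 13],
    rk2 := [0, 3, 1, 3, 1, 2, 4, 2, 0, 3, 4, 5, 3, 0, 4, 5, 4],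
    mer := [(0, 0), (54, 56), (66, 68), (55, 56), (67, 68), (39, 41), (62, 61), (40, 41), (0, 0), (80, 78), (44, 42), (37, 38), (79, 78), (0, 0), (43, 42), (36, 38), (60, 61)],
    pot := [(0, 0), (5, 52), (-4, -36), (2, 18), (0, 4), (3, 29), (-5, -47), (5, 49), (5, 51), (2, 19), (1, 10), (3, 32), (5, 52), (1, 20), (-1, -7), (1, 11), (3, 34)],
    tr := [0, 76, 53, 89, 86, 85, 82, 8, 46, 4, 90, 26, 70, 19, 43, 18, 17],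
    comb := [(95, -7), (1, 10), (94, 7)] }

theorem Tp_6_11_ok : Tp_6_11.check = true := by decide +kernel

/-- template for `n ≡ 7` modulo `12`, `0` missing differences -/
def Tp_7_0 : Template :=
  { core := ⟨(12, 55), [((0, -5), (5, 23), (-5, -18)), ((0, -4), (-6, -26), (-6, -25)), ((0, 3), (2, 7), (-2, -10)), ((6, 24), (0, 4), (6, 27)), ((3, 12), (-5, -20), (2, 8)), ((-6, -27), (-3, -15), (-3, -13)), ((6, 26), (-4, -17), (-2, -9)), ((-2, -7), (5, 19), (-3, -12)), ((-3, -16), (0, 1), (3, 15)), ((-5, -22), (3, 13), (2, 9)), ((5, 20), (-5, -19), (0, -1)), ((6, 25), (3, 14), (3, 16)), ((-2, -8), (-3, -14), (5, 22)), ((5, 21), (-5, -23), (0, 2)), ((2, 10), (3, 11), (-5, -21)), ((0, 5), (0, -3), (0, -2))],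
        [], false,
        []⟩,
    n0 := 55, c := 5, eps := 1, u0 := (3, 11), w0 := (-5, -18), su := 1, sw := -1,
    ng := [45, 40, 2, 10, 18, 33, 46, 21, 42, 9, 3, 15, 23, 30, 36, 11, 26, 28, 4, 19, 29, 7, 31, 12, 35, 32, 16, 38, 17, 20, 13, 22, 25, 5, 37, 24, 14, 34, 27, 44, 1, 47, 8, 43, 39, 0, 6, 41],
    pu0 := 43, pu1 := 19, pw0 := 2, pw1 := 9, F := 9,
    lab := [1, 7, 8, 5, 4, 1, 6, 1, 3, 1, 4, 5, 3, 0, 2, 1, 5, 1, 1, 4, 3, 3, 1, 0, 5, 2, 1, 3, 1, 1, 2, 0, 1, 5, 1, 2, 3, 2, 1, 6, 8, 7, 6, 3, 8, 7, 1, 6],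
    repl := [13, 0, 14, 8, 4, 3, 6, 1, 2],
    rk := [0, 0, 0, 0, 0, 6, 0, 13, 0, 1, 1, 4, 2, 0, 0, 2, 3, 9, 7, 2, 5, 1, 12, 1, 2, 2, 10, 4, 3, 8, 1, 2, 11, 1, 5, 3, 3, 4, 4, 2, 1, 2, 1, 6, 2, 1, 14, 3],
    J := [1, 13, 12], e := 3, roots := [0, 1, 6],
    rk2 := [0, 0, 1, 1, 1, 1, 0, 1, 1],
    mer := [(0, 0), (0, 0), (37, 38), (36, 38), (4, 5), (3, 5), (0, 0), (41, 39), (40, 39)],
    pot := [(0, 0), (-5, -19), (-2, -5), (0, 3), (4, 20), (4, 24), (-2, -7), (-2, -9), (0, -1)],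
    tr := [0, 22, 37, 36, 19, 3, 42, 41, 2],
    comb := [(26, -2)] }

theorem Tp_7_0_ok : Tp_7_0.check = true := by decide +kernel

/-- the classes of this file -/
theorem tpl5 : ∀ x ∈ ([(90, 14), (114, 17), (55, 9)] : List (ℕ × ℕ)), TCovers x.1 x.2 := by
  simp only [List.forall_mem_cons, List.not_mem_nil, IsEmpty.forall_iff, implies_true, and_true]
  exact ⟨Tp_6_5.tcovers Tp_6_5_ok rfl rfl (by norm_num),
    Tp_6_11.tcovers Tp_6_11_ok rfl rfl (by norm_num),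
    Tp_7_0.tcovers Tp_7_0_ok rfl rfl (by norm_num)⟩

end Empire
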