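import Mathlib
import Pool.Agent.Lib.MP_800721_co.Cover

/-!
# PROJECT EMPIRE: templates for infinitely many `n` (found by helper7)
-/

namespace Empire

/-- template for `n ≡ 7` modulo `12`, `6` missing differences -/
def Tp_7_6 : Template :=
  { core := ⟨(12, 67), [((0, -2), (2, 9), (-2, -7)), ((-5, -27), (3, 16), (2, 11)), ((-2, -14), (4, 22), (-2, -8)), ((2, 14), (-4, -24), (2, 10)), ((-2, -12), (2, 13), (0, -1)), ((2, 12), (5, 27), (5, 28)), ((3, 19), (3, 15), (6, 33)), ((-3, -19), (-2, -10), (5, 29)), ((0, 5), (2, 8), (-2, -13)), ((-2, -11), (0, 4), (2, 7)), ((3, 18), (0, 2), (-3, -20)), ((6, 31), (-2, -9), (-4, -22)), ((5, 30), (0, -5), (-5, -25)), ((-6, -31), (-6, -33), (0, -3)), ((3, 20), (0, -4), (-3, -16)), ((-5, -29), (-3, -17), (-4, -21)), ((-5, -28), (0, 3), (5, 25)), ((3, 17), (0, 1), (-3, -18))],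
        [(4, 23), (5, 26), (6, 32)], false,
        [⟨2, (6, 33), ⟨(0, 0), (1, 0), (0, 0), (-2, -14), [⟨0, 3, (some ((2, 0), (3, 0))), 2, false⟩, ⟨1, 3, (some ((4, 0), (5, 0))), 1, true⟩, ⟨1, 4, none, 0, false⟩, ⟨2, 4, none, 2, false⟩, ⟨2, 5, (some ((6, 0), (7, 0))), 0, true⟩, ⟨0, 5, none, 1, true⟩]⟩, (some ⟨(0, 1), (1, 0), (0, -2), (-2, -14), [⟨0, 3, (some ((4, 0), (5, 0))), 1, true⟩, ⟨1, 4, none, 2, false⟩, ⟨1, 5, (some ((6, 0), (7, 0))), 0, true⟩]⟩)⟩]⟩,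
    n0 := 67, c := 5, eps := 1, u0 := (3, 15), w0 := (5, 30), su := 1, sw := 1,
    ng := [31, 34, 29, 16, 44, 27, 9, 35, 25, 6, 10, 22, 15, 26, 52, 12, 3, 48, 21, 19, 40, 18, 11, 45, 37, 8, 13, 5, 43, 2, 53, 0, 42, 39, 1, 7, 36, 24, 50, 33, 20, 49, 32, 28, 4, 23, 51, 47, 17, 41, 38, 46, 14, 30],
    pu0 := 19, pu1 := 47, pw0 := 36, pw1 := 10, F := 10,
    lab := [0, 2, 6, 6, 5, 1, 3, 7, 2, 7, 3, 5, 5, 4, 2, 4, 5, 6, 7, 9, 8, 9, 7, 5, 4, 3, 2, 6, 1, 0, 5, 2, 0, 7, 6, 2, 8, 3, 4, 6, 7, 8, 5, 0, 1, 9, 5, 5, 4, 6, 8, 5, 5, 2],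
    repl := [0, 5, 1, 6, 13, 4, 2, 7, 20, 19],
    rk := [0, 0, 0, 5, 0, 0, 0, 0, 5, 1, 3, 6, 2, 0, 3, 1, 1, 4, 3, 0, 0, 1, 2, 5, 4, 1, 4, 6, 2, 1, 9, 1, 3, 5, 1, 6, 1, 2, 3, 2, 4, 3, 10, 2, 1, 2, 4, 7, 2, 3, 2, 8, 3, 2],
    J := [10, 8, 9, 13], e := 2, roots := [0, 9],
    rk2 := [0, 1, 1, 2, 2, 1, 1, 2, 2, 0],
    mer := [(0, 0), (28, 29), (31, 32), (25, 26), (24, 26), (30, 32), (27, 29), (40, 39), (41, 39), (0, 0)],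
    pot := [(0, 0), (0, -4), (0, -2), (-2, -10), (-2, -15), (-3, -20), (2, 7), (-4, -24), (2, 10), (-1, -5)],
    tr := [0, 28, 31, 25, 13, 4, 27, 33, 20, 21],
    comb := [(52, -4)] }

theorem Tp_7_6_ok : Tp_7_6.check = true := by decide +kernel

/-- template for `n ≡ 8` modulo `12`, `1` missing differences -/
def Tp_8_1 : Template :=
  { core := ⟨(12, 80), [((-4, -26), (2, 9), (2, 17)), ((4, 27), (0, -2), (-4, -25)), ((-4, -27), (-2, -15), (-6, -38)), ((-6, -36), (6, 39), (0, -3)), ((6, 36), (-6, -37), (0, 1)), ((-2, -10), (6, 38), (-4, -28)), ((2, 10), (-2, -12), (0, 2)), ((2, 12), (-5, -31), (3, 19)), ((4, 28), (2, 15), (6, 37)), ((-2, -7), (2, 11), (0, -4)), ((2, 14), (-2, -18), (0, 4)), ((-3, -23), (5, 31), (-2, -8)), ((-2, -17), (-5, -33), (-5, -30)), ((-2, -9), (-3, -24), (5, 33)), ((5, 34), (3, 20), (4,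 26)), ((-5, -34), (-5, -32), (-2, -14)), ((5, 30), (2, 18), (5, 32)), ((6, 35), (3, 24), (3, 21)), ((0, -1), (3, 23), (-3, -22)), ((0, 3), (-2, -16), (2, 13)), ((-2, -13), (0, 5), (2, 8)), ((-6, -39), (-3, -21), (-3, -20)), ((0, -5), (2, 16), (-2, -11)), ((3, 22), (2, 7), (-5, -29))],
        [(6, 40)], true,
        [⟨2, (1, 6), ⟨(0, 0), (0, 1), (0, 0), (4, 27), [⟨0, 3, (some ((1, 0), (2, 0))), 0, true⟩, ⟨1, 3, (some ((2, 0), (1, 0))), 0, true⟩, ⟨2, 3, (some ((3, 0), (4, 0))), 0, true⟩, ⟨2, 4, (some ((5, 0), (6, 0))), 0, true⟩, ⟨0, 4, (some ((2, 0), (1, 0))), 0, true⟩, ⟨0, 5, (some ((4, 0), (3, 0))), 0, true⟩]⟩, (some ⟨(0, 0), (0, 1), (0, 0), (4, 27), [⟨0, 3, (some ((1, 0), (2, 0))), 0, true⟩, ⟨1, 3, (some ((2, 0), (1, 0))), 0, true⟩, ⟨2, 4, (some ((5, 0), (6, 0))), 0, true⟩, ⟨0, 4, (some ((2, 0), (1, 0))), 0,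 true⟩]⟩)⟩]⟩,
    n0 := 80, c := 5, eps := 1, u0 := (3, 19), w0 := (-5, -29), su := 1, sw := -1,
    ng := [44, 39, 36, 6, 20, 5, 3, 25, 16, 12, 63, 57, 9, 26, 54, 18, 8, 24, 15, 21, 4, 19, 34, 23, 17, 7, 13, 70, 68, 32, 47, 49, 29, 55, 22, 62, 2, 41, 48, 1, 52, 37, 45, 65, 0, 42, 50, 30, 38, 31, 46, 51, 40, 64, 14, 33, 69, 11, 67, 60, 59, 66, 35, 10, 53, 43, 61, 58, 28, 56, 27, 71],
    pu0 := 23, pu1 := 5, pw0 := 71, pw1 := 51, F := 13,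
    lab := [10, 4, 9, 0, 12, 8, 12, 0, 11, 1, 2, 3, 2, 1, 0, 1, 12, 11, 12, 1, 8, 8, 1, 0, 1, 11, 0, 8, 6, 3, 3, 5, 8, 6, 0, 1, 10, 9, 8, 9, 4, 8, 10, 3, 4, 3, 10, 5, 10, 8, 5, 2, 8, 4, 2, 0, 6, 1, 3, 7, 1, 7, 6, 3, 2, 4, 6, 7, 3, 2, 6, 8],
    repl := [3, 9, 10, 11, 1, 31, 28, 59, 5, 2, 0, 8, 4],
    rk := [0, 0, 0, 0, 0, 0, 1, 6, 0, 0, 0, 0, 1, 8, 4, 6, 2, 2, 3, 5, 1, 2, 4, 1, 7, 1, 5, 4, 0, 5, 4, 0, 5, 3, 2, 3, 1, 2, 7, 1, 4, 8, 4, 2, 1, 3, 3, 1, 2, 6, 2, 4, 9, 3, 2, 3, 2, 1, 7, 0, 2, 2, 4, 1, 5, 2, 5, 1, 6, 3, 1, 3],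
    J := [20, 21, 18, 10, 12], e := 3, roots := [0, 11, 12],
    rk2 := [0, 2, 1, 2, 2, 3, 1, 2, 3, 4, 4, 0, 0],
    mer := [(0, 0), (60, 62), (54, 55), (63, 64), (65, 64), (31, 30), (56, 55), (61, 62), (32, 30), (37, 38), (36, 38), (0, 0), (0, 0)],
    pot := [(0, 0), (5, 31), (-1, -5), (5, 34), (-4, -26), (-5, -32), (2, 17), (3, 18), (4, 24), (-2, -17), (0, 0), (-2, -15), (4, 27)],
    tr := [0, 22, 12, 11, 65, 47, 56, 59, 71, 39, 42, 25, 6],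
    comb := [(4, 1)] }

theorem Tp_8_1_ok : Tp_8_1.check = true := by decide +kernel

/-- template for `n ≡ 8` modulo `12`, `7` missing differences -/
def Tp_8_7 : Template :=
  { core := ⟨(12, 80), [((4, 29), (3, 20), (5, 31)), ((-5, -33), (-3, -18), (-4, -29)), ((3, 23), (6, 39), (3, 18)), ((-6, -39), (-3, -21), (-3, -20)), ((-3, -19), (0, 2), (3, 17)), ((-4, -27), (-6, -38), (-2, -15)), ((2, 12), (2, 13), (-4, -25)), ((4, 27), (-2, -13), (-2, -14)), ((0, 6), (0, -4), (0, -2)), ((4, 30), (0, -6), (-4, -24)), ((-4, -30), (4, 26), (0, 4)), ((2, 8), (5, 35), (5, 37)), ((2, 9), (0, 3), (-2, -12)), ((5, 36), (5, 33), (2, 11)), ((0, -3), (-2, -11), (2, 14)), ((-3, -17), (3, 22), (0, -5)), ((5, 32), (-5, -37), (0, 5)), ((3, 19), (-5, -34), (2, 15)), ((-5, -32), (-3, -22), (-4, -26)), ((-2, -8), (4, 24), (-2, -16)),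 ((-5, -36), (-2, -9), (-5, -35)), ((5, 34), (4, 25), (3, 21))],
        [(0, 1), (2, 10), (4, 28), (6, 40)], true,
        [⟨3, (4, 26), ⟨(4, 1), (4, 2), (0, 0), (0, 1), [⟨0, 3, none, 0, true⟩, ⟨1, 3, none, 0, false⟩, ⟨2, 3, (some ((1, 1), (2, 2))), 1, false⟩, ⟨2, 4, (some ((3, 2), (0, 1))), 1, true⟩, ⟨0, 4, none, 0, false⟩, ⟨0, 5, (some ((2, 2), (1, 1))), 1, true⟩]⟩, (some ⟨(4, 1), (4, 2), (0, 0), (0, 1), [⟨0, 3, none, 0, true⟩, ⟨2, 4, (some ((3, 2), (0, 1))), 1, true⟩, ⟨0, 4, none, 0, false⟩, ⟨0, 5, (some ((2, 2), (1, 1))), 1, true⟩]⟩)⟩,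
          ⟨2, (3, 20), ⟨(6, 0), (6, 0), (0, 0), (6, 40), [⟨0, 3, none, 3, true⟩, ⟨1, 3, none, 2, true⟩, ⟨1, 4, (some ((5, 0), (7, 0))), 2, false⟩, ⟨2, 4, none, 3, true⟩, ⟨2, 5, (some ((7, 0), (5, 0))), 2, true⟩, ⟨0, 5, none, 2, false⟩]⟩, none⟩]⟩,
    n0 := 80, c := 6, eps := -1, u0 := (3, 23), w0 := (5, 31), su := 1, sw := 1,
    ng := [5, 11, 2, 40, 8, 0, 6, 9, 4, 7, 65, 1, 51, 26, 45, 21, 16, 53, 38, 22, 64, 15, 19, 44, 28, 32, 13, 30, 24, 58, 27, 56, 25, 57, 62, 49, 61, 42, 18, 60, 3, 43, 37, 41, 23, 14, 55, 50, 54, 35, 47, 12, 63, 17, 48, 46, 31, 33, 29, 59, 39, 36, 34, 52, 20, 10],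
    pu0 := 6, pu1 := 59, pw0 := 2, pw1 := 16, F := 12,
    lab := [10, 3, 0, 10, 8, 3, 8, 0, 3, 3, 0, 0, 1, 2, 6, 0, 10, 2, 1, 7, 0, 10, 0, 7, 2, 5, 6, 4, 5, 2, 5, 4, 6, 4, 8, 1, 1, 11, 7, 11, 8, 10, 7, 11, 10, 1, 6, 9, 9, 4, 1, 2, 1, 0, 4, 9, 6, 8, 4, 2, 8, 11, 1, 0, 1, 0],
    repl := [2, 12, 13, 1, 27, 25, 14, 19, 4, 47, 0, 37],
    rk := [0, 0, 0, 5, 0, 1, 5, 9, 2, 3, 8, 1, 0, 0, 0, 5, 1, 2, 6, 0, 3, 2, 4, 3, 5, 0, 1, 0, 1, 4, 2, 5, 2, 2, 3, 3, 5, 0, 1, 2, 1, 4, 2, 3, 3, 1, 4, 0, 2, 3, 2, 1, 8, 6, 4, 1, 3, 4, 1, 3, 2, 1, 4, 7, 7, 2],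
    J := [12, 17, 9, 18, 13], e := 2, roots := [0, 3],
    rk2 := [0, 1, 1, 0, 2, 2, 3, 2, 3, 3, 3, 2],
    mer := [(0, 0), (52, 53), (51, 53), (0, 0), (27, 29), (28, 29), (56, 54), (38, 36), (40, 39), (55, 54), (41, 39), (37, 36)],
    pot := [(0, 0), (-4, -25), (2, 15), (-3, -20), (-2, -9), (2, 21), (2, 17), (-2, -13), (0, -2), (5, 39), (-4, -27), (-2, -16)],
    tr := [0, 64, 17, 1, 58, 28, 56, 19, 4, 55, 21, 61],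
    comb := [(33, 1)] }

theorem Tp_8_7_ok : Tp_8_7.check = true := by decide +kernel

/-- the classes of this file -/
theorem tpl6 : ∀ x ∈ ([(67, 10), (80, 13), (80, 12)] : List (ℕ × ℕ)), TCovers x.1 x.2 := by
  simp only [List.forall_mem_cons, List.not_mem_nil, IsEmpty.forall_iff, implies_true, and_true]
  exact ⟨Tp_7_6.tcovers Tp_7_6_ok rfl rfl (by norm_num),
    Tp_8_1.tcovers Tp_8_1_ok rfl rfl (by norm_num),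
    Tp_8_7.tcovers Tp_8_7_ok rfl rfl (by norm_num)⟩

end Empire
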