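import Mathlib
import Pool.Agent.Lib.MP_800721_co.Cover

/-!
# PROJECT EMPIRE: templates for infinitely many `n` (found by helper7)
-/

namespace Empire

/-- template for `n ≡ 10` modulo `12`, `9` missing differences -/
def Tp_10_9 : Template :=
  { core := ⟨(12, 70), [((3, 15), (0, 4), (-3, -19)), ((0, 2), (3, 19), (-3, -21)), ((-3, -16), (0, -2), (3, 18)), ((-4, -23), (-2, -13), (-6, -34)), ((2, 13), (-2, -14), (0, 1)), ((-2, -8), (-3, -20), (5, 28)), ((-4, -22), (2, 8), (2, 14)), ((0, -5), (0, 6), (0, -1)), ((5, 29), (5, 31), (2, 10)), ((-5, -31), (-2, -9), (-5, -30)), ((-5, -28), (0, -4), (5, 32)), ((3, 20), (2, 9), (-5, -29)), ((4, 24), (5, 30), (3, 16)), ((-5, -32), (5, 27), (0, 5)), ((0, -3), (-3, -18), (3, 21)), ((4, 23), (0, 3), (-4, -26)), ((-4, -24), (6, 34), (-2, -10)), ((0, -6), (-5, -27), (5, 33))],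
        [(3, 17), (2, 11), (2, 12), (4, 25), (6, 35)], true,
        [⟨4, (3, 17), ⟨(2, 0), (2, 1), (0, 0), (3, 19), [⟨0, 3, (some ((1, 1), (0, 2))), 0, true⟩, ⟨1, 3, none, 4, true⟩, ⟨1, 4, (some ((0, 2), (1, 1))), 0, false⟩, ⟨2, 4, none, 0, false⟩, ⟨2, 5, none, 4, true⟩, ⟨0, 5, none, 0, true⟩]⟩, (some ⟨(2, 0), (2, 1), (0, 0), (3, 19), [⟨0, 3, (some ((1, 1), (0, 2))), 0, true⟩, ⟨1, 4, (some ((0, 2), (1, 1))), 0, false⟩, ⟨2, 5, none, 4, true⟩]⟩)⟩,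
          ⟨2, (6, 35), ⟨(3, 0), (4, 1), (0, 0), (-2, -11), [⟨0, 3, none, 1, false⟩, ⟨1, 3, none, 2, true⟩, ⟨2, 3, none, 3, true⟩, ⟨2, 4, none, 2, true⟩, ⟨2, 5, none, 1, true⟩, ⟨0, 5, none, 3, false⟩]⟩, none⟩]⟩,
    n0 := 70, c := 6, eps := 1, u0 := (3, 15), w0 := (5, 33), su := 1, sw := 1,
    ng := [0, 31, 4, 7, 2, 44, 38, 3, 43, 45, 12, 49, 10, 20, 23, 19, 33, 30, 18, 15, 13, 41, 51, 14, 35, 27, 50, 25, 34, 37, 17, 1, 39, 16, 28, 24, 48, 29, 6, 32, 52, 21, 46, 8, 5, 9, 42, 47, 36, 11, 26, 22, 40, 53],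
    pu0 := 0, pu1 := 18, pw0 := 53, pw1 := 47, F := 10,
    lab := [0, 8, 4, 7, 0, 4, 2, 0, 7, 2, 1, 4, 4, 1, 6, 6, 0, 4, 1, 0, 6, 6, 9, 4, 4, 5, 3, 3, 5, 0, 6, 4, 8, 4, 0, 5, 2, 3, 0, 6, 8, 9, 4, 2, 7, 1, 2, 4, 3, 2, 4, 4, 9, 8],
    repl := [0, 10, 6, 26, 2, 25, 14, 3, 1, 22],
    rk := [0, 0, 0, 0, 1, 12, 0, 2, 2, 3, 0, 6, 7, 3, 0, 2, 6, 2, 2, 7, 1, 5, 0, 8, 4, 0, 0, 1, 2, 4, 3, 1, 3, 3, 5, 1, 5, 2, 3, 4, 2, 1, 11, 1, 1, 1, 2, 10, 3, 4, 5, 9, 2, 1],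
    J := [5, 17, 14, 8], e := 2, roots := [0, 1],
    rk2 := [0, 0, 2, 2, 1, 2, 1, 2, 2, 2],
    mer := [(0, 0), (0, 0), (43, 42), (26, 24), (17, 16), (25, 24), (15, 16), (44, 42), (53, 51), (52, 51)],
    pot := [(0, 0), (4, 22), (-4, -25), (-5, -30), (-3, -20), (2, 9), (-3, -21), (5, 27), (-3, -24), (-3, -26)],
    tr := [0, 18, 9, 37, 50, 25, 14, 8, 1, 41],
    comb := [(46, 8), (53, 10), (0, -7)] }

theorem Tp_10_9_ok : Tp_10_9.check = true := by decide +kernel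

/-- template for `n ≡ 11` modulo `12`, `4` missing differences -/
def Tp_11_4 : Template :=
  { core := ⟨(12, 71), [((-3, -23), (3, 25), (0, -2)), ((2, 7), (-5, -31), (3, 24)), ((-5, -34), (2, 12), (3, 22)), ((5, 29), (-2, -7), (-3, -22)), ((5, 34), (-3, -24), (-2, -10)), ((3, 26), (0, -5), (-3, -21)), ((5, 33), (-2, -8), (-3, -25)), ((5, 32), (2, 8), (5, 31)), ((-5, -33), (3, 23), (2, 10)), ((-2, -19), (2, 14), (0, 5)), ((0, 2), (-2, -18), (2, 16)), ((-4, -28), (2, 19), (2, 9)), ((-2, -17), (0, 4), (2, 13)), ((-2, -15), (0, -3), (2, 18)), ((-2, -14), (4, 27), (-2, -13)), ((0, -4), (2, 15), (-2, -11)), ((-6, -35), (-2, -9), (-4, -27)), ((3, 21), (2, 11), (-5, -32)), ((-2, -20), (0, 3), (2, 17)), ((-2, -12), (-2, -16), (4, 28))],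
        [(0, 1), (5, 30)], false,
        [⟨3, (4, 23), ⟨(0, 0), (0, 0), (0, 0), (0, 1), [⟨0, 3, none, 0, true⟩, ⟨1, 3, (some ((1, 2), (4, 1))), 1, true⟩, ⟨2, 3, none, 0, false⟩, ⟨2, 4, none, 0, true⟩, ⟨2, 5, (some ((4, 1), (1, 2))), 1, false⟩, ⟨0, 5, (some ((3, 2), (2, 2))), 1, true⟩]⟩, (some ⟨(0, 0), (0, 0), (0, 0), (0, 1), [⟨0, 3, none, 0, true⟩, ⟨1, 3, (some ((1, 2), (4, 1))), 1, true⟩, ⟨2, 3, none, 0, false⟩, ⟨0, 5, (some ((3, 2), (2, 2))), 1, true⟩]⟩)⟩]⟩,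
    n0 := 71, c := 5, eps := 1, u0 := (5, 29), w0 := (3, 26), su := 1, sw := 1,
    ng := [25, 20, 30, 10, 23, 13, 12, 57, 11, 9, 3, 8, 6, 5, 26, 15, 29, 51, 24, 22, 1, 53, 19, 4, 18, 0, 14, 34, 42, 16, 2, 41, 58, 59, 27, 49, 56, 45, 44, 46, 55, 31, 28, 50, 38, 37, 39, 52, 48, 35, 43, 17, 47, 21, 54, 40, 36, 7, 32, 33],
    pu0 := 9, pu1 := 48, pw0 := 15, pw1 := 54, F := 11,
    lab := [0, 1, 2, 9, 5, 4, 9, 0, 10, 10, 5, 9, 0, 9, 4, 5, 7, 8, 1, 4, 2, 5, 2, 4, 4, 1, 0, 7, 3, 8, 0, 2, 3, 10, 3, 7, 7, 6, 8, 2, 6, 3, 8, 3, 7, 8, 6, 2, 3, 10, 7, 5, 8, 2, 7, 3, 6, 10, 0, 3],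
    repl := [0, 1, 2, 28, 5, 4, 37, 16, 17, 3, 8],
    rk := [0, 0, 0, 0, 0, 0, 2, 3, 0, 4, 1, 3, 4, 1, 4, 2, 0, 0, 2, 2, 1, 4, 2, 1, 3, 1, 5, 6, 0, 1, 1, 6, 3, 2, 1, 5, 2, 0, 3, 5, 2, 4, 2, 7, 3, 4, 3, 4, 6, 3, 4, 3, 5, 3, 1, 5, 1, 1, 2, 2],
    J := [11, 15, 7, 10], e := 3, roots := [0, 1, 9],
    rk2 := [0, 0, 1, 1, 2, 2, 2, 2, 2, 0, 2],
    mer := [(0, 0), (0, 0), (31, 30), (32, 30), (23, 22), (21, 22), (46, 47), (35, 34), (45, 47), (0, 0), (33, 34)],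
    pot := [(0, 0), (-3, -23), (0, 2), (-2, -16), (2, 10), (-5, -30), (-2, -13), (0, 3), (-2, -9), (5, 34), (2, 12)],
    tr := [0, 25, 20, 32, 14, 21, 46, 27, 17, 13, 33],
    comb := [(36, -1)] }

theorem Tp_11_4_ok : Tp_11_4.check = true := by decide +kernel

/-- template for `n ≡ 11` modulo `12`, `10` missing differences -/
def Tp_11_10 : Template :=
  { core := ⟨(12, 95), [((0, 7), (2, 10), (-2, -17)), ((0, -7), (5, 44), (-5, -37)), ((0, -6), (0, 2), (0, 4)), ((0, 5), (5, 39), (-5, -44)), ((-2, -12), (0, -5), (2, 17)), ((-2, -14), (-4, -35), (-6, -46)), ((4, 31), (5, 40), (3, 24)), ((-6, -47), (4, 35), (2, 12)), ((6, 47), (3, 26), (3, 22)), ((-3, -22), (-5, -42), (-4, -31)), ((2, 11), (5, 43), (5, 41)), ((3, 20), (0, 6), (-3, -26)), ((6, 46), (-3, -21), (-3, -25)), ((-4, -32), (-5, -40), (-3, -23)), ((2, 13),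 (-2, -10), (0, -3)), ((2, 18), (3, 25), (-5, -43)), ((-2, -13), (4, 32), (-2, -19)), ((4, 34), (-4, -30), (0, -4)), ((-2, -15), (-5, -41), (-5, -39)), ((-2, -11), (4, 29), (-2, -18)), ((0, 3), (3, 21), (-3, -24)), ((4, 30), (3, 23), (5, 42)), ((0, -2), (4, 36), (-4, -34)), ((2, 14), (-4, -29), (2, 15)), ((-3, -20), (3, 28), (0, -8)), ((5, 37), (0, 8), (-5, -45))],
        [(0, 1), (3, 27), (2, 16), (4, 33), (5, 38)], false,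
        [⟨3, (4, 31), ⟨(2, 1), (2, 2), (0, 0), (0, 1), [⟨0, 3, none, 0, true⟩, ⟨1, 3, none, 0, false⟩, ⟨2, 3, (some ((4, 1), (3, 0))), 1, true⟩, ⟨2, 4, (some ((1, 0), (0, 0))), 1, false⟩, ⟨0, 4, none, 0, false⟩, ⟨0, 5, (some ((3, 0), (4, 1))), 1, false⟩]⟩, (some ⟨(2, 1), (2, 2), (0, 0), (0, 1), [⟨0, 3, none, 0, true⟩, ⟨2, 4, (some ((1, 0), (0, 0))), 1, false⟩, ⟨0, 4, none, 0, false⟩, ⟨0, 5, (some ((3, 0), (4, 1))), 1, false⟩]⟩)⟩,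
          ⟨4, (6, 47), ⟨(5, 0), (6, 0), (0, 0), (-6, -47), [⟨0, 3, (some ((7, 0), (8, 0))), 4, true⟩, ⟨1, 3, none, 3, false⟩, ⟨1, 4, none, 4, true⟩, ⟨2, 4, (some ((9, 0), (8, 2))), 2, true⟩, ⟨2, 5, none, 3, true⟩, ⟨0, 5, none, 2, false⟩]⟩, (some ⟨(5, 1), (6, 2), (-2, -14), (3, 24), [⟨0, 3, none, 4, true⟩, ⟨1, 3, (some ((9, 0), (8, 2))), 2, true⟩, ⟨1, 4, none, 3, true⟩]⟩)⟩]⟩,
    n0 := 95, c := 8, eps := -1, u0 := (3, 28), w0 := (-5, -45), su := 1, sw := -1,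
    ng := [3, 43, 14, 0, 11, 75, 34, 66, 53, 13, 56, 4, 23, 9, 2, 69, 22, 36, 29, 40, 62, 24, 16, 12, 21, 35, 27, 26, 65, 18, 57, 47, 55, 72, 6, 25, 17, 61, 46, 49, 19, 64, 48, 1, 60, 59, 38, 31, 42, 39, 50, 68, 63, 8, 71, 32, 10, 30, 70, 45, 44, 37, 20, 52, 41, 28, 7, 67, 51, 15, 58, 54, 33, 73, 76, 5, 74, 77],
    pu0 := 73, pu1 := 50, pw0 := 77, pw1 := 67, F := 14,
    lab := [9, 3, 6, 3, 9, 3, 5, 3, 4, 9, 11, 3, 6, 11, 9, 0, 11, 8, 8, 13, 12, 6, 8, 11, 8, 6, 5, 8, 5, 13, 1, 2, 3, 6, 3, 5, 0, 8, 3, 7, 12, 13, 12, 6, 3, 2, 0, 3, 6, 12, 7, 4, 7, 5, 11, 1, 3, 2, 1, 0, 12, 3, 8, 5, 7, 13, 4, 3, 7, 11, 0, 1, 3, 6, 10, 3, 3, 10],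
    repl := [15, 30, 31, 1, 8, 6, 2, 39, 17, 0, 74, 10, 20, 19],
    rk := [0, 0, 0, 1, 3, 8, 0, 4, 0, 2, 0, 9, 7, 1, 1, 0, 3, 0, 4, 0, 0, 6, 1, 2, 2, 5, 4, 3, 3, 1, 0, 0, 11, 4, 5, 5, 1, 6, 13, 0, 1, 3, 3, 1, 15, 2, 2, 12, 2, 2, 4, 2, 2, 1, 5, 1, 10, 1, 3, 3, 4, 14, 5, 2, 1, 2, 1, 3, 3, 4, 4, 2, 6, 3, 0, 2, 7, 1],
    J := [15, 24, 17, 23, 13, 20], e := 2, roots := [0, 9],
    rk2 := [0, 1, 1, 1, 4, 4, 2, 3, 2, 0, 2, 1, 2, 3],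
    mer := [(0, 0), (71, 70), (45, 46), (47, 46), (51, 52), (53, 52), (73, 72), (39, 40), (62, 61), (0, 0), (74, 72), (69, 70), (60, 61), (41, 40)],
    pot := [(0, 0), (-4, -29), (-2, -18), (3, 25), (3, 27), (3, 31), (5, 35), (-5, -34), (-6, -42), (3, 18), (-4, -25), (-2, -14), (3, 22), (-2, -11)],
    tr := [0, 58, 45, 32, 66, 53, 43, 68, 27, 0, 77, 69, 60, 65],
    comb := [(74, 10), (75, 23), (72, 9)] }

theorem Tp_11_10_ok : Tp_11_10.check = true := by decide +kernel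

/-- the classes of this file -/
theorem tpl8 : ∀ x ∈ ([(70, 10), (71, 11), (95, 14)] : List (ℕ × ℕ)), TCovers x.1 x.2 := by
  simp only [List.forall_mem_cons, List.not_mem_nil, IsEmpty.forall_iff, implies_true, and_true]
  exact ⟨Tp_10_9.tcovers Tp_10_9_ok rfl rfl (by norm_num),
    Tp_11_4.tcovers Tp_11_4_ok rfl rfl (by norm_num),
    Tp_11_10.tcovers Tp_11_10_ok rfl rfl (by norm_num)⟩

end Empire
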