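import Mathlib
import Pool.Agent.Lib.MP_800721_co.Cover
import Pool.Agent.Lib.MP_800721_co.SmallData
import Pool.Agent.Lib.MP_800721_co.Assembly
import Pool.Agent.Lib.MP_800721_co.Plain1
import Pool.Agent.Lib.MP_800721_co.Plain2
import Pool.Agent.Lib.MP_800721_co.Plain3
import Pool.Agent.Lib.MP_800721_co.Plain4
import Pool.Agent.Lib.MP_800721_co.Plain5
import Pool.Agent.Lib.MP_800721_co.Plain6
import Pool.Agent.Lib.MP_800721_co.Plain7
import Pool.Agent.Lib.MP_800721_co.Sgl.S01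
import Pool.Agent.Lib.MP_800721_co.Sgl.S02
import Pool.Agent.Lib.MP_800721_co.Sgl.S03
import Pool.Agent.Lib.MP_800721_co.Sgl.S04
import Pool.Agent.Lib.MP_800721_co.Sgl.S05
import Pool.Agent.Lib.MP_800721_co.Tpl1
import Pool.Agent.Lib.MP_800721_co.Tpl2
import Pool.Agent.Lib.MP_800721_co.Tpl3
import Pool.Agent.Lib.MP_800721_co.Tpl4
import Pool.Agent.Lib.MP_800721_co.Tpl5
import Pool.Agent.Lib.MP_800721_co.Tpl6
import Pool.Agent.Lib.MP_800721_co.Tpl7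
import Pool.Agent.Lib.MP_800721_co.Tpl8

/-!
# PROJECT EMPIRE: all the pairs `(n, m)`
-/

namespace Empire

/-- the templates: `(n0, F)` -/
def tplTab : List (ℕ × ℕ) :=
  [(72, 11), (108, 16), (49, 8)] ++
  [(61, 9), (62, 10), (86, 13)] ++
  [(75, 12), (75, 11), (64, 10)] ++
  [(76, 11), (65, 10), (89, 13)] ++
  [(90, 14), (114, 17), (55, 9)] ++
  [(67, 10), (80, 13), (80, 12)] ++
  [(69, 11), (81, 12), (70, 11)] ++
  [(70, 10), (71, 11), (95, 14)]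

/-- the certificates for single `n`: `(n, F, k)` -/
def sglTab : List (ℕ × ℕ × ℕ) :=
  [(26, 3, 0), (27, 3, 0), (29, 3, 0), (30, 2, 0), (30, 3, 0), (30, 4, 0), (32, 2, 0), (32, 4, 0)] ++
  [(35, 2, 0), (35, 4, 0), (36, 2, 0), (38, 3, 0), (38, 5, 0), (42, 2, 0), (42, 4, 0), (42, 5, 0)] ++
  [(36, 4, 0), (41, 3, 0), (41, 5, 0), (42, 3, 0)] ++
  [(47, 2, 0), (47, 4, 0), (47, 6, 0)] ++
  [(54, 3, 0), (54, 5, 0), (54, 7, 0)] ++
  [(66, 3, 0), (66, 5, 0)] ++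
  [(66, 7, 0), (66, 9, 0)] ++
  [(26, 4, 1), (27, 4, 1), (28, 4, 1), (28, 3, 0), (29, 4, 1), (31, 5, 1), (31, 4, 1), (32, 5, 1), (33, 5, 1), (33, 4, 1), (34, 5, 1), (34, 4, 1), (35, 5, 1), (36, 5, 1), (37, 6, 2), (37, 5, 1), (38, 6, 2), (39, 6, 2), (39, 5, 1), (40, 6, 2), (40, 5, 1), (41, 6, 2), (42, 6, 0), (43, 7, 2), (43, 6, 2), (44, 7, 2), (44, 6, 2), (45, 7, 2), (45, 6, 2), (46, 7, 2), (46, 6, 2), (47, 7, 2), (48, 7, 2), (48, 4, 1), (48, 6, 0)] ++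
  [(49, 7, 2), (50, 8, 3), (50, 7, 2), (51, 8, 3), (51, 7, 2), (52, 8, 3), (52, 7, 2), (53, 8, 3), (53, 7, 2), (54, 8, 3), (55, 8, 3), (56, 9, 3), (56, 8, 3), (57, 9, 3), (57, 8, 3), (58, 9, 3), (58, 8, 3), (59, 9, 3), (60, 9, 3), (60, 8, 3), (62, 9, 3)] ++
  [(63, 10, 4), (63, 9, 3), (64, 9, 3), (65, 9, 3), (66, 10, 4), (68, 11, 4), (68, 10, 4), (69, 10, 4), (71, 10, 4), (72, 10, 4), (74, 11, 4), (77, 11, 4), (78, 12, 5), (78, 11, 4)] ++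
  [(83, 12, 5), (84, 12, 5), (90, 13, 5), (96, 14, 6), (102, 15, 6)] ++
  [(59, 8, 3)]

theorem tplTab_ok : ∀ x ∈ tplTab, TCovers x.1 x.2 := by
  unfold tplTab
  simp only [List.forall_mem_append]
  exact ⟨⟨⟨⟨⟨⟨⟨tpl1, tpl2⟩, tpl3⟩, tpl4⟩, tpl5⟩, tpl6⟩, tpl7⟩, tpl8⟩

theorem sglTab_ok : ∀ x ∈ sglTab, Covers x.1 x.2.1 x.2.2 := by
  unfold sglTab
  simp only [List.forall_mem_append]
  exact ⟨⟨⟨⟨⟨⟨⟨⟨⟨⟨⟨plain1, plain2⟩, plain3⟩, plain4⟩, plain5⟩, plain6⟩, plain7⟩, sgl01⟩, sgl02⟩, sgl03⟩, sgl04⟩, sgl05⟩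

theorem table_ok : tableOK tplTab sglTab 26 114 = true := by decide +kernel

theorem tpl_ok : tplOK tplTab 114 = true := by decide +kernel

/-- **All `m`-split complete graphs embed in the right surface.** -/
theorem hasSplit_all {n m : ℕ} (hm : 2 ≤ m) (hnm : 6 * m + 1 ≤ n) :
    HasSplit n m := by
  rcases Nat.lt_or_ge n 26 with h | h
  · exact hasSplit_small hm hnm (by omega)
  · exact hasSplit_of_tables tplTab_ok (sglTab_ok) table_ok tpl_ok h hm hnm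

/-- **The empire problem**: for every genus `g ≥ 1` and every empire size `m ≥ 2` the least number of
colours which always suffices is the Heawood number. -/
theorem empire {g m : ℕ} (hg : 1 ≤ g) (hm : 2 ≤ m) : IsLeast {k | Suffices g m k} (heawood g m) :=
  empire_of_hasSplit (fun _ _ h1 h2 => hasSplit_all h1 h2) hg hm

end Empire
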