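import Mathlib
import Pool.Agent.Lib.MP_800721_co.Small

/-!
# PROJECT EMPIRE: a checker for explicit `m`-split embeddings, larger digits (`n < 64`)
-/

namespace Empire

open Equiv Equiv.Perm

/-- the certificate of an explicit `m`-split embedding of `K_n` -/
structure Cert2 where
  /-- number of countries -/
  n : ℕ
  /-- number of regions per country -/
  m : ℕ
  /-- number of cycles of the face permutation -/
  c : ℕ
  /-- table of the rotations (6 bits, index `n v + u`) -/
  R : ℕ
  /-- table of the inverse rotations (6 bits) -/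
  P : ℕ
  /-- table of the labels of the cycles (3 bits) -/
  L : ℕ
  /-- table of the ranks (6 bits) -/
  K : ℕ
  /-- table of the representatives of the cycles (6 bits, index `8 v + i`) -/
  S : ℕ
  /-- table of the face labels (10 bits, index `n u + v`) -/
  F : ℕ
  /-- table of the representatives of the faces (12 bits) -/
  G : ℕ
  /-- table of the ranks of the regions (8 bits, index `8 v + i`) -/
  C : ℕ
  /-- table of the connecting neighbours of the regions (6 bits, index `8 v + i`) -/
  W : ℕ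

namespace Cert2

variable (D : Cert2)

/-- rotation -/
def nx (v u : ℕ) : ℕ := digB D.R 6 (D.n * v + u)
/-- inverse rotation -/
def px (v u : ℕ) : ℕ := digB D.P 6 (D.n * v + u)
/-- label -/
def lab (v u : ℕ) : ℕ := digB D.L 3 (D.n * v + u)
/-- rank -/
def rk (v u : ℕ) : ℕ := digB D.K 6 (D.n * v + u)
/-- representative -/
def rep (v i : ℕ) : ℕ := digB D.S 6 (8 * v + i)
/-- face label -/
def fl (u v : ℕ) : ℕ := digB D.F 10 (D.n * u + v)
/-- face representative -/
def fr (i : ℕ) : ℕ := digB D.G 12 i
/-- rank of a region -/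
def cr (v i : ℕ) : ℕ := digB D.C 8 (8 * v + i)
/-- connecting neighbour of a region -/
def cw (v i : ℕ) : ℕ := digB D.W 6 (8 * v + i)

/-- the tests at `(v, u)` -/
def test1 (v u : ℕ) : Bool :=
  Nat.blt (D.nx v u) D.n && Nat.blt (D.px v u) D.n && Nat.beq (D.px v (D.nx v u)) u &&
    Nat.beq (D.nx v (D.px v u)) u && Nat.beq (D.lab v (D.nx v u)) (D.lab v u) &&
    Nat.ble (D.lab v u) D.m &&
    (Nat.beq u (D.rep v (D.lab v u)) || Nat.beq (D.rk v (D.nx v u) + 1) (D.rk v u)) &&
    Nat.beq (D.fl v (D.nx v u)) (D.fl u v) && Nat.blt (D.fl u v) D.c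

/-- the tests at `(v, i)` -/
def test2 (v i : ℕ) : Bool :=
  Nat.blt (D.rep v i) D.n && Nat.beq (D.lab v (D.rep v i)) i &&
    (Nat.beq i (D.lab v v) || (Nat.beq v 0 && Nat.beq i (D.lab 0 1)) ||
      (Nat.blt (D.cw v i) D.n && !(Nat.beq (D.cw v i) v) && Nat.beq (D.lab v (D.cw v i)) i &&
        Nat.blt (D.cr (D.cw v i) (D.lab (D.cw v i) v)) (D.cr v i)))

/-- the tests at a face -/
def test3 (i : ℕ) : Bool :=
  Nat.blt (D.fr i) (D.n * D.n) && Nat.beq (digB D.F 10 (D.fr i)) i

/-- the complete test -/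
def check : Bool :=
  Nat.ble 2 D.n && allB D.n (fun v => Nat.beq (D.nx v v) v && Nat.beq (D.rep v (D.lab v v)) v &&
      allB D.n (D.test1 v) &&
      allB (D.m + 1) (D.test2 v)) && allB D.c D.test3 &&
    Nat.ble (D.n * (D.n - 1) + 3 * D.n) (3 * D.c + 5)

end Cert2

theorem hasSplit_of_check2 (D : Cert2) (h : D.check = true) : HasSplit D.n D.m := by
  simp only [Cert2.check, Cert2.test1, Cert2.test2, Cert2.test3, Bool.and_eq_true, allB_iff,
    Bool.or_eq_true, natBeq_true, Nat.ble_eq, Nat.blt_eq, Bool.not_eq_true',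
    natBeq_false] at h
  obtain ⟨⟨⟨hn2, hv⟩, hf⟩, hcount⟩ := h
  have hnx : ∀ v < D.n, ∀ u < D.n, D.nx v u < D.n := fun v h u h' =>
    ((hv v h).1.2 u h').1.1.1.1.1.1.1.1
  have hpx : ∀ v < D.n, ∀ u < D.n, D.px v u < D.n := fun v h u h' =>
    ((hv v h).1.2 u h').1.1.1.1.1.1.1.2
  have hpn : ∀ v < D.n, ∀ u < D.n, D.px v (D.nx v u) = u := fun v h u h' =>
    ((hv v h).1.2 u h').1.1.1.1.1.1.2
  have hnp : ∀ v < D.n, ∀ u < D.n, D.nx v (D.px v u) = u := fun v h u h' =>
    ((hv v h).1.2 u h').1.1.1.1.1.2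
  have hlab : ∀ v < D.n, ∀ u < D.n, D.lab v (D.nx v u) = D.lab v u := fun v h u h' =>
    ((hv v h).1.2 u h').1.1.1.1.2
  have hlabm : ∀ v < D.n, ∀ u < D.n, D.lab v u ≤ D.m := fun v h u h' =>
    ((hv v h).1.2 u h').1.1.1.2
  have hrk : ∀ v < D.n, ∀ u < D.n, u = D.rep v (D.lab v u) ∨ D.rk v (D.nx v u) + 1 = D.rk v u :=
    fun v h u h' => ((hv v h).1.2 u h').1.1.2
  have hfl : ∀ v < D.n, ∀ u < D.n, D.fl v (D.nx v u) = D.fl u v := fun v h u h' =>
    ((hv v h).1.2 u h').1.2
  have hflc : ∀ v < D.n, ∀ u < D.n, D.fl u v < D.c := fun v h u h' => ((hv v h).1.2 u h').2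
  let rot : Fin D.n → Perm (Fin D.n) := fun v =>
    { toFun := fun u => ⟨D.nx v u, hnx v v.2 u u.2⟩
      invFun := fun u => ⟨D.px v u, hpx v v.2 u u.2⟩
      left_inv := fun u => Fin.ext (hpn v v.2 u u.2)
      right_inv := fun u => Fin.ext (hnp v v.2 u u.2) }
  have hrot : ∀ v u, rot v u = ⟨D.nx v u, hnx v v.2 u u.2⟩ := fun v u => rfl
  have hself : ∀ v, rot v v = v := fun v => Fin.ext (hv v v.2).1.1.1
  refine ⟨rot, hself, ?_, ?_, ?_⟩
  · intro v
    have hrep : ∀ i : Fin (D.m + 1), D.rep v i < D.n := fun i => ((hv v v.2).2 i i.2).1.1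
    have hlr : ∀ i : Fin (D.m + 1), D.lab v (D.rep v i) = i := fun i => ((hv v v.2).2 i i.2).1.2
    apply le_antisymm
    · -- every element is in the cycle of the representative of its label
      refine cyc_le_of_reps (fun i : Fin (D.m + 1) => (⟨D.rep v i, hrep i⟩ : Fin D.n)) ?_
      have key : ∀ r : ℕ, ∀ u : Fin D.n, D.rk v u = r → (rot v).SameCycle u
          ⟨D.rep v (D.lab v u), hrep ⟨D.lab v u, Nat.lt_succ_of_le (hlabm v v.2 u u.2)⟩⟩ := by
        intro r
        induction r with
        | zero =>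
          intro u hu
          rcases hrk v v.2 u u.2 with h | h
          · have e : u = (⟨D.rep v (D.lab v u),
              hrep ⟨D.lab v u, Nat.lt_succ_of_le (hlabm v v.2 u u.2)⟩⟩ : Fin D.n) := Fin.ext h
            rw [← e]
          · omega
        | succ r ih =>
          intro u hu
          rcases hrk v v.2 u u.2 with h | h
          · have e : u = (⟨D.rep v (D.lab v u),
              hrep ⟨D.lab v u, Nat.lt_succ_of_le (hlabm v v.2 u u.2)⟩⟩ : Fin D.n) := Fin.ext h
            rw [← e]
          · have h1 := ih (rot v u) (by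
              change D.rk v (D.nx v u) = r
              omega)
            have h2 : D.lab v (rot v u : Fin D.n) = D.lab v u := hlab v v.2 u u.2
            simp only [h2] at h1
            exact sameCycle_apply_left.1 h1
      intro u
      exact ⟨⟨D.lab v u, Nat.lt_succ_of_le (hlabm v v.2 u u.2)⟩, key _ u rfl⟩
    · refine le_cyc_of_label (fun u => (⟨D.lab v u, Nat.lt_succ_of_le (hlabm v v.2 u u.2)⟩ :
        Fin (D.m + 1))) ?_ ?_
      · intro u
        exact Fin.ext (hlab v v.2 u u.2)
      · intro i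
        exact ⟨⟨D.rep v i, hrep i⟩, Fin.ext (hlr i)⟩
  · -- connectivity
    intro f hf1 hf2
    have hp : ∀ d : Fin D.n × Fin D.n, d.1 ≠ d.2 → Present ∅ d := fun d hd =>
      ⟨hd, Finset.notMem_empty _⟩
    have hstep : ∀ v u : Fin D.n, v ≠ u → (f (v, u) ↔ f (v, rot v u)) := by
      intro v u huv
      rw [hf2 (v, u) (hp _ huv)]
      exact hf1 (u, v) (hp _ (Ne.symm huv))
    -- darts of the same region
    have hrne : ∀ v u : Fin D.n, v ≠ u → v ≠ rot v u := fun v u huv h =>
      huv ((rot v).injective ((hself v).trans h))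
    have hreg : ∀ v : Fin D.n, ∀ r : ℕ, ∀ u : Fin D.n, D.rk v u = r → v ≠ u →
        ∀ w : Fin D.n, (w : ℕ) = D.rep v (D.lab v u) → (f (v, u) ↔ f (v, w)) := by
      intro v r
      induction r with
      | zero =>
        intro u hu hvu w hw
        rcases hrk v v.2 u u.2 with h | h
        · have : u = w := Fin.ext (h.trans hw.symm)
          rw [this]
        · omega
      | succ r ih =>
        intro u hu hvu w hw
        rcases hrk v v.2 u u.2 with h | h
        · have : u = w := Fin.ext (h.trans hw.symm)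
          rw [this]
        · rw [hstep v u hvu]
          refine ih (rot v u) ?_ (hrne v u hvu) w ?_
          · change D.rk v (D.nx v u) = r
            omega
          · rw [hw]
            congr 1
            exact (hlab v v.2 u u.2).symm
    have hreg' : ∀ v u u' : Fin D.n, v ≠ u → v ≠ u' → D.lab v u = D.lab v u' →
        (f (v, u) ↔ f (v, u')) := by
      intro v u u' h1 h2 h3
      have h4 : D.rep v (D.lab v u) < D.n :=
        ((hv v v.2).2 _ (Nat.lt_succ_of_le (hlabm v v.2 u u.2))).1.1
      rw [hreg v _ u rfl h1 ⟨_, h4⟩ rfl, hreg v _ u' rfl h2 ⟨_, h4⟩ (by simp [h3])]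
    -- all regions
    have h0n : 0 < D.n := by omega
    have h1n : 1 < D.n := by omega
    have hlabv : ∀ v u : Fin D.n, v ≠ u → D.lab v u ≠ D.lab v v := by
      intro v u hvu hl
      -- otherwise the cycle of `u` is that of `v`
      have key : ∀ r : ℕ, ∀ u : Fin D.n, D.rk v u = r → D.lab v u = D.lab v v → u = v := by
        intro r
        induction r with
        | zero =>
          intro u hu hl
          rcases hrk v v.2 u u.2 with h | h
          · apply Fin.ext
            rw [h, hl]
            exact (hv v v.2).1.1.2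
          · omega
        | succ r ih =>
          intro u hu hl
          rcases hrk v v.2 u u.2 with h | h
          · apply Fin.ext
            rw [h, hl]
            exact (hv v v.2).1.1.2
          · have h1 := ih (rot v u) (by
              change D.rk v (D.nx v u) = r
              omega) ((hlab v v.2 u u.2).trans hl)
            exact (rot v).injective (h1.trans (hself v).symm)
      exact hvu (key _ u rfl hl).symm
    have hall : ∀ r : ℕ, ∀ v u : Fin D.n, v ≠ u → D.cr v (D.lab v u) ≤ r →
        (f (v, u) ↔ f (⟨0, h0n⟩, ⟨1, h1n⟩)) := by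
      intro r
      induction r with
      | zero =>
        intro v u hvu hr
        have h1 := ((hv v v.2).2 _ (Nat.lt_succ_of_le (hlabm v v.2 u u.2))).2
        rcases h1 with (h1 | ⟨h1, h2⟩) | h1
        · exact absurd h1 (hlabv v u hvu)
        · have hv0 : v = ⟨0, h0n⟩ := Fin.ext h1
          subst hv0
          exact hreg' _ _ _ hvu (by simp) h2
        · omega
      | succ r ih =>
        intro v u hvu hr
        have h1 := ((hv v v.2).2 _ (Nat.lt_succ_of_le (hlabm v v.2 u u.2))).2
        rcases h1 with (h1 | ⟨h1, h2⟩) | h1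
        · exact absurd h1 (hlabv v u hvu)
        · have hv0 : v = ⟨0, h0n⟩ := Fin.ext h1
          subst hv0
          exact hreg' _ _ _ hvu (by simp) h2
        · obtain ⟨⟨⟨h2, h3⟩, h4⟩, h5⟩ := h1
          let w : Fin D.n := ⟨D.cw v (D.lab v u), h2⟩
          have hwv : w ≠ v := fun h => h3 (congrArg Fin.val h)
          rw [hreg' v u w hvu (Ne.symm hwv) h4.symm, hf2 (v, w) (hp _ (Ne.symm hwv))]
          refine ih w v hwv ?_
          change D.cr (D.cw v (D.lab v u)) (D.lab (D.cw v (D.lab v u)) v) ≤ r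
          omega
    intro d e hd he
    rw [hall _ d.1 d.2 hd.1 le_rfl, hall _ e.1 e.2 he.1 le_rfl]
  · -- faces
    have hcyc : D.c ≤ cyc (faceP rot) := by
      refine le_cyc_of_label (fun d : Fin D.n × Fin D.n =>
        (⟨D.fl d.1 d.2, hflc d.2 d.2.2 d.1 d.1.2⟩ : Fin D.c)) ?_ ?_
      · rintro ⟨u, v⟩
        exact Fin.ext (hfl v v.2 u u.2)
      · intro i
        obtain ⟨h1, h2⟩ := hf i i.2
        have hn0 : 0 < D.n := by omega
        refine ⟨(⟨D.fr i / D.n, Nat.div_lt_of_lt_mul h1⟩, ⟨D.fr i % D.n, Nat.mod_lt _ hn0⟩), ?_⟩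
        apply Fin.ext
        change digB D.F 10 (D.n * (D.fr i / D.n) + D.fr i % D.n) = i
        rw [Nat.div_add_mod]
        exact h2
    omega

end Empire
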