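import Mathlib
import Pool.Agent.Lib.MP_800721_co.Cover

/-!
# PROJECT EMPIRE: templates for infinitely many `n` (found by helper7)
-/

namespace Empire

/-- template for `n ≡ 9` modulo `12`, `2` missing differences -/
def Tp_9_2 : Template :=
  { core := ⟨(12, 69), [((6, 34), (4, 25), (2, 10)), ((-6, -34), (2, 13), (4, 21)), ((2, 12), (2, 11), (-4, -23)), ((-2, -12), (-4, -24), (-6, -33)), ((0, 1), (-4, -25), (4, 24)), ((0, -1), (0, -2), (0, 3)), ((-2, -7), (-5, -32), (-5, -30)), ((-2, -8), (-3, -19), (5, 27)), ((4, 26), (-4, -21), (0, -5)), ((-2, -11), (2, 7), (0, 4)), ((0, 5), (-2, -13), (2, 8)), ((3, 15), (0, 2), (-3, -17)), ((-2, -9), (-5, -29), (-5, -31)), ((-2, -10), (-3, -18), (5, 28)), ((-5, -27), (5, 31), (0, -4)), ((4, 23), (5, 29), (3, 17)), ((-5, -28), (2, 9), (3, 19)), ((3, 20), (6, 33), (3, 16)), ((3, 18),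 (0, -3), (-3, -15)), ((-2, -14), (-3, -16), (5, 30))],
        [(4, 22)], false,
        [⟨1, (2, 11), ⟨(0, 0), (1, 0), (0, 0), (2, 12), [⟨0, 3, (some ((2, 0), (3, 0))), 0, true⟩, ⟨1, 3, none, 0, false⟩, ⟨2, 3, none, 0, true⟩, ⟨2, 4, (some ((4, 0), (5, 0))), 0, true⟩, ⟨2, 5, (some ((3, 0), (2, 0))), 0, false⟩, ⟨0, 5, none, 0, false⟩]⟩, (some ⟨(0, 0), (1, 0), (0, 0), (2, 12), [⟨0, 3, (some ((2, 0), (3, 0))), 0, true⟩, ⟨2, 4, (some ((4, 0), (5, 0))), 0, true⟩, ⟨0, 5, none, 0, false⟩]⟩)⟩]⟩,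
    n0 := 69, c := 5, eps := -1, u0 := (3, 20), w0 := (-5, -32), su := 1, sw := -1,
    ng := [3, 13, 39, 0, 31, 25, 9, 27, 45, 6, 14, 52, 15, 1, 10, 12, 34, 55, 28, 19, 59, 32, 50, 42, 24, 5, 30, 7, 18, 44, 26, 4, 21, 56, 16, 47, 49, 46, 43, 2, 54, 48, 23, 38, 29, 8, 37, 35, 41, 36, 22, 51, 11, 58, 40, 17, 33, 57, 53, 20],
    pu0 := 51, pu1 := 57, pw0 := 19, pw1 := 24, F := 11,
    lab := [0, 2, 4, 2, 0, 1, 5, 3, 6, 3, 5, 2, 5, 4, 2, 4, 5, 7, 2, 3, 2, 2, 0, 8, 2, 2, 1, 6, 3, 2, 2, 1, 0, 10, 7, 5, 8, 10, 6, 0, 4, 10, 2, 8, 6, 5, 6, 10, 0, 10, 8, 9, 3, 2, 10, 4, 7, 2, 9, 2],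
    repl := [0, 5, 1, 7, 2, 6, 8, 17, 23, 51, 33],
    rk := [0, 0, 0, 1, 5, 0, 0, 0, 0, 1, 5, 13, 4, 1, 14, 2, 3, 0, 10, 3, 4, 7, 3, 0, 5, 2, 2, 1, 4, 9, 6, 1, 4, 0, 1, 2, 2, 2, 3, 1, 4, 4, 8, 3, 2, 1, 4, 1, 2, 3, 1, 0, 2, 12, 5, 3, 2, 3, 1, 11],
    J := [18, 16, 17, 10], e := 3, roots := [0, 5, 6],
    rk2 := [0, 1, 1, 2, 2, 0, 0, 2, 1, 2, 1],
    mer := [(0, 0), (31, 32), (30, 32), (52, 53), (55, 54), (0, 0), (0, 0), (56, 54), (50, 48), (51, 53), (49, 48)],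
    pot := [(0, 0), (2, 13), (2, 8), (-5, -29), (-2, -10), (-2, -11), (-3, -18), (-2, -13), (-3, -19), (4, 20), (-5, -28)],
    tr := [0, 31, 21, 19, 2, 12, 27, 17, 23, 51, 33],
    comb := [(58, 2), (59, -1), (37, -1)] }

theorem Tp_9_2_ok : Tp_9_2.check = true := by decide +kernel

/-- template for `n ≡ 9` modulo `12`, `8` missing differences -/
def Tp_9_8 : Template :=
  { core := ⟨(12, 81), [((0, -6), (0, 1), (0, 5)), ((3, 19), (-6, -37), (3, 18)), ((6, 37), (3, 20), (3, 24)), ((2, 14), (0, 3), (-2, -17)), ((2, 15), (0, -4), (-2, -11)), ((2, 17), (-2, -16), (0, -1)), ((-5, -33), (3, 22), (2, 11)), ((-4, -25), (6, 40), (-2, -15)), ((-3, -20), (-2, -12), (5, 32)), ((-5, -30), (2, 9), (3, 21)), ((-4, -27), (-5, -32), (-3, -22)), ((4, 26), (2, 10), (-6, -36)), ((0, -5), (5, 34), (-5, -29)), ((5, 29), (-3, -21), (-2,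 -8)), ((-4, -28), (-3, -19), (-5, -34)), ((-5, -31), (-4, -26), (-3, -24)), ((-2, -10), (-3, -23), (5, 33)), ((-2, -14), (0, 6), (2, 8)), ((4, 27), (3, 23), (5, 31)), ((0, 4), (-6, -40), (6, 36)), ((2, 12), (0, -3), (-2, -9)), ((2, 16), (5, 30), (5, 35))],
        [(6, 38), (6, 39), (0, 2), (2, 13)], false,
        [⟨3, (4, 27), ⟨(0, 0), (0, 2), (0, 0), (6, 38), [⟨0, 3, none, 0, true⟩, ⟨1, 3, (some ((1, 1), (2, 0))), 1, true⟩, ⟨2, 3, none, 0, false⟩, ⟨2, 4, none, 1, false⟩, ⟨0, 4, (some ((2, 0), (1, 1))), 1, false⟩, ⟨0, 5, none, 0, false⟩]⟩, none⟩,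
          ⟨3, (4, 27), ⟨(4, 1), (4, 2), (0, 0), (0, -2), [⟨0, 3, none, 2, false⟩, ⟨1, 3, none, 2, true⟩, ⟨2, 3, none, 3, true⟩, ⟨2, 4, (some ((5, 0), (3, 2))), 3, true⟩, ⟨0, 4, none, 2, true⟩, ⟨0, 5, none, 3, false⟩]⟩, none⟩]⟩,
    n0 := 81, c := 6, eps := 1, u0 := (3, 18), w0 := (5, 35), su := 1, sw := 1,
    ng := [52, 17, 36, 43, 6, 5, 4, 24, 47, 51, 61, 15, 23, 57, 20, 11, 63, 1, 50, 32, 14, 21, 58, 12, 7, 60, 31, 64, 62, 40, 54, 26, 19, 46, 48, 59, 2, 44, 39, 38, 29, 53, 42, 3, 37, 56, 33, 8, 34, 55, 18, 9, 0, 41, 30, 49, 45, 13, 22, 35, 25, 10, 28, 16, 27, 65],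
    pu0 := 5, pu1 := 21, pw0 := 65, pw1 := 42, F := 12,
    lab := [5, 6, 9, 0, 1, 3, 3, 1, 11, 6, 7, 1, 1, 10, 2, 6, 1, 9, 2, 8, 1, 1, 3, 10, 11, 1, 1, 0, 1, 7, 8, 11, 1, 3, 4, 2, 5, 9, 0, 5, 0, 7, 9, 1, 0, 11, 4, 3, 2, 4, 8, 7, 6, 5, 11, 8, 4, 2, 10, 3, 1, 1, 7, 9, 1, 0],
    repl := [3, 4, 14, 5, 34, 0, 1, 10, 19, 2, 13, 8],
    rk := [0, 0, 0, 0, 0, 0, 1, 14, 0, 2, 0, 11, 3, 0, 0, 3, 10, 1, 4, 0, 4, 2, 5, 1, 1, 13, 6, 2, 8, 3, 3, 2, 5, 3, 0, 2, 1, 4, 4, 2, 3, 2, 3, 1, 5, 4, 1, 2, 3, 3, 1, 1, 1, 3, 3, 2, 2, 1, 2, 4, 7, 12, 4, 2, 9, 1],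
    J := [6, 18, 9, 7, 12], e := 2, roots := [0, 6],
    rk2 := [0, 1, 2, 2, 3, 1, 0, 1, 2, 1, 2, 3],
    mer := [(0, 0), (28, 27), (18, 20), (22, 21), (56, 55), (36, 38), (0, 0), (29, 27), (19, 20), (37, 38), (23, 21), (54, 55)],
    pot := [(0, 0), (3, 19), (5, 30), (-3, -18), (1, 8), (-5, -29), (-5, -35), (-3, -21), (-2, -15), (-5, -34), (3, 22), (-4, -30)],
    tr := [0, 43, 14, 5, 46, 39, 52, 29, 55, 37, 58, 31],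
    comb := [(60, -4), (64, 1)] }

theorem Tp_9_8_ok : Tp_9_8.check = true := by decide +kernel

/-- template for `n ≡ 10` modulo `12`, `3` missing differences -/
def Tp_10_3 : Template :=
  { core := ⟨(12, 70), [((0, 4), (-3, -20), (3, 16)), ((-2, -13), (2, 12), (0, 1)), ((3, 20), (-3, -19), (0, -1)), ((5, 28), (-3, -16), (-2, -12)), ((3, 17), (6, 34), (3, 19)), ((5, 29), (5, 30), (2, 11)), ((-2, -8), (0, -5), (2, 13)), ((-4, -25), (-4, -23), (-4, -22)), ((0, -4), (3, 21), (-3, -17)), ((-4, -24), (-3, -18), (-5, -28)), ((2, 10), (-6, -34), (4, 24)), ((-5, -29), (0, -2), (5, 31)), ((4, 25), (3, 18), (5, 27)), ((2, 9), (0, 5), (-2, -14)), ((-5, -31), (-2, -9), (-5, -30)), ((0, -3), (2, 14), (-2, -11)), ((4, 23), (-4, -26), (0, 3)), ((-2, -10), (0, 2), (2, 8)), ((-3, -21), (3, 15), (0, 6)), ((-5, -27), (0, -6), (5, 33))],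
        [(5, 32), (6, 35)], true,
        [⟨3, (3, 17), ⟨(4, 0), (4, 2), (0, 0), (3, 16), [⟨0, 3, (some ((0, 2), (3, 1))), 0, false⟩, ⟨1, 3, (some ((2, 2), (1, 2))), 0, false⟩, ⟨2, 3, none, 1, true⟩, ⟨2, 4, (some ((1, 2), (2, 2))), 0, true⟩, ⟨2, 5, (some ((3, 1), (0, 2))), 0, true⟩, ⟨0, 5, none, 1, true⟩]⟩, (some ⟨(4, 1), (4, 2), (3, 17), (3, 16), [⟨0, 3, (some ((2, 2), (1, 2))), 0, false⟩, ⟨1, 3, none, 1, true⟩, ⟨1, 4, (some ((1, 2), (2, 2))), 0, true⟩]⟩)⟩]⟩,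
    n0 := 70, c := 6, eps := 1, u0 := (3, 15), w0 := (5, 33), su := 1, sw := 1,
    ng := [24, 6, 10, 20, 11, 8, 1, 14, 5, 29, 2, 4, 26, 31, 7, 33, 44, 47, 53, 40, 3, 36, 48, 23, 0, 54, 12, 32, 37, 9, 51, 13, 27, 15, 52, 42, 21, 28, 57, 43, 19, 46, 35, 39, 16, 50, 41, 17, 22, 49, 45, 30, 34, 18, 25, 55, 58, 38, 56, 59],
    pu0 := 55, pu1 := 23, pw0 := 59, pw1 := 49, F := 11,
    lab := [0, 9, 4, 3, 2, 4, 4, 9, 3, 2, 0, 4, 9, 1, 3, 7, 5, 8, 3, 7, 2, 0, 10, 8, 9, 0, 1, 2, 1, 0, 2, 3, 1, 5, 7, 2, 10, 0, 1, 8, 2, 7, 5, 2, 8, 8, 8, 7, 8, 10, 8, 3, 2, 7, 1, 0, 6, 10, 1, 6],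
    repl := [0, 13, 4, 3, 2, 16, 56, 15, 17, 1, 22],
    rk := [0, 0, 0, 0, 0, 2, 1, 3, 1, 8, 1, 3, 2, 0, 2, 0, 0, 0, 5, 3, 1, 4, 0, 5, 1, 6, 1, 7, 5, 2, 6, 3, 6, 1, 5, 4, 1, 3, 4, 2, 2, 2, 2, 3, 1, 7, 3, 1, 6, 3, 4, 4, 5, 4, 2, 5, 0, 2, 3, 1],
    J := [5, 8, 10, 19], e := 3, roots := [0, 4, 5],
    rk2 := [0, 1, 2, 2, 0, 0, 2, 1, 1, 1, 2],
    mer := [(0, 0), (26, 25), (30, 32), (31, 32), (0, 0), (0, 0), (59, 58), (15, 16), (17, 16), (24, 25), (57, 58)],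
    pot := [(0, 0), (3, 21), (-5, -28), (-3, -15), (-3, -16), (0, 3), (3, 15), (-5, -23), (5, 33), (0, 4), (-4, -25)],
    tr := [0, 54, 9, 31, 11, 42, 56, 19, 46, 12, 36],
    comb := [(23, -12), (52, -21), (13, 1)] }

theorem Tp_10_3_ok : Tp_10_3.check = true := by decide +kernel

/-- the classes of this file -/
theorem tpl7 : ∀ x ∈ ([(69, 11), (81, 12), (70, 11)] : List (ℕ × ℕ)), TCovers x.1 x.2 := by
  simp only [List.forall_mem_cons, List.not_mem_nil, IsEmpty.forall_iff, implies_true, and_true]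
  exact ⟨Tp_9_2.tcovers Tp_9_2_ok rfl rfl (by norm_num),
    Tp_9_8.tcovers Tp_9_8_ok rfl rfl (by norm_num),
    Tp_10_3.tcovers Tp_10_3_ok rfl rfl (by norm_num)⟩

end Empire
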